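import Pool.Agent.Work.MP_dbe197_lc.StmtsA
import Pool.Agent.Work.MP_dbe197_lc.Stmts

/-! Bundle of small proof modules (one section per former module). -/

section

/-!
# Item A0: ultrafilters, completion of an algebra of sets, transfer along regular extensions
-/

namespace Pool.Agent.Work.MP_dbe197_lc

open Set Cardinal

theorem claimUfEx : ClaimUfEx := by
  intro A _ a ha
  have hdis : Disjoint (Order.PFilter.principal a : Set A) (Order.Ideal.principal (⊥ : A) : Set A) := by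
    rw [Set.disjoint_left]
    intro x hx hx'
    have h1 : a ≤ x := hx
    have h2 : x ≤ ⊥ := hx'
    exact ha (le_bot_iff.1 (h1.trans h2))
  obtain ⟨J, hJ, _, hJ2⟩ := DistribLattice.prime_ideal_of_disjoint_filter_ideal hdis
  have hJp : J.IsProper := hJ.toIsProper
  refine ⟨⟨{x | x ∉ J}, ?_, ?_, ?_, ?_, ?_⟩, ?_⟩
  · exact hJp.top_notMem
  · intro h
    exact h J.bot_mem
  · intro x y hx hy hxy
    rcases hJ.mem_or_mem hxy with h | h
    · exact hx h
    · exact hy h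
  · intro x y hxy hx hy
    exact hx (J.lower hxy hy)
  · intro x
    by_contra hc
    push Not at hc
    obtain ⟨h1, h2⟩ := hc
    have h1' : x ∈ J := not_not.1 h1
    have h2' : xᶜ ∈ J := not_not.1 h2
    have h3 : x ⊔ xᶜ ∈ J := Order.Ideal.sup_mem h1' h2'
    rw [sup_compl_eq_top] at h3
    exact hJp.top_notMem h3
  · intro h
    exact Set.disjoint_left.1 hJ2 (show a ∈ (Order.PFilter.principal a : Set A) from
      (le_refl a : a ≤ a)) h

section

variable {X : Type}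

theorem Alg1_union {𝓑 : Set (Set X)} (h : IsAlg 𝓑) {b c : Set X} (hb : b ∈ 𝓑) (hc : c ∈ 𝓑) :
    b ∪ c ∈ 𝓑 := by
  have := h.compl _ (h.inter _ (h.compl _ hb) _ (h.compl _ hc))
  rwa [compl_inter, compl_compl, compl_compl] at this

theorem Alg1_sdiff {𝓑 : Set (Set X)} (h : IsAlg 𝓑) {b c : Set X} (hb : b ∈ 𝓑) (hc : c ∈ 𝓑) :
    b \ c ∈ 𝓑 := h.inter _ hb _ (h.compl _ hc)

/-- The algebra generated by `𝓑` and `s`. -/
def Alg1_gen (𝓑 : Set (Set X)) (s : Set X) : Set (Set X) :=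
  {x | ∃ b ∈ 𝓑, ∃ c ∈ 𝓑, x = (b ∩ s) ∪ (c \ s)}

theorem Alg1_gen_alg {𝓑 : Set (Set X)} (h : IsAlg 𝓑) (s : Set X) : IsAlg (Alg1_gen 𝓑 s) := by
  refine ⟨⟨univ, h.univ, univ, h.univ, ?_⟩, ?_, ?_⟩
  · ext x; by_cases hx : x ∈ s <;> simp [hx]
  · rintro _ ⟨b, hb, c, hc, rfl⟩
    refine ⟨bᶜ, h.compl _ hb, cᶜ, h.compl _ hc, ?_⟩
    ext x; by_cases hx : x ∈ s <;> simp [hx]
  · rintro _ ⟨b, hb, c, hc, rfl⟩ _ ⟨b', hb', c', hc', rfl⟩
    refine ⟨b ∩ b', h.inter _ hb _ hb', c ∩ c', h.inter _ hc _ hc', ?_⟩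
    ext x; by_cases hx : x ∈ s <;> simp [hx]

end

theorem claimCompl : ClaimCompl := by
  intro X 𝓔 𝓐 hE hEU hA hAE
  obtain ⟨𝓑, hAB, hB⟩ := zorn_subset_nonempty
    {𝓑 : Set (Set X) | 𝓑 ⊆ 𝓔 ∧ IsAlg 𝓑 ∧ DenseIn 𝓐 𝓑} (by
      intro C hC hchain hne
      refine ⟨⋃₀ C, ⟨?_, ⟨?_, ?_, ?_⟩, ?_, ?_⟩, fun s hs => subset_sUnion_of_mem hs⟩
      · exact sUnion_subset fun t ht => (hC ht).1
      · obtain ⟨t, ht⟩ := hne
        exact ⟨t, ht, (hC ht).2.1.univ⟩
      · rintro b ⟨t, ht, hb⟩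
        exact ⟨t, ht, (hC ht).2.1.compl b hb⟩
      · rintro b ⟨t, ht, hb⟩ c ⟨t', ht', hc⟩
        rcases hchain.total ht ht' with h | h
        · exact ⟨t', ht', (hC ht').2.1.inter b (h hb) c hc⟩
        · exact ⟨t, ht, (hC ht).2.1.inter b hb c (h hc)⟩
      · obtain ⟨t, ht⟩ := hne
        exact (hC ht).2.2.1.trans (subset_sUnion_of_mem ht)
      · rintro b ⟨t, ht, hb⟩ hbne
        exact (hC ht).2.2.2 b hb hbne) 𝓐 ⟨hAE, hA, subset_rfl, fun b hb hne => ⟨b, hb, hne, subset_rfl⟩⟩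
  obtain ⟨hBE, hBalg, hBd⟩ := hB.prop
  refine ⟨𝓑, hAB, hBE, hBalg, hBd, ?_⟩
  intro 𝓢 hS
  let T : Set (Set X) := {t | t ∈ 𝓑 ∧ ∀ s ∈ 𝓢, t ∩ s = ∅}
  let T' : Set (Set X) := {b | b ∈ 𝓑 ∧ ∀ t ∈ T, b ∩ t = ∅}
  let s : Set X := ⋃₀ T'
  have hsE : s ∈ 𝓔 := hEU _ fun b hb => hBE hb.1
  have hTs : ∀ t ∈ T, t ∩ s = ∅ := by
    intro t ht
    rw [Set.eq_empty_iff_forall_notMem]
    rintro x ⟨hxt, b, hb, hxb⟩
    exact (Set.eq_empty_iff_forall_notMem.1 (hb.2 t ht)) x ⟨hxb, hxt⟩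
  have hSs : ∀ t ∈ 𝓢, t ⊆ s := by
    intro t ht x hx
    refine ⟨t, ⟨hS ht, fun t' ht' => ?_⟩, hx⟩
    rw [inter_comm]; exact ht'.2 t ht
  have hmem : s ∈ 𝓑 := by
    have hsub : 𝓑 ⊆ Alg1_gen 𝓑 s := by
      intro b hb
      refine ⟨b, hb, b, hb, ?_⟩
      ext x; by_cases hx : x ∈ s <;> simp [hx]
    have hG : Alg1_gen 𝓑 s ⊆ 𝓑 := by
      apply hB.le_of_ge (y := Alg1_gen 𝓑 s) ?_ hsub
      refine ⟨?_, Alg1_gen_alg hBalg s, hAB.trans hsub, ?_⟩
      · rintro _ ⟨b, hb, c, hc, rfl⟩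
        exact Alg1_union hE (hE.inter _ (hBE hb) _ hsE) (Alg1_sdiff hE (hBE hc) hsE)
      · rintro _ ⟨b, hb, c, hc, rfl⟩ ⟨x, hx⟩
        suffices h : ∃ d ∈ 𝓑, d.Nonempty ∧ d ⊆ (b ∩ s) ∪ (c \ s) by
          obtain ⟨d, hd, hdne, hd2⟩ := h
          obtain ⟨a, ha, hane, had⟩ := hBd.2 d hd hdne
          exact ⟨a, ha, hane, had.trans hd2⟩
        rcases hx with ⟨hxb, hxs⟩ | ⟨hxc, hxs⟩
        · by_cases hm : ∃ t' ∈ T', (b ∩ t').Nonempty
          · obtain ⟨t', ht', hne⟩ := hm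
            refine ⟨b ∩ t', hBalg.inter _ hb _ ht'.1, hne, ?_⟩
            intro y hy
            exact Or.inl ⟨hy.1, t', ht', hy.2⟩
          · exfalso
            push Not at hm
            obtain ⟨t', ht', hxt'⟩ := hxs
            exact (Set.eq_empty_iff_forall_notMem.1 (hm t' ht')) x ⟨hxb, hxt'⟩
        · by_cases hm : ∃ t ∈ T, (c ∩ t).Nonempty
          · obtain ⟨t, ht, hne⟩ := hm
            refine ⟨c ∩ t, hBalg.inter _ hc _ ht.1, hne, ?_⟩
            intro y hy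
            refine Or.inr ⟨hy.1, fun hys => ?_⟩
            exact (Set.eq_empty_iff_forall_notMem.1 (hTs t ht)) y ⟨hy.2, hys⟩
          · exfalso
            push Not at hm
            exact hxs ⟨c, ⟨hc, hm⟩, hxc⟩
    exact hG ⟨univ, hBalg.univ, ∅, by
      have := hBalg.compl _ hBalg.univ
      rwa [compl_univ] at this, by simp⟩
  refine ⟨s, hmem, hSs, ?_⟩
  intro b hb hub
  have h1 : s \ b ∈ T := by
    refine ⟨Alg1_sdiff hBalg hmem hb, fun t ht => ?_⟩
    rw [Set.eq_empty_iff_forall_notMem]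
    rintro x ⟨⟨_, hxb⟩, hxt⟩
    exact hxb (hub t ht hxt)
  intro x hx
  by_contra hxb
  exact (Set.eq_empty_iff_forall_notMem.1 (hTs _ h1)) x ⟨⟨hx, hxb⟩, hx⟩

theorem claimReg : ClaimReg := by
  intro X 𝓐 𝓑 𝓒 hA hB hC
  refine ⟨?_, ?_, ?_, ?_, ?_, ?_⟩
  · intro h1 h2
    refine ⟨h1.1.trans h2.1, ?_⟩
    intro c' hc' hne
    obtain ⟨b, hb, hbne, hb2⟩ := h2.2 c' hc' hne
    obtain ⟨a, ha, hane, ha2⟩ := h1.2 b hb hbne
    refine ⟨a, ha, hane, ?_⟩
    intro x hx hxne hxa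
    have h3 := ha2 x hx hxne hxa
    obtain ⟨y, hy1, hy2⟩ := hb2 (x ∩ b) (hB.inter _ (h1.1 hx) _ hb) h3 inter_subset_right
    exact ⟨y, hy1.1, hy2⟩
  · intro h
    refine ⟨h.1, ?_⟩
    intro b' hb' hne
    obtain ⟨d, hd, hdne, hd2⟩ := h.2 b' hb' hne
    refine ⟨d, hd, hdne, ?_⟩
    intro c hc hcne hcd
    rwa [inter_eq_left.2 (hcd.trans hd2)]
  · intro Z hZ hR hI
    intro c hc hcne _ n
    obtain ⟨a, ha, hane, ha2⟩ := hR.2 c hc hcne
    obtain ⟨k, hk, hk2⟩ := hI a ha hane (subset_univ _) n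
    obtain ⟨y, hy1, hy2⟩ := ha2 (a ∩ Z k) (hA.inter _ ha _ (hZ k)) hk2 inter_subset_left
    exact ⟨k, hk, y, hy2, hy1.2⟩
  · intro Z Z' hZ hZ' hR hS
    intro b hb hbne
    obtain ⟨a, ha, hane, ha2⟩ := hR.2 b hb hbne
    obtain ⟨c, hc, hcne, hca, n, hn⟩ := hS a ha hane
    refine ⟨c ∩ b, hB.inter _ (hR.1 hc) _ hb, ha2 c hc hcne hca, inter_subset_right, n, ?_⟩
    intro k hk x hx
    exact hn k hk ⟨hx.1.1, hx.2⟩
  · intro Z Z' hZ hZ' hR hD
    intro b hb hbne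
    obtain ⟨a, ha, hane, ha2⟩ := hR.2 b hb hbne
    obtain ⟨k, hk | hk⟩ := hD a ha hane
    · obtain ⟨y, hy1, hy2⟩ := ha2 _ (hA.inter _ ha _ (Alg1_sdiff hA (hZ k) (hZ' k))) hk
        inter_subset_left
      exact ⟨k, Or.inl ⟨y, hy2, hy1.2⟩⟩
    · obtain ⟨y, hy1, hy2⟩ := ha2 _ (hA.inter _ ha _ (Alg1_sdiff hA (hZ' k) (hZ k))) hk
        inter_subset_left
      exact ⟨k, Or.inr ⟨y, hy2, hy1.2⟩⟩
  · intro m hAB hm hR hcoh
    intro T hT c hc hI
    have key : ∀ c1 ∈ 𝓒, c1.Nonempty → c1 ⊆ c → ∃ b ∈ 𝓑, b.Nonempty ∧ InfOn 𝓑 b T ∧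
        ∀ d ∈ 𝓑, d.Nonempty → d ⊆ b → (d ∩ c1).Nonempty := by
      intro c1 hc1 hc1ne hc1c
      obtain ⟨b, hb, hbne, hb2⟩ := hR.2 c1 hc1 hc1ne
      refine ⟨b, hb, hbne, ?_, hb2⟩
      intro b1 hb1 hb1ne hb1b n
      obtain ⟨k, hk, y, hy1, hy2⟩ := hI (b1 ∩ c1) (hC.inter _ (hR.1 hb1) _ hc1)
        (hb2 b1 hb1 hb1ne hb1b) (inter_subset_right.trans hc1c) n
      exact ⟨k, hk, y, hy1.1, hy2⟩
    constructor
    · intro c1 hc1 hc1ne hc1c n
      obtain ⟨b, hb, hbne, hbI, hb2⟩ := key c1 hc1 hc1ne hc1c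
      obtain ⟨k, hk, hk2⟩ := (hcoh T hT b hb hbI).1 b hb hbne subset_rfl n
      obtain ⟨y, hy1, hy2⟩ := hb2 _ (hB.inter _ hb _ (hB.inter _ (hAB (hT k)) _ (hm k))) hk2
        inter_subset_left
      exact ⟨k, hk, y, hy2, hy1.2⟩
    · intro c1 hc1 hc1ne hc1c n
      obtain ⟨b, hb, hbne, hbI, hb2⟩ := key c1 hc1 hc1ne hc1c
      obtain ⟨k, hk, hk2⟩ := (hcoh T hT b hb hbI).2 b hb hbne subset_rfl n
      obtain ⟨y, hy1, hy2⟩ := hb2 _ (hB.inter _ hb _ (Alg1_sdiff hB (hAB (hT k)) (hm k))) hk2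
        inter_subset_left
      exact ⟨k, hk, y, hy2, hy1.2⟩

end Pool.Agent.Work.MP_dbe197_lc

end

section

/-!
# MP_dbe197_lc : item P1, splitting into incomparable nodes with the same head
-/

namespace Pool.Agent.Work.MP_dbe197_lc

open Set Cardinal RO MM

/-- Gluing keeps the heads equal. -/
theorem AppN_gl {L : Type} [LinearOrder L] {S : Set L} (hS : IsLowerSet S) {k0 k0' k1 : MM L}
    (h : k0' ≤ k0) (he : res S k0 = res S k1) : ∃ k1' ≤ k1, res S k1' = res S k0' := by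
  have h1 : res S k0' ≤ res S k1 := he ▸ res_mono hS h
  exact ⟨glue S (res S k0') k1, glue_le hS h1, by rw [res_glue, res_idem]⟩

theorem AppN_le_glue {L : Type} [LinearOrder L] {S : Set L} {r h m : MM L} (h1 : r ≤ h)
    (h2 : r ≤ m) : r ≤ glue S h m := by
  refine ⟨fun x v hv => ?_, fun α ξ v hv => ?_⟩
  · by_cases hx : x.1 ∈ S
    · rw [glue_p_of_mem hx] at hv
      exact h1.1 x v hv
    · rw [glue_p_of_not_mem hx] at hv
      exact h2.1 x v hv
  · by_cases hx : α ∈ S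
    · rw [glue_q_of_mem hx] at hv
      exact h1.2 α ξ v hv
    · rw [glue_q_of_not_mem hx] at hv
      exact h2.2 α ξ v hv

/-- Step 1: splitting with the same head. -/
theorem AppN_step1 {L : Type} [LinearOrder L] {H W : Type} {S : Set L} (hS : IsLowerSet S)
    (d : H × W → RO (MM L)) (m : MM L)
    (hν : ∀ ν : H × W → RO (MM L), (∀ x, DepM S (ν x)) → m ∉ beq d ν) :
    ∃ x k0 k1, k0 ≤ m ∧ k1 ≤ m ∧ res S k0 = res S k1 ∧ k0 ∈ d x ∧ k1 ∈ (d x)ᶜ := by
  by_contra hno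
  push Not at hno
  let ν : H × W → RO (MM L) := fun x =>
    ⨆ h : {h : MM L // h.supp ⊆ S ∧ h ≤ res S m ∧ glue S h m ∈ d x}, gen h.1
  refine hν ν (fun x => DepM.iSup hS fun h => DepM.gen hS h.2.1) ?_
  have ha : ∀ n ≤ m, ∀ x, n ∈ d x → n ∈ ν x := by
    intro n hn x hnx
    by_contra hnν
    obtain ⟨n', hn', hn'ν⟩ := not_mem_iff.1 hnν
    have hle : res S n' ≤ res S m := res_mono hS (hn'.trans hn)
    have hsupp : (res S n').supp ⊆ S := by
      rw [supp_res]; exact inter_subset_left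
    have hg : glue S (res S n') m ∉ d x := by
      intro hg
      refine not_mem_of_compl hn'ν (mem_down (le_refl n') ?_)
      have h1 : n' ∈ gen (res S n') := mem_gen_of_le (le_res S n')
      exact (le_iSup (fun h : {h : MM L // h.supp ⊆ S ∧ h ≤ res S m ∧ glue S h m ∈ d x} =>
        gen h.1) ⟨res S n', hsupp, hle, hg⟩) n' h1
    obtain ⟨k, hk, hkd⟩ := not_mem_iff.1 hg
    have hkm : k ≤ m := hk.trans (glue_le hS hle)
    have hks : res S k ≤ res S n' := by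
      have := res_mono hS hk
      rwa [res_glue, res_idem] at this
    have h2 : glue S (res S k) n' ≤ n' := glue_le hS hks
    refine hno x (glue S (res S k) n') k (h2.trans (hn'.trans hn)) hkm ?_ ?_ hkd
    · rw [res_glue, res_idem]
    · exact mem_down (h2.trans hn') hnx
  have hb : ∀ n ≤ m, ∀ x, n ∈ ν x → n ∈ d x := by
    intro n hn x hnx
    apply mem_reg
    intro q hq
    obtain ⟨r, hr, ⟨h, hh⟩, hrh⟩ := mem_iSup.1 hnx q hq
    obtain ⟨r', hr', hr'h⟩ := exists_le_of_mem_gen hrh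
    refine ⟨r', hr'.trans hr, ?_⟩
    exact mem_down (AppN_le_glue hr'h (hr'.trans (hr.trans (hq.trans hn)))) hh.2.2
  refine mem_iInf.2 fun x => mem_sup.2 fun q hq => ?_
  rcases mem_or_exists (a := d x) q with h | ⟨r, hr, h⟩
  · exact ⟨q, le_refl q, Or.inl ⟨h, ha q hq x h⟩⟩
  · refine ⟨r, hr, Or.inr ⟨h, fun s hs hsν => ?_⟩⟩
    exact h s hs (hb s (hs.trans (hr.trans hq)) x hsν)

theorem AppN_dep_incv {L : Type} [LinearOrder L] {H W : Type} {S : Set L} (hS : IsLowerSet S)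
    {R : H × W → H × W → RO (MM L)} (hR : ∀ x y, DepM S (R x y)) (y0 y1 : H × W) :
    DepM S (incv R y0 y1) :=
  DepM.iInf fun z => DepM.compl hS (DepM.inf (hR y0 z) (hR y1 z))

/-- The unboundedness hypothesis below a condition. -/
theorem AppN_unb {L : Type} [LinearOrder L] {H W : Type} [LinearOrder H]
    {d : H × W → RO (MM L)} {m0 : MM L} {γ : H}
    (h : m0 ∈ ⨆ x : H × W, ⨆ (_ : γ < x.1), d x) {k : MM L} (hk : k ≤ m0) :
    ∃ k' ≤ k, ∃ y : H × W, γ < y.1 ∧ k' ∈ d y := by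
  obtain ⟨r, hr, y, hy⟩ := mem_iSup.1 h k hk
  obtain ⟨r', hr', hγ, hd⟩ := mem_iSup.1 hy r (le_refl r)
  exact ⟨r', hr'.trans hr, y, hγ, hd⟩

/-- Incomparability at a node above the first one. -/
theorem AppN_incv {A H W : Type} [CompleteBooleanAlgebra A] [LinearOrder H]
    {R : H × W → H × W → A} (hR : TreeLike R) {y0 y : H × W} (h : y0.1 < y.1) :
    (R y0 y)ᶜ ≤ incv R y0 y := by
  refine le_iInf fun z => ?_
  exact compl_le_compl (hR.tree y0 y z h)

theorem claimAppN : ClaimAppN := by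
  intro L _ H W _ δ R d m0 hsit hν n0 n1 hn0 hn1 hhead
  have hS : IsLowerSet (Iio δ) := isLowerSet_Iio δ
  set S : Set L := Iio δ with hSdef
  obtain ⟨x, a0, a1, ha0, ha1, hae, ha0x, ha1x⟩ := AppN_step1 hS d n0 (hν n0 hn0)
  obtain ⟨b0, hb0, y0, hy0, hb0d⟩ := AppN_unb (hsit.unb x.1) (ha0.trans hn0)
  obtain ⟨b1, hb1, hbe⟩ := AppN_gl hS hb0 hae
  obtain ⟨c1, hc1, y1, hy1, hc1d⟩ := AppN_unb (hsit.unb x.1) (hb1.trans (ha1.trans hn0))
  obtain ⟨c0, hc0, hce⟩ := AppN_gl hS hc1 hbe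
  -- the common head
  have hc0R : c0 ∈ R x y0 := by
    refine hsit.hd.coh x y0 hy0 c0 ⟨mem_down (hc0.trans hb0) ha0x, mem_down hc0 hb0d⟩
  have hc1R : c1 ∈ (R x y1)ᶜ := by
    intro s hs hsR
    have h1 : s ∈ d x := hsit.hd.down x y1 hy1 s ⟨hsR, mem_down hs hc1d⟩
    exact ha1x s (hs.trans (hc1.trans hb1)) h1
  have hhR : res S c0 ∈ R x y0 := hsit.dep x y0 c0 hc0R
  have hhR1 : res S c0 ∈ (R x y1)ᶜ := hce ▸ DepM.compl hS (hsit.dep x y1) c1 hc1R
  have hinc : res S c0 ∈ incv R y0 y1 := by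
    refine mem_iInf.2 fun z s hs hsR => ?_
    have h1 : s ∈ R x z := hsit.hR.trans x y0 z s ⟨mem_down hs hhR, hsR.1⟩
    have h2 : s ∈ R x y1 := hsit.hR.tree x y1 z hy1 s ⟨h1, hsR.2⟩
    exact hhR1 s hs h2
  -- step 3
  have hn0e : res S n0 = res S n1 := hhead
  obtain ⟨k, hk, hke⟩ := AppN_gl hS (hc0.trans (hb0.trans ha0)) hn0e
  obtain ⟨k', hk', y, hy, hk'd⟩ := AppN_unb (hsit.unb (max y0.1 y1.1)) (hk.trans hn1)
  obtain ⟨c0', hc0', hc0e⟩ := AppN_gl hS hk' hke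
  obtain ⟨c1', hc1', hc1e⟩ := AppN_gl hS hk' (hke.trans hce)
  have hy0' : y0.1 < y.1 := lt_of_le_of_lt (le_max_left _ _) hy
  have hy1' : y1.1 < y.1 := lt_of_le_of_lt (le_max_right _ _) hy
  have hinc' : res S k' ∈ incv R y0 y1 := by
    refine mem_down ?_ hinc
    rw [← hke]
    exact res_mono hS hk'
  rcases mem_or_exists (a := R y0 y) (res S k') with hB | ⟨h'', hh'', hA⟩
  · -- second case
    have h1 : res S k' ∈ (R y1 y)ᶜ := by
      intro s hs hsR
      exact mem_iInf.1 hinc' y s hs ⟨mem_down hs hB, hsR⟩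
    refine ⟨c1', k', hc1'.trans (hc1.trans (hb1.trans ha1)), hk'.trans hk, hc1e, y1, y,
      mem_down hc1' hc1d, hk'd, ?_⟩
    have h2 : c1' ∈ (R y1 y)ᶜ := mem_down (le_res S c1') (hc1e ▸ h1)
    exact AppN_incv hsit.hR hy1' c1' h2
  · -- first case
    have e1 : h'' ≤ res S c0' := hc0e ▸ hh''
    have hle0 : glue S h'' c0' ≤ c0' := glue_le hS e1
    have hle1 : glue S h'' k' ≤ k' := glue_le hS hh''
    refine ⟨glue S h'' c0', glue S h'' k', hle0.trans (hc0'.trans (hc0.trans (hb0.trans ha0))),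
      hle1.trans (hk'.trans hk), by rw [res_glue, res_glue], y0, y,
      mem_down (hle0.trans (hc0'.trans hc0)) hb0d, mem_down hle1 hk'd, ?_⟩
    have h2 : res S h'' ∈ (R y0 y)ᶜ := DepM.compl hS (hsit.dep y0 y) h'' hA
    have h3 : glue S h'' c0' ∈ (R y0 y)ᶜ := mem_down (glue_le_head S h'' c0') h2
    exact AppN_incv hsit.hR hy0' _ h3

end Pool.Agent.Work.MP_dbe197_lc

end

section

/-!
# Item P2: splitting of the term part
-/

namespace Pool.Agent.Work.MP_dbe197_lc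

open Set Cardinal RO MM

section AppS

variable {L : Type} [LinearOrder L]

theorem AppS_restr_eq {S : Set L} {x y : TT L} :
    x.restr S = y.restr S ↔ ∀ α ∈ S, ∀ ξ, x.val α ξ = y.val α ξ := by
  constructor
  · intro h α hα ξ
    have := congrArg (fun z : TT L => z.val α ξ) h
    simpa [TT.restr_of_mem hα] using this
  · intro h
    ext1 α ξ
    by_cases hα : α ∈ S
    · rw [TT.restr_of_mem hα, TT.restr_of_mem hα, h α hα ξ]
    · rw [TT.restr_of_not_mem hα, TT.restr_of_not_mem hα]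

theorem AppS_frestr_eq {I V : Type} {S : Set I} {x y : Fn I V} :
    x.restr S = y.restr S ↔ ∀ i ∈ S, x.f i = y.f i := by
  constructor
  · intro h i hi
    have := congrArg (fun z : Fn I V => z.f i) h
    simpa [Fn.restr_f_of_mem hi] using this
  · intro h
    ext1 i
    by_cases hi : i ∈ S
    · rw [Fn.restr_f_of_mem hi, Fn.restr_f_of_mem hi, h i hi]
    · rw [Fn.restr_f_of_not_mem hi, Fn.restr_f_of_not_mem hi]

theorem AppS_ov_eq {S : Set L} {x y x' y' : TT L} (h : x.restr S = y.restr S)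
    (h' : x'.restr S = y'.restr S) : (x.ov x').restr S = (y.ov y').restr S := by
  rw [AppS_restr_eq] at h h' ⊢
  intro α hα ξ
  simp only [TT.ov]
  rw [h α hα ξ, h' α hα ξ]

theorem AppS_union_eq {I V : Type} {S : Set I} {x y x' y' : Fn I V} (h : x.restr S = y.restr S)
    (h' : x'.restr S = y'.restr S) : (x.union x').restr S = (y.union y').restr S := by
  rw [AppS_frestr_eq] at h h' ⊢
  intro i hi
  simp only [Fn.union_f]
  rw [h i hi, h' i hi]

/-- Pairs of term conditions below `q` with the same head. -/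
abbrev AppSQ (δ : L) (q : TT L) : Type :=
  {x : TT L × TT L // x.1 ≤ q ∧ x.2 ≤ q ∧ x.1.restr (Iio δ) = x.2.restr (Iio δ)}

theorem AppS_closed (δ : L) (q : TT L) (f : ℕ → AppSQ δ q) (hf : ∀ n, f (n + 1) ≤ f n) :
    ∃ x, ∀ n, x ≤ f n := by
  obtain ⟨a, ha, ha'⟩ := TT.exists_lim (fun n => (f n).1.1) (fun n => (hf n).1)
  obtain ⟨b, hb, hb'⟩ := TT.exists_lim (fun n => (f n).1.2) (fun n => (hf n).2)
  refine ⟨⟨(a, b), (ha 0).trans (f 0).2.1, (hb 0).trans (f 0).2.2.1, ?_⟩,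
    fun n => ⟨ha n, hb n⟩⟩
  rw [AppS_restr_eq]
  intro α hα ξ
  have key : ∀ n, (f n).1.1.val α ξ = (f n).1.2.val α ξ :=
    fun n => AppS_restr_eq.1 (f n).2.2.2 α hα ξ
  show a.val α ξ = b.val α ξ
  rcases hv : a.val α ξ with _ | v
  · rcases hw : b.val α ξ with _ | w
    · rfl
    · obtain ⟨n, hn⟩ := hb' α ξ w hw
      have : (f n).1.1.val α ξ = some w := (key n).trans hn
      have := ha n α ξ w this
      rw [hv] at this
      exact absurd this (by simp)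
  · obtain ⟨n, hn⟩ := ha' α ξ v hv
    have : (f n).1.2.val α ξ = some v := (key n).symm.trans hn
    exact (hb n α ξ v this).symm

end AppS

theorem claimAppS (hC : ClaimClos) (hN : ClaimAppN) : ClaimAppS := by
  intro L _ H W _ δ R d m0 hA hnew q hq
  let Ψ : Unit → Fn (L × ℕ) Bool → Fn (L × ℕ) Bool → AppSQ δ q → H → Prop :=
    fun _ s s' Q γ => s ≤ m0.p ∧ s' ≤ m0.p ∧
      s.restr (cyl (Iio δ)) = s'.restr (cyl (Iio δ)) ∧ ∃ y0 y1 : H × W, y0.1 ≤ γ ∧ y1.1 ≤ γ ∧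
        (⟨s, Q.1.1⟩ : MM L) ∈ d y0 ∧ (⟨s', Q.1.2⟩ : MM L) ∈ d y1 ∧
        (⟨s, Q.1.1⟩ : MM L) ∈ incv R y0 y1
  obtain ⟨Q, -, D0, hD0, hQ⟩ := hC Unit (L × ℕ) Bool (L × ℕ) Bool H (AppSQ δ q)
    (AppS_closed δ q) Ψ (by
      rintro _ s s' Q Q' γ ⟨h1, h2, h3, y0, y1, h4, h5, h6, h7, h8⟩ hle
      exact ⟨h1, h2, h3, y0, y1, h4, h5, mem_down (mk_le_mk le_rfl hle.1) h6,
        mem_down (mk_le_mk le_rfl hle.2) h7, mem_down (mk_le_mk le_rfl hle.1) h8⟩)
    ⟨(q, q), le_rfl, le_rfl, rfl⟩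
  obtain ⟨γs, hγs⟩ := hA.hH D0 hD0
  refine ⟨Q.1.1, Q.2.1, Q.1.2, Q.2.2.1, Q.2.2.2, γs, ?_⟩
  rintro n0 n1 hn0 hn1 hh z hz ⟨hz0, hz1⟩
  have hm0 : ∀ q' ≤ q, (⟨m0.p, q'⟩ : MM L) ≤ m0 := fun q' hq' =>
    mk_le_mk (p := m0.p) (q := m0.q) le_rfl (hq'.trans hq)
  obtain ⟨k0, k1, hk0, hk1, hkk, y0, y1, hy0, hy1, hinc⟩ :=
    hN L H W δ R d m0 hA hnew n0 n1 (hn0.trans (hm0 _ Q.2.1)) (hn1.trans (hm0 _ Q.2.2.1)) hh
  have hkq : k0.q.restr (Iio δ) = k1.q.restr (Iio δ) := congrArg MM.q hkk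
  have hkp : k0.p.restr (cyl (Iio δ)) = k1.p.restr (cyl (Iio δ)) := congrArg MM.p hkk
  have l0 : k0 ≤ (⟨m0.p, Q.1.1⟩ : MM L) := hk0.trans hn0
  have l1 : k1 ≤ (⟨m0.p, Q.1.2⟩ : MM L) := hk1.trans hn1
  have e0 : (⟨k0.p, Q.1.1.ov k0.q⟩ : MM L) ≤ k0 := norm_le l0
  have e1 : (⟨k1.p, Q.1.2.ov k1.q⟩ : MM L) ≤ k1 := norm_le l1
  let Q1 : AppSQ δ q := ⟨(Q.1.1.ov k0.q, Q.1.2.ov k1.q), (TT.ov_le_left _ _).trans Q.2.1,
    (TT.ov_le_left _ _).trans Q.2.2.1, AppS_ov_eq Q.2.2.2 hkq⟩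
  have hΨ : Ψ () k0.p k1.p Q1 (max y0.1 y1.1) :=
    ⟨l0.1, l1.1, hkp, y0, y1, le_max_left _ _, le_max_right _ _, mem_down e0 hy0,
      mem_down e1 hy1, mem_down e0 hinc⟩
  obtain ⟨t, t', γ', hγ', hc, hc', -, -, htt, z0, z1, hz0', hz1', g0, g1, g2⟩ :=
    hQ () k0.p k1.p Q1 _ ⟨TT.ov_le_left _ _, TT.ov_le_left _ _⟩ hΨ
  have hlt : γ' < z.1 := (hγs γ' hγ').trans_le hz
  set N0 : MM L := ⟨k0.p.union t, Q.1.1.ov k0.q⟩ with hN0
  set N1 : MM L := ⟨k1.p.union t', Q.1.2.ov k1.q⟩ with hN1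
  have a0 : N0 ≤ k0 := (mk_le_mk (Fn.union_le_left _ _) le_rfl).trans e0
  have a1 : N1 ≤ k1 := (mk_le_mk (Fn.union_le_left _ _) le_rfl).trans e1
  have b0 : N0 ≤ (⟨t, Q.1.1⟩ : MM L) := mk_le_mk (Fn.union_le_right hc) (TT.ov_le_left _ _)
  have b1 : N1 ≤ (⟨t', Q.1.2⟩ : MM L) := mk_le_mk (Fn.union_le_right hc') (TT.ov_le_left _ _)
  have hres : res (Iio δ) N0 = res (Iio δ) N1 := by
    apply MM.ext'
    · exact AppS_union_eq hkp htt
    · exact AppS_ov_eq Q.2.2.2 hkq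
  have c0 : N0 ∈ R z0 z := hA.hd.coh z0 z (hz0'.trans_lt hlt) N0
    ⟨mem_down b0 g0, mem_down (a0.trans hk0) hz0⟩
  have c1 : N1 ∈ R z1 z := hA.hd.coh z1 z (hz1'.trans_lt hlt) N1
    ⟨mem_down b1 g1, mem_down (a1.trans hk1) hz1⟩
  have c2 : N0 ∈ R z1 z := by
    rw [(hA.dep z1 z).mem_iff, hres]
    exact hA.dep z1 z N1 c1
  have c3 : N0 ∈ incv R z0 z1 := mem_down b0 g2
  have c4 : N0 ∈ (R z0 z ⊓ R z1 z)ᶜ := mem_iInf.1 c3 z
  exact not_mem_of_compl c4 ⟨c0, c2⟩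

end Pool.Agent.Work.MP_dbe197_lc

end

section

/-!
# Assembly of part A
-/

namespace Pool.Agent.Work.MP_dbe197_lc

open Set Cardinal

theorem asmA_card {A L : Type} [LinearOrder L] (hL : RegL L) :
    #A ≤ #(Set (A ⊕ L)) ∧ #L < #(Set (A ⊕ L)) ∧
    (∀ ρ : L, #(Iio ρ → Set (A ⊕ L)) ≤ #(Set (A ⊕ L))) ∧
    #(ℕ → Set (A ⊕ L)) ≤ #(Set (A ⊕ L)) := by
  have hinf : ℵ₀ ≤ #(A ⊕ L) := by
    rw [Cardinal.mk_sum]
    simp only [Cardinal.lift_id]
    exact hL.unc.le.trans (self_le_add_left _ _)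
  have key : ∀ K : Type, #K ≤ #(A ⊕ L) → #(K → Set (A ⊕ L)) ≤ #(Set (A ⊕ L)) := by
    intro K hK
    rw [← Cardinal.power_def, Cardinal.mk_set, ← Cardinal.power_mul]
    apply Cardinal.power_le_power_left two_ne_zero
    exact (Cardinal.mul_le_max _ _).trans (max_le (max_le le_rfl hK) hinf)
  refine ⟨?_, ?_, ?_, ?_⟩
  · rw [Cardinal.mk_set]
    refine le_trans ?_ (Cardinal.cantor _).le
    rw [Cardinal.mk_sum]
    simp only [Cardinal.lift_id]
    exact self_le_add_right _ _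
  · rw [Cardinal.mk_set]
    refine lt_of_le_of_lt ?_ (Cardinal.cantor _)
    rw [Cardinal.mk_sum]
    simp only [Cardinal.lift_id]
    exact self_le_add_left _ _
  · intro ρ
    apply key
    refine (hL.seg ρ).le.trans ?_
    rw [Cardinal.mk_sum]
    simp only [Cardinal.lift_id]
    exact self_le_add_left _ _
  · apply key
    rw [Cardinal.mk_nat]
    exact hinf

theorem claimA (hU : ClaimUfEx) (hUn : ClaimUnion) (hRec : ClaimRec) (hRepr : ClaimRepr)
    (hTr : ClaimTrans) (hCC : ClaimCCint) (h1 : ClaimTge) (h2 : ClaimTUle) (h3 : ClaimUge)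
    (h4 : ClaimCgt) : ClaimA := by
  intro A L _ _ _ _ hL hA
  obtain ⟨c1, c2, c3, c4⟩ := asmA_card (A := A) hL
  obtain ⟨𝓑, F, hst⟩ := hRec A L (Set (A ⊕ L)) hL hA c1 c2 c3 c4
  have hne : Nonempty L := by
    rw [← Cardinal.mk_ne_zero_iff]
    intro h0
    have := hL.unc
    rw [h0] at this
    exact absurd this (not_lt_of_ge zero_le)
  have hint : HasInt (⋃ α, 𝓑 α) := by
    intro b hb hbn
    obtain ⟨α, hα⟩ := mem_iUnion.1 hb
    exact hst.int α b hα hbn
  have hccs : CCs L (⋃ α, 𝓑 α) := hCC A L _ hL hA _ hint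
  obtain ⟨halg, hcomp, hreg, hsmall⟩ :=
    hUn L hL _ 𝓑 (fun α => ⟨hst.alg α, hst.comp α⟩) hst.reg hccs
  have hbase : Reg (Set.range bs) (⋃ α, 𝓑 α) := by
    constructor
    · intro b hb
      obtain ⟨α⟩ := hne
      exact mem_iUnion.2 ⟨α, (hst.base α).1 hb⟩
    · intro b' hb' hbn
      obtain ⟨α, hα⟩ := mem_iUnion.1 hb'
      exact (hst.base α).2 b' hα hbn
  obtain ⟨B, inst, E, e, hrep⟩ := hRepr A L _ (⋃ α, 𝓑 α) halg hcomp hint hbase
  obtain ⟨_, _, _, hcc'⟩ := hTr A L _ (⋃ α, 𝓑 α) B E e hrep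
  have hccB : CC L B := hcc' L hccs
  have hsit : Sit 𝓑 F E e := ⟨hst, hL, c2, hccB, hrep, hreg, hsmall⟩
  refine ⟨L × (Bool ⊕ Set (A ⊕ L)), B, inst, E, ?_, hccB, h1 _ _ _ 𝓑 F B E e hsit,
    h2 _ _ _ 𝓑 F B E e hsit, h3 _ _ _ 𝓑 F B E e hsit, h4 _ _ _ 𝓑 F B E e hsit⟩
  refine ⟨⟨⊥, ⊤, fun h => ?_⟩⟩
  have hb := hrep.bot
  rw [h, hrep.top] at hb
  obtain ⟨u, _⟩ := hU A ⊤ top_ne_bot
  have : (u, fun _ => ∅) ∈ (∅ : Set (XX A L (Bool ⊕ Set (A ⊕ L)))) := by
    rw [← hb]; trivial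
  exact this

end Pool.Agent.Work.MP_dbe197_lc

end

section

/-!
# Bounded elements of the Mitchell algebra
-/

namespace Pool.Agent.Work.MP_dbe197_lc

open Set Cardinal RO MM

theorem claimBdd (hN : ClaimN) (hH : ClaimHead) : ClaimBdd := by
  classical
  intro L _ _ S U hSeg a ha
  have F := hN L S U hSeg
  by_contra hcon
  push Not at hcon
  have hac : DepM S aᶜ := DepM.compl hSeg.low ha
  -- witnesses
  have hw : ∀ β : L, ∃ m n : MM L, m.supp ⊆ S ∧ n.supp ⊆ S ∧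
      (β ∈ S → m ∈ a ∧ n ∈ aᶜ ∧ n ≤ res (Iio β) m) := by
    intro β
    by_cases hβ : β ∈ S
    · have h1 := hcon β hβ
      unfold DepM at h1
      push Not at h1
      obtain ⟨m, hm, hm'⟩ := h1
      obtain ⟨n, hn, hn'⟩ := not_mem_iff.1 hm'
      have hsub : Iio β ⊆ S := fun x hx => hSeg.low (le_of_lt hx) hβ
      refine ⟨res S m, res S n, ?_, ?_, fun _ => ⟨ha m hm, hac n hn', ?_⟩⟩
      · rw [MM.supp_res]; exact inter_subset_left
      · rw [MM.supp_res]; exact inter_subset_left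
      · have h2 := res_mono hSeg.low hn
        rw [res_res, Set.inter_eq_right.2 hsub] at h2
        rw [res_res, Set.inter_eq_left.2 hsub]
        exact h2
    · exact ⟨⟨Fn.empty, TT.empty⟩, ⟨Fn.empty, TT.empty⟩, by simp [MM.supp, TT.supp, Fn.dom],
        by simp [MM.supp, TT.supp, Fn.dom], fun h => absurd h hβ⟩
  choose m n hmS hnS hmn using hw
  obtain ⟨m0, hm0, -⟩ := hH L S U hSeg m
  obtain ⟨n0, hn0, -⟩ := hH L S U hSeg n
  -- bounds of the supports
  have hb : ∀ β : L, ∃ γ, β ∈ S → γ ∈ S ∧ ∀ x ∈ (n β).supp, x < γ := by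
    intro β
    by_cases h : β ∈ S
    · obtain ⟨γ, h1, h2⟩ := F.bddN (n β).supp (hnS β) (n β).supp_countable
      exact ⟨γ, fun _ => ⟨h1, h2⟩⟩
    · exact ⟨β, fun h' => absurd h' h⟩
  choose g hg using hb
  have hA := F.inter2 _ _ (F.inter2 _ _ hm0 (F.clos g fun β hβ => (hg β hβ).1)) hSeg.nm.mem
  have hne : (({α | res (Iio α) (m α) = m0} ∩ {α | ∀ β < α, g β < α}) ∩ S).Nonempty := by
    rw [Set.nonempty_iff_ne_empty]
    intro h
    rw [h] at hA
    exact hSeg.nm.empty hA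
  obtain ⟨β₁, ⟨h11, -⟩, h13⟩ := hne
  obtain ⟨β₂, ⟨⟨h21, h22⟩, h23⟩, -, h24⟩ := F.pick _ hA β₁ h13
  have h11' : res (Iio β₁) (m β₁) = m0 := h11
  have h21' : res (Iio β₂) (m β₂) = m0 := h21
  have hsub : (n β₁).supp ⊆ Iio β₂ := fun x hx => ((hg β₁ h13).2 x hx).trans (h22 β₁ h24)
  obtain ⟨-, hn1, hn2⟩ := hmn β₁ h13
  obtain ⟨hm2, -, -⟩ := hmn β₂ h23
  have hle : n β₁ ≤ res (Iio β₂) (m β₂) := by
    rw [h21', ← h11']
    exact hn2
  have hk1 := glue_le (isLowerSet_Iio β₂) hle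
  have hk2 := glue_le_head (Iio β₂) (n β₁) (m β₂)
  rw [res_eq_self hsub] at hk2
  exact not_mem_of_compl (mem_down hk2 hn1) (mem_down hk1 hm2)

theorem claimCard (_hN : ClaimN) (hS : ClaimSmall) (hB : ClaimBdd) : ClaimCard := by
  classical
  intro L _ _ U hSeg
  have hinf : ℵ₀ ≤ #L := by
    have h1 := hSeg.inacc.1.aleph0_lt
    rw [mk_univ] at h1
    exact h1.le
  have hU : (univ : Set (RO (MM L))) ⊆ ⋃ β : L, {a : RO (MM L) | DepM (Iio β) a} := by
    intro a _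
    obtain ⟨β, -, hβ⟩ := hB L univ U hSeg a (DepM.univ a)
    exact mem_iUnion.2 ⟨β, hβ⟩
  calc #(RO (MM L)) = #(univ : Set (RO (MM L))) := mk_univ.symm
    _ ≤ #(⋃ β : L, {a : RO (MM L) | DepM (Iio β) a} : Set (RO (MM L))) := mk_le_mk_of_subset hU
    _ ≤ #L * ⨆ β : L, #{a : RO (MM L) | DepM (Iio β) a} := mk_iUnion_le _
    _ ≤ #L * #L := by
        refine mul_le_mul' le_rfl ?_
        refine ciSup_le' fun β => ?_
        have h1 := (hS L univ hSeg.low hSeg.inacc β trivial).2.2.2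
        rw [mk_univ] at h1
        exact h1.le
    _ = #L := mul_eq_self hinf

end Pool.Agent.Work.MP_dbe197_lc

end

section

/-!
# MP_dbe197_lc: cofinalities in the extensions of the Mitchell algebra
-/

namespace Pool.Agent.Work.MP_dbe197_lc

open Set Cardinal RO MM

theorem cf_top {L : Type} [LinearOrder L] (B : Type) [CompleteBooleanAlgebra B] (α : L)
    (h : CfG α) : cfω B α = ⊤ := by
  classical
  obtain ⟨f, hf, hc⟩ := h
  apply le_antisymm le_top
  have hF : IsFun (fun (n : ℕ) (γ : Iio α) => if γ.1 = f n then (⊤ : B) else ⊥) := by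
    constructor
    · intro n
      apply le_antisymm le_top
      refine le_trans ?_ (le_iSup _ ⟨f n, hf n⟩)
      simp
    · intro n y z hyz
      by_cases hy : y.1 = f n
      · have hz : ¬ z.1 = f n := fun hz => hyz (Subtype.ext (hy.trans hz.symm))
        simp [hz]
      · simp [hy]
  refine le_trans ?_ (le_iSup₂_of_le _ hF le_rfl)
  refine le_iInf fun β => ?_
  obtain ⟨n, hn⟩ := hc β.1 β.2
  refine le_iSup_of_le n (le_iSup_of_le ⟨f n, hf n⟩ (le_iSup_of_le (show β < _ from hn) ?_))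
  simp

theorem cf_bot (hDL : ClaimDL) {L : Type} [LinearOrder L] {I B : Type}
    [CompleteBooleanAlgebra B] (E : Ext (RO (MM L)) I B) (α : L) (h : ¬ CfG α) :
    cfω B α = ⊥ := by
  apply le_antisymm ?_ bot_le
  refine iSup₂_le fun f hf => ?_
  by_contra hx
  rw [le_bot_iff] at hx
  set x : B := ⨅ β : Iio α, ⨆ n, ⨆ γ : Iio α, ⨆ (_ : β < γ), f n γ with hxdef
  obtain ⟨a, F, ha, hcov⟩ := E.cov_ex x hx
  obtain ⟨m, hm⟩ := ne_bot_iff.1 ha
  obtain ⟨q, hq, C, hC, hle⟩ := hDL L I B E (Iio α) f m.p m.q (by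
    intro n
    rw [hf.tot n]
    exact le_top)
  have hga : gen (⟨m.p, q⟩ : MM L) ≤ a := by
    rw [gen_le_iff]
    have : (⟨m.p, q⟩ : MM L) ≤ m := mk_le_mk (le_refl m.p) hq
    exact mem_down this hm
  have hgb : gen (⟨m.p, q⟩ : MM L) ≠ ⊥ := gen_ne_bot _
  set y : B := x ⊓ E.i (gen (⟨m.p, q⟩ : MM L)) with hydef
  have hy : y ≠ ⊥ := by
    intro hy0
    have h1 : E.cov (gen (⟨m.p, q⟩ : MM L)) F x :=
      E.cov_mono _ _ _ _ _ _ hcov hga le_rfl le_rfl
    have h2 : E.cov (gen (⟨m.p, q⟩ : MM L)) F (E.i (gen (⟨m.p, q⟩ : MM L))) :=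
      (E.cov_i _ _ _).2 le_rfl
    have h3 := E.cov_inf _ _ _ _ h1 h2
    rw [← hydef, hy0] at h3
    exact hgb (E.cov_bot _ _ h3)
  have hCne : C.Nonempty := by
    by_contra hne
    rw [Set.not_nonempty_iff_eq_empty] at hne
    have h1 := hle 0
    rw [hne] at h1
    have h2 : E.i (gen (⟨m.p, q⟩ : MM L)) = ⊥ := by
      apply le_bot_iff.1
      simpa using h1
    exact hgb (E.i_eq_bot.1 h2)
  obtain ⟨g, hg⟩ := hC.exists_eq_range hCne
  have hβ : ∃ β : Iio α, ∀ c ∈ C, ¬ β < c := by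
    by_contra hcon
    push Not at hcon
    apply h
    refine ⟨fun n => (g n).1, fun n => (g n).2, fun β hβ => ?_⟩
    obtain ⟨c, hc, hlt⟩ := hcon ⟨β, hβ⟩
    rw [hg] at hc
    obtain ⟨n, rfl⟩ := hc
    exact ⟨n, hlt⟩
  obtain ⟨β, hβ⟩ := hβ
  apply hy
  apply le_bot_iff.1
  have hyx : y ≤ ⨆ n, ⨆ γ : Iio α, ⨆ (_ : β < γ), f n γ := by
    refine le_trans inf_le_left ?_
    rw [hxdef]
    exact iInf_le _ β
  have h1 : y ≤ y ⊓ ⨆ n, ⨆ γ : Iio α, ⨆ (_ : β < γ), f n γ := le_inf le_rfl hyx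
  refine le_trans h1 ?_
  rw [inf_iSup_eq]
  refine iSup_le fun n => ?_
  rw [inf_iSup_eq]
  refine iSup_le fun γ => ?_
  rw [inf_iSup_eq]
  refine iSup_le fun hγ => ?_
  have h2 : y ≤ ⨆ j ∈ C, f n j := le_trans inf_le_right (hle n)
  refine le_trans (inf_le_inf_right _ h2) ?_
  rw [iSup_inf_eq]
  refine iSup_le fun j => ?_
  rw [iSup_inf_eq]
  refine iSup_le fun hj => ?_
  have hne : j ≠ γ := by
    rintro rfl
    exact hβ j hj hγ
  rw [hf.uniq n j γ hne]

theorem cf_one (hDL : ClaimDL) (hC : ClaimColl) {L : Type} [LinearOrder L] {I B : Type}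
    [CompleteBooleanAlgebra B] (E : Ext (RO (MM L)) I B) (α : L) (h : ¬ CfG α)
    (h0 : ∃ β, β < α) (hl : ∀ β < α, ∃ γ, β < γ ∧ γ < α) : cfω1 B α = ⊤ := by
  classical
  obtain ⟨β0, hβ0⟩ := h0
  obtain ⟨f, hf, _, hf3⟩ := hC L I B E α
  unfold cfω1
  rw [cf_bot hDL E α h, compl_bot, inf_top_eq]
  apply le_antisymm le_top
  let g : O1 → Iio α → B := fun ξ γ =>
    f ξ γ.1 ⊔ (if γ.1 = β0 then (⨆ c : Iio α, f ξ c.1)ᶜ else ⊥)
  have hg : IsFun g := by
    constructor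
    · intro ξ
      apply le_antisymm le_top
      rw [← sup_compl_eq_top (x := ⨆ c : Iio α, f ξ c.1)]
      refine sup_le ?_ ?_
      · refine iSup_le fun c => ?_
        exact le_iSup_of_le c le_sup_left
      · refine le_iSup_of_le ⟨β0, hβ0⟩ ?_
        simp only [g, if_true]
        exact le_sup_right
    · intro ξ y z hyz
      have hne : y.1 ≠ z.1 := fun e => hyz (Subtype.ext e)
      have h1 : f ξ y.1 ⊓ f ξ z.1 = ⊥ := hf.uniq ξ _ _ hne
      have h2 : ∀ w : Iio α, f ξ w.1 ⊓ (⨆ c : Iio α, f ξ c.1)ᶜ = ⊥ := by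
        intro w
        apply le_bot_iff.1
        refine le_trans (inf_le_inf_right _ (le_iSup (fun c : Iio α => f ξ c.1) w)) ?_
        rw [inf_compl_self]
      apply le_bot_iff.1
      simp only [g]
      by_cases hy : y.1 = β0
      · have hz : ¬ z.1 = β0 := fun hz => hne (hy.trans hz.symm)
        rw [if_pos hy, if_neg hz, sup_bot_eq, inf_sup_right, h1]
        rw [inf_comm, h2 z]
        simp
      · rw [if_neg hy, sup_bot_eq, inf_sup_left, h1]
        by_cases hz : z.1 = β0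
        · rw [if_pos hz, h2 y]
          simp
        · rw [if_neg hz]
          simp
  refine le_trans ?_ (le_iSup₂_of_le g hg le_rfl)
  refine le_iInf fun β => ?_
  obtain ⟨γ, hγ1, hγ2⟩ := hl β.1 β.2
  rw [← hf3 γ hγ2.le]
  refine iSup_le fun ξ => ?_
  refine le_iSup_of_le ξ (le_iSup_of_le ⟨γ, hγ2⟩ (le_iSup_of_le (show β < _ from hγ1) ?_))
  exact le_sup_left

theorem claimCf (hN : ClaimN) (hDL : ClaimDL) (hC : ClaimColl) : ClaimCf := by
  intro L _ _ U _ I B _ E α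
  refine ⟨cf_top B α, cf_bot hDL E α, cf_one hDL hC E α, ?_⟩
  rintro ⟨W, hW⟩
  have hF := hN L (Iio α) W hW
  apply cf_one hDL hC E α
  · rintro ⟨f, hf1, hf2⟩
    obtain ⟨β, hβ, hβ2⟩ := hF.bddN (range f) (by rintro _ ⟨n, rfl⟩; exact hf1 n)
      (countable_range f)
    obtain ⟨n, hn⟩ := hf2 β hβ
    exact lt_asymm hn (hβ2 _ ⟨n, rfl⟩)
  · by_contra hne
    have : Iio α = ∅ := by
      ext β
      simp only [mem_Iio, mem_empty_iff_false, iff_false]
      exact fun h => hne ⟨β, h⟩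
    apply hW.nm.empty
    have h := hW.nm.mem
    rwa [this] at h
  · intro β hβ
    obtain ⟨γ, hγ, h⟩ := hF.limit β hβ
    exact ⟨γ, h, hγ⟩

end Pool.Agent.Work.MP_dbe197_lc

end

section

/-!
# D1: the abstract closing-off lemma
-/

namespace Pool.Agent.Work.MP_dbe197_lc

open Set

section Clos

variable {N A V A' V' D Q : Type}

theorem Clos_countable_fn [Countable V] {S : Set A} (hS : S.Countable) :
    {u : Fn A V | u.dom ⊆ S}.Countable := by
  have h1 : (S ×ˢ (Set.univ : Set V)).Countable := hS.prod Set.countable_univ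
  have h2 := Set.countable_ofPred_finite_subset h1
  let g : Fn A V → Set (A × V) := fun u => {x | u.f x.1 = some x.2}
  have hg : Function.Injective g := by
    intro u w h
    apply Fn.ext'
    intro i
    have key : ∀ v, u.f i = some v ↔ w.f i = some v := by
      intro v
      have : ((i, v) : A × V) ∈ g u ↔ ((i, v) : A × V) ∈ g w := by rw [h]
      exact this
    rcases hu : u.f i with _ | v
    · rcases hw : w.f i with _ | v
      · rfl
      · have := (key v).2 hw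
        rw [hu] at this
        exact absurd this (by simp)
    · exact ((key v).1 hu).symm
  refine (h2.preimage_of_injOn (f := g) hg.injOn).mono ?_
  intro u hu
  refine ⟨?_, ?_⟩
  · let k : A × V → A × Option V := fun x => (x.1, some x.2)
    let m : A → A × Option V := fun i => (i, u.f i)
    have hsub : g u ⊆ k ⁻¹' (m '' u.dom) := by
      intro x hx
      have hx' : u.f x.1 = some x.2 := hx
      refine ⟨x.1, Fn.mem_dom.2 ⟨x.2, hx'⟩, ?_⟩
      show (x.1, u.f x.1) = (x.1, some x.2)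
      rw [hx']
    refine Set.Finite.subset (Set.Finite.preimage ?_ (u.dom_fin.image m)) hsub
    intro x _ y _ hxy
    have h1 := congrArg Prod.fst hxy
    have h2 := congrArg Prod.snd hxy
    exact Prod.ext h1 (Option.some.inj h2)
  · intro x hx
    have hx' : u.f x.1 = some x.2 := hx
    exact ⟨hu (Fn.mem_dom.2 ⟨x.2, hx'⟩), Set.mem_univ _⟩

theorem Clos_enum [Countable N] [Countable V] [Countable V'] [Nonempty N] (S : Set A)
    (S' : Set A') : ∃ e : ℕ → N × Fn A V × Fn A' V', S.Countable → S'.Countable →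
      ∀ n u u', u.dom ⊆ S → u'.dom ⊆ S' → ∃ j, e j = (n, u, u') := by
  classical
  obtain ⟨n0⟩ := (inferInstance : Nonempty N)
  by_cases h : S.Countable ∧ S'.Countable
  · have hc : ((Set.univ : Set N) ×ˢ ({u : Fn A V | u.dom ⊆ S} ×ˢ
        {u : Fn A' V' | u.dom ⊆ S'})).Countable :=
      Set.countable_univ.prod ((Clos_countable_fn h.1).prod (Clos_countable_fn h.2))
    have hne : ((Set.univ : Set N) ×ˢ ({u : Fn A V | u.dom ⊆ S} ×ˢ
        {u : Fn A' V' | u.dom ⊆ S'})).Nonempty := by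
      refine ⟨(n0, Fn.empty, Fn.empty), Set.mem_univ _, ?_, ?_⟩
      · intro i hi
        exact absurd rfl hi
      · intro i hi
        exact absurd rfl hi
    obtain ⟨e, he⟩ := hc.exists_eq_range hne
    refine ⟨e, fun _ _ n u u' hu hu' => ?_⟩
    have : (n, u, u') ∈ Set.range e := by
      rw [← he]
      exact ⟨Set.mem_univ _, hu, hu'⟩
    exact this
  · exact ⟨fun _ => (n0, Fn.empty, Fn.empty), fun h1 h2 => absurd ⟨h1, h2⟩ h⟩

/-- states of the construction -/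
structure Clos_St (A A' D Q : Type) where
  q : Q
  SA : Set A
  SA' : Set A'
  SD : Set D
  cA : SA.Countable
  cA' : SA'.Countable
  cD : SD.Countable

theorem Clos_step [Preorder Q] (Ψ : N → Fn A V → Fn A' V' → Q → D → Prop)
    (st : Clos_St A A' D Q) (x : N × Fn A V × Fn A' V') : ∃ st' : Clos_St A A' D Q,
      st'.q ≤ st.q ∧ st.SA ⊆ st'.SA ∧ st.SA' ⊆ st'.SA' ∧ st.SD ⊆ st'.SD ∧
      ((∃ s s' q1 d, q1 ≤ st.q ∧ Fn.restr st.SA s = x.2.1 ∧ Fn.restr st.SA' s' = x.2.2 ∧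
        Ψ x.1 s s' q1 d) → ∃ t t' d', Fn.restr st.SA t = x.2.1 ∧ Fn.restr st.SA' t' = x.2.2 ∧
          Ψ x.1 t t' st'.q d' ∧ t.dom ⊆ st'.SA ∧ t'.dom ⊆ st'.SA' ∧ d' ∈ st'.SD) := by
  classical
  by_cases h : ∃ s s' q1 d, q1 ≤ st.q ∧ Fn.restr st.SA s = x.2.1 ∧
      Fn.restr st.SA' s' = x.2.2 ∧ Ψ x.1 s s' q1 d
  · obtain ⟨s, s', q1, d, h1, h2, h3, h4⟩ := h
    refine ⟨⟨q1, st.SA ∪ s.dom, st.SA' ∪ s'.dom, st.SD ∪ {d}, st.cA.union s.dom_fin.countable,
      st.cA'.union s'.dom_fin.countable, st.cD.union (Set.countable_singleton d)⟩, h1,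
      Set.subset_union_left, Set.subset_union_left, Set.subset_union_left, fun _ =>
      ⟨s, s', d, h2, h3, h4, Set.subset_union_right, Set.subset_union_right, Or.inr rfl⟩⟩
  · exact ⟨st, le_refl _, Set.Subset.rfl, Set.Subset.rfl, Set.Subset.rfl, fun h' => absurd h' h⟩

theorem Clos_fin_mono {α : Type} (S : ℕ → Set α) (hS : ∀ n, S n ⊆ S (n + 1)) {F : Set α}
    (hF : F.Finite) (h : F ⊆ ⋃ n, S n) : ∃ n, F ⊆ S n := by
  have hm : Monotone S := monotone_nat_of_le_succ hS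
  induction F, hF using Set.Finite.induction_on with
  | empty => exact ⟨0, Set.empty_subset _⟩
  | @insert a F _ _ ih =>
    obtain ⟨n, hn⟩ := ih ((Set.subset_insert _ _).trans h)
    obtain ⟨m, hm'⟩ := Set.mem_iUnion.1 (h (Set.mem_insert a F))
    refine ⟨max n m, ?_⟩
    intro x hx
    rcases hx with rfl | hx
    · exact hm (le_max_right n m) hm'
    · exact hm (le_max_left n m) (hn hx)

end Clos

theorem claimClos : ClaimClos := by
  classical
  intro N A V A' V' D Q _ _ _ _ hcl Ψ hmono q0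
  by_cases hN : Nonempty N
  swap
  · exact ⟨q0, le_refl _, ∅, Set.countable_empty, fun n => absurd ⟨n⟩ hN⟩
  choose en hen using fun (S : Set A) (S' : Set A') => Clos_enum (N := N) (V := V) (V' := V') S S'
  choose next hnext using fun st x => Clos_step (A := A) (V := V) (A' := A') (V' := V') Ψ st x
  let st0 : Clos_St A A' D Q :=
    ⟨q0, ∅, ∅, ∅, Set.countable_empty, Set.countable_empty, Set.countable_empty⟩
  let T := N × Fn A V × Fn A' V'
  let sq : ℕ → Clos_St A A' D Q × (ℕ → ℕ → T) := fun l =>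
    Nat.rec (st0, fun _ => en st0.SA st0.SA')
      (fun l x => (next x.1 (x.2 l.unpair.1 l.unpair.2),
        Function.update x.2 (l + 1) (en (next x.1 (x.2 l.unpair.1 l.unpair.2)).SA
          (next x.1 (x.2 l.unpair.1 l.unpair.2)).SA'))) l
  have sq0 : sq 0 = (st0, fun _ => en st0.SA st0.SA') := rfl
  have sqs1 : ∀ l, (sq (l + 1)).1 = next (sq l).1 ((sq l).2 l.unpair.1 l.unpair.2) := fun l => rfl
  have sqs2 : ∀ l, (sq (l + 1)).2 = Function.update (sq l).2 (l + 1)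
      (en (sq (l + 1)).1.SA (sq (l + 1)).1.SA') := fun l => rfl
  have hE : ∀ l, ∀ i ≤ l, (sq l).2 i = en (sq i).1.SA (sq i).1.SA' := by
    intro l
    induction l with
    | zero =>
      intro i hi
      obtain rfl : i = 0 := by omega
      rfl
    | succ l ih =>
      intro i hi
      rw [sqs2]
      by_cases h : i = l + 1
      · subst h
        rw [Function.update_self]
      · rw [Function.update_of_ne h]
        exact ih i (by omega)
  have hq : ∀ l, (sq (l + 1)).1.q ≤ (sq l).1.q := fun l => by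
    rw [sqs1]; exact (hnext _ _).1
  have hA : ∀ l, (sq l).1.SA ⊆ (sq (l + 1)).1.SA := fun l => by
    rw [sqs1]; exact (hnext _ _).2.1
  have hA' : ∀ l, (sq l).1.SA' ⊆ (sq (l + 1)).1.SA' := fun l => by
    rw [sqs1]; exact (hnext _ _).2.2.1
  have mA : Monotone fun l => (sq l).1.SA := monotone_nat_of_le_succ hA
  have mA' : Monotone fun l => (sq l).1.SA' := monotone_nat_of_le_succ hA'
  obtain ⟨q, hqall⟩ := hcl (fun l => (sq l).1.q) hq
  refine ⟨q, hqall 0, ⋃ l, (sq l).1.SD, Set.countable_iUnion fun l => (sq l).1.cD, ?_⟩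
  intro n s s' q1 d hq1 hΨ
  have restr_stab : ∀ {B W : Type} (S : ℕ → Set B), Monotone S → ∀ (r : Fn B W) (i l : ℕ),
      i ≤ l → (Fn.restr (⋃ l, S l) r).dom ⊆ S i →
      Fn.restr (S l) r = Fn.restr (⋃ l, S l) r := by
    intro B W S hS r i l hil hi
    apply Fn.ext'
    intro x
    by_cases hx : x ∈ S l
    · rw [Fn.restr_f_of_mem hx, Fn.restr_f_of_mem (Set.mem_iUnion.2 ⟨l, hx⟩)]
    · rw [Fn.restr_f_of_not_mem hx]
      exact (Fn.not_mem_dom.1 fun h => hx (hS hil (hi h))).symm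
  obtain ⟨i1, hi1⟩ := Clos_fin_mono (fun l => (sq l).1.SA) hA
    (Fn.restr (⋃ l, (sq l).1.SA) s).dom_fin (by rw [Fn.restr_dom]; exact Set.inter_subset_left)
  obtain ⟨i2, hi2⟩ := Clos_fin_mono (fun l => (sq l).1.SA') hA'
    (Fn.restr (⋃ l, (sq l).1.SA') s').dom_fin (by rw [Fn.restr_dom]; exact Set.inter_subset_left)
  let i := max i1 i2
  have hi1' : (Fn.restr (⋃ l, (sq l).1.SA) s).dom ⊆ (sq i).1.SA :=
    hi1.trans (mA (le_max_left i1 i2))
  have hi2' : (Fn.restr (⋃ l, (sq l).1.SA') s').dom ⊆ (sq i).1.SA' :=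
    hi2.trans (mA' (le_max_right i1 i2))
  obtain ⟨j, hj⟩ := hen (sq i).1.SA (sq i).1.SA' (sq i).1.cA (sq i).1.cA' n _ _ hi1' hi2'
  let l := Nat.pair i j
  have hil : i ≤ l := Nat.left_le_pair i j
  have hcode : (sq l).2 l.unpair.1 l.unpair.2 =
      (n, Fn.restr (⋃ l, (sq l).1.SA) s, Fn.restr (⋃ l, (sq l).1.SA') s') := by
    have e1 : l.unpair.1 = i := by simp [l]
    have e2 : l.unpair.2 = j := by simp [l]
    rw [e1, e2, hE l i hil, hj]
  have r1 := restr_stab (fun l => (sq l).1.SA) mA s i l hil hi1'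
  have r2 := restr_stab (fun l => (sq l).1.SA') mA' s' i l hil hi2'
  have hst := (hnext (sq l).1 ((sq l).2 l.unpair.1 l.unpair.2)).2.2.2.2
  rw [← sqs1 l, hcode] at hst
  obtain ⟨t, t', d', t1, t2, t3, t4, t5, t6⟩ := hst ⟨s, s', q1, d, hq1.trans (hqall l), r1, r2, hΨ⟩
  refine ⟨t, t', d', Set.mem_iUnion.2 ⟨l + 1, t6⟩, ?_, ?_, hmono _ _ _ _ _ _ t3 (hqall (l + 1))⟩
  · intro x v w hv hw
    have hx : x ∈ (⋃ l, (sq l).1.SA) := Set.mem_iUnion.2 ⟨l + 1, t4 (Fn.mem_dom.2 ⟨w, hw⟩)⟩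
    have h1 : (Fn.restr (⋃ l, (sq l).1.SA) s).f x = some v := Fn.restr_f_eq_some.2 ⟨hx, hv⟩
    have h2 : (Fn.restr (sq l).1.SA t).f x = some v := by rw [t1]; exact h1
    have h3 := (Fn.restr_f_eq_some.1 h2).2
    rw [hw] at h3
    exact (Option.some.inj h3).symm
  · intro x v w hv hw
    have hx : x ∈ (⋃ l, (sq l).1.SA') := Set.mem_iUnion.2 ⟨l + 1, t5 (Fn.mem_dom.2 ⟨w, hw⟩)⟩
    have h1 : (Fn.restr (⋃ l, (sq l).1.SA') s').f x = some v := Fn.restr_f_eq_some.2 ⟨hx, hv⟩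
    have h2 : (Fn.restr (sq l).1.SA' t').f x = some v := by rw [t2]; exact h1
    have h3 := (Fn.restr_f_eq_some.1 h2).2
    rw [hw] at h3
    exact (Option.some.inj h3).symm

end Pool.Agent.Work.MP_dbe197_lc

end

section

/-!
# MP_dbe197_lc, item D5: names of clubs; limsup of nonzero elements
-/

namespace Pool.Agent.Work.MP_dbe197_lc

open Set Cardinal

section

variable {L : Type} [LinearOrder L] {U : Set (Set L)}

/-- no strictly changing sequences indexed by a large set -/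
theorem ClubU_noseq (hF : NMFacts (univ : Set L) U) {B : Type} [CompleteBooleanAlgebra B]
    (hCC : CC L B) (g : L → L) (d : L → B) (hd : ∀ α, d α ≠ ⊥)
    (hdisj : ∀ α β, g α < β → d α ⊓ d β = ⊥) : False := by
  set A1 : Set L := {α | ∀ β < α, g β < α} with hA1
  have hA1U : A1 ∈ U := hF.clos g fun _ _ => mem_univ _
  have hcard : #(A1 ∩ univ : Set L) = #(univ : Set L) := hF.large A1 hA1U
  rw [inter_univ, mk_univ] at hcard
  obtain ⟨e⟩ := Cardinal.eq.1 hcard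
  obtain ⟨i, j, hij, hne⟩ := hCC (fun l => d (e.symm l : L)) fun l => hd _
  have hij' : ((e.symm i : A1) : L) ≠ ((e.symm j : A1) : L) := fun h =>
    hij (e.symm.injective (Subtype.ext h))
  rcases lt_or_gt_of_ne hij' with h | h
  · exact hne (hdisj _ _ ((e.symm j).2 _ h))
  · exact hne (by rw [inf_comm]; exact hdisj _ _ ((e.symm i).2 _ h))

/-- a monotone sequence is eventually constant -/
theorem ClubU_mono (hF : NMFacts (univ : Set L) U) {B : Type} [CompleteBooleanAlgebra B]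
    (hCC : CC L B) (e : L → B) (he : Monotone e) : ∃ α, ∀ β, e β ≤ e α := by
  by_contra hne
  push Not at hne
  choose g hg using hne
  refine ClubU_noseq hF hCC g (fun α => e (g α) ⊓ (e α)ᶜ) ?_ ?_
  · intro α h
    exact hg α (disjoint_compl_right_iff.1 (disjoint_iff.2 h))
  · intro α β h
    rw [eq_bot_iff]
    calc (e (g α) ⊓ (e α)ᶜ) ⊓ (e (g β) ⊓ (e β)ᶜ) ≤ e (g α) ⊓ (e β)ᶜ :=
          inf_le_inf inf_le_left inf_le_right
      _ ≤ e β ⊓ (e β)ᶜ := inf_le_inf_right _ (he h.le)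
      _ = ⊥ := inf_compl_self _
      _ ≤ ⊥ := le_rfl

theorem ClubU_anti (hF : NMFacts (univ : Set L) U) {B : Type} [CompleteBooleanAlgebra B]
    (hCC : CC L B) (e : L → B) (he : Antitone e) : ∃ α, ∀ β, e α ≤ e β := by
  by_contra hne
  push Not at hne
  choose g hg using hne
  refine ClubU_noseq hF hCC g (fun α => e α ⊓ (e (g α))ᶜ) ?_ ?_
  · intro α h
    exact hg α (disjoint_compl_right_iff.1 (disjoint_iff.2 h))
  · intro α β h
    rw [eq_bot_iff]
    calc (e α ⊓ (e (g α))ᶜ) ⊓ (e β ⊓ (e (g β))ᶜ) ≤ (e (g α))ᶜ ⊓ e β :=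
          inf_le_inf inf_le_right inf_le_left
      _ ≤ (e (g α))ᶜ ⊓ e (g α) := inf_le_inf_left _ (he h.le)
      _ = ⊥ := compl_inf_self _
      _ ≤ ⊥ := le_rfl

end

theorem claimClubU (hN : ClaimN) : ClaimClubU := by
  intro L _ _ U hseg B _ hCC
  have hF := hN L univ U hseg
  constructor
  · intro C hC
    rw [club, inf_eq_top_iff] at hC
    obtain ⟨hC1, hC2⟩ := hC
    -- for every `β` there is `g β` with `⨆ β < γ < g β, C γ = ⊤`
    have hex : ∀ β : L, ∃ γ, (⨆ c, ⨆ (_ : β < c), ⨆ (_ : c < γ), C c) = ⊤ := by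
      intro β
      obtain ⟨α, hα⟩ := ClubU_mono hF hCC
        (fun α => ⨆ c, ⨆ (_ : β < c), ⨆ (_ : c < α), C c) (by
          intro a a' haa'
          refine iSup_mono fun c => iSup_mono fun _ => iSup_le fun hc => ?_
          exact le_iSup_of_le (lt_of_lt_of_le hc haa') le_rfl)
      refine ⟨α, ?_⟩
      rw [eq_top_iff]
      have h1 : (⨆ c, ⨆ (_ : β < c), C c) = ⊤ := by
        have := iInf_eq_top.1 hC1 β
        exact this
      rw [← h1]
      refine iSup_le fun c => iSup_le fun hc => ?_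
      obtain ⟨c', _, hc'⟩ := hF.limit c (mem_univ _)
      refine le_trans ?_ (hα c')
      exact le_iSup_of_le c (le_iSup_of_le hc (le_iSup_of_le hc' le_rfl))
    choose g hg using hex
    have hA := hF.clos g fun _ _ => mem_univ _
    by_cases hne : Nonempty L
    · obtain ⟨x0⟩ := hne
      have hB := hF.inter2 _ _ hA (hseg.nm.unb x0 (mem_univ _))
      refine hseg.nm.up _ _ hB ?_
      rintro α ⟨h1, h2⟩
      have h3 := iInf_eq_top.1 (iInf_eq_top.1 hC2 α) ⟨x0, h2⟩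
      have h4 : (⨆ β, ⨆ (_ : β < α), ⨅ γ, ⨅ (_ : β < γ), ⨅ (_ : γ < α), (C γ)ᶜ) = ⊥ := by
        rw [eq_bot_iff]
        refine iSup_le fun β => iSup_le fun hβ => ?_
        have h5 : (⨆ c, ⨆ (_ : β < c), ⨆ (_ : c < α), C c) = ⊤ := by
          rw [eq_top_iff, ← hg β]
          refine iSup_mono fun c => iSup_mono fun _ => iSup_le fun hc => ?_
          exact le_iSup_of_le (hc.trans (h1 β hβ)) le_rfl
        have h6 := congrArg compl h5
        simp only [compl_iSup, compl_top] at h6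
        exact h6.le
      rw [h4, bot_sup_eq] at h3
      exact h3
    · refine hseg.nm.up _ _ hseg.nm.mem ?_
      intro x _
      exact absurd ⟨x⟩ hne
  · intro b A hA hb
    obtain ⟨α, hα⟩ := ClubU_anti hF hCC (fun γ => ⨆ δ ∈ A, ⨆ (_ : γ < δ), b δ) (by
      intro a a' haa'
      refine iSup_mono fun c => iSup_mono fun _ => iSup_le fun hc => ?_
      exact le_iSup_of_le (lt_of_le_of_lt haa' hc) le_rfl)
    intro hbot
    have h1 : (⨆ δ ∈ A, ⨆ (_ : α < δ), b δ) ≤ ⊥ := by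
      rw [← hbot]
      exact le_iInf hα
    obtain ⟨δ, hδA, _, hδ⟩ := hF.pick A hA α (mem_univ _)
    refine hb δ hδA (le_bot_iff.1 (le_trans ?_ h1))
    exact le_iSup_of_le δ (le_iSup_of_le hδA (le_iSup_of_le hδ le_rfl))

end Pool.Agent.Work.MP_dbe197_lc

end

section

/-!
# Item C: covering an extension by countably many maps to the base
-/

namespace Pool.Agent.Work.MP_dbe197_lc

open Set Cardinal RO MM

/-- The finite function `(j, n) ↦ s[n]`. -/
noncomputable def Cover_sg {L : Type} (j : L) (s : List Bool) : Fn (L × ℕ) Bool := by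
  classical
  exact
  { f := fun x => if x.1 = j then s[x.2]? else none
    fin := by
      apply ((Set.finite_singleton j).prod (Set.finite_Iio s.length)).subset
      intro x hx
      have hx' : (if x.1 = j then s[x.2]? else none) ≠ none := hx
      by_cases h : x.1 = j
      · rw [if_pos h] at hx'
        refine ⟨h, ?_⟩
        by_contra hn
        apply hx'
        rw [List.getElem?_eq_none_iff]
        exact not_lt.mp hn
      · rw [if_neg h] at hx'
        exact absurd rfl hx' }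

theorem Cover_sg_f {L : Type} (j : L) (s : List Bool) (n : ℕ) :
    (Cover_sg j s).f (j, n) = s[n]? := by
  simp [Cover_sg]

theorem Cover_sg_f' {L : Type} {j : L} {s : List Bool} {x : L × ℕ} {v : Bool}
    (h : (Cover_sg j s).f x = some v) : x.1 = j ∧ s[x.2]? = some v := by
  by_cases hx : x.1 = j
  · refine ⟨hx, ?_⟩
    simpa [Cover_sg, hx] using h
  · simp [Cover_sg, hx] at h

/-- The two sequences disagree somewhere. -/
def Cover_inc (s t : List Bool) : Prop := ∃ (n : ℕ) (b b' : Bool), s[n]? = some b ∧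
  t[n]? = some b' ∧ b ≠ b'

/-- Value of: the Cohen real `c_j` extends `s`. -/
noncomputable def Cover_ext {L : Type} [LinearOrder L] (j : L) (s : List Bool) : RO (MM L) :=
  gen ⟨Cover_sg j s, TT.empty⟩

theorem Cover_ext_inf {L : Type} [LinearOrder L] (j : L) {s t : List Bool}
    (h : Cover_inc s t) : Cover_ext j s ⊓ Cover_ext j t = ⊥ := by
  by_contra hne
  obtain ⟨m, hm1, hm2⟩ := ne_bot_iff.mp hne
  obtain ⟨r, hr, hr1⟩ := exists_le_of_mem_gen hm1
  obtain ⟨r', hr', hr2⟩ := exists_le_of_mem_gen (mem_down hr hm2)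
  obtain ⟨n, b, b', hb, hb', hbb⟩ := h
  have h1 : r'.p.f (j, n) = some b := by
    apply hr'.1
    apply hr1.1
    show (Cover_sg j s).f (j, n) = some b
    rw [Cover_sg_f, hb]
  have h2 : r'.p.f (j, n) = some b' := by
    apply hr2.1
    show (Cover_sg j t).f (j, n) = some b'
    rw [Cover_sg_f, hb']
  rw [h1] at h2
  exact hbb (Option.some.inj h2)

/-- Codes of step functions. -/
def Cover_code : Type := {l : List (List Bool × Finset ℕ) //
  ∀ x ∈ l, ∀ y ∈ l, x.2 ≠ y.2 → Cover_inc x.1 y.1}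

instance : Countable Cover_code := by
  unfold Cover_code
  infer_instance

instance : Nonempty Cover_code := ⟨⟨[], by simp⟩⟩

/-- Value of: the step function with the code `l` has the value `v` at `c_j`. -/
noncomputable def Cover_st {L : Type} [LinearOrder L] (l : Cover_code) (j : L) (v : Finset ℕ) :
    RO (MM L) := ⨆ x ∈ l.1, ⨆ (_ : x.2 = v), Cover_ext j x.1

theorem Cover_st_inf {L : Type} [LinearOrder L] (l : Cover_code) (j : L) {v w : Finset ℕ}
    (h : v ≠ w) : Cover_st l j v ⊓ Cover_st l j w = ⊥ := by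
  rw [← le_bot_iff]
  unfold Cover_st
  rw [iSup_inf_eq]
  refine iSup_le fun x => ?_
  rw [iSup_inf_eq]
  refine iSup_le fun hx => ?_
  rw [iSup_inf_eq]
  refine iSup_le fun hxv => ?_
  rw [inf_iSup_eq]
  refine iSup_le fun y => ?_
  rw [inf_iSup_eq]
  refine iSup_le fun hy => ?_
  rw [inf_iSup_eq]
  refine iSup_le fun hyw => ?_
  rw [Cover_ext_inf j (l.2 x hx y hy (by rw [hxv, hyw]; exact h))]

/-- Value of: the step function with the code `l`, composed with `c ∘ io`, extends `F`. -/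
noncomputable def Cover_T {L I : Type} [LinearOrder L] (io : I → L) (l : Cover_code)
    (F : Fn I (Finset ℕ)) : RO (MM L) :=
  ⨅ (i : I) (v : Finset ℕ) (_ : F.f i = some v), Cover_st l (io i) v

theorem Cover_T_empty {L I : Type} [LinearOrder L] (io : I → L) (l : Cover_code) :
    Cover_T io l (Fn.empty : Fn I (Finset ℕ)) = ⊤ := by
  unfold Cover_T
  simp

theorem Cover_T_union {L I : Type} [LinearOrder L] (io : I → L) (l : Cover_code)
    (F F' : Fn I (Finset ℕ)) : Cover_T io l F ⊓ Cover_T io l F' ≤ Cover_T io l (F.union F') := by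
  refine le_iInf fun i => le_iInf fun v => le_iInf fun hv => ?_
  rcases hF : F.f i with _ | w
  · rw [Fn.union_f_of_none hF] at hv
    exact inf_le_right.trans (iInf_le_of_le i (iInf_le_of_le v (iInf_le _ hv)))
  · rw [Fn.union_f_of_some hF] at hv
    have hwv : w = v := Option.some.inj hv
    subst hwv
    exact inf_le_left.trans (iInf_le_of_le i (iInf_le_of_le w (iInf_le _ hF)))

theorem Cover_T_incompat {L I : Type} [LinearOrder L] (io : I → L) (l : Cover_code)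
    {F F' : Fn I (Finset ℕ)} (h : ¬ Fn.Compat F F') :
    Cover_T io l F ⊓ Cover_T io l F' = ⊥ := by
  unfold Fn.Compat at h
  push Not at h
  obtain ⟨i, v, w, hv, hw, hvw⟩ := h
  rw [← le_bot_iff, ← Cover_st_inf l (io i) hvw]
  exact inf_le_inf (iInf_le_of_le i (iInf_le_of_le v (iInf_le _ hv)))
    (iInf_le_of_le i (iInf_le_of_le w (iInf_le _ hw)))

/-- The covering maps. -/
noncomputable def Cover_h {L I B : Type} [LinearOrder L] [CompleteBooleanAlgebra B]
    (E : Ext (RO (MM L)) I B) (I0 : Set I) (io : I → L) (l : Cover_code) (b : B) : RO (MM L) :=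
  ⨆ (a : RO (MM L)) (F : Fn I (Finset ℕ)) (_ : E.cov a F b ∧ F.dom ⊆ I0), a ⊓ Cover_T io l F

section maps

variable {L I B : Type} [LinearOrder L] [CompleteBooleanAlgebra B]
    (E : Ext (RO (MM L)) I B) (I0 : Set I) (io : I → L) (l : Cover_code)

theorem Cover_h_le {b : B} {a : RO (MM L)} {F : Fn I (Finset ℕ)} (h : E.cov a F b)
    (hF : F.dom ⊆ I0) : a ⊓ Cover_T io l F ≤ Cover_h E I0 io l b :=
  le_iSup_of_le a (le_iSup_of_le F (le_iSup_of_le ⟨h, hF⟩ le_rfl))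

theorem Cover_h_bot : Cover_h E I0 io l ⊥ = ⊥ := by
  rw [← le_bot_iff]
  refine iSup_le fun a => iSup_le fun F => iSup_le fun h => ?_
  rw [E.cov_bot a F h.1]
  exact inf_le_left

theorem Cover_h_base (a : RO (MM L)) : Cover_h E I0 io l (E.i a) = a := by
  apply le_antisymm
  · refine iSup_le fun a' => iSup_le fun F => iSup_le fun h => ?_
    exact inf_le_left.trans ((E.cov_i _ _ _).1 h.1)
  · have h1 := Cover_h_le E I0 io l (b := E.i a) (a := a) (F := Fn.empty)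
      ((E.cov_i a a _).2 le_rfl) (by
        intro i hi
        exact absurd rfl hi)
    rwa [Cover_T_empty, inf_top_eq] at h1

theorem Cover_h_mono {b b' : B} (h : b ≤ b') : Cover_h E I0 io l b ≤ Cover_h E I0 io l b' := by
  refine iSup_le fun a => iSup_le fun F => iSup_le fun h' => ?_
  exact Cover_h_le E I0 io l (E.cov_mono _ _ _ _ _ _ h'.1 le_rfl le_rfl h) h'.2

theorem Cover_h_inf (b b' : B) :
    Cover_h E I0 io l (b ⊓ b') = Cover_h E I0 io l b ⊓ Cover_h E I0 io l b' := by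
  apply le_antisymm
  · exact le_inf (Cover_h_mono E I0 io l inf_le_left) (Cover_h_mono E I0 io l inf_le_right)
  · have key : ∀ (a : RO (MM L)) (F : Fn I (Finset ℕ)) (a' : RO (MM L)) (F' : Fn I (Finset ℕ)),
        E.cov a F b → F.dom ⊆ I0 → E.cov a' F' b' → F'.dom ⊆ I0 →
        (a ⊓ Cover_T io l F) ⊓ (a' ⊓ Cover_T io l F') ≤ Cover_h E I0 io l (b ⊓ b') := by
      intro a F a' F' h hF h' hF'
      by_cases hc : Fn.Compat F F'
      · refine le_trans ?_ (Cover_h_le E I0 io l (E.cov_union h h' hc) ?_)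
        · rw [inf_inf_inf_comm]
          exact inf_le_inf_left _ (Cover_T_union io l F F')
        · rw [Fn.union_dom]
          exact union_subset hF hF'
      · rw [inf_inf_inf_comm, Cover_T_incompat io l hc, inf_bot_eq]
        exact bot_le
    unfold Cover_h at key ⊢
    rw [iSup_inf_eq]
    refine iSup_le fun a => ?_
    rw [iSup_inf_eq]
    refine iSup_le fun F => ?_
    rw [iSup_inf_eq]
    refine iSup_le fun h => ?_
    rw [inf_iSup_eq]
    refine iSup_le fun a' => ?_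
    rw [inf_iSup_eq]
    refine iSup_le fun F' => ?_
    rw [inf_iSup_eq]
    refine iSup_le fun h' => ?_
    exact key a F a' F' h.1 h.2 h'.1 h'.2

end maps

open Classical in
/-- The main step: a code for which the value of `F` is compatible with `m`. -/
theorem Cover_find {L I : Type} [LinearOrder L] (io : I → L) (F : Fn I (Finset ℕ))
    (hinj : InjOn io F.dom) (m : MM L) :
    ∃ (l : Cover_code) (m' : MM L), m' ≤ m ∧ m' ∈ Cover_T io l F := by
  -- a bound for the domain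
  obtain ⟨N, hN⟩ : ∃ N : ℕ, ∀ x ∈ m.p.dom, x.2 < N := by
    obtain ⟨N, hN⟩ := (m.p.dom_fin.image Prod.snd).bddAbove
    exact ⟨N + 1, fun x hx => Nat.lt_succ_of_le (hN (mem_image_of_mem _ hx))⟩
  have hJf : (io '' F.dom).Finite := F.dom_fin.image io
  obtain ⟨idx, hidx⟩ : ∃ idx : L → ℕ, InjOn idx (io '' F.dom) := by
    exact Set.countable_iff_exists_injOn.mp hJf.countable
  obtain ⟨K, hK⟩ : ∃ K : ℕ, ∀ j ∈ io '' F.dom, idx j < K := by
    obtain ⟨K, hK⟩ := (hJf.image idx).bddAbove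
    exact ⟨K + 1, fun x hx => Nat.lt_succ_of_le (hK (mem_image_of_mem _ hx))⟩
  set bit : L → ℕ → Bool := fun j n =>
    if n < N then (m.p.f (j, n)).getD false else decide (n = N + idx j) with hbit
  set s : L → List Bool := fun j => (List.range (N + K)).map (bit j) with hs
  have hsn : ∀ j n, n < N + K → (s j)[n]? = some (bit j n) := by
    intro j n hn
    rw [hs]
    simp [hn]
  have hsn' : ∀ j n v, (s j)[n]? = some v → n < N + K ∧ v = bit j n := by
    intro j n v hv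
    have hlt : n < (s j).length := by
      by_contra hge
      rw [List.getElem?_eq_none_iff.mpr (not_lt.mp hge)] at hv
      simp at hv
    have hlt' : n < N + K := by simpa [hs] using hlt
    rw [hsn j n hlt'] at hv
    exact ⟨hlt', (Option.some.inj hv).symm⟩
  have hinc : ∀ j ∈ io '' F.dom, ∀ j' ∈ io '' F.dom, j ≠ j' → Cover_inc (s j) (s j') := by
    intro j hj j' hj' hne
    refine ⟨N + idx j, true, false, ?_, ?_, by simp⟩
    · rw [hsn j _ (by have := hK j hj; omega)]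
      simp [hbit]
    · rw [hsn j' _ (by have := hK j hj; omega)]
      have : idx j ≠ idx j' := fun h => hne (hidx hj hj' h)
      simp [hbit, this]
  -- the new condition
  set ρ : Fn (L × ℕ) Bool :=
    { f := fun x => if x.1 ∈ io '' F.dom ∧ x.2 < N + K then some (bit x.1 x.2) else none
      fin := by
        apply (hJf.prod (Set.finite_Iio (N + K))).subset
        intro x hx
        have hx' : (if x.1 ∈ io '' F.dom ∧ x.2 < N + K then some (bit x.1 x.2) else none) ≠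
          none := hx
        by_contra hn
        apply hx'
        rw [if_neg]
        exact hn } with hρ
  have hcomp : Fn.Compat m.p ρ := by
    intro x v w hv hw
    have hx : x.2 < N := hN x (Fn.mem_dom.2 ⟨v, hv⟩)
    have hw' : (if x.1 ∈ io '' F.dom ∧ x.2 < N + K then some (bit x.1 x.2) else none) =
      some w := hw
    by_cases h : x.1 ∈ io '' F.dom ∧ x.2 < N + K
    · rw [if_pos h] at hw'
      have h1 : bit x.1 x.2 = v := by
        have hv' : m.p.f (x.1, x.2) = some v := hv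
        simp [hbit, hx, hv']
      rw [h1] at hw'
      exact Option.some.inj hw'
    · rw [if_neg h] at hw'
      simp at hw'
  set m' : MM L := ⟨m.p.union ρ, m.q⟩ with hm'
  have hm'm : m' ≤ m := mk_le_mk (Fn.union_le_left _ _) le_rfl
  -- the code
  set D : Finset I := F.dom_fin.toFinset with hD
  set l : List (List Bool × Finset ℕ) := D.toList.map (fun i => (s (io i), (F.f i).getD ∅))
    with hl
  have hlgood : ∀ x ∈ l, ∀ y ∈ l, x.2 ≠ y.2 → Cover_inc x.1 y.1 := by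
    intro x hx y hy hxy
    rw [hl, List.mem_map] at hx hy
    obtain ⟨i, hi, rfl⟩ := hx
    obtain ⟨i', hi', rfl⟩ := hy
    have hi1 : i ∈ F.dom := by simpa [hD] using hi
    have hi1' : i' ∈ F.dom := by simpa [hD] using hi'
    refine hinc _ (mem_image_of_mem _ hi1) _ (mem_image_of_mem _ hi1') ?_
    intro h
    have : i = i' := hinj hi1 hi1' h
    subst this
    exact hxy rfl
  refine ⟨⟨l, hlgood⟩, m', hm'm, ?_⟩
  unfold Cover_T
  rw [mem_iInf]
  intro i
  rw [mem_iInf]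
  intro v
  rw [mem_iInf]
  intro hv
  have hi : i ∈ F.dom := Fn.mem_dom.2 ⟨v, hv⟩
  have hmem : (s (io i), v) ∈ l := by
    rw [hl, List.mem_map]
    refine ⟨i, ?_, ?_⟩
    · simpa [hD] using hi
    · simp [hv]
  have hle : Cover_ext (io i) (s (io i)) ≤ Cover_st ⟨l, hlgood⟩ (io i) v := by
    unfold Cover_st
    exact le_iSup_of_le (s (io i), v) (le_iSup_of_le hmem (le_iSup_of_le rfl le_rfl))
  refine le_iff.1 hle m' (mem_gen_of_le ?_)
  refine ⟨?_, fun α ξ w hw => by simp at hw⟩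
  intro x w hw
  obtain ⟨hx1, hx2⟩ := Cover_sg_f' hw
  obtain ⟨hlt, hwb⟩ := hsn' _ _ _ hx2
  have h1 : ρ.f x = some w := by
    show (if x.1 ∈ io '' F.dom ∧ x.2 < N + K then some (bit x.1 x.2) else none) = some w
    rw [if_pos ⟨by rw [hx1]; exact mem_image_of_mem _ hi, hlt⟩, hwb, hx1]
  exact Fn.union_le_right hcomp x w h1

open Classical in
theorem claimCover (hCard : ClaimCard) : ClaimCover := by
  intro L _ _ U hU I B _ E V hV
  have hA := hCard L U hU
  have hLinf : ℵ₀ < #L := by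
    have := hU.inacc.1.aleph0_lt
    rwa [mk_univ] at this
  have : Nonempty L := by
    rw [← mk_ne_zero_iff]
    intro h0
    rw [h0] at hLinf
    exact absurd hLinf (not_lt.mpr bot_le)
  -- chosen finite functions
  have hch : ∀ x : V × RO (MM L), ∃ F : Fn I (Finset ℕ),
      (x.1.1 ⊓ E.i x.2 ≠ ⊥ → ∃ a' : RO (MM L), a' ≠ ⊥ ∧ E.cov a' F (x.1.1 ⊓ E.i x.2)) := by
    intro x
    by_cases h : x.1.1 ⊓ E.i x.2 = ⊥
    · exact ⟨Fn.empty, fun h' => absurd h h'⟩
    · obtain ⟨a', F, h1, h2⟩ := E.cov_ex _ h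
      exact ⟨F, fun _ => ⟨a', h1, h2⟩⟩
  choose Fc hFc using hch
  set I0 : Set I := ⋃ x, (Fc x).dom with hI0
  have hI0c : #I0 ≤ #L := by
    refine (mk_iUnion_le _).trans ?_
    have h1 : #(V × RO (MM L)) ≤ #L := by
      rw [mk_prod, lift_id, lift_id]
      exact (mul_le_mul' hV hA).trans (mul_eq_self hLinf.le).le
    have h2 : (⨆ x, #(Fc x).dom) ≤ ℵ₀ := ciSup_le' fun x => (Fc x).dom_fin.countable.le_aleph0
    calc #(V × RO (MM L)) * ⨆ x, #(Fc x).dom ≤ #L * ℵ₀ := mul_le_mul' h1 h2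
      _ ≤ #L * #L := mul_le_mul' le_rfl hLinf.le
      _ = #L := mul_eq_self hLinf.le
  obtain ⟨e⟩ : Nonempty (I0 ↪ L) := (Cardinal.le_def _ _).mp hI0c
  set io : I → L := fun i => if h : i ∈ I0 then e ⟨i, h⟩ else Classical.arbitrary L with hio
  have hioinj : InjOn io I0 := by
    intro i hi i' hi' h
    rw [hio] at h
    simp only [dif_pos hi, dif_pos hi'] at h
    exact congrArg Subtype.val (e.injective h)
  obtain ⟨c, hc⟩ := exists_surjective_nat Cover_code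
  refine ⟨fun n => Cover_h E I0 io (c n), ⟨fun n b b' => Cover_h_inf E I0 io (c n) b b',
    fun n => Cover_h_bot E I0 io (c n), fun n a => Cover_h_base E I0 io (c n) a, ?_⟩⟩
  intro b hb a hba
  obtain ⟨a', ha', hcov⟩ := hFc (⟨b, hb⟩, a) hba
  have hdom : (Fc (⟨b, hb⟩, a)).dom ⊆ I0 := subset_iUnion (fun x => (Fc x).dom) (⟨b, hb⟩, a)
  set F := Fc (⟨b, hb⟩, a) with hF
  have ha'a : a' ≤ a := (E.cov_i _ _ F).1 (E.cov_mono _ _ _ _ _ _ hcov le_rfl le_rfl inf_le_right)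
  have hcb : E.cov a' F b := E.cov_mono _ _ _ _ _ _ hcov le_rfl le_rfl inf_le_left
  obtain ⟨m, hm⟩ := ne_bot_iff.1 ha'
  obtain ⟨l, m', hm', hT⟩ := Cover_find io F (hioinj.mono hdom) m
  obtain ⟨n, hn⟩ := hc l
  refine ⟨n, ?_⟩
  rw [ne_bot_iff]
  refine ⟨m', ?_⟩
  rw [mem_inf]
  refine ⟨?_, le_iff.1 ha'a m' (mem_down hm' hm)⟩
  show m' ∈ Cover_h E I0 io (c n) b
  rw [hn]
  exact le_iff.1 (Cover_h_le E I0 io l hcb hdom) m' ⟨mem_down hm' hm, hT⟩

end Pool.Agent.Work.MP_dbe197_lc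

end

section

/-!
# Countable covering in extensions of the Mitchell algebra
-/

namespace Pool.Agent.Work.MP_dbe197_lc

open Set Cardinal RO MM

theorem claimDL (hC : ClaimClos) : ClaimDL := by
  intro L _ I B _ E ι D p q0 h
  obtain ⟨q, hq, C, hCc, hcl⟩ := hC ℕ (L × ℕ) Bool I (Finset ℕ) ι (TT L)
    (fun f hf => (TT.exists_lim f hf).imp fun _ h => h.1)
    (fun n s F q j => s ≤ p ∧ E.cov (gen (⟨s, q⟩ : MM L)) F (D n j))
    (fun n s F q q' j hΨ hqq => ⟨hΨ.1, E.cov_mono _ _ _ _ _ _ hΨ.2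
      (gen_mono (mk_le_mk le_rfl hqq)) le_rfl le_rfl⟩) q0
  refine ⟨q, hq, C, hCc, fun n => ?_⟩
  by_contra hn
  set b : B := E.i (gen ⟨p, q⟩) ⊓ (⨆ j ∈ C, D n j)ᶜ with hb
  have hb0 : b ≠ ⊥ := by
    intro h0
    apply hn
    rw [hb, ← _root_.sdiff_eq, sdiff_eq_bot_iff] at h0
    exact h0
  have hbi : b ≤ E.i (gen ⟨p, q⟩) := inf_le_left
  have hbs : b ≤ ⨆ j, D n j :=
    hbi.trans ((E.i_mono (gen_mono (mk_le_mk le_rfl hq))).trans (h n))
  have hj : ∃ j, b ⊓ D n j ≠ ⊥ := by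
    by_contra hno
    push Not at hno
    apply hb0
    have : b = ⨆ j, b ⊓ D n j := by rw [← inf_iSup_eq]; exact (inf_eq_left.2 hbs).symm
    rw [this]
    simp [hno]
  obtain ⟨j, hj⟩ := hj
  obtain ⟨a, F, ha, hcov⟩ := E.cov_ex _ hj
  have hai : a ≤ gen ⟨p, q⟩ := (E.cov_i a _ F).1
    (E.cov_mono _ _ _ _ _ _ hcov le_rfl le_rfl (inf_le_left.trans hbi))
  obtain ⟨m, hm⟩ := ne_bot_iff.1 ha
  obtain ⟨m1, hm1, hm1p⟩ := exists_le_of_mem_gen (hai m hm)
  have hm1a : m1 ∈ a := mem_down hm1 hm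
  set q1 : TT L := q.ov m1.q with hq1
  have hq1q : q1 ≤ q := TT.ov_le_left _ _
  have hle : (⟨m1.p, q1⟩ : MM L) ≤ m1 := norm_le hm1p
  have hga : gen (⟨m1.p, q1⟩ : MM L) ≤ a := gen_le_iff.2 (mem_down hle hm1a)
  have hcov1 : E.cov (gen (⟨m1.p, q1⟩ : MM L)) F (b ⊓ D n j) :=
    E.cov_mono _ _ _ _ _ _ hcov hga le_rfl le_rfl
  obtain ⟨t, F', j', hj'C, hct, hcF, htp, hcov'⟩ := hcl n m1.p F q1 j hq1q
    ⟨hm1p.1, E.cov_mono _ _ _ _ _ _ hcov1 le_rfl le_rfl inf_le_right⟩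
  have hm2a : (⟨m1.p.union t, q1⟩ : MM L) ≤ ⟨m1.p, q1⟩ :=
    mk_le_mk (Fn.union_le_left _ _) le_rfl
  have hm2b : (⟨m1.p.union t, q1⟩ : MM L) ≤ ⟨t, q⟩ :=
    mk_le_mk (Fn.union_le_right hct) hq1q
  have hbot : b ⊓ D n j' = ⊥ := by
    rw [← le_bot_iff]
    calc b ⊓ D n j' ≤ (⨆ j ∈ C, D n j)ᶜ ⊓ (⨆ j ∈ C, D n j) :=
          inf_le_inf inf_le_right (le_iSup₂_of_le j' hj'C le_rfl)
      _ = ⊥ := compl_inf_eq_bot
      _ ≤ ⊥ := le_rfl
  have h3 : E.cov (gen (⟨m1.p.union t, q1⟩ : MM L)) (F.union F') (b ⊓ D n j') := by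
    apply E.cov_inf
    · exact E.cov_mono _ _ _ _ _ _ hcov1 (gen_mono hm2a) (Fn.union_le_left _ _) inf_le_left
    · exact E.cov_mono _ _ _ _ _ _ hcov' (gen_mono hm2b) (Fn.union_le_right hcF) le_rfl
  rw [hbot] at h3
  exact gen_ne_bot _ (E.cov_bot _ _ h3)

end Pool.Agent.Work.MP_dbe197_lc

end

section

/-!
# Item Q5: the disjoint stationary sequence
-/

namespace Pool.Agent.Work.MP_dbe197_lc

open Set Cardinal RO MM

section DSS

variable {L : Type} [LinearOrder L] {B : Type} [CompleteBooleanAlgebra B]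

/-- A name which is `C` where `C` is a club, and everything elsewhere. -/
def DSS_fix (C : L → B) (α : L) : B := (C α ⊓ club C) ⊔ (club C)ᶜ

theorem DSS_top_of {c x : B} (h1 : c ≤ x) (h2 : cᶜ ≤ x) : x = ⊤ := by
  apply top_le_iff.1
  rw [← sup_compl_eq_top (x := c)]
  exact sup_le h1 h2

theorem DSS_club (hL : ∀ α : L, ∃ β, α < β) (C : L → B) : club (DSS_fix C) = ⊤ := by
  unfold club
  rw [inf_eq_top_iff, iInf_eq_top, iInf_eq_top]
  refine ⟨fun α => ?_, fun α => iInf_eq_top.2 fun hα => ?_⟩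
  · apply DSS_top_of (c := club C)
    · have h : club C ≤ ⨆ β, ⨆ (_ : α < β), C β := inf_le_left.trans (iInf_le _ α)
      calc club C ≤ club C ⊓ ⨆ β, ⨆ (_ : α < β), C β := le_inf le_rfl h
        _ = ⨆ β, ⨆ (_ : α < β), club C ⊓ C β := by simp only [inf_iSup_eq]
        _ ≤ _ := by
          refine iSup_mono fun β => iSup_mono fun _ => ?_
          exact le_trans (le_of_eq (inf_comm _ _)) le_sup_left
    · obtain ⟨β, hβ⟩ := hL α
      exact le_trans (le_sup_right : (club C)ᶜ ≤ DSS_fix C β)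
        (le_trans (le_iSup (fun _ : α < β => DSS_fix C β) hβ)
          (le_iSup (fun β => ⨆ (_ : α < β), DSS_fix C β) β))
  · apply DSS_top_of (c := club C)
    · have h : club C ≤ (⨆ β, ⨆ (_ : β < α), ⨅ γ, ⨅ (_ : β < γ), ⨅ (_ : γ < α), (C γ)ᶜ) ⊔
          C α := inf_le_right.trans ((iInf_le _ α).trans (iInf_le _ hα))
      calc club C ≤ club C ⊓
            ((⨆ β, ⨆ (_ : β < α), ⨅ γ, ⨅ (_ : β < γ), ⨅ (_ : γ < α), (C γ)ᶜ) ⊔ C α) :=
            le_inf le_rfl h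
        _ = (⨆ β, ⨆ (_ : β < α), club C ⊓ ⨅ γ, ⨅ (_ : β < γ), ⨅ (_ : γ < α), (C γ)ᶜ) ⊔
            (club C ⊓ C α) := by rw [inf_sup_left]; simp only [inf_iSup_eq]
        _ ≤ _ := by
          apply sup_le_sup
          · refine iSup_mono fun β => iSup_mono fun _ => ?_
            refine le_iInf fun γ => le_iInf fun h1 => le_iInf fun h2 => ?_
            have h3 : club C ⊓ ⨅ γ, ⨅ (_ : β < γ), ⨅ (_ : γ < α), (C γ)ᶜ ≤
                club C ⊓ (C γ)ᶜ :=
              inf_le_inf_left _ ((iInf_le _ γ).trans ((iInf_le _ h1).trans (iInf_le _ h2)))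
            refine h3.trans ?_
            unfold DSS_fix
            rw [compl_sup, compl_compl, compl_inf]
            exact le_inf (inf_le_right.trans le_sup_left) inf_le_left
          · exact le_trans (le_of_eq (inf_comm _ _)) le_sup_left
    · exact le_sup_right.trans le_sup_right

end DSS

theorem claimDSS (hN : ClaimN) (hCf : ClaimCf) (hCl : ClaimClubU) (hNd : ClaimNd)
    (hNst : ClaimNst) : ClaimDSS := by
  classical
  intro L _ _ U hU hMs I B _ E hcc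
  have hne : Nonempty L := by
    by_contra h
    rw [not_nonempty_iff] at h
    have h1 : (Set.univ : Set L) = ∅ := Set.eq_empty_of_isEmpty _
    have h2 := hU.nm.mem
    rw [h1] at h2
    exact hU.nm.empty h2
  have F := hN L Set.univ U hU
  have hL : ∀ α : L, ∃ β, α < β := fun α => by
    obtain ⟨γ, -, h⟩ := F.limit α trivial
    exact ⟨γ, h⟩
  obtain ⟨hd1, hd2, hd3⟩ := hNd L I B E
  refine ⟨fun α => if Ms α then ⊤ else ⊥, Nd E, ?_, ?_, hd1, ?_, ?_, ?_⟩
  · unfold stat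
    rw [iInf_eq_top]
    intro C
    apply DSS_top_of (c := club C) _ le_sup_left
    have h1 : {α | DSS_fix C α = ⊤} ∈ U := (hCl L U hU B hcc).1 _ (DSS_club hL C)
    have h2 := F.inter2 _ _ h1 hMs
    obtain ⟨α, hα, hα'⟩ : ({α | DSS_fix C α = ⊤} ∩ {δ : L | Ms δ}).Nonempty := by
      rw [Set.nonempty_iff_ne_empty]
      intro h3
      rw [h3] at h2
      exact hU.nm.empty h2
    have hα : DSS_fix C α = ⊤ := hα
    have hα' : Ms α := hα'
    have h4 : club C ≤ C α := by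
      have h5 : club C ≤ DSS_fix C α := by rw [hα]; exact le_top
      unfold DSS_fix at h5
      calc club C ≤ club C ⊓ ((C α ⊓ club C) ⊔ (club C)ᶜ) := le_inf le_rfl h5
        _ = club C ⊓ (C α ⊓ club C) := by rw [inf_sup_left]; simp
        _ ≤ C α := inf_le_right.trans inf_le_left
    refine le_trans ?_ le_sup_right
    refine le_trans ?_ (le_iSup (fun α => C α ⊓ (if Ms α then ⊤ else ⊥)) α)
    simp only [hα', if_true, inf_top_eq]
    exact h4
  · intro α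
    by_cases h : Ms α
    · rw [(hCf L U hU I B E α).2.2.2 h]; exact le_top
    · simp [h]
  · intro α x
    exact inf_le_right.trans (hd2 α x)
  · intro α
    by_cases h : Ms α
    · rw [hNst L α h I B E]; exact le_top
    · simp [h]
  · intro α β x hab
    rw [hd3 α β x hab, inf_bot_eq]

end Pool.Agent.Work.MP_dbe197_lc

end

section

/-!
# Assembly
-/

namespace Pool.Agent.Work.MP_dbe197_lc

open Set Cardinal RO MM

/-- All the statements of the problem, with value `1` in the Boolean valued universe over `B`;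
`L` is `ω₂` there. -/
structure AllHold (L : Type) [LinearOrder L] (B : Type) [CompleteBooleanAlgebra B] : Prop where
  om2 : Om2 L B
  sr : SR L B
  tp : TP L B
  nwkh : NwKH L B
  dss : DSS L B
  tge : Tge L B
  tule : TUle L B
  uge : Uge L B
  cgt : Cgt L B

theorem regL_of_inacc {L : Type} [LinearOrder L] (h : Inacc (Set.univ : Set L)) : RegL L where
  reg := by
    have := h.1.isRegular
    rwa [Cardinal.mk_univ] at this
  unc := by
    have := h.1.aleph0_lt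
    rwa [Cardinal.mk_univ] at this
  seg := fun β => by
    have := h.2 β trivial
    rwa [Cardinal.mk_univ] at this

theorem claimTP_of (hT : ClaimThin) (hK : ClaimKur) (hM : ClaimMixBr) : ClaimTP := by
  intro L _ _ U hU hMs I B _ E hcc T
  apply hM
  intro b hb
  obtain ⟨b1, hb1, hb1', z, γs, hz, hth⟩ := hT L U hU hMs I B E T b hb
  obtain ⟨b2, hb2, hb2', f, hf⟩ := hK L U hU hMs I B E hcc T b1 z γs hb1' hz hth
  exact ⟨b2, hb2.trans hb1, hb2', f, hf⟩

theorem main_of (hCCM : ClaimCCM) (hOm2 : ClaimOm2) (hTP : ClaimTP) (hKH : ClaimKH)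
    (hSR : ClaimSR) (hDSS : ClaimDSS) (hA : ClaimA) (κ : Cardinal.{0}) (hκ : LC κ) :
    ∃ (B : Type) (_ : CompleteBooleanAlgebra B), Nontrivial B ∧ AllHold (OO κ) B := by
  obtain ⟨hin, U, hU, hms⟩ := hκ
  have hseg : Seg (Set.univ : Set (OO κ)) U := ⟨fun _ _ _ _ => trivial, hin, hU⟩
  have hms' : {δ : OO κ | Ms δ} ∈ U := by
    refine hU.up _ _ hms ?_
    rintro δ ⟨h1, W, h2⟩
    exact ⟨W, ⟨fun a b hab ha => lt_of_le_of_lt hab ha, h1, h2⟩⟩
  have hne : Nonempty (OO κ) := by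
    rw [← Cardinal.mk_ne_zero_iff]
    have := hin.1.ne_zero
    rwa [Cardinal.mk_univ] at this
  have : Nontrivial (RO (MM (OO κ))) :=
    ⟨⟨gen ⟨Fn.empty, TT.empty⟩, ⊥, gen_ne_bot _⟩⟩
  obtain ⟨I, B, inst, E, hnt, hcc, h1, h2, h3, h4⟩ :=
    hA (RO (MM (OO κ))) (OO κ) (regL_of_inacc hin) (hCCM _ U hseg)
  exact ⟨B, inst, hnt, ⟨hOm2 _ U hseg I B E hcc, hSR _ U hseg hms' I B E hcc,
    hTP _ U hseg hms' I B E hcc, hKH _ U hseg I B E hcc, hDSS _ U hseg hms' I B E hcc,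
    h1, h2, h3, h4⟩⟩

end Pool.Agent.Work.MP_dbe197_lc

end

section

/-!
# MP_dbe197_lc: abstract fusion, and mixing of a binary tree with a Cohen real
-/

namespace Pool.Agent.Work.MP_dbe197_lc

open Set

theorem fusion_finset {H R Γ : Type} [Preorder H] [Preorder R]
    (P : H → R → R → Γ → Prop)
    (hmono : ∀ h h' r0 r0' r1 r1' γ, P h r0 r1 γ → h' ≤ h → r0' ≤ r0 → r1' ≤ r1 → P h' r0' r1' γ)
    (hex : ∀ h r, ∃ h' ≤ h, ∃ r0 ≤ r, ∃ r1 ≤ r, ∃ γ, P h' r0 r1 γ)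
    (h : H) (r : List Bool → R) (F : Finset (List Bool)) :
    ∃ h' ≤ h, ∃ (r0 r1 : List Bool → R) (γ : List Bool → Γ),
      ∀ s ∈ F, r0 s ≤ r s ∧ r1 s ≤ r s ∧ P h' (r0 s) (r1 s) (γ s) := by
  classical
  induction F using Finset.induction_on with
  | empty =>
    obtain ⟨_, _, _, _, _, _, γ0, _⟩ := hex h (r [])
    exact ⟨h, le_refl _, r, r, fun _ => γ0, by simp⟩
  | insert a F ha ih =>
    obtain ⟨h1, hh1, r0, r1, γ, hF⟩ := ih
    obtain ⟨h2, hh2, x0, hx0, x1, hx1, g, hg⟩ := hex h1 (r a)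
    refine ⟨h2, le_trans hh2 hh1, Function.update r0 a x0, Function.update r1 a x1,
      Function.update γ a g, ?_⟩
    intro s hs
    by_cases hsa : s = a
    · subst hsa
      simp only [Function.update_self]
      exact ⟨hx0, hx1, hg⟩
    · rcases Finset.mem_insert.1 hs with h' | h'
      · exact absurd h' hsa
      · obtain ⟨h3, h4, h5⟩ := hF s h'
        simp only [Function.update_of_ne hsa]
        exact ⟨h3, h4, hmono _ _ _ _ _ _ _ h5 hh2 (le_refl _) (le_refl _)⟩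

theorem claimFusion : ClaimFusion := by
  intro H R Γ _ _ P hmono hex h0 r0
  have step : ∀ (n : ℕ) (σ : H × (List Bool → R)),
      ∃ τ : H × (List Bool → R) × (List Bool → R) × (List Bool → Γ), τ.1 ≤ σ.1 ∧
        ∀ s : List Bool, s.length = n →
          τ.2.1 s ≤ σ.2 s ∧ τ.2.2.1 s ≤ σ.2 s ∧ P τ.1 (τ.2.1 s) (τ.2.2.1 s) (τ.2.2.2 s) := by
    intro n σ
    have hfin : {l : List Bool | l.length = n}.Finite := List.finite_length_eq Bool n
    obtain ⟨h', hh', a0, a1, γ, hF⟩ := fusion_finset P hmono hex σ.1 σ.2 hfin.toFinset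
    refine ⟨(h', a0, a1, γ), hh', ?_⟩
    intro s hs
    exact hF s (by simpa using hs)
  choose f hf1 hf2 using step
  let st : ℕ → H × (List Bool → R) := fun n =>
    Nat.rec (h0, fun _ => r0) (fun n σ => ((f n σ).1, fun t =>
      if t.getLast? = some true then (f n σ).2.2.1 t.dropLast else (f n σ).2.1 t.dropLast)) n
  have st0 : st 0 = (h0, fun _ => r0) := rfl
  have st1 : ∀ n, (st (n + 1)).1 = (f n (st n)).1 := fun n => rfl
  have st2 : ∀ n t, (st (n + 1)).2 t = if t.getLast? = some true then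
    (f n (st n)).2.2.1 t.dropLast else (f n (st n)).2.1 t.dropLast := fun n t => rfl
  refine ⟨fun n => (st n).1, fun s => (st s.length).2 s,
    fun s => (f s.length (st s.length)).2.2.2 s, le_refl _, ?_, le_refl _, ?_, ?_⟩
  · intro n
    exact hf1 n (st n)
  · intro s b
    have hl : (s ++ [b]).length = s.length + 1 := by simp
    simp only [hl, st2]
    obtain ⟨h3, h4, _⟩ := hf2 s.length (st s.length) s rfl
    cases b
    · simpa using h3
    · simpa using h4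
  · intro s
    have hl : ∀ b, (s ++ [b]).length = s.length + 1 := by simp
    obtain ⟨_, _, h5⟩ := hf2 s.length (st s.length) s rfl
    simp only [hl, st2, st1]
    simpa using h5

theorem fusion_prefix {L : Type} [LinearOrder L] {c : Pt L} {δ : L} {s s' : List Bool}
    (h : Extends c δ s) (h' : Extends c δ s') (hl : s.length ≤ s'.length) :
    ∃ t, s' = s ++ t := by
  refine ⟨s'.drop s.length, ?_⟩
  have : s = s'.take s.length := by
    apply List.ext_getElem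
    · simp [hl]
    · intro i h1 h2
      rw [List.getElem_take]
      rw [← h i h1, ← h' i (lt_of_lt_of_le h1 hl)]
  conv_lhs => rw [← List.take_append_drop s.length s']
  rw [← this]

theorem fusion_mono {L : Type} [LinearOrder L] {r : List Bool → TT L}
    (hr : ∀ s b, r (s ++ [b]) ≤ r s) (s t : List Bool) : r (s ++ t) ≤ r s := by
  induction t using List.reverseRecOn with
  | nil => simp
  | append_singleton t b ih =>
    rw [← List.append_assoc]
    exact le_trans (hr _ _) ih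

theorem fusion_agree {L : Type} [LinearOrder L] {r : List Bool → TT L}
    (hr : ∀ s b, r (s ++ [b]) ≤ r s) {c : Pt L} {δ α : L} {ξ : O1} {s s' : List Bool}
    {v v' : Pt L → L}
    (h : Extends c δ s) (h' : Extends c δ s') (hv : (r s).val α ξ = some v)
    (hv' : (r s').val α ξ = some v') : v = v' := by
  rcases le_total s.length s'.length with hl | hl
  · obtain ⟨t, rfl⟩ := fusion_prefix h h' hl
    have := fusion_mono hr s t α ξ v hv
    rw [hv'] at this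
    exact (Option.some.inj this).symm
  · obtain ⟨t, rfl⟩ := fusion_prefix h' h hl
    have := fusion_mono hr s' t α ξ v' hv'
    rw [hv] at this
    exact Option.some.inj this

theorem claimMixT : ClaimMixT := by
  classical
  intro L _ δ r h0 hr hsupp
  let w : L → O1 → Pt L → L := fun α ξ c =>
    if h : ∃ v, ∃ s, Extends c δ s ∧ (r s).val α ξ = some v then h.choose c else α
  have wspec : ∀ α ξ c v s, Extends c δ s → (r s).val α ξ = some v → w α ξ c = v c := by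
    intro α ξ c v s hs hv
    have h : ∃ v, ∃ s, Extends c δ s ∧ (r s).val α ξ = some v := ⟨v, s, hs, hv⟩
    have e : w α ξ c = h.choose c := dif_pos h
    obtain ⟨s', hs', hv'⟩ := h.choose_spec
    rw [e, fusion_agree hr hs' hs hv' hv]
  have wnone : ∀ α ξ c, (¬ ∃ v, ∃ s, Extends c δ s ∧ (r s).val α ξ = some v) → w α ξ c = α :=
    fun α ξ c h => dif_neg h
  let g : L → O1 → Option (Pt L → L) := fun α ξ =>
    if α < δ then h0.val α ξ else
      if ∃ s, (r s).val α ξ ≠ none then some (w α ξ) else none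
  have g1 : ∀ α ξ, α < δ → g α ξ = h0.val α ξ := fun α ξ h => if_pos h
  have g2 : ∀ α ξ, ¬ α < δ → (∃ s, (r s).val α ξ ≠ none) → g α ξ = some (w α ξ) := by
    intro α ξ h h'
    simp only [g, if_neg h, if_pos h']
  have g3 : ∀ α ξ, ¬ α < δ → (¬ ∃ s, (r s).val α ξ ≠ none) → g α ξ = none := by
    intro α ξ h h'
    simp only [g, if_neg h, if_neg h']
  let q : TT L :=
    { val := g
      ctbl := by
        have : {x : L × O1 | g x.1 x.2 ≠ none} ⊆
            {x : L × O1 | h0.val x.1 x.2 ≠ none} ∪ ⋃ s, {x : L × O1 | (r s).val x.1 x.2 ≠ none} := by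
          intro x hx
          by_cases h : x.1 < δ
          · left
            have := g1 x.1 x.2 h
            simp only [mem_ofPred_eq] at hx ⊢
            rwa [this] at hx
          · right
            by_cases h' : ∃ s, (r s).val x.1 x.2 ≠ none
            · obtain ⟨s, hs⟩ := h'
              exact mem_iUnion.2 ⟨s, hs⟩
            · exact absurd (g3 x.1 x.2 h h') hx
        exact (h0.ctbl.union (countable_iUnion fun s => (r s).ctbl)).mono this
      le' := by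
        intro α ξ v hv c
        by_cases h : α < δ
        · rw [g1 α ξ h] at hv
          exact h0.le' α ξ v hv c
        · by_cases h' : ∃ s, (r s).val α ξ ≠ none
          · rw [g2 α ξ h h'] at hv
            rw [← Option.some.inj hv]
            by_cases h2 : ∃ v, ∃ s, Extends c δ s ∧ (r s).val α ξ = some v
            · obtain ⟨v', s, hs, hv'⟩ := h2
              rw [wspec α ξ c v' s hs hv']
              exact (r s).le' α ξ v' hv' c
            · exact le_of_eq (wnone α ξ c h2)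
          · rw [g3 α ξ h h'] at hv
            exact absurd hv (by simp)
      dep := by
        intro α ξ v hv c c' hcc
        by_cases h : α < δ
        · rw [g1 α ξ h] at hv
          exact h0.dep α ξ v hv c c' hcc
        · by_cases h' : ∃ s, (r s).val α ξ ≠ none
          · rw [g2 α ξ h h'] at hv
            rw [← Option.some.inj hv]
            have hδ : c δ = c' δ := hcc δ (not_lt.1 h)
            have hE : ∀ s, Extends c δ s ↔ Extends c' δ s := by
              intro s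
              unfold Extends
              rw [hδ]
            by_cases h2 : ∃ v, ∃ s, Extends c δ s ∧ (r s).val α ξ = some v
            · obtain ⟨v', s, hs, hv'⟩ := h2
              rw [wspec α ξ c v' s hs hv', wspec α ξ c' v' s ((hE s).1 hs) hv']
              exact (r s).dep α ξ v' hv' c c' hcc
            · rw [wnone α ξ c h2, wnone α ξ c' (fun ⟨v', s, hs, hv'⟩ =>
                h2 ⟨v', s, (hE s).2 hs, hv'⟩)]
          · rw [g3 α ξ h h'] at hv
            exact absurd hv (by simp) }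
  refine ⟨q, ?_, ?_⟩
  · ext1 α ξ
    by_cases h : α ∈ Iio δ
    · rw [TT.restr_of_mem h]
      exact g1 α ξ h
    · rw [TT.restr_of_not_mem h]
      by_contra hne
      exact h (hsupp ⟨ξ, fun h0 => hne h0.symm⟩)
  · intro s α ξ v hδ hv
    refine ⟨w α ξ, g2 α ξ (not_lt.2 hδ) ⟨s, by rw [hv]; simp⟩, ?_⟩
    intro c hc
    exact wspec α ξ c v s hc hv

end Pool.Agent.Work.MP_dbe197_lc

end

section

/-!
# Guessing below `δ`

For countably many chains `d n` in trees with values depending only on the coordinates below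
`δ` there are countably many chains `ν k` with values depending only on the coordinates below
`δ` which cover the upper parts of all `d n`.
-/

namespace Pool.Agent.Work.MP_dbe197_lc

open Set Cardinal RO MM

variable {L : Type} [LinearOrder L]

/-- The outcomes of the search: a chain `ν` below `δ` equal to `d n`, or a bound for `d n`. -/
def guessPsi {H W : Type} [LinearOrder H] (δ : L) (d : ℕ → H × W → RO (MM L))
    (p : Fn (L × ℕ) Bool) (n : ℕ) (s : Fn (L × ℕ) Bool) (_ : Fn Empty Unit) (q : TT L)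
    (o : (H × W → RO (MM L)) ⊕ H) : Prop :=
  s ≤ p ∧
    ((∃ ν : H × W → RO (MM L), o = Sum.inl ν ∧ (∀ x, DepM (Iio δ) (ν x)) ∧
      (∀ x y, x.1 = y.1 → x ≠ y → ν x ⊓ ν y = ⊥) ∧ (⟨s, q⟩ : MM L) ∈ beq (d n) ν) ∨
    ∃ g : H, o = Sum.inr g ∧ ∀ x : H × W, g < x.1 → (⟨s, q⟩ : MM L) ∈ (d n x)ᶜ)

theorem claimGuess (hC : ClaimClos) (hA : ClaimApp) : ClaimGuess := by
  intro L _ H W _ δ R d hH hR hdep hd p q0
  obtain ⟨q, hq, D0, hD0, hcl⟩ := hC ℕ (L × ℕ) Bool Empty Unit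
    ((H × W → RO (MM L)) ⊕ H) (TT L)
    (fun f hf => by obtain ⟨q, h1, _⟩ := TT.exists_lim f hf; exact ⟨q, h1⟩)
    (guessPsi δ d p)
    (by
      rintro n s s' q q' o ⟨h1, h2⟩ hqq
      have hle : (⟨s, q'⟩ : MM L) ≤ ⟨s, q⟩ := mk_le_mk le_rfl hqq
      refine ⟨h1, ?_⟩
      rcases h2 with ⟨ν, ho, ha, hb, hc⟩ | ⟨g, ho, ha⟩
      · exact Or.inl ⟨ν, ho, ha, hb, mem_down hle hc⟩
      · exact Or.inr ⟨g, ho, fun x hx => mem_down hle (ha x hx)⟩) q0
  -- the bound
  obtain ⟨γ, hγ⟩ := hH (Sum.inr ⁻¹' D0) (hD0.preimage Sum.inr_injective)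
  -- the enumeration
  let T : Set (H × W → RO (MM L)) := {ν | Sum.inl ν ∈ D0 ∧ (∀ x, DepM (Iio δ) (ν x)) ∧
    (∀ x y, x.1 = y.1 → x ≠ y → ν x ⊓ ν y = ⊥)}
  have hT : (insert (fun _ => ⊥) T).Countable := by
    apply Set.Countable.insert
    apply (hD0.preimage Sum.inl_injective).mono
    intro ν hν
    exact hν.1
  obtain ⟨ν, hν⟩ := hT.exists_eq_range ⟨_, Set.mem_insert _ _⟩
  have hνmem : ∀ k, ν k = (fun _ => ⊥) ∨ ν k ∈ T := by
    intro k
    have : ν k ∈ insert (fun _ => ⊥) T := by rw [hν]; exact ⟨k, rfl⟩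
    exact this
  refine ⟨q, hq, ν, ?_, ?_, γ, ?_⟩
  · intro k x
    rcases hνmem k with h | h
    · rw [h]; exact DepM.bot _
    · exact h.2.1 x
  · intro k x y hxy hne
    rcases hνmem k with h | h
    · rw [h]; simp
    · exact h.2.2 x y hxy hne
  intro n x hx m hm
  by_contra hnot
  obtain ⟨m1, hm1, hm1c⟩ := not_mem_iff.1 hnot
  obtain ⟨m2, hm2, hm2p⟩ := exists_le_of_mem_gen (mem_down hm1 hm.1)
  have hm2d : m2 ∈ d n x := mem_down (hm2.trans hm1) hm.2
  have hm2c : m2 ∈ (⨆ k, ν k x)ᶜ := mem_down hm2 hm1c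
  -- an outcome
  obtain ⟨m3, hm3, o, ho⟩ : ∃ m3 ≤ m2, ∃ o, guessPsi δ d p n m3.p Fn.empty (q.ov m3.q) o := by
    by_cases hcase : ∀ g : H, m2 ∈ ⨆ y : H × W, ⨆ (_ : g < y.1), d n y
    · obtain ⟨m3, hm3, μ, h1, h2, h3⟩ := hA L H W δ (R n) (d n) m2
        ⟨hH, hR n, hdep n, hd n, hcase⟩
      have hle := norm_le (hm3.trans hm2p)
      refine ⟨m3, hm3, Sum.inl μ, (hm3.trans hm2p).1, Or.inl ⟨μ, rfl, h1, h2, ?_⟩⟩
      exact mem_down hle h3
    · push Not at hcase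
      obtain ⟨g, hg⟩ := hcase
      obtain ⟨m3, hm3, hm3c⟩ := not_mem_iff.1 hg
      have hle := norm_le (hm3.trans hm2p)
      refine ⟨m3, hm3, Sum.inr g, (hm3.trans hm2p).1, Or.inr ⟨g, rfl, ?_⟩⟩
      intro y hy
      apply mem_down hle
      rw [RO.mem_compl] at hm3c ⊢
      intro r hr hrd
      apply hm3c r hr
      have hsup : d n y ≤ ⨆ z : H × W, ⨆ (_ : g < z.1), d n z :=
        le_iSup_of_le y (le_iSup (fun _ : g < y.1 => d n y) hy)
      exact hsup r hrd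
  obtain ⟨t, t', o', ho', hst, _, hΨ⟩ := hcl n m3.p Fn.empty (q.ov m3.q) o
    (TT.ov_le_left _ _) ho
  have hle3 := norm_le (hm3.trans hm2p)
  -- the common extension
  have h4a : (⟨m3.p.union t, q.ov m3.q⟩ : MM L) ≤ m2 :=
    (mk_le_mk (Fn.union_le_left _ _) le_rfl).trans (hle3.trans hm3)
  have h4b : (⟨m3.p.union t, q.ov m3.q⟩ : MM L) ≤ ⟨t, q⟩ :=
    mk_le_mk (Fn.union_le_right hst) (TT.ov_le_left _ _)
  generalize (⟨m3.p.union t, q.ov m3.q⟩ : MM L) = m4 at h4a h4b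
  have h4d : m4 ∈ d n x := mem_down h4a hm2d
  rcases hΨ.2 with ⟨μ, hμ, h1, h2, h3⟩ | ⟨g, hg, h1⟩
  · have hμT : μ ∈ insert (fun _ => ⊥) T := Or.inr ⟨by rw [← hμ]; exact ho', h1, h2⟩
    rw [hν] at hμT
    obtain ⟨k, rfl⟩ := hμT
    have h5 : m4 ∈ (d n x ⊓ ν k x) ⊔ ((d n x)ᶜ ⊓ (ν k x)ᶜ) :=
      mem_iInf.1 (mem_down h4b h3) x
    obtain ⟨r, hr, h | h⟩ := mem_sup.1 h5 m4 le_rfl
    · apply hm2c r (hr.trans h4a)
      exact (le_iSup (fun k => ν k x) k) r h.2
    · exact h.1 r le_rfl (mem_down hr h4d)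
  · have hgD : g ∈ Sum.inr ⁻¹' D0 := by
      show Sum.inr g ∈ D0
      rw [← hg]; exact ho'
    have h5 := mem_down h4b (h1 x ((hγ g hgD).trans hx))
    exact h5 m4 le_rfl h4d

end Pool.Agent.Work.MP_dbe197_lc

end

section

/-!
# Constant heads and the strong chain condition
-/

namespace Pool.Agent.Work.MP_dbe197_lc

open Set Cardinal RO MM

theorem head_univ {L : Type} [LinearOrder L] {S : Set L} {U : Set (Set L)} (h : NM S U)
    {A : Set L} (hA : ∀ α, α ∈ A) : A ∈ U :=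
  h.up S A h.mem fun α _ => hA α

theorem head_nonempty {L : Type} [LinearOrder L] {S : Set L} {U : Set (Set L)} (h : NM S U)
    {A : Set L} (hA : A ∈ U) : A.Nonempty := by
  rw [Set.nonempty_iff_ne_empty]
  rintro rfl
  exact h.empty hA

theorem claimHead (hN : ClaimN) (hS : ClaimSmall) : ClaimHead := by
  classical
  intro L _ _ S U hSeg m
  have F := hN L S U hSeg
  have hf : {α | ((res (Iio α) (m α)).supp).Countable ∧
      (res (Iio α) (m α)).supp ⊆ Iio α} ∈ U := by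
    refine head_univ hSeg.nm fun α => ⟨(res (Iio α) (m α)).supp_countable, ?_⟩
    rw [MM.supp_res]
    exact inter_subset_left
  obtain ⟨C, hC⟩ := F.ctbl (fun α => (res (Iio α) (m α)).supp) hf
  obtain ⟨α₀, hα₀, hα₀S⟩ := head_nonempty hSeg.nm (F.inter2 _ _ hC hSeg.nm.mem)
  have hα₀' : (res (Iio α₀) (m α₀)).supp = C := hα₀
  have hCc : C.Countable := by
    rw [← hα₀']
    exact MM.supp_countable _
  have hCS : C ⊆ S := by
    rw [← hα₀', MM.supp_res]
    exact fun x hx => hSeg.low (le_of_lt hx.1) hα₀S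
  obtain ⟨β, hβ, hCβ⟩ := F.bddN C hCS hCc
  have hsm := (hS L S hSeg.low hSeg.inacc β hβ).2.2.1
  set g : L → {m : MM L | m.supp ⊆ Iio β} := fun α =>
    if h : (res (Iio α) (m α)).supp = C then ⟨res (Iio α) (m α), by
      show (res (Iio α) (m α)).supp ⊆ Iio β
      rw [h]; exact fun x hx => hCβ x hx⟩
    else ⟨res (Iio α₀) (m α₀), by
      show (res (Iio α₀) (m α₀)).supp ⊆ Iio β
      rw [hα₀']; exact fun x hx => hCβ x hx⟩ with hg
  obtain ⟨x, hx⟩ := F.const _ g hsm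
  refine ⟨x.1, ?_, β, hβ, x.2⟩
  refine hSeg.nm.up _ _ (F.inter2 _ _ hx hC) ?_
  rintro α ⟨h1, h2⟩
  have h1' : g α = x := h1
  have h2' : (res (Iio α) (m α)).supp = C := h2
  rw [hg] at h1'
  simp only [dif_pos h2'] at h1'
  rw [← h1']
  rfl

theorem claimSun (hN : ClaimN) (hH : ClaimHead) : ClaimSun := by
  classical
  intro L _ _ S U hSeg m hm
  have F := hN L S U hSeg
  obtain ⟨m0, hm0, -⟩ := hH L S U hSeg m
  have hb : ∀ β : L, ∃ γ, β ∈ S → γ ∈ S ∧ ∀ x ∈ (m β).supp, x < γ := by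
    intro β
    by_cases h : β ∈ S
    · obtain ⟨γ, h1, h2⟩ := F.bddN (m β).supp (hm β) (m β).supp_countable
      exact ⟨γ, fun _ => ⟨h1, h2⟩⟩
    · exact ⟨β, fun h' => absurd h' h⟩
  choose g hg using hb
  refine ⟨_, F.inter2 _ _ (F.inter2 _ _ hm0 (F.clos g fun β hβ => (hg β hβ).1)) hSeg.nm.mem, ?_⟩
  rintro α ⟨⟨ha1, ha2⟩, haS⟩ β ⟨⟨hb1, hb2⟩, hbS⟩ hαβ
  have ha1' : res (Iio α) (m α) = m0 := ha1
  have hb1' : res (Iio β) (m β) = m0 := hb1
  have hsub : (m α).supp ⊆ Iio β := fun x hx => ((hg α haS).2 x hx).trans (hb2 α hαβ)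
  have hres : res (Iio β) (m β) = res (Iio α) (m α) := hb1'.trans ha1'.symm
  refine ⟨hsub, ?_, ?_⟩
  · intro x v w hv hw
    have hx : x.1 ∈ Iio β := hsub (Or.inl ⟨x.2, Fn.mem_dom.2 ⟨v, hv⟩⟩)
    have h1 : (res (Iio β) (m β)).p.f x = some w := Fn.restr_f_eq_some.2 ⟨hx, hw⟩
    rw [hres] at h1
    have h2 := (Fn.restr_f_eq_some.1 h1).2
    rw [hv] at h2
    exact Option.some.inj h2
  · intro a ξ v w hv hw
    have hx : a ∈ Iio β := hsub (Or.inr ⟨ξ, by rw [hv]; simp⟩)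
    have h1 : (res (Iio β) (m β)).q.val a ξ = some w := TT.restr_eq_some.2 ⟨hx, hw⟩
    rw [hres] at h1
    have h2 := (TT.restr_eq_some.1 h1).2
    rw [hv] at h2
    exact Option.some.inj h2

theorem claimCCM (hN : ClaimN) (hS : ClaimSun) : ClaimCCM := by
  intro L _ _ U hSeg f hf
  have F := hN L univ U hSeg
  choose m hm using fun i => ne_bot_iff.1 (hf i)
  obtain ⟨A, hA, hA'⟩ := hS L univ U hSeg m fun _ => subset_univ _
  obtain ⟨α, hα⟩ := head_nonempty hSeg.nm hA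
  obtain ⟨β, hβ, -, hαβ⟩ := F.pick A hA α trivial
  obtain ⟨-, h1, h2⟩ := hA' α hα β hβ hαβ
  refine ⟨α, β, hαβ.ne, ne_bot_iff.2 ⟨meet (m α) (m β), ?_⟩⟩
  exact ⟨mem_down (meet_le_left _ _) (hm α), mem_down (meet_le_right h1 h2) (hm β)⟩

end Pool.Agent.Work.MP_dbe197_lc

end

section

/-!
# No weak Kurepa trees
-/

namespace Pool.Agent.Work.MP_dbe197_lc

open Set Cardinal RO MM

/-- Countable subsets of `ω₁` are strictly bounded. -/
theorem KH_bdd (C : Set O1) (hC : C.Countable) : ∃ γ : O1, ∀ β ∈ C, β < γ := by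
  by_contra hcon
  push Not at hcon
  have h1 : IsCofinal C := fun γ => hcon γ
  have h2 : Order.cof O1 ≤ #C := Order.cof_le h1
  have h3 : Order.cof O1 = aleph 1 := by
    have e : Order.cof O1 = (aleph 1).ord.cof := Ordinal.cof_toType _
    rw [e]
    exact isRegular_aleph_one.cof_ord
  rw [h3] at h2
  have h4 : #C ≤ ℵ₀ := Cardinal.mk_le_aleph0_iff.2 hC.to_subtype
  have h5 : ℵ₀ < aleph 1 := aleph0_lt_aleph_one
  exact absurd (h2.trans h4) (not_le.2 h5)

theorem KH_mk_O1 : #O1 = aleph 1 := mk_ord_toType _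

/-- The cardinality of the nodes. -/
theorem KH_mk_node : #(O1 × O1) = aleph 1 := by
  rw [mk_prod, lift_id, KH_mk_O1]
  exact mul_eq_self aleph0_lt_aleph_one.le

section

variable {A : Type} [CompleteBooleanAlgebra A]

/-- The elements of a branch are closed downwards. -/
theorem KH_down {L W : Type} [LinearOrder L] {T : BTree A L W} {f : L × W → A} (hf : IsBr T f)
    {x y : L × W} (h : x.1 < y.1) : T.t x y ⊓ f y ≤ f x := by
  have h1 : T.t x y ⊓ f y = ⨆ w, T.t x y ⊓ f y ⊓ f (x.1, w) := by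
    rw [← inf_iSup_eq, hf.full, inf_top_eq]
  rw [h1]
  refine iSup_le fun w => ?_
  by_cases hw : (x.1, w) = x
  · rw [hw]; exact inf_le_right
  · have h2 : f (x.1, w) ⊓ f y ≤ T.t (x.1, w) y := hf.chain (x.1, w) y h
    have h3 : T.t x y ⊓ T.t (x.1, w) y = ⊥ := T.t_uniq x (x.1, w) y rfl (Ne.symm hw)
    have h4 : T.t x y ⊓ f y ⊓ f (x.1, w) ≤ T.t x y ⊓ T.t (x.1, w) y := by
      refine le_inf (inf_le_left.trans inf_le_left) ?_
      refine le_trans ?_ h2
      exact le_inf inf_le_right (inf_le_left.trans inf_le_right)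
    rw [h3] at h4
    exact h4.trans bot_le

theorem KH_beq_le {X : Type} (x y : X → A) (a : X) : beq x y ⊓ x a ≤ y a := by
  have h : beq x y ≤ (x a ⊓ y a) ⊔ ((x a)ᶜ ⊓ (y a)ᶜ) := iInf_le _ a
  calc beq x y ⊓ x a ≤ ((x a ⊓ y a) ⊔ ((x a)ᶜ ⊓ (y a)ᶜ)) ⊓ x a := inf_le_inf_right _ h
    _ = (x a ⊓ y a ⊓ x a) ⊔ ((x a)ᶜ ⊓ (y a)ᶜ ⊓ x a) := inf_sup_right _ _ _
    _ ≤ y a := by
      refine sup_le (inf_le_left.trans inf_le_right) ?_
      have : (x a)ᶜ ⊓ (y a)ᶜ ⊓ x a ≤ (x a)ᶜ ⊓ x a :=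
        le_inf (inf_le_left.trans inf_le_left) inf_le_right
      rw [compl_inf_self] at this
      exact this.trans bot_le

theorem KH_beq_comm {X : Type} (x y : X → A) : beq x y = beq y x := by
  unfold beq
  refine iInf_congr fun a => ?_
  rw [inf_comm (x a), inf_comm (x a)ᶜ]

/-- Two branches which are not equal are disjoint above some level. -/
theorem KH_split {L W : Type} [LinearOrder L] {T : BTree A L W} {f f' : L × W → A}
    (hf : IsBr T f) (hf' : IsBr T f') :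
    (beq f f')ᶜ ≤ ⨆ g : L, ⨅ x : L × W, ⨅ (_ : g < x.1), (f x ⊓ f' x)ᶜ := by
  rw [compl_le_iff_compl_le]
  refine le_iInf fun a => ?_
  have h1 : (⨆ g : L, ⨅ x : L × W, ⨅ (_ : g < x.1), (f x ⊓ f' x)ᶜ)ᶜ ≤
      ⨆ x : L × W, ⨆ (_ : a.1 < x.1), f x ⊓ f' x := by
    rw [compl_iSup]
    refine (iInf_le _ a.1).trans ?_
    rw [compl_iInf]
    refine iSup_mono fun x => ?_
    rw [compl_iInf]
    refine iSup_mono fun hx => ?_
    rw [compl_compl]
  refine h1.trans ?_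
  refine iSup_le fun x => iSup_le fun hx => ?_
  have e1 : ∀ F F' : L × W → A, IsBr T F → IsBr T F' → F x ⊓ F' x ⊓ F a ≤ F' a := by
    intro F F' hF hF'
    have a1 : F a ⊓ F x ≤ T.t a x := hF.chain a x hx
    refine le_trans ?_ (KH_down hF' hx)
    refine le_inf ?_ (inf_le_left.trans inf_le_right)
    refine le_trans ?_ a1
    exact le_inf inf_le_right (inf_le_left.trans inf_le_left)
  have e2 := e1 f f' hf hf'
  have e3 : f x ⊓ f' x ⊓ f' a ≤ f a := by
    have := e1 f' f hf' hf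
    rwa [inf_comm (f' x)] at this
  have e4 : f x ⊓ f' x = (f x ⊓ f' x ⊓ f a) ⊔ (f x ⊓ f' x ⊓ (f a)ᶜ) := by
    rw [← inf_sup_left, sup_compl_eq_top, inf_top_eq]
  rw [e4]
  refine sup_le (le_trans (le_inf inf_le_right e2) le_sup_left) (le_trans ?_ le_sup_right)
  refine le_inf inf_le_right ?_
  rw [le_compl_iff_disjoint_right, disjoint_iff_inf_le]
  have e5 : f x ⊓ f' x ⊓ (f a)ᶜ ⊓ f' a ≤ (f a)ᶜ ⊓ f a := by
    refine le_inf (inf_le_left.trans inf_le_right) ?_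
    refine le_trans ?_ e3
    exact le_inf (inf_le_left.trans inf_le_left) inf_le_right
  rwa [compl_inf_self] at e5

end

section

variable {𝔸 I B : Type} [CompleteBooleanAlgebra 𝔸] [CompleteBooleanAlgebra B]
  {E : Ext 𝔸 I B} {V : Set B} {h : ℕ → B → 𝔸}

theorem KH_mono (hh : Cov E V h) (n : ℕ) {b b' : B} (hb : b ≤ b') : h n b ≤ h n b' := by
  have := hh.inf n b b'
  rw [inf_eq_left.2 hb] at this
  exact inf_eq_left.1 this.symm

theorem KH_treeLike (hh : Cov E V h) (n : ℕ) {H W : Type} [LinearOrder H] (T : BTree B H W) :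
    TreeLike (fun x y => h n (T.t x y)) where
  lvl x y hxy := by
    show h n (T.t x y) = ⊥
    rw [T.t_lvl x y hxy, hh.bot]
  trans x y z := by
    show h n (T.t x y) ⊓ h n (T.t y z) ≤ h n (T.t x z)
    rw [← hh.inf]; exact KH_mono hh n (T.t_trans x y z)
  tree x y z hxy := by
    show h n (T.t x z) ⊓ h n (T.t y z) ≤ h n (T.t x y)
    rw [← hh.inf]; exact KH_mono hh n (T.t_tree x y z hxy)
  uniq x y z h1 h2 := by
    show h n (T.t x z) ⊓ h n (T.t y z) = ⊥
    rw [← hh.inf, T.t_uniq x y z h1 h2, hh.bot]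

theorem KH_br (hh : Cov E V h) (n : ℕ) {H W : Type} [LinearOrder H] {T : BTree B H W}
    {f : H × W → B} (hf : IsBr T f) (b0 : B) :
    Br (fun x y => h n (T.t x y)) (fun x => h n (f x ⊓ b0)) where
  coh x y hxy := by
    show h n (f x ⊓ b0) ⊓ h n (f y ⊓ b0) ≤ h n (T.t x y)
    rw [← hh.inf]
    exact KH_mono hh n (le_trans (inf_le_inf inf_le_left inf_le_left) (hf.chain x y hxy))
  uniq x y h1 h2 := by
    show h n (f x ⊓ b0) ⊓ h n (f y ⊓ b0) = ⊥
    rw [← hh.inf]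
    have : f x ⊓ b0 ⊓ (f y ⊓ b0) ≤ f x ⊓ f y := inf_le_inf inf_le_left inf_le_left
    rw [hf.uniq x y h1 h2] at this
    rw [le_bot_iff.1 this, hh.bot]
  down x y hxy := by
    show h n (T.t x y) ⊓ h n (f y ⊓ b0) ≤ h n (f x ⊓ b0)
    rw [← hh.inf]
    apply KH_mono hh n
    refine le_inf ?_ (inf_le_right.trans inf_le_right)
    exact le_trans (inf_le_inf_left _ inf_le_left) (KH_down hf hxy)

end

theorem KH_card {κ μ : Cardinal.{0}} (hκ : κ.IsInaccessible) (h1 : aleph 1 < κ) (hμ : μ < κ) :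
    ℵ₀ * μ ^ (aleph 1) < κ := by
  have hω : ℵ₀ ≤ κ := hκ.aleph0_lt.le
  have h2 : μ ^ (aleph 1) ≤ 2 ^ (max μ (aleph 1)) := by
    have h3 : μ ^ (aleph 1) ≤ (2 ^ (max μ (aleph 1))) ^ (max μ (aleph 1)) := by
      refine (power_le_power_right (c := aleph 1) ?_).trans
        (power_le_power_left (power_ne_zero _ two_ne_zero) (le_max_right _ _))
      exact (le_max_left _ _).trans (cantor _).le
    rw [← power_mul, mul_eq_self (aleph0_lt_aleph_one.le.trans (le_max_right _ _))] at h3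
    exact h3
  have h4 : (2 : Cardinal) ^ (max μ (aleph 1)) < κ :=
    hκ.isStrongPrelimit (max_lt hμ h1)
  exact mul_lt_of_lt hω hκ.aleph0_lt (h2.trans_lt h4)

theorem claimKH (hN : ClaimN) (hS : ClaimSmall) (hSun : ClaimSun) (hB : ClaimBdd)
    (hDL : ClaimDL) (hCov : ClaimCover) (hA : ClaimApp) : ClaimKH := by
  intro L _ _ U hU I B _ E _ T f hf
  have F := hN L Set.univ U hU
  have hκ : (#L).IsInaccessible := by
    have := hU.inacc.1
    rwa [mk_univ] at this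
  have h1L : aleph 1 < #L := by
    have := F.aleph1
    rwa [mk_univ, KH_mk_O1] at this
  have hωL : ℵ₀ ≤ #L := hκ.aleph0_lt.le
  by_contra hne
  set b0 : B := ⨅ i, ⨅ j, ⨅ (_ : i < j), (beq (f i) (f j))ᶜ with hb0
  obtain ⟨a, F0, ha, hab⟩ := E.cov_ex b0 hne
  obtain ⟨m0, hm0⟩ := ne_bot_iff.1 ha
  -- the covering maps
  let V : Set B := range (fun z : (O1 × O1) × (O1 × O1) => T.t z.1 z.2) ∪
    range (fun z : L × (O1 × O1) => f z.1 z.2 ⊓ b0)
  have hV : #V ≤ #L := by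
    refine (mk_union_le _ _).trans ?_
    refine (add_le_add mk_range_le mk_range_le).trans ?_
    have k1 : #((O1 × O1) × (O1 × O1)) = aleph 1 := by
      rw [mk_prod, lift_id, KH_mk_node]
      exact mul_eq_self aleph0_lt_aleph_one.le
    have k2 : #(L × (O1 × O1)) = #L := by
      rw [mk_prod, lift_id, lift_id, KH_mk_node]
      exact mul_eq_left hωL h1L.le (aleph_pos _).ne'
    rw [k1, k2, add_eq_right hωL h1L.le]
  obtain ⟨h, hh⟩ := hCov L U hU I B E V hV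
  have hR : ∀ n, TreeLike (fun x y => h n (T.t x y)) := fun n => KH_treeLike hh n T
  have hd : ∀ i n, Br (fun x y => h n (T.t x y)) (fun x => h n (f i x ⊓ b0)) :=
    fun i n => KH_br hh n (hf i) b0
  -- the bound
  have hδ : ∃ δ : L, ∀ n x y, DepM (Iio δ) (h n (T.t x y)) := by
    have h1 : ∀ z : ℕ × ((O1 × O1) × (O1 × O1)), ∃ β : L,
        DepM (Iio β) (h z.1 (T.t z.2.1 z.2.2)) := by
      intro z
      obtain ⟨β, _, hβ⟩ := hB L Set.univ U hU (h z.1 (T.t z.2.1 z.2.2)) (DepM.univ _)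
      exact ⟨β, hβ⟩
    choose g hg using h1
    have h2 : #(range g) < #(Set.univ : Set L) := by
      rw [mk_univ]
      refine mk_range_le.trans_lt ?_
      have k1 : #((O1 × O1) × (O1 × O1)) = aleph 1 := by
        rw [mk_prod, lift_id, KH_mk_node]
        exact mul_eq_self aleph0_lt_aleph_one.le
      rw [mk_prod, lift_id, lift_id, k1, mk_nat]
      rw [aleph0_mul_eq aleph0_lt_aleph_one.le]
      exact h1L
    obtain ⟨δ, _, hδ⟩ := F.bdd (range g) (subset_univ _) h2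
    refine ⟨δ, fun n x y => ?_⟩
    exact DepM.mono (Iio_subset_Iio (hδ _ ⟨(n, (x, y)), rfl⟩).le) (hg (n, (x, y)))
  obtain ⟨δ, hδ⟩ := hδ
  -- step 1
  have step1 : ∀ i : L, ∃ n : ℕ, ∃ m ≤ m0, ∀ g : O1,
      m ∈ ⨆ x : O1 × O1, ⨆ (_ : g < x.1), h n (f i x ⊓ b0) := by
    intro i
    by_contra hcon
    push Not at hcon
    have h1 : ∀ n, (Ext.triv (RO (MM L)) I).i (gen ⟨m0.p, m0.q⟩) ≤
        ⨆ g : O1, (⨆ x : O1 × O1, ⨆ (_ : g < x.1), h n (f i x ⊓ b0))ᶜ := by
      intro n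
      show gen _ ≤ _
      rw [gen_le_iff, mem_iSup]
      intro m hm
      obtain ⟨g, hg⟩ := hcon n m hm
      obtain ⟨m', hm', hm''⟩ := not_mem_iff.1 hg
      exact ⟨m', hm', g, hm''⟩
    obtain ⟨q, hq, C, hC, hqC⟩ := hDL L I (RO (MM L)) (Ext.triv (RO (MM L)) I) O1
      (fun n g => (⨆ x : O1 × O1, ⨆ (_ : g < x.1), h n (f i x ⊓ b0))ᶜ) m0.p m0.q h1
    obtain ⟨g0, hg0⟩ := KH_bdd C hC
    obtain ⟨g1, hg1⟩ := KH_bdd {g0} (countable_singleton _)
    have hg1 : g0 < g1 := hg1 g0 rfl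
    have h2 : ∀ n, (gen ⟨m0.p, q⟩ : RO (MM L)) ≤
        (⨆ x : O1 × O1, ⨆ (_ : g0 < x.1), h n (f i x ⊓ b0))ᶜ := by
      intro n
      refine (hqC n).trans (iSup_le fun g => iSup_le fun hg => ?_)
      apply compl_le_compl
      refine iSup_le fun x => iSup_le fun hx => ?_
      exact le_iSup_of_le x (le_iSup_of_le ((hg0 g hg).trans hx) le_rfl)
    have h3 : b0 ⊓ E.i (gen ⟨m0.p, q⟩) ≠ ⊥ := by
      intro h4
      have h5 : (gen ⟨m0.p, q⟩ : RO (MM L)) ≤ a := by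
        rw [gen_le_iff]
        exact mem_down (mk_le_mk le_rfl hq) hm0
      have h6 := E.cov_mono _ _ _ _ _ _ hab h5 le_rfl le_rfl
      have h7 := E.cov_inf _ _ _ _ h6 ((E.cov_i (gen ⟨m0.p, q⟩) (gen ⟨m0.p, q⟩) F0).2 le_rfl)
      rw [h4] at h7
      exact gen_ne_bot _ (E.cov_bot _ _ h7)
    have h4 : ∃ w, f i (g1, w) ⊓ b0 ⊓ E.i (gen ⟨m0.p, q⟩) ≠ ⊥ := by
      by_contra h5
      push Not at h5
      apply h3
      have h6 : b0 ⊓ E.i (gen ⟨m0.p, q⟩) =
          ⨆ w, b0 ⊓ E.i (gen ⟨m0.p, q⟩) ⊓ f i (g1, w) := by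
        rw [← inf_iSup_eq, (hf i).full, inf_top_eq]
      rw [h6]
      refine le_bot_iff.1 (iSup_le fun w => ?_)
      rw [← h5 w]
      exact le_inf (le_inf inf_le_right (inf_le_left.trans inf_le_left))
        (inf_le_left.trans inf_le_right)
    obtain ⟨w, hw⟩ := h4
    obtain ⟨n, hn⟩ := hh.cov (f i (g1, w) ⊓ b0) (Or.inr ⟨(i, (g1, w)), rfl⟩) _ hw
    apply hn
    rw [← le_bot_iff]
    have h5 : h n (f i (g1, w) ⊓ b0) ≤
        ⨆ x : O1 × O1, ⨆ (_ : g0 < x.1), h n (f i x ⊓ b0) :=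
      le_iSup_of_le (g1, w) (le_iSup (fun _ : g0 < (g1, w).1 => h n (f i (g1, w) ⊓ b0)) hg1)
    refine le_trans (inf_le_inf h5 (h2 n)) ?_
    rw [inf_compl_self]
  choose n0 m1 hm1 hunb using step1
  -- step 2
  have step2 : ∀ i : L, ∃ m ≤ m0, ∃ ν : O1 × O1 → {c : RO (MM L) | DepM (Iio δ) c},
      (∀ g : O1, m ∈ ⨆ x : O1 × O1, ⨆ (_ : g < x.1), h (n0 i) (f i x ⊓ b0)) ∧
      m ∈ beq (fun x => h (n0 i) (f i x ⊓ b0)) (fun x => (ν x).1) := by
    intro i
    obtain ⟨m, hm, ν, hν1, _, hν3⟩ := hA L O1 O1 δ (fun x y => h (n0 i) (T.t x y))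
      (fun x => h (n0 i) (f i x ⊓ b0)) (m1 i)
      ⟨KH_bdd, hR (n0 i), hδ (n0 i), hd i (n0 i), hunb i⟩
    exact ⟨m, hm.trans (hm1 i), fun x => ⟨ν x, hν1 x⟩, fun g => mem_down hm (hunb i g), hν3⟩
  choose m2 hm2 ν hunb2 hν using step2
  have hX : #(ℕ × (O1 × O1 → {c : RO (MM L) | DepM (Iio δ) c})) < #(Set.univ : Set L) := by
    rw [mk_univ, mk_prod, lift_id, lift_id, mk_nat, ← power_def, KH_mk_node]
    refine KH_card hκ h1L ?_
    have := (hS L Set.univ hU.low hU.inacc δ (mem_univ _)).2.2.2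
    rwa [mk_univ] at this
  obtain ⟨x, hx⟩ := F.const _ (fun i => (n0 i, ν i)) hX
  obtain ⟨A, hAU, hAc⟩ := hSun L Set.univ U hU m2 (fun _ => subset_univ _)
  have hAx := F.inter2 _ _ hx hAU
  obtain ⟨i, ⟨hi1, hi2⟩, _, _⟩ := F.pick _ hAx δ (mem_univ _)
  obtain ⟨j, ⟨hj1, hj2⟩, _, hij⟩ := F.pick _ hAx i (mem_univ _)
  obtain ⟨_, hc1, hc2⟩ := hAc i hi2 j hj2 hij
  have hi1 : (n0 i, ν i) = x := hi1
  have hj1 : (n0 j, ν j) = x := hj1
  have hnij : n0 j = n0 i := congrArg Prod.fst (hj1.trans hi1.symm)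
  have hνij : ν j = ν i := congrArg Prod.snd (hj1.trans hi1.symm)
  set m : MM L := meet (m2 i) (m2 j) with hm
  have hmi : m ≤ m2 i := meet_le_left _ _
  have hmj : m ≤ m2 j := meet_le_right hc1 hc2
  have e1 : m ∈ beq (fun x => h (n0 i) (f i x ⊓ b0)) (fun x => (ν i x).1) :=
    mem_down hmi (hν i)
  have e2 : m ∈ beq (fun x => h (n0 i) (f j x ⊓ b0)) (fun x => (ν i x).1) := by
    have := mem_down hmj (hν j)
    rwa [hnij, hνij] at this
  have e3 : ∀ m' ≤ m, ∀ x, m' ∈ h (n0 i) (f i x ⊓ b0) → m' ∈ h (n0 i) (f j x ⊓ b0) := by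
    intro m' hm' x hx
    have a1 : m' ∈ (ν i x).1 := KH_beq_le (fun x => h (n0 i) (f i x ⊓ b0))
      (fun x => (ν i x).1) x m' ⟨mem_down hm' e1, hx⟩
    have e2' := e2
    rw [KH_beq_comm] at e2'
    exact KH_beq_le (fun x => (ν i x).1) (fun x => h (n0 i) (f j x ⊓ b0)) x m'
      ⟨mem_down hm' e2', a1⟩
  -- step 3
  have hbe : b0 ≤ ⨆ g : O1, ⨅ x : O1 × O1, ⨅ (_ : g < x.1), (f i x ⊓ f j x)ᶜ := by
    refine le_trans ?_ (KH_split (hf i) (hf j))
    exact (iInf_le _ i).trans ((iInf_le _ j).trans (iInf_le _ hij))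
  have h1 : ∀ _ : ℕ, E.i (gen ⟨m.p, m.q⟩) ≤
      ⨆ g : O1, (⨅ x : O1 × O1, ⨅ (_ : g < x.1), (f i x ⊓ f j x)ᶜ) ⊔ b0ᶜ := by
    intro _
    refine le_top.trans ?_
    rw [← sup_compl_eq_top (x := b0)]
    refine sup_le (hbe.trans (iSup_mono fun g => le_sup_left)) ?_
    exact le_iSup_of_le (Classical.choose (KH_bdd ∅ countable_empty)) le_sup_right
  obtain ⟨q, hq, C, hC, hqC⟩ := hDL L I B E O1
    (fun _ g => (⨅ x : O1 × O1, ⨅ (_ : g < x.1), (f i x ⊓ f j x)ᶜ) ⊔ b0ᶜ) m.p m.q h1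
  obtain ⟨g0, hg0⟩ := KH_bdd C hC
  have h2 : E.i (gen ⟨m.p, q⟩) ≤ (⨅ x : O1 × O1, ⨅ (_ : g0 < x.1), (f i x ⊓ f j x)ᶜ) ⊔ b0ᶜ := by
    refine (hqC 0).trans (iSup_le fun g => iSup_le fun hg => ?_)
    refine sup_le_sup_right ?_ _
    refine le_iInf fun x => le_iInf fun hx => ?_
    exact (iInf_le _ x).trans (iInf_le _ ((hg0 g hg).trans hx))
  have hm' : (⟨m.p, q⟩ : MM L) ≤ m := mk_le_mk le_rfl hq
  have h3 := mem_down (hm'.trans hmi) (hunb2 i g0)
  obtain ⟨m3, hm3, x, hx3⟩ := mem_iSup.1 h3 _ le_rfl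
  obtain ⟨m4, hm4, hgx, hx4⟩ := mem_iSup.1 hx3 _ le_rfl
  have h5 : m4 ≤ (⟨m.p, q⟩ : MM L) := hm4.trans hm3
  have h6 : m4 ∈ h (n0 i) (f j x ⊓ b0) := e3 m4 (h5.trans hm') x hx4
  have h7 : m4 ∈ h (n0 i) (f i x ⊓ b0 ⊓ (f j x ⊓ b0) ⊓ E.i (gen ⟨m.p, q⟩)) := by
    rw [hh.inf, hh.inf, hh.base]
    exact ⟨⟨hx4, h6⟩, mem_gen_of_le h5⟩
  have h8 : f i x ⊓ b0 ⊓ (f j x ⊓ b0) ⊓ E.i (gen ⟨m.p, q⟩) = ⊥ := by
    rw [← le_bot_iff]
    have h9 : E.i (gen ⟨m.p, q⟩) ≤ (f i x ⊓ f j x)ᶜ ⊔ b0ᶜ := by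
      refine h2.trans (sup_le_sup_right ?_ _)
      exact (iInf_le _ x).trans (iInf_le _ hgx)
    have h10 : f i x ⊓ b0 ⊓ (f j x ⊓ b0) ≤ ((f i x ⊓ f j x)ᶜ ⊔ b0ᶜ)ᶜ := by
      rw [compl_sup, compl_compl, compl_compl]
      exact le_inf (inf_le_inf inf_le_left inf_le_left) (inf_le_left.trans inf_le_right)
    refine (inf_le_inf h10 h9).trans ?_
    rw [compl_inf_self]
  rw [h8, hh.bot] at h7
  exact not_mem_bot _ h7

end Pool.Agent.Work.MP_dbe197_lc

end
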