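import Pool.Agent.Work.MP_dbe197_lc.Stmts
import Pool.Agent.Work.MP_dbe197_lc.StmtsA

/-! Bundle of small proof modules (one section per former module). -/

section

/-!
# MP_dbe197_lc, item T4: thin subtrees have local branches (Kurepa)
-/

namespace Pool.Agent.Work.MP_dbe197_lc

open Set Cardinal RO MM

section

variable {B : Type} [CompleteBooleanAlgebra B]

theorem Kur_cases {ι : Sort*} {P Q : B} {c : ι → B} (h : P ≤ ⨆ i, c i)
    (h2 : ∀ i, P ⊓ c i ≤ Q) : P ≤ Q := by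
  calc P = P ⊓ ⨆ i, c i := (inf_eq_left.2 h).symm
    _ = ⨆ i, P ⊓ c i := inf_iSup_eq _ _
    _ ≤ Q := iSup_le h2

theorem Kur_imp {a P b : B} (h : a ⊓ P ≤ b) : P ≤ aᶜ ⊔ b := by
  rw [sup_comm, ← himp_eq, le_himp_iff, inf_comm]
  exact h

variable {L : Type} [LinearOrder L] (T : BTree B L O1) (z : ℕ → L × O1 → B) (γs : L)

theorem Kur_thin_D (x : L × O1) : thin T z γs x ≤ T.D x := inf_le_left.trans inf_le_left

theorem Kur_thin_z (x : L × O1) : thin T z γs x ≤ ⨆ k, z k x := inf_le_left.trans inf_le_right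

theorem Kur_down (x y : L × O1) (h : γs < y.1) : T.t y x ⊓ thin T z γs x ≤ thin T z γs y := by
  have hthird : ∀ y' : L × O1, γs < y'.1 → T.t y' x ⊓ thin T z γs x ≤ ⨆ k, z k y' := by
    intro y' hy'
    have h1 : thin T z γs x ≤ (T.t y' x)ᶜ ⊔ ⨆ k, z k y' :=
      inf_le_right.trans ((iInf_le _ y').trans (iInf_le _ hy'))
    calc T.t y' x ⊓ thin T z γs x ≤ T.t y' x ⊓ ((T.t y' x)ᶜ ⊔ ⨆ k, z k y') :=
          inf_le_inf_left _ h1
      _ = T.t y' x ⊓ ⨆ k, z k y' := by rw [inf_sup_left, inf_compl_self, bot_sup_eq]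
      _ ≤ _ := inf_le_right
  rw [thin.eq_def T z γs y]
  refine le_inf (le_inf ?_ (hthird y h)) ?_
  · exact inf_le_left.trans ((T.t_le y x).trans inf_le_left)
  · refine le_iInf fun y' => le_iInf fun hy' => Kur_imp ?_
    have h2 := T.t_trans y' y x
    have h3 := hthird y' hy'
    order

/-- value of: two nodes of the thin tree of level `δ` enumerated by `k` and `l` have different
predecessors at level `a` -/
def KurK (δ : L) (k l : ℕ) (a : L) : B :=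
  ⨆ (v : O1) (v' : O1) (ξ : O1) (ξ' : O1) (_ : ξ ≠ ξ'),
    (z k (δ, v) ⊓ z l (δ, v')) ⊓ (thin T z γs (δ, v) ⊓ thin T z γs (δ, v')) ⊓
      (T.t (a, ξ) (δ, v) ⊓ T.t (a, ξ') (δ, v'))

theorem Kur_K_le {δ : L} {k l : ℕ} {a : L} (v v' ξ ξ' : O1) (h : ξ ≠ ξ') :
    (z k (δ, v) ⊓ z l (δ, v')) ⊓ (thin T z γs (δ, v) ⊓ thin T z γs (δ, v')) ⊓
      (T.t (a, ξ) (δ, v) ⊓ T.t (a, ξ') (δ, v')) ≤ KurK T z γs δ k l a :=
  le_iSup_of_le v (le_iSup_of_le v' (le_iSup_of_le ξ (le_iSup_of_le ξ' (le_iSup_of_le h le_rfl))))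

theorem Kur_mono {δ : L} {k l : ℕ} {a a' : L} (h : a < a') (h' : a' < δ) :
    KurK T z γs δ k l a ≤ KurK T z γs δ k l a' := by
  rw [KurK]
  refine iSup_le fun v => iSup_le fun v' => iSup_le fun ξ => iSup_le fun ξ' =>
    iSup_le fun hne => ?_
  have p1 : T.D (δ, v) ≤ ⨆ ζ, T.t (a', ζ) (δ, v) := T.t_pred (δ, v) a' h'
  have p2 : T.D (δ, v') ≤ ⨆ ζ, T.t (a', ζ) (δ, v') := T.t_pred (δ, v') a' h'
  have s1 := Kur_thin_D T z γs (δ, v)
  have s2 := Kur_thin_D T z γs (δ, v')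
  refine Kur_cases (c := fun ζ => T.t (a', ζ) (δ, v)) (by order) fun ζ => ?_
  refine Kur_cases (c := fun ζ => T.t (a', ζ) (δ, v')) (by order) fun ζ' => ?_
  by_cases hζ : ζ = ζ'
  · subst hζ
    have q1 : T.t (a, ξ) (δ, v) ⊓ T.t (a', ζ) (δ, v) ≤ T.t (a, ξ) (a', ζ) :=
      T.t_tree (a, ξ) (a', ζ) (δ, v) h
    have q2 : T.t (a, ξ') (δ, v') ⊓ T.t (a', ζ) (δ, v') ≤ T.t (a, ξ') (a', ζ) :=
      T.t_tree (a, ξ') (a', ζ) (δ, v') h
    have q3 : T.t (a, ξ) (a', ζ) ⊓ T.t (a, ξ') (a', ζ) = ⊥ :=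
      T.t_uniq (a, ξ) (a, ξ') (a', ζ) rfl (fun h => hne (Prod.ext_iff.1 h).2)
    have q4 : T.t (a, ξ) (a', ζ) ⊓ T.t (a, ξ') (a', ζ) ≤ KurK T z γs δ k l a' := by
      rw [q3]
      exact bot_le
    order
  · have := Kur_K_le T z γs (δ := δ) (k := k) (l := l) (a := a') v v' ζ ζ' hζ
    order

/-- unique traces -/
theorem Kur_trace {δ γp : L} {w0 : O1} {c : B} (hz : ∀ k x y, x.1 = y.1 → x ≠ y →
      z k x ⊓ z k y = ⊥)
    (hc : ∀ k l a, a < δ → c ⊓ KurK T z γs δ k l a ≤ KurK T z γs δ k l γp)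
    (v v' : O1) (x : L × O1) (hx : x.1 < δ) :
    c ⊓ (thin T z γs (δ, v) ⊓ T.t (γp, w0) (δ, v)) ⊓
      (thin T z γs (δ, v') ⊓ T.t (γp, w0) (δ, v')) ⊓ T.t x (δ, v) ≤ T.t x (δ, v') := by
  have s1 := Kur_thin_z T z γs (δ, v)
  have s2 := Kur_thin_z T z γs (δ, v')
  have s3 := Kur_thin_D T z γs (δ, v')
  have p2 : T.D (δ, v') ≤ ⨆ ζ, T.t (x.1, ζ) (δ, v') := T.t_pred (δ, v') x.1 hx
  refine Kur_cases (c := fun ζ => T.t (x.1, ζ) (δ, v')) (by order) fun ζ => ?_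
  by_cases hζ : ζ = x.2
  · subst hζ
    exact inf_le_right
  · refine Kur_cases (c := fun k => z k (δ, v)) (by order) fun k => ?_
    refine Kur_cases (c := fun k => z k (δ, v')) (by order) fun l => ?_
    have h1 : (z k (δ, v) ⊓ z l (δ, v')) ⊓ (thin T z γs (δ, v) ⊓ thin T z γs (δ, v')) ⊓
      (T.t (x.1, x.2) (δ, v) ⊓ T.t (x.1, ζ) (δ, v')) ≤ KurK T z γs δ k l x.1 :=
      Kur_K_le T z γs v v' x.2 ζ (Ne.symm hζ)
    have h1' : T.t (x.1, x.2) (δ, v) = T.t x (δ, v) := rfl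
    rw [h1'] at h1
    have h2 := hc k l x.1 hx
    have h3 : KurK T z γs δ k l γp ≤ KurK T z γs δ k l γp := le_rfl
    nth_rw 2 [KurK] at h3
    refine Kur_cases (h3.trans' (by order)) fun u => ?_
    refine Kur_cases inf_le_right fun u' => ?_
    refine Kur_cases inf_le_right fun η => ?_
    refine Kur_cases inf_le_right fun η' => ?_
    refine Kur_cases inf_le_right fun hη => ?_
    by_cases hu : (δ, u) = (δ, v)
    · by_cases hu' : (δ, u') = (δ, v')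
      · rw [hu, hu']
        by_cases hη1 : η = w0
        · have hη2 : η' ≠ w0 := fun h => hη (hη1.trans h.symm)
          have q3 : T.t (γp, η') (δ, v') ⊓ T.t (γp, w0) (δ, v') = ⊥ :=
            T.t_uniq (γp, η') (γp, w0) (δ, v') rfl (fun h => hη2 (Prod.ext_iff.1 h).2)
          have q4 : T.t (γp, η') (δ, v') ⊓ T.t (γp, w0) (δ, v') ≤ T.t x (δ, v') := by
            rw [q3]
            exact bot_le
          order
        · have q3 : T.t (γp, η) (δ, v) ⊓ T.t (γp, w0) (δ, v) = ⊥ :=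
            T.t_uniq (γp, η) (γp, w0) (δ, v) rfl (fun h => hη1 (Prod.ext_iff.1 h).2)
          have q4 : T.t (γp, η) (δ, v) ⊓ T.t (γp, w0) (δ, v) ≤ T.t x (δ, v') := by
            rw [q3]
            exact bot_le
          order
      · have q3 : z l (δ, u') ⊓ z l (δ, v') ≤ T.t x (δ, v') := by
          rw [hz l (δ, u') (δ, v') rfl hu']
          exact bot_le
        order
    · have q3 : z k (δ, u) ⊓ z k (δ, v) ≤ T.t x (δ, v') := by
        rw [hz k (δ, u) (δ, v) rfl hu]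
        exact bot_le
      order

/-- the trace below `δ` of the nodes of the thin tree above `zz` of level `δ` -/
def KurG (zz : L × O1) (c : B) (δ : L) (x : L × O1) : B :=
  ⨆ v : O1, c ⊓ (thin T z γs (δ, v) ⊓ T.t zz (δ, v)) ⊓ T.t x (δ, v)

/-- the uniqueness of traces, as a property of `c` -/
def KurTr (zz : L × O1) (c : B) (δ : L) : Prop := ∀ (v v' : O1) (x : L × O1), x.1 < δ →
    c ⊓ (thin T z γs (δ, v) ⊓ T.t zz (δ, v)) ⊓
      (thin T z γs (δ, v') ⊓ T.t zz (δ, v')) ⊓ T.t x (δ, v) ≤ T.t x (δ, v')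

theorem Kur_G_le {zz : L × O1} {c : B} {δ : L} {x : L × O1} (v : O1) :
    c ⊓ (thin T z γs (δ, v) ⊓ T.t zz (δ, v)) ⊓ T.t x (δ, v) ≤ KurG T z γs zz c δ x :=
  le_iSup (fun v : O1 => c ⊓ (thin T z γs (δ, v) ⊓ T.t zz (δ, v)) ⊓ T.t x (δ, v)) v

theorem Kur_G_D {zz : L × O1} {c : B} {δ : L} {x : L × O1} :
    KurG T z γs zz c δ x ≤ T.D x := by
  refine iSup_le fun v => ?_
  have := T.t_le x (δ, v)
  order

theorem Kur_G_c {zz : L × O1} {c : B} {δ : L} {x : L × O1} :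
    KurG T z γs zz c δ x ≤ c := by
  refine iSup_le fun v => ?_
  order

theorem Kur_G_trace {zz : L × O1} {c : B} {δ : L} (hT : KurTr T z γs zz c δ) {x : L × O1}
    (hx : x.1 < δ) (v : O1) :
    KurG T z γs zz c δ x ⊓ (thin T z γs (δ, v) ⊓ T.t zz (δ, v)) ≤ T.t x (δ, v) := by
  rw [KurG, iSup_inf_eq]
  refine iSup_le fun v' => ?_
  have := hT v' v x hx
  order

theorem Kur_G_chain {zz : L × O1} {c : B} {δ : L} (hT : KurTr T z γs zz c δ) {x x' : L × O1}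
    (hx : x.1 < δ) (hxx : x.1 < x'.1) :
    KurG T z γs zz c δ x ⊓ KurG T z γs zz c δ x' ≤ T.t x x' := by
  refine Kur_cases (c := fun v : O1 => c ⊓ (thin T z γs (δ, v) ⊓ T.t zz (δ, v)) ⊓ T.t x' (δ, v))
    inf_le_right fun v => ?_
  have h1 := Kur_G_trace T z γs hT hx v
  have h2 := T.t_tree x x' (δ, v) hxx
  order

theorem Kur_G_uniq {zz : L × O1} {c : B} {δ : L} (hT : KurTr T z γs zz c δ) {x x' : L × O1}
    (hx : x.1 < δ) (hxx : x.1 = x'.1) (hne : x ≠ x') :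
    KurG T z γs zz c δ x ⊓ KurG T z γs zz c δ x' ≤ ⊥ := by
  refine Kur_cases (c := fun v : O1 => c ⊓ (thin T z γs (δ, v) ⊓ T.t zz (δ, v)) ⊓ T.t x' (δ, v))
    inf_le_right fun v => ?_
  have h1 := Kur_G_trace T z γs hT hx v
  have h2 := (T.t_uniq x x' (δ, v) hxx hne).le
  order

/-- going up -/
theorem Kur_G1 {zz : L × O1} {c c' : B} {δ δ' : L} (hT : KurTr T z γs zz c δ)
    (hδ : δ < δ') (hγ : γs < δ) (hzz : zz.1 < δ)
    (hc' : c' ≤ ⨆ v : O1, thin T z γs (δ', v) ⊓ T.t zz (δ', v)) {x : L × O1} (hx : x.1 < δ) :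
    KurG T z γs zz c δ x ⊓ c' ≤ KurG T z γs zz c' δ' x := by
  refine Kur_cases (c := fun v : O1 => thin T z γs (δ', v) ⊓ T.t zz (δ', v))
    (inf_le_right.trans hc') fun v => ?_
  have h1 := Kur_thin_D T z γs (δ', v)
  have h2 : T.D (δ', v) ≤ ⨆ u, T.t (δ, u) (δ', v) := T.t_pred (δ', v) δ hδ
  refine Kur_cases (c := fun u => T.t (δ, u) (δ', v)) (by order) fun u => ?_
  have h3 := Kur_down T z γs (δ', v) (δ, u) hγ
  have h4 : T.t zz (δ', v) ⊓ T.t (δ, u) (δ', v) ≤ T.t zz (δ, u) :=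
    T.t_tree zz (δ, u) (δ', v) hzz
  have h5 := Kur_G_trace T z γs hT hx u
  have h6 := T.t_trans x (δ, u) (δ', v)
  have h7 := Kur_G_le T z γs (zz := zz) (c := c') (δ := δ') (x := x) v
  order

/-- going down -/
theorem Kur_G2 {zz : L × O1} {c c' : B} {δ δ' : L}
    (hδ : δ < δ') (hγ : γs < δ) (hzz : zz.1 < δ) {x : L × O1} (hx : x.1 < δ) :
    KurG T z γs zz c' δ' x ⊓ c ≤ KurG T z γs zz c δ x := by
  refine Kur_cases (c := fun v : O1 => c' ⊓ (thin T z γs (δ', v) ⊓ T.t zz (δ', v)) ⊓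
    T.t x (δ', v)) inf_le_left fun v => ?_
  have h1 := Kur_thin_D T z γs (δ', v)
  have h2 : T.D (δ', v) ≤ ⨆ u, T.t (δ, u) (δ', v) := T.t_pred (δ', v) δ hδ
  refine Kur_cases (c := fun u => T.t (δ, u) (δ', v)) (by order) fun u => ?_
  have h3 := Kur_down T z γs (δ', v) (δ, u) hγ
  have h4 : T.t zz (δ', v) ⊓ T.t (δ, u) (δ', v) ≤ T.t zz (δ, u) :=
    T.t_tree zz (δ, u) (δ', v) hzz
  have h5 : T.t x (δ', v) ⊓ T.t (δ, u) (δ', v) ≤ T.t x (δ, u) :=
    T.t_tree x (δ, u) (δ', v) hx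
  have h7 := Kur_G_le T z γs (zz := zz) (c := c) (δ := δ) (x := x) u
  order

/-- all predecessors -/
theorem Kur_G_full {zz : L × O1} {c : B} {δ : L}
    (hc : c ≤ ⨆ v : O1, thin T z γs (δ, v) ⊓ T.t zz (δ, v)) {α : L} (hα : α < δ) :
    c ≤ ⨆ w, KurG T z γs zz c δ (α, w) := by
  refine Kur_cases hc fun v => ?_
  have h1 := Kur_thin_D T z γs (δ, v)
  have h2 : T.D (δ, v) ≤ ⨆ u, T.t (α, u) (δ, v) := T.t_pred (δ, v) α hα
  refine Kur_cases (c := fun u => T.t (α, u) (δ, v)) (by order) fun u => ?_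
  have h7 := Kur_G_le T z γs (zz := zz) (c := c) (δ := δ) (x := (α, u)) v
  have h8 := le_iSup (fun w => KurG T z γs zz c δ (α, w)) u
  order

end

/-- the use of the countable covering lemma below `δ` -/
theorem Kur_step (hN : ClaimN) (hDL : ClaimDL) {L : Type} [LinearOrder L] [WellFoundedLT L]
    {I B : Type} [CompleteBooleanAlgebra B] (E : Ext (RO (MM L)) I B) (T : BTree B L O1)
    (z : ℕ → L × O1 → B) (γs : L) (p : Fn (L × ℕ) Bool) (q0 : TT L) {δ : L} (hδ : Ms δ)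
    (hγ : γs < δ) : ∃ q ≤ q0, ∃ g, g < δ ∧ γs < g ∧
      ∀ k l a, a < δ → E.i (gen ⟨p, q⟩) ⊓ KurK T z γs δ k l a ≤ KurK T z γs δ k l g := by
  obtain ⟨W, hW⟩ := hδ
  have hF := hN L (Iio δ) W hW
  set D : ℕ → {a : L // a < δ} → B := fun n a =>
    KurK T z γs δ n.unpair.1 n.unpair.2 a ⊔
      (⨆ a' : {a : L // a < δ}, KurK T z γs δ n.unpair.1 n.unpair.2 a')ᶜ with hD
  obtain ⟨q, hq, C, hC, hcov⟩ := hDL L I B E {a : L // a < δ} D p q0 (by
    intro n
    refine le_trans le_top ?_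
    rw [← sup_compl_eq_top (x := ⨆ a' : {a : L // a < δ},
      KurK T z γs δ n.unpair.1 n.unpair.2 a')]
    refine sup_le (iSup_mono fun a => le_sup_left) ?_
    exact le_iSup_of_le ⟨γs, hγ⟩ le_sup_right)
  obtain ⟨g, hg, hgC⟩ := hF.bddN (Subtype.val '' C ∪ {γs}) (by
    rintro x (⟨a, _, rfl⟩ | hx)
    · exact a.2
    · rw [mem_singleton_iff] at hx
      rw [hx]
      exact hγ) ((hC.image _).union (countable_singleton _))
  refine ⟨q, hq, g, hg, hgC γs (Or.inr rfl), ?_⟩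
  intro k l a ha
  have h1 := hcov (Nat.pair k l)
  have h2 : (⨆ j ∈ C, D (Nat.pair k l) j) ≤ KurK T z γs δ k l g ⊔
      (⨆ a' : {a : L // a < δ}, KurK T z γs δ k l a')ᶜ := by
    refine iSup_le fun j => iSup_le fun hj => ?_
    rw [hD]
    simp only [Nat.unpair_pair]
    refine sup_le_sup ?_ le_rfl
    exact Kur_mono T z γs (hgC j (Or.inl ⟨j, hj, rfl⟩)) hg
  have h3 : KurK T z γs δ k l a ≤ ⨆ a' : {a : L // a < δ}, KurK T z γs δ k l a' :=
    le_iSup (fun a' : {a : L // a < δ} => KurK T z γs δ k l a') ⟨a, ha⟩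
  calc E.i (gen ⟨p, q⟩) ⊓ KurK T z γs δ k l a
      ≤ (KurK T z γs δ k l g ⊔ (⨆ a' : {a : L // a < δ}, KurK T z γs δ k l a')ᶜ) ⊓
        (⨆ a' : {a : L // a < δ}, KurK T z γs δ k l a') := inf_le_inf (h1.trans h2) h3
    _ = KurK T z γs δ k l g ⊓ (⨆ a' : {a : L // a < δ}, KurK T z γs δ k l a') := by
        rw [inf_sup_right, compl_inf_self, sup_bot_eq]
    _ ≤ _ := inf_le_left

theorem claimKur (hN : ClaimN) (hDL : ClaimDL) (hCl : ClaimClubU) : ClaimKur := by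
  classical
  intro L _ _ U hseg hMs I B _ E hCC T b z γs hb hz hthin
  have hF := hN L univ U hseg
  obtain ⟨a, F, ha, hcov⟩ := E.cov_ex b hb
  obtain ⟨m, hm⟩ := ne_bot_iff.1 ha
  set p := m.p with hp
  set q0 := m.q with hq0
  have hgen : gen (⟨p, q0⟩ : MM L) ≤ a := gen_le_iff.2 hm
  -- the nonzero elements
  have hbne : ∀ q ≤ q0, b ⊓ E.i (gen ⟨p, q⟩) ≠ ⊥ := by
    intro q hq h
    have h1 : gen (⟨p, q⟩ : MM L) ≤ a := (gen_mono (mk_le_mk le_rfl hq)).trans hgen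
    have h2 : E.cov (gen ⟨p, q⟩) F b := E.cov_mono _ _ _ _ _ _ hcov h1 le_rfl le_rfl
    have h3 : E.cov (gen ⟨p, q⟩) F (E.i (gen ⟨p, q⟩)) := (E.cov_i _ _ _).2 le_rfl
    have h4 := E.cov_inf _ _ _ _ h2 h3
    rw [h] at h4
    exact gen_ne_bot _ (E.cov_bot _ _ h4)
  -- the step
  set A0 : Set L := {δ | Ms δ ∧ γs < δ} with hA0
  have hA0U : A0 ∈ U := by
    refine hseg.nm.up _ _ (hF.inter2 _ _ hMs (hseg.nm.unb γs (mem_univ _))) ?_
    intro x hx
    exact hx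
  have hstep : ∀ δ : L, ∃ q : TT L, ∃ g : L, δ ∈ A0 → q ≤ q0 ∧ g < δ ∧ γs < g ∧
      ∀ k l a, a < δ → E.i (gen ⟨p, q⟩) ⊓ KurK T z γs δ k l a ≤ KurK T z γs δ k l g := by
    intro δ
    by_cases hδ : δ ∈ A0
    · obtain ⟨q, hq, g, h1, h2, h3⟩ := Kur_step hN hDL E T z γs p q0 hδ.1 hδ.2
      exact ⟨q, g, fun _ => ⟨hq, h1, h2, h3⟩⟩
    · exact ⟨q0, δ, fun h => absurd h hδ⟩
  choose q g hqg using hstep
  obtain ⟨γp, hγp⟩ := hseg.nm.normal g (hseg.nm.up _ _ hA0U fun δ hδ => (hqg δ hδ).2.1)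
  set A1 : Set L := A0 ∩ {δ | g δ = γp} with hA1
  have hA1U : A1 ∈ U := hF.inter2 _ _ hA0U hγp
  -- the choice of the node
  have hnode : ∀ δ : L, ∃ w : O1, δ ∈ A1 → (b ⊓ E.i (gen ⟨p, q δ⟩)) ⊓
      (⨆ v : O1, thin T z γs (δ, v) ⊓ T.t (γp, w) (δ, v)) ≠ ⊥ := by
    intro δ
    by_cases hδ : δ ∈ A1
    · by_contra hne
      push Not at hne
      have hlt : γp < δ := by
        have := (hqg δ hδ.1).2.1
        rwa [show g δ = γp from hδ.2] at this
      refine hbne (q δ) (hqg δ hδ.1).1 (le_bot_iff.1 ?_)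
      refine Kur_cases (inf_le_left.trans (hthin δ hδ.1.2)) fun v => ?_
      have h1 := Kur_thin_D T z γs (δ, v)
      have h2 : T.D (δ, v) ≤ ⨆ u, T.t (γp, u) (δ, v) := T.t_pred (δ, v) γp hlt
      refine Kur_cases (c := fun u => T.t (γp, u) (δ, v)) (by order) fun u => ?_
      have h3 := ((hne u).2).le
      have h4 := le_iSup (fun v : O1 => thin T z γs (δ, v) ⊓ T.t (γp, u) (δ, v)) v
      order
    · have hO : Nonempty O1 := by
        have h1 : #O1 = Cardinal.aleph 1 := mk_ord_toType _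
        rw [← mk_ne_zero_iff, h1]
        exact (aleph_pos _).ne'
      exact ⟨hO.some, fun h => absurd h hδ⟩
  choose w hw using hnode
  obtain ⟨w0, hw0⟩ := hF.const O1 w hF.aleph1
  set A : Set L := A1 ∩ {δ | w δ = w0} with hA
  have hAU : A ∈ U := hF.inter2 _ _ hA1U hw0
  set c : L → B := fun δ => (b ⊓ E.i (gen ⟨p, q δ⟩)) ⊓
      (⨆ v : O1, thin T z γs (δ, v) ⊓ T.t (γp, w0) (δ, v)) with hc
  have hcne : ∀ δ ∈ A, c δ ≠ ⊥ := by
    intro δ hδ
    have := hw δ hδ.1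
    rwa [show w δ = w0 from hδ.2] at this
  have hcb : ∀ δ, c δ ≤ b := fun δ => inf_le_left.trans inf_le_left
  have hcs : ∀ δ, c δ ≤ ⨆ v : O1, thin T z γs (δ, v) ⊓ T.t (γp, w0) (δ, v) :=
    fun δ => inf_le_right
  have hγlt : ∀ δ ∈ A, γp < δ := by
    intro δ hδ
    have := (hqg δ hδ.1.1).2.1
    rwa [show g δ = γp from hδ.1.2] at this
  have hγs : ∀ δ ∈ A, γs < δ := fun δ hδ => hδ.1.1.2
  have htr : ∀ δ ∈ A, KurTr T z γs (γp, w0) (c δ) δ := by
    intro δ hδ v v' x hx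
    refine Kur_trace T z γs hz ?_ v v' x hx
    intro k l a ha
    have h1 := (hqg δ hδ.1.1).2.2.2 k l a ha
    rw [show g δ = γp from hδ.1.2] at h1
    have h2 : c δ ≤ E.i (gen ⟨p, q δ⟩) := inf_le_left.trans inf_le_right
    order
  set G : L → L × O1 → B := fun δ x => KurG T z γs (γp, w0) (c δ) δ x with hG
  have hup : ∀ δ ∈ A, ∀ δ' ∈ A, δ ≤ δ' → ∀ x : L × O1, x.1 < δ → G δ x ⊓ c δ' ≤ G δ' x := by
    intro δ hδ δ' hδ' hle x hx
    rcases hle.lt_or_eq with h | h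
    · exact Kur_G1 T z γs (htr δ hδ) h (hγs δ hδ) (hγlt δ hδ) (hcs δ') hx
    · subst h
      exact inf_le_left
  set f : L × O1 → B := fun x => ⨆ δ : {δ : L // δ ∈ A ∧ x.1 < δ}, G δ x with hf
  set b' : B := ⨅ γ : L, ⨆ δ ∈ A, ⨆ (_ : γ < δ), c δ with hb'
  refine ⟨b', ?_, ?_, f, ?_⟩
  · refine (iInf_le _ γs).trans ?_
    exact iSup_le fun δ => iSup_le fun _ => iSup_le fun _ => hcb δ
  · exact (hCl L U hseg B hCC).2 c A hAU hcne
  · -- reduction to a common `δ`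
    have hred : ∀ x x' : L × O1, ∀ Q : B,
        (∀ δ ∈ A, x.1 < δ → x'.1 < δ → G δ x ⊓ G δ x' ≤ Q) → f x ⊓ f x' ≤ Q := by
      intro x x' Q hQ
      refine Kur_cases (c := fun δ : {δ : L // δ ∈ A ∧ x.1 < δ} => G δ x) inf_le_left
        fun δ => ?_
      refine Kur_cases (c := fun δ : {δ : L // δ ∈ A ∧ x'.1 < δ} => G δ x')
        (inf_le_left.trans inf_le_right) fun δ' => ?_
      have g1 : G δ x ≤ c δ := Kur_G_c T z γs
      have g2 : G δ' x' ≤ c δ' := Kur_G_c T z γs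
      rcases le_total (δ : L) δ' with h | h
      · have h1 := hup δ δ.2.1 δ' δ'.2.1 h x δ.2.2
        have h2 := hQ δ' δ'.2.1 (lt_of_lt_of_le δ.2.2 h) δ'.2.2
        order
      · have h1 := hup δ' δ'.2.1 δ δ.2.1 h x' δ'.2.2
        have h2 := hQ δ δ.2.1 δ.2.2 (lt_of_lt_of_le δ'.2.2 h)
        order
    refine ⟨?_, ?_, ?_, ?_⟩
    · intro x
      exact iSup_le fun δ => Kur_G_D T z γs
    · intro x y hxy
      exact hred x y _ fun δ hδ hx _ => Kur_G_chain T z γs (htr δ hδ) hx hxy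
    · intro x y hxy hne
      exact le_bot_iff.1
        (hred x y _ fun δ hδ hx _ => Kur_G_uniq T z γs (htr δ hδ) hx hxy hne)
    · intro α
      refine (iInf_le _ α).trans ?_
      refine iSup_le fun δ => iSup_le fun hδ => iSup_le fun hαδ => ?_
      refine (Kur_G_full T z γs (hcs δ) hαδ).trans (iSup_mono fun w => ?_)
      exact le_iSup (fun δ : {δ : L // δ ∈ A ∧ (α, w).1 < δ} => G δ (α, w)) ⟨δ, hδ, hαδ⟩

end Pool.Agent.Work.MP_dbe197_lc

end

section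

/-!
# The limit of the guesses along the ultrafilter
-/

namespace Pool.Agent.Work.MP_dbe197_lc

open Set Cardinal RO MM

/-- On a large set all the relations are in the algebra below `δ`. -/
theorem lim_dep (hN : ClaimN) (hB : ClaimBdd) {L : Type} [LinearOrder L] [WellFoundedLT L]
    {U : Set (Set L)} (hU : Seg Set.univ U) (R : ℕ → L × O1 → L × O1 → RO (MM L)) :
    {δ : L | ∀ n, ∀ x y : L × O1, x.1 < δ → y.1 < δ → DepM (Iio δ) (R n x y)} ∈ U := by
  have N := hN L univ U hU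
  have h1 : ∀ n x y, {δ : L | DepM (Iio δ) (R n x y)} ∈ U := by
    intro n x y
    obtain ⟨β, _, hβ⟩ := hB L univ U hU (R n x y) (DepM.univ _)
    refine hU.nm.up _ _ (hU.nm.unb β trivial) ?_
    intro δ hδ
    exact hβ.mono fun γ hγ => lt_trans hγ hδ
  have h2 : ∀ α β : L, {δ : L | ∀ n ξ η, DepM (Iio δ) (R n (α, ξ) (β, η))} ∈ U := by
    intro α β
    have := N.interN _ fun n => N.inter1 _ fun ξ => N.inter1 _ fun η => h1 n (α, ξ) (β, η)
    refine hU.nm.up _ _ this ?_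
    intro δ hδ n ξ η
    simp only [mem_iInter] at hδ
    exact hδ n ξ η
  have h3 : ∀ α : L, {δ : L | ∀ β < δ, ∀ n ξ η, DepM (Iio δ) (R n (α, ξ) (β, η))} ∈ U := by
    intro α
    refine hU.nm.up _ _ (N.diag _ fun β _ => h2 α β) ?_
    intro δ hδ β hβ
    exact hδ.2 β hβ
  refine hU.nm.up _ _ (N.diag _ fun α _ => h3 α) ?_
  intro δ hδ n x y hx hy
  exact hδ.2 x.1 hx y.1 hy n x.2 y.2

/-- The guess at one point. -/
theorem lim_guess (hN : ClaimN) (hG : ClaimGuess) {L : Type} [LinearOrder L] [WellFoundedLT L]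
    (R : ℕ → L × O1 → L × O1 → RO (MM L)) (d : L → ℕ → L × O1 → RO (MM L))
    (hR : ∀ n, TreeLike (R n))
    (hd1 : ∀ δ n x y, x.1 < y.1 → y.1 < δ → d δ n x ⊓ d δ n y ≤ R n x y)
    (hd2 : ∀ δ n x y, x.1 = y.1 → x ≠ y → x.1 < δ → d δ n x ⊓ d δ n y = ⊥)
    (hd3 : ∀ δ n x y, x.1 < y.1 → y.1 < δ → R n x y ⊓ d δ n y ≤ d δ n x)
    (p : Fn (L × ℕ) Bool) (q0 : TT L) (δ : L) (hδ : Ms δ)
    (hdep : ∀ n, ∀ x y : L × O1, x.1 < δ → y.1 < δ → DepM (Iio δ) (R n x y)) :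
    ∃ (q : TT L) (ν : ℕ → L × O1 → RO (MM L)) (γ : L), q ≤ q0 ∧ γ < δ ∧
      (∀ k x, x.1 < δ → DepM (Iio δ) (ν k x)) ∧
      (∀ k x y, x.1 < δ → x.1 = y.1 → x ≠ y → ν k x ⊓ ν k y = ⊥) ∧
      ∀ n x, γ < x.1 → x.1 < δ → gen (⟨p, q⟩ : MM L) ⊓ d δ n x ≤ ⨆ k, ν k x := by
  classical
  obtain ⟨W, hW⟩ := hδ
  have N := hN L (Iio δ) W hW
  obtain ⟨q, hq, ν, h1, h2, γ, h3⟩ := hG L (Iio δ) O1 δ
    (fun n x y => R n (x.1.1, x.2) (y.1.1, y.2)) (fun n x => d δ n (x.1.1, x.2))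
    (by
      intro C hC
      obtain ⟨β, hβ, h⟩ := N.bddN (Subtype.val '' C) (by rintro _ ⟨a, _, rfl⟩; exact a.2)
        (hC.image _)
      exact ⟨⟨β, hβ⟩, fun a ha => h a.1 ⟨a, ha, rfl⟩⟩)
    (fun n => ⟨fun x y h => (hR n).lvl _ _ h, fun x y z => (hR n).trans _ _ _,
      fun x y z h => (hR n).tree _ _ _ h, fun x y z h1 h2 => (hR n).uniq _ _ _ (congrArg Subtype.val h1) (by
        intro h
        apply h2
        rw [Prod.mk.injEq] at h
        exact Prod.ext h1 h.2)⟩)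
    (fun n x y => hdep n _ _ x.1.2 y.1.2)
    (fun n => ⟨fun x y h => hd1 δ n _ _ h y.1.2, fun x y h1 h2 => hd2 δ n _ _ (congrArg Subtype.val h1) (by
        intro h
        apply h2
        rw [Prod.mk.injEq] at h
        exact Prod.ext h1 h.2) x.1.2, fun x y h => hd3 δ n _ _ h y.1.2⟩) p q0
  refine ⟨q, fun k x => if h : x.1 < δ then ν k (⟨x.1, h⟩, x.2) else ⊥, γ.1, hq, γ.2, ?_, ?_, ?_⟩
  · intro k x hx
    simp only [dif_pos hx]
    exact h1 k _
  · intro k x y hx hxy hne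
    have hy : y.1 < δ := hxy ▸ hx
    simp only [dif_pos hx, dif_pos hy]
    apply h2
    · exact Subtype.ext hxy
    · intro h
      apply hne
      rw [Prod.mk.injEq] at h
      exact Prod.ext hxy h.2
  · intro n x hx1 hx2
    have := h3 n (⟨x.1, hx2⟩, x.2) hx1
    simp only [dif_pos hx2]
    exact this

theorem claimLim (hN : ClaimN) (hS : ClaimSmall) (hH : ClaimHead) (hB : ClaimBdd)
    (hG : ClaimGuess) : ClaimLim := by
  classical
  intro L _ _ U hU hMs R d hR hd1 hd2 hd3 m0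
  have N := hN L univ U hU
  have hA1 := N.inter2 _ _ hMs (lim_dep hN hB hU R)
  have hg : ∀ δ : L, ∃ (q : TT L) (ν : ℕ → L × O1 → RO (MM L)) (γ : L),
      δ ∈ {δ : L | Ms δ} ∩ {δ : L | ∀ n, ∀ x y : L × O1, x.1 < δ → y.1 < δ →
        DepM (Iio δ) (R n x y)} →
      q ≤ m0.q ∧ γ < δ ∧
      (∀ k x, x.1 < δ → DepM (Iio δ) (ν k x)) ∧
      (∀ k x y, x.1 < δ → x.1 = y.1 → x ≠ y → ν k x ⊓ ν k y = ⊥) ∧
      ∀ n x, γ < x.1 → x.1 < δ → gen (⟨m0.p, q⟩ : MM L) ⊓ d δ n x ≤ ⨆ k, ν k x := by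
    intro δ
    by_cases hδ : δ ∈ {δ : L | Ms δ} ∩ {δ : L | ∀ n, ∀ x y : L × O1, x.1 < δ → y.1 < δ →
        DepM (Iio δ) (R n x y)}
    · obtain ⟨q, ν, γ, h⟩ := lim_guess hN hG R d hR hd1 hd2 hd3 m0.p m0.q δ hδ.1 hδ.2
      exact ⟨q, ν, γ, fun _ => h⟩
    · exact ⟨m0.q, fun _ _ => ⊥, δ, fun h => absurd h hδ⟩
  choose q' ν g hg using hg
  set A1 : Set L := {δ : L | Ms δ} ∩ {δ : L | ∀ n, ∀ x y : L × O1, x.1 < δ → y.1 < δ →
        DepM (Iio δ) (R n x y)} with hA1def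
  -- the bound is constant
  obtain ⟨gs, hgs⟩ := hU.nm.normal g (hU.nm.up _ _ hA1 fun δ hδ => (hg δ hδ).2.1)
  -- the heads are constant
  obtain ⟨mh, hmh, _⟩ := hH L univ U hU fun δ => ⟨m0.p, q' δ⟩
  -- the guesses are constant
  have hZ : ∀ k x, ∃ z : RO (MM L), {δ | ν δ k x = z} ∈ U := by
    intro k x
    have hb : ∀ δ : L, ∃ β : L, δ ∈ A1 → x.1 < δ → β < δ ∧ DepM (Iio β) (ν δ k x) := by
      intro δ
      by_cases h : δ ∈ A1 ∧ x.1 < δ
      · obtain ⟨W, hW⟩ := h.1.1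
        obtain ⟨β, hβ, hd⟩ := hB L (Iio δ) W hW _ ((hg δ h.1).2.2.1 k x h.2)
        exact ⟨β, fun _ _ => ⟨hβ, hd⟩⟩
      · exact ⟨δ, fun h1 h2 => absurd ⟨h1, h2⟩ h⟩
    choose b hb using hb
    have hA2 := N.inter2 _ _ hA1 (hU.nm.unb x.1 trivial)
    obtain ⟨β, hβ⟩ := hU.nm.normal b (hU.nm.up _ _ hA2 fun δ hδ => (hb δ hδ.1 hδ.2).1)
    have hsm := (hS L univ hU.low hU.inacc β trivial).2.2.2
    obtain ⟨z, hz⟩ := N.const _ (fun δ => if h : DepM (Iio β) (ν δ k x) then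
      (⟨ν δ k x, h⟩ : {a : RO (MM L) | DepM (Iio β) a}) else ⟨⊥, DepM.bot _⟩) hsm
    refine ⟨z.1, hU.nm.up _ _ (N.inter2 _ _ (N.inter2 _ _ hA2 hβ) hz) ?_⟩
    rintro δ ⟨⟨hδ1, hδ2⟩, hδ3⟩
    have hd : DepM (Iio β) (ν δ k x) := by
      have := (hb δ hδ1.1 hδ1.2).2
      rwa [show b δ = β from hδ2] at this
    simp only [mem_ofPred_eq, dif_pos hd] at hδ3 ⊢
    rw [← hδ3]
  choose Z hZ using hZ
  -- the diagonal intersection
  have hdiag : {δ : L | ∀ x : L × O1, x.1 < δ → ∀ k, ν δ k x = Z k x} ∈ U := by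
    have h1 : ∀ b : L, {δ : L | ∀ k ξ, ν δ k (b, ξ) = Z k (b, ξ)} ∈ U := by
      intro b
      have := N.interN _ fun k => N.inter1 _ fun ξ => hZ k (b, ξ)
      refine hU.nm.up _ _ this ?_
      intro δ hδ k ξ
      simp only [mem_iInter] at hδ
      exact hδ k ξ
    refine hU.nm.up _ _ (N.diag _ fun b _ => h1 b) ?_
    intro δ hδ x hx k
    exact hδ.2 x.1 hx k x.2
  obtain ⟨βm, _, hβm⟩ := N.bddN m0.supp (subset_univ _) m0.supp_countable
  have hA := N.inter2 _ _ (N.inter2 _ _ (N.inter2 _ _ hA1 hgs) (N.inter2 _ _ hmh hdiag))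
    (hU.nm.unb βm trivial)
  set A : Set L := ((A1 ∩ {α | g α = gs}) ∩ ({α | res (Iio α) (⟨m0.p, q' α⟩ : MM L) = mh} ∩
    {δ : L | ∀ x : L × O1, x.1 < δ → ∀ k, ν δ k x = Z k x})) ∩ {α | βm < α} with hAdef
  have hres : ∀ δ ∈ A, (q' δ).restr (Iio δ) = mh.q := fun δ hδ => congrArg MM.q hδ.1.2.1
  refine ⟨mh.q, Z, gs, A, q', ?_, hA, ?_, ?_, ?_⟩
  · -- `q1 ≤ m0.q`
    obtain ⟨δ, hδ, _, _⟩ := N.pick A hA βm trivial
    intro α ξ v hv
    have hα : α < δ := lt_trans (hβm α (Or.inr ⟨ξ, by rw [hv]; simp⟩)) hδ.2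
    rw [← hres δ hδ, TT.restr_eq_some]
    exact ⟨hα, (hg δ hδ.1.1.1).1 α ξ v hv⟩
  · intro k x y hxy hne
    obtain ⟨δ, hδ, _, hxδ⟩ := N.pick A hA x.1 trivial
    have hyδ : y.1 < δ := hxy ▸ hxδ
    rw [← hδ.1.2.2 x hxδ k, ← hδ.1.2.2 y hyδ k]
    exact (hg δ hδ.1.1.1).2.2.2.1 k x y hxδ hxy hne
  · intro δ hδ
    refine ⟨?_, ?_⟩
    · rw [← hres δ hδ]
      exact TT.le_restr _ _
    · intro n x hx1 hx2
      have h := (hg δ hδ.1.1.1).2.2.2.2 n x (by rw [show g δ = gs from hδ.1.1.2]; exact hx1) hx2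
      simp only [hδ.1.2.2 x hx2] at h
      exact h
  · intro γ
    rw [gen_le_iff]
    apply mem_reg
    intro m hm
    obtain ⟨β', _, hβ'⟩ := N.bddN m.supp (subset_univ _) m.supp_countable
    obtain ⟨δ, hδ, _, hlt⟩ := N.pick A hA (max γ β') trivial
    have hγδ : γ < δ := lt_of_le_of_lt (le_max_left _ _) hlt
    have hβδ : β' < δ := lt_of_le_of_lt (le_max_right _ _) hlt
    refine ⟨⟨m.p, m.q.ov (q' δ)⟩, mk_le_mk le_rfl (TT.ov_le_left _ _), ?_⟩
    have hle : (⟨m.p, m.q.ov (q' δ)⟩ : MM L) ≤ ⟨m0.p, q' δ⟩ := by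
      refine ⟨hm.1, fun α ξ v hv => ?_⟩
      by_cases hα : α < δ
      · have h1 : mh.q.val α ξ = some v := by
          rw [← hres δ hδ, TT.restr_eq_some]
          exact ⟨hα, hv⟩
        obtain ⟨v', hv', h'⟩ := hm.2 α ξ v h1
        exact ⟨v', TT.ov_of_some hv', h'⟩
      · have h1 : m.q.val α ξ = none := by
          by_contra hne
          exact hα (lt_trans (hβ' α (Or.inr ⟨ξ, hne⟩)) hβδ)
        refine ⟨v, ?_, fun _ _ => rfl⟩
        change (m.q.ov (q' δ)).val α ξ = some v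
        rw [TT.ov_of_none h1]
        exact hv
    have hsup : gen (⟨m0.p, q' δ⟩ : MM L) ≤
        ⨆ δ ∈ A, ⨆ (_ : γ < δ), gen (⟨m0.p, q' δ⟩ : MM L) :=
      le_iSup_of_le δ (le_iSup_of_le hδ (le_iSup_of_le hγδ le_rfl))
    exact hsup _ (mem_gen_of_le hle)

end Pool.Agent.Work.MP_dbe197_lc

end

section

/-!
# MP_dbe197_lc, item D6: maximum principle for nonstationarity
-/

namespace Pool.Agent.Work.MP_dbe197_lc

open Set Cardinal

section

variable {B : Type} [CompleteBooleanAlgebra B]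

/-- disjoint refinement of a family with the same supremum -/
theorem Mix_disjoint {ι : Type*} (v : ι → B) : ∃ x : ι → B, (∀ i, x i ≤ v i) ∧
    (∀ i j, i ≠ j → x i ⊓ x j = ⊥) ∧ ⨆ i, x i = ⨆ i, v i := by
  refine ⟨fun i => v i ⊓ (⨆ j, ⨆ (_ : WellOrderingRel j i), v j)ᶜ, fun i => inf_le_left, ?_, ?_⟩
  · have key : ∀ i j, WellOrderingRel j i →
        (v i ⊓ (⨆ j, ⨆ (_ : WellOrderingRel j i), v j)ᶜ) ⊓
          (v j ⊓ (⨆ k, ⨆ (_ : WellOrderingRel k j), v k)ᶜ) = ⊥ := by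
      intro i j hij
      rw [eq_bot_iff]
      calc _ ≤ (⨆ j, ⨆ (_ : WellOrderingRel j i), v j)ᶜ ⊓ v j :=
            inf_le_inf inf_le_right inf_le_left
        _ ≤ (⨆ j, ⨆ (_ : WellOrderingRel j i), v j)ᶜ ⊓
              (⨆ j, ⨆ (_ : WellOrderingRel j i), v j) :=
            inf_le_inf_left _ (le_iSup_of_le j (le_iSup_of_le hij le_rfl))
        _ = ⊥ := compl_inf_self _
    intro i j hij
    rcases trichotomous_of (WellOrderingRel (α := ι)) i j with h | h | h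
    · rw [inf_comm]
      exact key j i h
    · exact absurd h hij
    · exact key i j h
  · apply le_antisymm
    · exact iSup_mono fun i => inf_le_left
    · refine iSup_le fun i => ?_
      induction i using (IsWellFounded.wf (r := WellOrderingRel (α := ι))).induction with
      | _ i ih =>
        have h1 : v i = (v i ⊓ (⨆ j, ⨆ (_ : WellOrderingRel j i), v j)ᶜ) ⊔
            (v i ⊓ (⨆ j, ⨆ (_ : WellOrderingRel j i), v j)) := by
          rw [← inf_sup_left]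
          simp
        rw [h1]
        refine sup_le (le_iSup (fun i => v i ⊓ (⨆ j, ⨆ (_ : WellOrderingRel j i), v j)ᶜ) i) ?_
        refine inf_le_right.trans ?_
        exact iSup_le fun j => iSup_le fun hj => ih j hj

/-- the mixture of a family of names along a disjoint family -/
theorem Mix_inf {ι X : Type*} {x : ι → B} (hx : ∀ i j, i ≠ j → x i ⊓ x j = ⊥) (f : ι → X → B)
    (i : ι) (a : X) : x i ⊓ (⨆ j, x j ⊓ f j a) = x i ⊓ f i a := by
  apply le_antisymm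
  · rw [inf_iSup_eq]
    refine iSup_le fun j => ?_
    by_cases hij : i = j
    · subst hij
      exact inf_le_inf_left _ inf_le_right
    · rw [← inf_assoc, hx i j hij, bot_inf_eq]
      exact bot_le
  · exact le_inf inf_le_left (le_iSup (fun j => x j ⊓ f j a) i)

theorem Mix_club_local {L : Type} [LinearOrder L] (c : B) (C C' : L → B)
    (h : ∀ α, c ⊓ C α = c ⊓ C' α) : c ⊓ club C ≤ club C' := by
  have hc : ∀ γ, c ⊓ (C γ)ᶜ ≤ (C' γ)ᶜ := by
    intro γ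
    rw [le_compl_iff_disjoint_right, disjoint_iff, eq_bot_iff]
    calc c ⊓ (C γ)ᶜ ⊓ C' γ ≤ (c ⊓ C' γ) ⊓ (C γ)ᶜ := by
          refine le_inf (le_inf (inf_le_left.trans inf_le_left) inf_le_right)
            (inf_le_left.trans inf_le_right)
      _ = (c ⊓ C γ) ⊓ (C γ)ᶜ := by rw [h]
      _ ≤ C γ ⊓ (C γ)ᶜ := inf_le_inf_right _ inf_le_right
      _ = ⊥ := inf_compl_self _
  rw [club, club]
  refine le_inf ?_ ?_
  · refine le_iInf fun α => ?_
    have h1 : c ⊓ ((⨅ α, ⨆ β, ⨆ (_ : α < β), C β) ⊓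
        ⨅ α, ⨅ (_ : ∃ β, β < α), (⨆ β, ⨆ (_ : β < α), ⨅ γ, ⨅ (_ : β < γ), ⨅ (_ : γ < α),
          (C γ)ᶜ) ⊔ C α) ≤ c ⊓ (⨆ β, ⨆ (_ : α < β), C β) :=
      inf_le_inf_left _ (inf_le_left.trans (iInf_le _ α))
    refine h1.trans ?_
    rw [inf_iSup_eq]
    refine iSup_mono fun β => ?_
    rw [inf_iSup_eq]
    refine iSup_mono fun _ => ?_
    rw [h]
    exact inf_le_right
  · refine le_iInf fun α => le_iInf fun hα => ?_
    have h1 : c ⊓ ((⨅ α, ⨆ β, ⨆ (_ : α < β), C β) ⊓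
        ⨅ α, ⨅ (_ : ∃ β, β < α), (⨆ β, ⨆ (_ : β < α), ⨅ γ, ⨅ (_ : β < γ), ⨅ (_ : γ < α),
          (C γ)ᶜ) ⊔ C α) ≤ c ⊓ ((⨆ β, ⨆ (_ : β < α), ⨅ γ, ⨅ (_ : β < γ), ⨅ (_ : γ < α),
          (C γ)ᶜ) ⊔ C α) :=
      inf_le_inf_left _ (inf_le_right.trans ((iInf_le _ α).trans (iInf_le _ hα)))
    refine h1.trans ?_
    rw [inf_sup_left]
    refine sup_le_sup ?_ ?_
    · rw [inf_iSup_eq]
      refine iSup_mono fun β => ?_
      rw [inf_iSup_eq]
      refine iSup_mono fun _ => ?_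
      refine le_iInf fun γ => le_iInf fun h1 => le_iInf fun h2 => ?_
      refine le_trans ?_ (hc γ)
      exact inf_le_inf_left _ ((iInf_le _ γ).trans ((iInf_le _ h1).trans (iInf_le _ h2)))
    · rw [h]
      exact inf_le_right

theorem Mix_club_top {L : Type} [LinearOrder L] (hL : ∀ α : L, ∃ β, α < β) :
    club (fun _ : L => (⊤ : B)) = ⊤ := by
  rw [club, inf_eq_top_iff]
  constructor
  · refine iInf_eq_top.2 fun α => ?_
    obtain ⟨β, hβ⟩ := hL α
    rw [eq_top_iff]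
    exact le_iSup_of_le β (le_iSup_of_le hβ le_rfl)
  · refine iInf_eq_top.2 fun α => iInf_eq_top.2 fun _ => ?_
    rw [eq_top_iff]
    exact le_sup_right

end

theorem claimMix : ClaimMix := by
  intro L _ B _ hL S b hb
  obtain ⟨x, hxv, hxd, hxs⟩ := Mix_disjoint
    (fun C : L → B => club C ⊓ (⨆ α, C α ⊓ S α)ᶜ)
  have hstat : (stat S)ᶜ = ⨆ C : L → B, club C ⊓ (⨆ α, C α ⊓ S α)ᶜ := by
    rw [stat, compl_iInf]
    congr 1
    funext C
    rw [compl_sup, compl_compl]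
  rw [hstat, ← hxs] at hb
  set D : L → B := fun α => (⨆ C, x C ⊓ C α) ⊔ (⨆ C, x C)ᶜ with hD
  have hloc : ∀ C α, x C ⊓ C α = x C ⊓ D α := by
    intro C α
    rw [hD]
    simp only
    rw [inf_sup_left, Mix_inf hxd (fun C α => C α) C α]
    have : x C ⊓ (⨆ C, x C)ᶜ = ⊥ := by
      rw [eq_bot_iff]
      calc x C ⊓ (⨆ C, x C)ᶜ ≤ (⨆ C, x C) ⊓ (⨆ C, x C)ᶜ := inf_le_inf_right _ (le_iSup x C)
        _ = ⊥ := inf_compl_self _
    rw [this, sup_bot_eq]
  refine ⟨D, ?_, ?_⟩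
  · rw [eq_top_iff, ← sup_compl_eq_top (x := ⨆ C, x C)]
    refine sup_le (iSup_le fun C => ?_) ?_
    · have h1 : x C ≤ x C ⊓ club C := le_inf le_rfl ((hxv C).trans inf_le_left)
      exact h1.trans (Mix_club_local _ C D (hloc C))
    · have h1 : (⨆ C, x C)ᶜ ≤ (⨆ C, x C)ᶜ ⊓ club (fun _ : L => (⊤ : B)) := by
        rw [Mix_club_top hL, inf_top_eq]
      refine h1.trans (Mix_club_local _ _ D ?_)
      intro α
      rw [inf_top_eq]
      exact (inf_eq_left.2 le_sup_right).symm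
  · rw [eq_bot_iff]
    refine (inf_le_inf_right _ hb).trans ?_
    rw [iSup_inf_eq]
    refine iSup_le fun C => ?_
    rw [inf_iSup_eq]
    refine iSup_le fun α => ?_
    rw [← inf_assoc, ← hloc]
    calc x C ⊓ C α ⊓ S α ≤ (⨆ α, C α ⊓ S α)ᶜ ⊓ (⨆ α, C α ⊓ S α) := by
          refine le_inf ?_ ?_
          · exact (inf_le_left.trans inf_le_left).trans ((hxv C).trans inf_le_right)
          · exact le_iSup_of_le α (inf_le_inf_right _ inf_le_right)
      _ = ⊥ := compl_inf_self _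
      _ ≤ ⊥ := le_rfl

end Pool.Agent.Work.MP_dbe197_lc

end

section

/-!
# Item T5: mixing local branches
-/

namespace Pool.Agent.Work.MP_dbe197_lc

open Set Cardinal RO MM

theorem MixBr_inf_le {B : Type} [CompleteBooleanAlgebra B] {M : Set B}
    (hM : ∀ x ∈ M, ∀ y ∈ M, x ≠ y → x ⊓ y = ⊥) {g g' : B → B} {c : B}
    (h : ∀ x ∈ M, g x ⊓ g' x ≤ c) : (⨆ x ∈ M, x ⊓ g x) ⊓ (⨆ x ∈ M, x ⊓ g' x) ≤ c := by
  rw [iSup_inf_eq]
  refine iSup_le fun x => ?_
  rw [iSup_inf_eq]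
  refine iSup_le fun hx => ?_
  rw [inf_iSup_eq]
  refine iSup_le fun y => ?_
  rw [inf_iSup_eq]
  refine iSup_le fun hy => ?_
  by_cases hxy : x = y
  · subst hxy
    exact le_trans (inf_le_inf inf_le_right inf_le_right) (h x hx)
  · have h1 : x ⊓ g x ⊓ (y ⊓ g' y) ≤ x ⊓ y := inf_le_inf inf_le_left inf_le_left
    rw [hM x hx y hy hxy] at h1
    exact h1.trans bot_le

theorem MixBr_max {B : Type} [CompleteBooleanAlgebra B] (P : B → Prop)
    (h : ∀ b : B, b ≠ ⊥ → ∃ b' ≤ b, b' ≠ ⊥ ∧ P b') :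
    ∃ M : Set B, (∀ x ∈ M, P x) ∧ (∀ x ∈ M, ∀ y ∈ M, x ≠ y → x ⊓ y = ⊥) ∧ sSup M = ⊤ := by
  set S : Set (Set B) := {M | (∀ x ∈ M, x ≠ ⊥ ∧ P x) ∧ ∀ x ∈ M, ∀ y ∈ M, x ≠ y → x ⊓ y = ⊥}
    with hS
  obtain ⟨M, hM⟩ := zorn_subset S (by
    intro c hc hch
    refine ⟨⋃₀ c, ⟨?_, ?_⟩, fun s hs => subset_sUnion_of_mem hs⟩
    · rintro x ⟨s, hs, hx⟩
      exact (hc hs).1 x hx
    · rintro x ⟨s, hs, hx⟩ y ⟨t, ht, hy⟩ hxy
      rcases hch.total hs ht with hst | hts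
      · exact (hc ht).2 x (hst hx) y hy hxy
      · exact (hc hs).2 x hx y (hts hy) hxy)
  refine ⟨M, fun x hx => (hM.prop.1 x hx).2, hM.prop.2, ?_⟩
  by_contra hne
  have hc : (sSup M)ᶜ ≠ ⊥ := by
    intro h0
    rw [compl_eq_bot] at h0
    exact hne h0
  obtain ⟨b, hb, hb0, hPb⟩ := h _ hc
  have hdis : ∀ x ∈ M, x ⊓ b = ⊥ := by
    intro x hx
    have h1 : x ⊓ b ≤ sSup M ⊓ (sSup M)ᶜ := inf_le_inf (le_sSup hx) hb
    rw [inf_compl_eq_bot] at h1
    exact le_bot_iff.mp h1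
  have hin : insert b M ∈ S := by
    refine ⟨?_, ?_⟩
    · intro x hx
      rcases mem_insert_iff.mp hx with rfl | hx
      · exact ⟨hb0, hPb⟩
      · exact hM.prop.1 x hx
    · intro x hx y hy hxy
      rcases mem_insert_iff.mp hx with hx' | hx' <;> rcases mem_insert_iff.mp hy with hy' | hy'
      · exact absurd (hx'.trans hy'.symm) hxy
      · rw [hx', inf_comm]
        exact hdis y hy'
      · rw [hy']
        exact hdis x hx'
      · exact hM.prop.2 x hx' y hy' hxy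
  have hsub := hM.le_of_ge hin (subset_insert b M)
  have hbM : b ∈ M := hsub (mem_insert b M)
  have := hdis b hbM
  rw [inf_idem] at this
  exact hb0 this

open Classical in
theorem claimMixBr : ClaimMixBr := by
  intro B L W _ _ T h
  obtain ⟨M, hMP, hMd, hMs⟩ := MixBr_max (fun b => ∃ f, PBr T b f) h
  set F : B → L × W → B := fun x => if hx : ∃ f, PBr T x f then hx.choose else fun _ => ⊥ with hF
  have hFx : ∀ x ∈ M, PBr T x (F x) := by
    intro x hx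
    have h1 := hMP x hx
    have h2 : F x = h1.choose := by
      rw [hF]
      simp only
      rw [dif_pos h1]
    rw [h2]
    exact h1.choose_spec
  refine ⟨fun y => ⨆ x ∈ M, x ⊓ F x y, ?_, ?_, ?_, ?_⟩
  · intro y
    exact iSup₂_le fun x hx => inf_le_right.trans ((hFx x hx).le y)
  · intro y y' hyy
    exact MixBr_inf_le (g := fun x => F x y) (g' := fun x => F x y') hMd
      (fun x hx => (hFx x hx).chain y y' hyy)
  · intro y y' h1 h2
    exact le_bot_iff.mp (MixBr_inf_le (g := fun x => F x y) (g' := fun x => F x y') hMd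
      (fun x hx => ((hFx x hx).uniq y y' h1 h2).le))
  · intro α
    rw [eq_top_iff, ← hMs, sSup_eq_iSup]
    refine iSup₂_le fun x hx => ?_
    have h1 : x = ⨆ w, x ⊓ F x (α, w) := by
      rw [← inf_iSup_eq]
      exact (inf_eq_left.mpr ((hFx x hx).full α)).symm
    calc x = ⨆ w, x ⊓ F x (α, w) := h1
      _ ≤ _ := iSup_mono fun w => le_iSup₂_of_le x hx le_rfl

end Pool.Agent.Work.MP_dbe197_lc

end

section

/-!
# MP_dbe197_lc, item N: facts on normal ultrafilters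
-/

namespace Pool.Agent.Work.MP_dbe197_lc

open Set Cardinal

section

variable {L : Type} [LinearOrder L] {S : Set L} {U : Set (Set L)}

theorem N_inter2 (h : Seg S U) (A B : Set L) (hA : A ∈ U) (hB : B ∈ U) : A ∩ B ∈ U := by
  have h1 := h.nm.inter Bool (fun b => cond b A B) (by
    rw [Cardinal.mk_bool]
    exact_mod_cast h.inacc.1.nat_lt 2) (by intro b; cases b <;> assumption)
  refine h.nm.up _ _ h1 ?_
  intro x hx
  rw [mem_iInter] at hx
  exact ⟨hx true, hx false⟩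

theorem N_pick (h : Seg S U) (A : Set L) (hA : A ∈ U) (β : L) (hβ : β ∈ S) :
    ∃ α ∈ A, α ∈ S ∧ β < α := by
  by_contra hne
  have h1 := N_inter2 h _ _ (N_inter2 h _ _ hA h.nm.mem) (h.nm.unb β hβ)
  have h2 : A ∩ S ∩ {α | β < α} = ∅ := by
    apply eq_empty_of_forall_notMem
    rintro x ⟨⟨h3, h4⟩, h5⟩
    exact hne ⟨x, h3, h4, h5⟩
  rw [h2] at h1
  exact h.nm.empty h1

theorem N_split (h : Seg S U) (X : Type) (A : X → Set L) (hX : #X < #S)
    (hA : (⋃ x, A x) ∈ U) : ∃ x, A x ∈ U := by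
  by_contra hne
  push Not at hne
  have h1 := h.nm.inter X (fun x => (A x)ᶜ) hX
    (fun x => (h.nm.ultra (A x)).resolve_left (hne x))
  have h2 := N_inter2 h _ _ h1 hA
  have h3 : (⋂ x, (A x)ᶜ) ∩ (⋃ x, A x) = ∅ := by
    apply eq_empty_of_forall_notMem
    rintro x ⟨h4, h5⟩
    rw [mem_iInter] at h4
    obtain ⟨i, hi⟩ := mem_iUnion.1 h5
    exact h4 i hi
  rw [h3] at h2
  exact h.nm.empty h2

theorem N_const (h : Seg S U) (X : Type) (f : L → X) (hX : #X < #S) :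
    ∃ x, {α | f α = x} ∈ U := by
  apply N_split h X (fun x => {α | f α = x}) hX
  refine h.nm.up _ _ h.nm.mem ?_
  intro α _
  exact mem_iUnion.2 ⟨f α, rfl⟩

theorem N_interN (h : Seg S U) (A : ℕ → Set L) (hA : ∀ n, A n ∈ U) : (⋂ n, A n) ∈ U :=
  h.nm.inter ℕ A (by rw [mk_nat]; exact h.inacc.1.aleph0_lt) hA

theorem N_aleph1 (h : Seg S U) : #O1 < #S := by
  have h1 : #O1 = Cardinal.aleph 1 := mk_ord_toType _
  rw [h1]
  refine aleph_one_le_continuum.trans_lt ?_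
  rw [← two_power_aleph0]
  exact h.inacc.1.isStrongPrelimit h.inacc.1.aleph0_lt

theorem N_inter1 (h : Seg S U) (A : O1 → Set L) (hA : ∀ n, A n ∈ U) : (⋂ n, A n) ∈ U :=
  h.nm.inter O1 A (N_aleph1 h) hA

theorem N_diag (h : Seg S U) (A : L → Set L) (hA : ∀ β ∈ S, A β ∈ U) :
    {α | α ∈ S ∧ ∀ β < α, α ∈ A β} ∈ U := by
  classical
  by_contra hD
  have h1 := (h.nm.ultra _).resolve_left hD
  have h2 := N_inter2 h _ _ h1 h.nm.mem
  let f : L → L := fun α => if hx : ∃ β < α, α ∉ A β then hx.choose else α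
  have h3 : {α | f α < α} ∈ U := by
    refine h.nm.up _ _ h2 ?_
    rintro α ⟨h4, h5⟩
    have hx : ∃ β < α, α ∉ A β := by
      by_contra hne
      push Not at hne
      exact h4 ⟨h5, hne⟩
    simp only [mem_ofPred_eq, f, dif_pos hx]
    exact hx.choose_spec.1
  obtain ⟨β, hβ⟩ := h.nm.normal f h3
  have h6 := N_inter2 h _ _ hβ h3
  -- `β ∈ S`
  have h7 := N_inter2 h _ _ h6 h.nm.mem
  have hne : ∃ x, x ∈ {α | f α = β} ∩ {α | f α < α} ∩ S := by
    by_contra hno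
    push Not at hno
    rw [eq_empty_of_forall_notMem hno] at h7
    exact h.nm.empty h7
  obtain ⟨x, ⟨hx1, hx2⟩, hx3⟩ := hne
  have hβS : β ∈ S := by
    refine h.low ?_ hx3
    rw [← (show f x = β from hx1)]
    exact le_of_lt hx2
  have h8 := N_inter2 h _ _ h6 (hA β hβS)
  have h9 : ({α | f α = β} ∩ {α | f α < α}) ∩ A β = ∅ := by
    apply eq_empty_of_forall_notMem
    rintro α ⟨⟨h10, h11⟩, h12⟩
    by_cases hx : ∃ β < α, α ∉ A β
    · have : f α = hx.choose := by simp only [f, dif_pos hx]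
      have h13 := hx.choose_spec.2
      rw [← this, (show f α = β from h10)] at h13
      exact h13 h12
    · have : f α = α := by simp only [f, dif_neg hx]
      rw [mem_ofPred_eq, this] at h11
      exact lt_irrefl _ h11
  rw [h9] at h8
  exact h.nm.empty h8

theorem N_ctbl (h : Seg S U) (f : L → Set L) (hf : {α | (f α).Countable ∧ f α ⊆ Iio α} ∈ U) :
    ∃ C, {α | f α = C} ∈ U := by
  classical
  obtain ⟨b, hb⟩ := N_const h Bool (fun α => decide (f α = ∅)) (by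
    rw [Cardinal.mk_bool]
    exact_mod_cast h.inacc.1.nat_lt 2)
  cases b with
  | true =>
    refine ⟨∅, h.nm.up _ _ hb ?_⟩
    intro α hα
    simpa using hα
  | false =>
    have h1 := N_inter2 h _ _ hf hb
    have hex : ∀ α, ∃ e : ℕ → L, ((f α).Countable ∧ f α ≠ ∅) → f α = range e := by
      intro α
      by_cases hc : (f α).Countable ∧ f α ≠ ∅
      · obtain ⟨e, he⟩ := hc.1.exists_eq_range (nonempty_iff_ne_empty.2 hc.2)
        exact ⟨e, fun _ => he⟩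
      · exact ⟨fun _ => α, fun h => absurd h hc⟩
    choose e he using hex
    have h2 : ∀ n, ∃ β, {α | e α n = β} ∈ U := by
      intro n
      apply h.nm.normal (fun α => e α n)
      refine h.nm.up _ _ h1 ?_
      rintro α ⟨⟨h3, h4⟩, h5⟩
      have h6 : f α ≠ ∅ := by simpa using h5
      have h7 := he α ⟨h3, h6⟩
      have h8 : e α n ∈ f α := by
        rw [h7]
        exact mem_range_self n
      exact h4 h8
    choose β hβ using h2
    refine ⟨range β, h.nm.up _ _ (N_inter2 h _ _ h1 (N_interN h _ hβ)) ?_⟩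
    rintro α ⟨⟨⟨h3, h4⟩, h5⟩, h9⟩
    have h6 : f α ≠ ∅ := by simpa using h5
    have h7 := he α ⟨h3, h6⟩
    rw [mem_iInter] at h9
    rw [mem_ofPred_eq, h7]
    congr 1
    funext n
    exact h9 n

theorem N_limit (h : Seg S U) (β : L) (hβ : β ∈ S) : ∃ γ ∈ S, β < γ := by
  obtain ⟨α, _, h2, h3⟩ := N_pick h S h.nm.mem β hβ
  exact ⟨α, h2, h3⟩

theorem N_bdd (h : Seg S U) (C : Set L) (hC : C ⊆ S) (hcard : #C < #S) :
    ∃ β ∈ S, ∀ γ ∈ C, γ < β := by
  by_contra hne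
  push Not at hne
  have hsub : S ⊆ ⋃ γ : C, Iic (γ : L) := by
    intro β hβ
    obtain ⟨γ, hγ, hle⟩ := hne β hβ
    exact mem_iUnion.2 ⟨⟨γ, hγ⟩, hle⟩
  have h1 : #S ≤ Cardinal.sum fun γ : C => #(Iic (γ : L)) :=
    (mk_le_mk_of_subset hsub).trans (mk_iUnion_le_sum_mk)
  have h2 : (Cardinal.sum fun γ : C => #(Iic (γ : L))) < #S := by
    refine sum_lt_of_isRegular h.inacc.1.isRegular hcard ?_
    rintro ⟨γ, hγ⟩
    obtain ⟨δ, hδ, hlt⟩ := N_limit h γ (hC hγ)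
    refine (mk_le_mk_of_subset ?_).trans_lt (h.inacc.2 δ hδ)
    intro x hx
    exact lt_of_le_of_lt hx hlt
  exact absurd h1 (not_le.2 h2)

theorem N_clos (h : Seg S U) (g : L → L) (hg : ∀ β ∈ S, g β ∈ S) :
    {α | ∀ β < α, g β < α} ∈ U := by
  refine h.nm.up _ _ (N_diag h (fun β => {α | g β < α}) fun β hβ => h.nm.unb _ (hg β hβ)) ?_
  rintro α ⟨_, h2⟩ β hβ
  exact h2 β hβ

end

theorem claimN : ClaimN := by
  intro L _ _ S U h
  exact
    { inter2 := N_inter2 h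
      interN := N_interN h
      interB := by
        intro A β hβ hA
        have h1 := h.nm.inter (Iio β) (fun γ => A γ) (h.inacc.2 β hβ) (fun γ => hA γ γ.2)
        refine h.nm.up _ _ h1 ?_
        intro x hx γ hγ
        rw [mem_iInter] at hx
        exact hx ⟨γ, hγ⟩
      inter1 := N_inter1 h
      pick := N_pick h
      const := N_const h
      split := N_split h
      diag := N_diag h
      ctbl := N_ctbl h
      bdd := N_bdd h
      bddN := by
        intro C hC hcount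
        refine N_bdd h C hC ?_
        exact (mk_le_aleph0_iff.2 hcount.to_subtype).trans_lt h.inacc.1.aleph0_lt
      clos := N_clos h
      limit := N_limit h
      aleph1 := N_aleph1 h
      large := by
        intro A hA
        refine le_antisymm (mk_le_mk_of_subset inter_subset_right) ?_
        by_contra hlt
        obtain ⟨β, hβ, hb⟩ := N_bdd h (A ∩ S) inter_subset_right (not_le.1 hlt)
        obtain ⟨α, h1, h2, h3⟩ := N_pick h A hA β hβ
        exact lt_asymm h3 (hb α ⟨h1, h2⟩) }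

end Pool.Agent.Work.MP_dbe197_lc

end

section

/-!
# Item Q1: the sets `N_δ`, easy properties
-/

namespace Pool.Agent.Work.MP_dbe197_lc

open Set Cardinal RO MM

theorem Nd_beq_symm {B X : Type} [CompleteBooleanAlgebra B] (x y : X → B) :
    beq x y = beq y x := by
  unfold beq
  congr 1
  funext a
  rw [inf_comm (x a), inf_comm (x a)ᶜ]

theorem Nd_beq_trans {B X : Type} [CompleteBooleanAlgebra B] (x y z : X → B) :
    beq x y ⊓ beq x z ≤ beq y z := by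
  refine le_iInf fun a => ?_
  have h1 : beq x y ≤ (x a ⊓ y a) ⊔ ((x a)ᶜ ⊓ (y a)ᶜ) := iInf_le _ a
  have h2 : beq x z ≤ (x a ⊓ z a) ⊔ ((x a)ᶜ ⊓ (z a)ᶜ) := iInf_le _ a
  refine (inf_le_inf h1 h2).trans ?_
  rw [inf_sup_left, inf_sup_right, inf_sup_right]
  refine sup_le (sup_le ?_ ?_) (sup_le ?_ ?_)
  · exact le_sup_of_le_left (le_inf (inf_le_left.trans inf_le_right)
      (inf_le_right.trans inf_le_right))
  · have : (x a)ᶜ ⊓ (y a)ᶜ ⊓ (x a ⊓ z a) ≤ (x a)ᶜ ⊓ x a :=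
      le_inf (inf_le_left.trans inf_le_left) (inf_le_right.trans inf_le_left)
    rw [compl_inf_eq_bot] at this
    exact this.trans bot_le
  · have : x a ⊓ y a ⊓ ((x a)ᶜ ⊓ (z a)ᶜ) ≤ x a ⊓ (x a)ᶜ :=
      le_inf (inf_le_left.trans inf_le_left) (inf_le_right.trans inf_le_left)
    rw [inf_compl_eq_bot] at this
    exact this.trans bot_le
  · exact le_sup_of_le_right (le_inf (inf_le_left.trans inf_le_right)
      (inf_le_right.trans inf_le_right))

theorem Nd_sup {B X Y : Type} [CompleteBooleanAlgebra B] (P : Y → Prop) (g : Y → X → B)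
    (x y : X → B) :
    (⨆ (t : Y) (_ : P t), beq x (g t)) ⊓ beq x y ≤ ⨆ (t : Y) (_ : P t), beq y (g t) := by
  rw [iSup_inf_eq]
  refine iSup_mono fun t => ?_
  rw [iSup_inf_eq]
  refine iSup_mono fun _ => ?_
  rw [inf_comm]
  exact Nd_beq_trans x y (g t)

open Classical in
theorem Nd_ctbl {L I B : Type} [LinearOrder L] [Nonempty L] [CompleteBooleanAlgebra B]
    (E : Ext (RO (MM L)) I B) (δ : L) (x : L → B) (y : L → RO (MM L))
    (hc : {a | y a ≠ ⊥}.Countable) (hd : ∀ a, ¬ a < δ → y a = ⊥) :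
    beq x (fun a => E.i (y a)) ≤ ctblSub δ x := by
  obtain ⟨e, he⟩ := countable_iff_exists_subset_range.mp hc
  set f : ℕ → L → B := fun n a => if a = e n then ⊤ else ⊥ with hf
  have hfun : IsFun f := by
    refine ⟨fun n => ?_, fun n a b hab => ?_⟩
    · rw [eq_top_iff]
      refine le_iSup_of_le (e n) ?_
      simp [hf]
    · rw [hf]
      simp only
      by_cases ha : a = e n
      · have hb : ¬ b = e n := fun hb => hab (ha.trans hb.symm)
        simp [hb]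
      · simp [ha]
  refine le_iSup_of_le f (le_iSup_of_le hfun ?_)
  refine le_iInf fun a => ?_
  have h1 : beq x (fun a => E.i (y a)) ≤
      (x a ⊓ E.i (y a)) ⊔ ((x a)ᶜ ⊓ (E.i (y a))ᶜ) := iInf_le _ a
  refine h1.trans ?_
  by_cases ha : y a = ⊥
  · rw [ha, E.i_bot]
    simp
  · obtain ⟨n, hn⟩ := he ha
    have had : a < δ := by
      by_contra h
      exact ha (hd a h)
    have h2 : (⨆ n, f n a) = ⊤ := by
      rw [eq_top_iff]
      refine le_iSup_of_le n ?_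
      simp [hf, hn]
    have h3 : (⨆ (_ : a < δ), (⊤ : B)) = ⊤ := by simp [had]
    rw [h2, h3]
    simp

theorem claimNd : ClaimNd := by
  intro L _ _ I B _ E
  refine ⟨fun δ x y => ?_, fun δ x => ?_, ?_⟩
  · unfold Nd
    refine le_inf ?_ ?_
    · refine le_trans (inf_le_inf_right _ inf_le_left) ?_
      exact Nd_sup _ (fun (y : L → RO (MM L)) a => E.i (y a)) x y
    · refine le_trans (inf_le_inf_right _ inf_le_right) ?_
      rw [le_compl_iff_disjoint_right, disjoint_iff_inf_le]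
      have h1 := Nd_sup (fun y : L → RO (MM L) => ∀ a, DepC (Iio δ) (y a))
        (fun (y : L → RO (MM L)) a => E.i (y a)) y x
      rw [Nd_beq_symm y x] at h1
      rw [inf_assoc, inf_comm (beq x y)]
      refine (inf_le_inf_left _ h1).trans ?_
      rw [compl_inf_eq_bot]
  · refine inf_le_left.trans ?_
    exact iSup₂_le fun y hy => Nd_ctbl E δ x y hy.1 hy.2.1
  · have key : ∀ δ δ' : L, ∀ x : L → B, δ < δ' → Nd E δ x ⊓ Nd E δ' x = ⊥ := by
      intro δ δ' x hlt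
      have h1 : (⨆ (y : L → RO (MM L)) (_ : {a | y a ≠ ⊥}.Countable ∧
          (∀ a, ¬ a < δ → y a = ⊥) ∧ ∀ a, DepC (Iic δ) (y a)), beq x (fun a => E.i (y a))) ≤
          ⨆ (y : L → RO (MM L)) (_ : ∀ a, DepC (Iio δ') (y a)), beq x (fun a => E.i (y a)) := by
        refine iSup₂_le fun y hy => ?_
        exact le_iSup₂_of_le y (fun a => (hy.2.2 a).mono
          (fun t ht => lt_of_le_of_lt ht hlt)) le_rfl
      rw [← le_bot_iff]
      unfold Nd
      refine (inf_le_inf (inf_le_left.trans h1) inf_le_right).trans ?_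
      rw [inf_compl_eq_bot]
    intro δ δ' x hne
    rcases lt_or_gt_of_ne hne with h | h
    · exact key δ δ' x h
    · rw [inf_comm]
      exact key δ' δ x h

end Pool.Agent.Work.MP_dbe197_lc

end

section

/-!
# Stationarity of `Nd`
-/

namespace Pool.Agent.Work.MP_dbe197_lc

open Set Cardinal RO MM

section Basic

variable {L : Type} [LinearOrder L]

open Classical in
/-- The finite function on the coordinate `δ` given by the sequence `s`. -/
noncomputable def nstC (δ : L) (s : List Bool) : Fn (L × ℕ) Bool :=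
  ⟨fun x => if x.1 = δ then s[x.2]? else none, by
    apply ((Set.finite_Iio s.length).image fun n => (δ, n)).subset
    rintro ⟨α, n⟩ h
    by_cases hα : α = δ
    · subst hα
      refine ⟨n, ?_, rfl⟩
      by_contra hn
      have hn' : s.length ≤ n := not_lt.1 hn
      simp at h
      omega
    · simp [hα] at h⟩

theorem nstC_self (δ : L) (s : List Bool) (n : ℕ) : (nstC δ s).f (δ, n) = s[n]? := by
  simp [nstC]

theorem nstC_ne {δ : L} (s : List Bool) {x : L × ℕ} (h : x.1 ≠ δ) : (nstC δ s).f x = none := by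
  simp [nstC, h]

theorem nst_le_iff {δ : L} {s : List Bool} {p : Fn (L × ℕ) Bool} :
    p ≤ nstC δ s ↔ ∀ n v, s[n]? = some v → p.f (δ, n) = some v := by
  constructor
  · intro h n v hv
    exact h (δ, n) v (by rw [nstC_self]; exact hv)
  · rintro h ⟨α, n⟩ v hv
    by_cases hα : α = δ
    · subst hα
      rw [nstC_self] at hv
      exact h n v hv
    · rw [nstC_ne s (x := (α, n)) hα] at hv
      exact absurd hv (by simp)

theorem nst_prefix {δ : L} {s t : List Bool} {p : Fn (L × ℕ) Bool} (hs : p ≤ nstC δ s)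
    (ht : p ≤ nstC δ t) : s <+: t ∨ t <+: s := by
  rw [nst_le_iff] at hs ht
  have key : ∀ s t : List Bool, (∀ n v, s[n]? = some v → p.f (δ, n) = some v) →
      (∀ n v, t[n]? = some v → p.f (δ, n) = some v) → s.length ≤ t.length → s <+: t := by
    intro s t hs ht hl
    rw [List.prefix_iff_getElem]
    refine ⟨hl, fun i hi => ?_⟩
    have h1 := hs i s[i] (List.getElem?_eq_getElem hi)
    have h2 := ht i t[i] (List.getElem?_eq_getElem (lt_of_lt_of_le hi hl))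
    rw [h1] at h2
    exact Option.some.inj h2
  rcases le_total s.length t.length with h | h
  · exact Or.inl (key s t hs ht h)
  · exact Or.inr (key t s ht hs h)

/-- The domain at `δ` can be made an initial segment. -/
theorem nst_fill (δ : L) (p : Fn (L × ℕ) Bool) :
    ∃ p' ≤ p, ∃ t : List Bool, ∀ n, p'.f (δ, n) = t[n]? := by
  classical
  obtain ⟨N, hN⟩ : ∃ N : ℕ, ∀ n, p.f (δ, n) ≠ none → n < N := by
    have hfin : {n : ℕ | p.f (δ, n) ≠ none}.Finite := by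
      apply Set.Finite.preimage (f := fun n : ℕ => (δ, n)) _ p.fin
      intro a _ b _ h
      exact (Prod.mk.injEq _ _ _ _ ▸ h).2
    obtain ⟨N, hN⟩ := hfin.bddAbove
    exact ⟨N + 1, fun n hn => Nat.lt_succ_of_le (hN hn)⟩
  let t : List Bool := List.ofFn fun i : Fin N => (p.f (δ, i.1)).getD false
  have hc : Fn.Compat p (nstC δ t) := by
    rintro ⟨α, n⟩ v w hv hw
    by_cases hα : α = δ
    · subst hα
      rw [nstC_self] at hw
      have hn : n < N := hN n (by rw [hv]; simp)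
      simp only [t, List.getElem?_ofFn, hn, dite_true, Option.some.injEq, hv,
        Option.getD_some] at hw
      exact hw
    · rw [nstC_ne t (x := (α, n)) hα] at hw
      exact absurd hw (by simp)
  refine ⟨p.union (nstC δ t), Fn.union_le_left _ _, t, fun n => ?_⟩
  rcases hp : p.f (δ, n) with _ | v
  · rw [Fn.union_f_of_none hp, nstC_self]
  · rw [Fn.union_f_of_some hp]
    have hn : n < N := hN n (by rw [hp]; simp)
    simp [t, hn, hp]

/-- Extending the value at `δ` by one more digit. -/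
theorem nst_ext {δ : L} {p : Fn (L × ℕ) Bool} {t : List Bool} (h : ∀ n, p.f (δ, n) = t[n]?)
    (b : Bool) : p.union (nstC δ (t ++ [b])) ≤ nstC δ (t ++ [b]) := by
  apply Fn.union_le_right
  rintro ⟨α, n⟩ v w hv hw
  by_cases hα : α = δ
  · subst hα
    rw [nstC_self] at hw
    rw [h] at hv
    have hn : n < t.length := by
      by_contra hn
      rw [List.getElem?_eq_none (not_lt.1 hn)] at hv
      exact absurd hv (by simp)
    rw [List.getElem?_append_left hn, hv] at hw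
    exact Option.some.inj hw
  · rw [nstC_ne _ (x := (α, n)) hα] at hw
    exact absurd hw (by simp)

theorem nst_restr (δ : L) (p : Fn (L × ℕ) Bool) (s t : List Bool) :
    (p.union (nstC δ s)).restr (cyl (Iio δ)) = (p.union (nstC δ t)).restr (cyl (Iio δ)) := by
  ext1 x
  by_cases hx : x ∈ cyl (Iio δ)
  · rw [Fn.restr_f_of_mem hx, Fn.restr_f_of_mem hx]
    have hne : x.1 ≠ δ := ne_of_lt hx
    rcases hp : p.f x with _ | v
    · rw [Fn.union_f_of_none hp, Fn.union_f_of_none hp, nstC_ne _ hne, nstC_ne _ hne]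
    · rw [Fn.union_f_of_some hp, Fn.union_f_of_some hp]
  · rw [Fn.restr_f_of_not_mem hx, Fn.restr_f_of_not_mem hx]

theorem nst_beq1 {B X : Type} [CompleteBooleanAlgebra B] (x z : X → B) (a : X) :
    beq x z ⊓ x a ≤ z a := by
  have h1 : beq x z ≤ (x a ⊓ z a) ⊔ ((x a)ᶜ ⊓ (z a)ᶜ) := iInf_le _ a
  refine (inf_le_inf_right _ h1).trans ?_
  rw [inf_sup_right]
  apply sup_le
  · exact inf_le_left.trans inf_le_right
  · have : (x a)ᶜ ⊓ (z a)ᶜ ⊓ x a = ⊥ := by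
      rw [inf_right_comm, compl_inf_eq_bot, bot_inf_eq]
    rw [this]
    exact bot_le

theorem nst_beq2 {B X : Type} [CompleteBooleanAlgebra B] (x z : X → B) (a : X) :
    beq x z ⊓ (x a)ᶜ ≤ (z a)ᶜ := by
  have h1 : beq x z ≤ (x a ⊓ z a) ⊔ ((x a)ᶜ ⊓ (z a)ᶜ) := iInf_le _ a
  refine (inf_le_inf_right _ h1).trans ?_
  rw [inf_sup_right]
  apply sup_le
  · have : x a ⊓ z a ⊓ (x a)ᶜ = ⊥ := by
      rw [inf_right_comm, inf_compl_eq_bot, bot_inf_eq]
    rw [this]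
    exact bot_le
  · exact inf_le_left.trans inf_le_right

theorem nst_beq_self {B X : Type} [CompleteBooleanAlgebra B] (x : X → B) : beq x x = ⊤ := by
  simp [beq]

theorem nst_beq_i {A I B X : Type} [CompleteBooleanAlgebra A] [CompleteBooleanAlgebra B]
    (E : Ext A I B) (x z : X → A) :
    beq (fun a => E.i (x a)) (fun a => E.i (z a)) = E.i (beq x z) := by
  simp only [beq, E.i_iInf, E.i_sup, E.i_inf, E.i_compl]

end Basic

/-- The positions. -/
theorem nst_pos (hP : ClaimPos) {L I B : Type} [LinearOrder L] [CompleteBooleanAlgebra B]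
    (E : Ext (RO (MM L)) I B) (δ : L) (F : List L → L → B) (hF : IsFun F)
    (hF' : ∀ u b, ¬ b < δ → F u b = ⊥) (q0 : TT L) :
    ∃ (q : List L → TT L) (y : List L → Set L), q [] ≤ q0 ∧ (∀ u g, q (u ++ [g]) ≤ q u) ∧
      (∀ u g, y u ⊆ y (u ++ [g])) ∧ (∀ u g, g < δ → g ∈ y (u ++ [g])) ∧
      ∀ u, Pos E δ F (q u) (y u) := by
  classical
  have step : ∀ (x : {x : TT L × Set L // Pos E δ F x.1 x.2}) (g : L),
      ∃ x' : {x : TT L × Set L // Pos E δ F x.1 x.2}, x'.1.1 ≤ x.1.1 ∧ x.1.2 ⊆ x'.1.2 ∧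
        (g < δ → g ∈ x'.1.2) := by
    intro x g
    by_cases hg : g < δ
    · obtain ⟨q', hq', y', hy', hpos⟩ := hP L I B E δ F hF hF' x.1.1 (insert g x.1.2)
        (x.2.1.insert g) (by
          rintro a (rfl | ha)
          · exact hg
          · exact x.2.2.1 ha)
      exact ⟨⟨(q', y'), hpos⟩, hq', fun a ha => hy' (Or.inr ha), fun _ => hy' (Or.inl rfl)⟩
    · exact ⟨x, le_rfl, Subset.rfl, fun h => absurd h hg⟩
  choose st hst1 hst2 hst3 using step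
  obtain ⟨q', hq', y', _, hpos⟩ := hP L I B E δ F hF hF' q0 ∅ countable_empty (empty_subset _)
  let x0 : {x : TT L × Set L // Pos E δ F x.1 x.2} := ⟨(q', y'), hpos⟩
  let pR : List L → {x : TT L × Set L // Pos E δ F x.1 x.2} := fun l =>
    List.rec (motive := fun _ => {x : TT L × Set L // Pos E δ F x.1 x.2}) x0
      (fun g _ x => st x g) l
  have hpR : ∀ (u : List L) (g : L), pR (u ++ [g]).reverse = st (pR u.reverse) g := by
    intro u g
    simp only [List.reverse_append, List.reverse_cons, List.reverse_nil, List.nil_append,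
      List.cons_append]
    rfl
  refine ⟨fun u => (pR u.reverse).1.1, fun u => (pR u.reverse).1.2, hq', ?_, ?_, ?_, ?_⟩
  · intro u g
    simp only [hpR]
    exact hst1 _ _
  · intro u g
    simp only [hpR]
    exact hst2 _ _
  · intro u g hg
    simp only [hpR]
    exact hst3 _ _ hg
  · intro u
    exact (pR u.reverse).2

theorem nst_mono {L : Type} {y : List L → Set L} {u : List Bool → List L} {g : List Bool → L}
    (hy : ∀ u g, y u ⊆ y (u ++ [g])) (hu : ∀ s b, u (s ++ [b]) = u s ++ [g (s ++ [b])])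
    {s t : List Bool} (h : s <+: t) : y (u s) ⊆ y (u t) := by
  obtain ⟨w, rfl⟩ := h
  induction w using List.reverseRecOn with
  | nil => simp
  | append_singleton w b ih =>
    rw [← List.append_assoc, hu]
    exact ih.trans (hy _ _)

theorem claimNst (hP : ClaimPos) (hT : ClaimTree) (hM : ClaimMixT) : ClaimNst := by
  classical
  intro L _ _ δ hδ I B _ E
  obtain ⟨W, hW⟩ := hδ
  rw [statP, eq_top_iff]
  refine le_iInf₂ fun F hF => ?_
  obtain ⟨hF, hF'⟩ := hF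
  rw [← eq_top_iff]
  by_contra hne
  set sv : B := ⨆ x : L → B, Nd E δ x ⊓ closedUnder F x with hsv
  have hne' : svᶜ ≠ ⊥ := fun h => hne (compl_eq_bot.1 h)
  obtain ⟨a, F0, ha, hcov⟩ := E.cov_ex _ hne'
  obtain ⟨m0, hm0⟩ := ne_bot_iff.1 ha
  obtain ⟨q, y, hq0, hq1, hy1, hy2, hpos⟩ := nst_pos hP E δ F hF hF' m0.q
  obtain ⟨u, g, hu0, hg, hu, hcomp, hsplit⟩ := hT L δ W hW q y hq1 hy1 hy2
    (fun u => (hpos u).1) (fun u => (hpos u).2.1)
  obtain ⟨h0, hh1, hh2⟩ := TT.exists_glb (fun s : List Bool => (q (u s)).restr (Iio δ)) hcomp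
  have hh0 : h0.supp ⊆ Iio δ := by
    rintro α ⟨ξ, hξ⟩
    obtain ⟨v, hv⟩ := Option.ne_none_iff_exists'.1 hξ
    obtain ⟨s, hs⟩ := hh2 α ξ v hv
    exact (TT.restr_eq_some.1 hs).1
  obtain ⟨qq, hqq1, hqq2⟩ := hM L δ (fun s => q (u s)) h0
    (fun s b => by rw [hu]; exact hq1 _ _) hh0
  -- the values of `qq` below `δ`
  have hqq3 : ∀ s α ξ v, α < δ → (q (u s)).val α ξ = some v → qq.val α ξ = some v := by
    intro s α ξ v hα hv
    have h1 : h0.val α ξ = some v := hh1 s α ξ v (TT.restr_eq_some.2 ⟨hα, hv⟩)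
    rw [← hqq1, TT.restr_eq_some] at h1
    exact h1.2
  set m1 : MM L := ⟨m0.p, qq⟩ with hm1
  have key : ∀ m : MM L, m ≤ m1 → ∀ s, m.p ≤ nstC δ s → m ≤ ⟨Fn.empty, q (u s)⟩ := by
    intro m hm s hs
    refine ⟨Fn.le_empty _, fun α ξ v hv => ?_⟩
    by_cases hα : α < δ
    · exact hm.2 α ξ v (hqq3 s α ξ v hα hv)
    · obtain ⟨w, hw1, hw2⟩ := hqq2 s α ξ v (not_lt.1 hα) hv
      obtain ⟨v', hv1, hv2⟩ := hm.2 α ξ w hw1
      refine ⟨v', hv1, fun c hc => (hv2 c hc).trans (hw2 c fun i hi => ?_)⟩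
      exact hc δ i s[i] (nst_le_iff.1 hs i _ (List.getElem?_eq_getElem hi))
  have hm1le : m1 ≤ m0 := by
    refine ⟨le_rfl, fun α ξ v hv => ?_⟩
    have hv' := hq0 α ξ v hv
    rw [← hu0] at hv'
    by_cases hα : α < δ
    · exact ⟨v, hqq3 [] α ξ v hα hv', fun _ _ => rfl⟩
    · obtain ⟨w, hw1, hw2⟩ := hqq2 [] α ξ v (not_lt.1 hα) hv'
      exact ⟨w, hw1, fun c _ => hw2 c fun i hi => absurd hi (by simp)⟩
  set coh : List Bool → RO (MM L) := fun s => gen ⟨nstC δ s, TT.empty⟩ with hcoh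
  set x' : L → RO (MM L) := fun b => ⨆ s, ⨆ (_ : b ∈ y (u s)), coh s with hx'
  have hcohle : ∀ s b, b ∈ y (u s) → coh s ≤ x' b := fun s b hb =>
    le_iSup₂_of_le s hb le_rfl
  have hmemcoh : ∀ (m : MM L) s, m.p ≤ nstC δ s → m ∈ coh s := fun m s hs =>
    mem_gen_of_le (mk_le_mk hs (TT.le_empty _))
  have hmemx : ∀ (m : MM L) b, m ∈ x' b → ∃ r ≤ m, ∃ s, b ∈ y (u s) ∧ r.p ≤ nstC δ s := by
    intro m b hm
    obtain ⟨r, hr, s, hs⟩ := mem_iSup.1 hm m le_rfl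
    obtain ⟨r2, hr2, hb, h2⟩ := mem_iSup.1 hs r le_rfl
    obtain ⟨r3, hr3, h3⟩ := exists_le_of_mem_gen h2
    exact ⟨r3, hr3.trans (hr2.trans hr), s, hb, h3.1⟩
  -- part (a)
  have parta : E.i (gen m1) ≤ closedUnder F (fun b => E.i (x' b)) := by
    rw [closedUnder]
    refine le_iInf fun v => ?_
    set z : RO (MM L) := ⨅ a ∈ v, x' a with hz
    have e1 : (⨆ a ∈ v, (E.i (x' a))ᶜ) = (E.i z)ᶜ := by
      rw [hz, E.i_iInf, compl_iInf]
      congr 1
      ext a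
      rw [E.i_iInf, compl_iInf]
    rw [e1, sup_comm, ← sdiff_le_iff', _root_.sdiff_eq, compl_compl, ← E.i_inf]
    have dens : ∀ (w : List L) (m : MM L), m ∈ ⨅ a ∈ w, x' a →
        ∃ r ≤ m, ∃ s, r.p ≤ nstC δ s ∧ ∀ a ∈ w, a ∈ y (u s) := by
      intro w
      induction w with
      | nil =>
        intro m _
        exact ⟨m, le_rfl, [], nst_le_iff.2 (by simp), by simp⟩
      | cons a w ih =>
        intro m hm
        have hm' : ∀ b ∈ a :: w, m ∈ x' b := fun b hb => mem_iInf.1 (mem_iInf.1 hm b) hb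
        obtain ⟨r, hr, s, hs1, hs2⟩ := ih m (mem_iInf.2 fun b => mem_iInf.2 fun hb =>
          hm' b (List.mem_cons_of_mem _ hb))
        obtain ⟨r2, hr2, s2, hb2, hs3⟩ := hmemx r a (mem_down hr (hm' a (by simp)))
        rcases nst_prefix (hr2.1.trans hs1) hs3 with h | h
        · refine ⟨r2, hr2.trans hr, s2, hs3, ?_⟩
          intro b hb
          rcases List.mem_cons.1 hb with rfl | hb
          · exact hb2
          · exact nst_mono hy1 hu h (hs2 b hb)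
        · refine ⟨r2, hr2.trans hr, s, hr2.1.trans hs1, ?_⟩
          intro b hb
          rcases List.mem_cons.1 hb with rfl | hb
          · exact nst_mono hy1 hu h hb2
          · exact hs2 b hb
    have hle : gen m1 ⊓ z ≤ ⨆ (m : MM L) (_ : m ≤ m1 ∧ ∃ s, m.p ≤ nstC δ s ∧
        ∀ a ∈ v, a ∈ y (u s)), gen m := by
      rintro m ⟨hma, hmb⟩
      apply mem_reg
      intro n hn
      obtain ⟨n1, hn1, hn1'⟩ := exists_le_of_mem_gen (mem_down hn hma)
      obtain ⟨n2, hn2, s, hs1, hs2⟩ := dens v n1 (mem_down (hn1.trans hn) hmb)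
      refine ⟨n2, hn2.trans hn1, ?_⟩
      have : gen n2 ≤ ⨆ (m : MM L) (_ : m ≤ m1 ∧ ∃ s, m.p ≤ nstC δ s ∧
        ∀ a ∈ v, a ∈ y (u s)), gen m :=
        le_iSup₂_of_le n2 ⟨hn2.trans hn1', s, hs1, hs2⟩ le_rfl
      exact gen_le_iff.1 this
    refine (E.i_mono hle).trans ?_
    rw [E.i_iSup]
    refine iSup_le fun m => ?_
    rw [E.i_iSup]
    refine iSup_le fun hm => ?_
    obtain ⟨hm, s, hs1, hs2⟩ := hm
    have h1 : E.i (gen m) ≤ ⨆ γ ∈ y (u s), F v γ :=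
      (E.i_mono (gen_mono (key m hm s hs1))).trans ((hpos (u s)).2.2 v hs2)
    have h2 : E.i (gen m) ≤ E.i (coh s) := E.i_mono (gen_le_iff.2 (hmemcoh m s hs1))
    refine (le_inf h1 h2).trans ?_
    rw [iSup₂_inf_eq]
    refine iSup₂_le fun γ hγ => ?_
    exact le_iSup_of_le γ (inf_le_inf_left _ (E.i_mono (hcohle s γ hγ)))
  -- part (b)
  have partb : ∀ z : L → RO (MM L), (∀ a, DepC (Iio δ) (z a)) → ∀ m ≤ m1, m ∉ beq x' z := by
    intro z hz m hm hmz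
    obtain ⟨p', hp', t, ht⟩ := nst_fill δ m.p
    set b := g (t ++ [false]) with hb
    have hlt : ∀ c : Bool, (⟨p'.union (nstC δ (t ++ [c])), m.q⟩ : MM L) ≤ m := fun c =>
      mk_le_mk ((Fn.union_le_left _ _).trans hp') le_rfl
    have hb1 : b ∈ y (u (t ++ [false])) := by
      rw [hu]
      exact hy2 _ _ (hg _)
    -- the first condition
    have h0a : (⟨p'.union (nstC δ (t ++ [false])), m.q⟩ : MM L) ∈ z b :=
      nst_beq1 x' z b _ ⟨mem_down (hlt false) hmz, hcohle _ _ hb1 _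
        (hmemcoh _ _ (nst_ext ht false))⟩
    have h0b := hz b _ h0a
    -- the second condition
    have h1a : (⟨p'.union (nstC δ (t ++ [true])), m.q⟩ : MM L) ∈ (x' b)ᶜ := by
      rw [RO.mem_compl]
      intro r hr hrx
      obtain ⟨r2, hr2, s, hs1, hs2⟩ := hmemx r b hrx
      have h3 : r2.p ≤ nstC δ (t ++ [true]) := (hr2.1.trans hr.1).trans (nst_ext ht true)
      rcases nst_prefix hs2 h3 with h | h
      · exact hsplit t (t ++ [true]) (nst_mono hy1 hu h hs1) (List.prefix_refl _)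
      · exact hsplit t s hs1 h
    have h1b : (⟨p'.union (nstC δ (t ++ [true])), m.q⟩ : MM L) ∈ (z b)ᶜ :=
      nst_beq2 x' z b _ ⟨mem_down (hlt true) hmz, h1a⟩
    have h1c := (hz b).compl _ h1b
    have heq : resC (Iio δ) (⟨p'.union (nstC δ (t ++ [false])), m.q⟩ : MM L) =
        resC (Iio δ) ⟨p'.union (nstC δ (t ++ [true])), m.q⟩ := by
      simp only [resC]
      rw [nst_restr δ p' (t ++ [false]) (t ++ [true])]
    rw [← heq] at h1c
    exact not_mem_of_compl h1c h0b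
  have hNd : E.i (gen m1) ≤ Nd E δ (fun b => E.i (x' b)) := by
    rw [Nd]
    refine le_inf ?_ ?_
    · have h1 : (⊤ : B) ≤ ⨆ (y : L → RO (MM L)) (_ : {a | y a ≠ ⊥}.Countable ∧
          (∀ a, ¬ a < δ → y a = ⊥) ∧ ∀ a, DepC (Iic δ) (y a)),
          beq (fun b => E.i (x' b)) (fun a => E.i (y a)) := by
        refine le_iSup₂_of_le x' ⟨?_, ?_, ?_⟩ ?_
        · refine (countable_iUnion fun s => (hpos (u s)).1).mono ?_
          intro b hb
          by_contra hnot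
          apply hb
          simp only [mem_iUnion, not_exists] at hnot
          simp only [hx', hnot, iSup_false, iSup_bot]
        · intro b hb
          have : ∀ s, b ∉ y (u s) := fun s hs => hb ((hpos (u s)).2.1 hs)
          simp only [hx', this, iSup_false, iSup_bot]
        · intro b
          refine DepC.iSup fun s => DepC.iSup fun _ => DepC.gen ?_
          rintro ⟨α, n⟩ hx
          by_contra hα
          have hne : α ≠ δ := fun h => hα (le_of_eq h)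
          exact hx (nstC_ne s (x := (α, n)) hne)
        · rw [nst_beq_self]
      exact le_top.trans h1
    · rw [le_compl_iff_disjoint_right, disjoint_iff, inf_iSup₂_eq, iSup₂_eq_bot]
      intro z hz
      rw [nst_beq_i, ← E.i_inf, E.i_eq_bot]
      by_contra hne2
      obtain ⟨m, hm, hmz⟩ := mem_inf_gen_ne_bot.1 hne2
      exact partb z hz m hm hmz
  have hfin : E.i (gen m1) ≤ sv := by
    rw [hsv]
    exact le_iSup_of_le (fun b => E.i (x' b)) (le_inf hNd parta)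
  have c1 : E.cov (gen m1) F0 svᶜ := E.cov_mono _ _ _ _ _ _ hcov
    (gen_le_iff.2 (mem_down hm1le hm0)) le_rfl le_rfl
  have c2 : E.cov (gen m1) F0 sv := E.cov_mono _ _ _ _ _ _
    ((E.cov_i (gen m1) (gen m1) F0).2 le_rfl) le_rfl le_rfl hfin
  have c3 := E.cov_inf _ _ _ _ c2 c1
  rw [inf_compl_eq_bot] at c3
  exact gen_ne_bot m1 (E.cov_bot _ _ c3)

end Pool.Agent.Work.MP_dbe197_lc

end

section

/-!
# The collapse of the initial segments, preservation of `ω₁`, `L` becomes `ω₂`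
-/

namespace Pool.Agent.Work.MP_dbe197_lc

open Set Cardinal RO MM

section coll

variable {L : Type} [LinearOrder L]

/-- The conditions which decide the value of the generic function at `(α, ξ)` as `b`. -/
def Om2_set (α : L) (ξ : O1) (b : L) : Set (MM L) :=
  {m | ∃ v, m.q.val α ξ = some v ∧ ∀ c ∈ cone m.p, v c = b}

theorem Om2_set_down {α : L} {ξ : O1} {b : L} {m m' : MM L} (h : m' ≤ m)
    (hm : m ∈ Om2_set α ξ b) : m' ∈ Om2_set α ξ b := by
  obtain ⟨v, hv, hc⟩ := hm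
  obtain ⟨v', hv', h'⟩ := h.2 α ξ v hv
  exact ⟨v', hv', fun c hcc => (h' c hcc).trans (hc c (cone_mono h.1 hcc))⟩

/-- The value of: the generic function takes at `(α, ξ)` the value `b`. -/
def Om2_v (α : L) (ξ : O1) (b : L) : RO (MM L) := RO.cl (Om2_set α ξ b)

theorem Om2_v_disj {α : L} {ξ : O1} {b b' : L} (h : b ≠ b') :
    Om2_v α ξ b ⊓ Om2_v α ξ b' = ⊥ := by
  by_contra hne
  obtain ⟨m, hm⟩ := RO.ne_bot_iff.1 hne
  obtain ⟨hm1, hm2⟩ := RO.mem_inf.1 hm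
  obtain ⟨r, hr, t, ht, hrt⟩ := RO.mem_cl.1 hm1 m le_rfl
  obtain ⟨r', hr', t', ht', hrt'⟩ := RO.mem_cl.1 hm2 r hr
  obtain ⟨v, hv, hc⟩ := Om2_set_down (hr'.trans hrt) ht
  obtain ⟨v', hv', hc'⟩ := Om2_set_down hrt' ht'
  rw [hv] at hv'
  obtain rfl := Option.some.inj hv'
  obtain ⟨c, hcc⟩ := cone_nonempty r'.p
  exact h ((hc c hcc).symm.trans (hc' c hcc))

open Classical in
/-- The term condition with the single value `b` at `(α, ξ)`. -/
noncomputable def Om2_single (α : L) (ξ : O1) (b : L) (hb : b ≤ α) : TT L where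
  val α' ξ' := if α' = α ∧ ξ' = ξ then some (fun _ => b) else none
  ctbl := by
    apply (Set.countable_singleton (α, ξ)).mono
    intro x hx
    by_contra hne
    apply hx
    rw [if_neg]
    rintro ⟨h1, h2⟩
    exact hne (Prod.ext h1 h2)
  le' α' ξ' v hv c := by
    by_cases h : α' = α ∧ ξ' = ξ
    · rw [if_pos h] at hv
      obtain rfl := Option.some.inj hv
      rw [h.1]; exact hb
    · rw [if_neg h] at hv
      exact absurd hv (by simp)
  dep α' ξ' v hv c c' _ := by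
    by_cases h : α' = α ∧ ξ' = ξ
    · rw [if_pos h] at hv
      obtain rfl := Option.some.inj hv
      rfl
    · rw [if_neg h] at hv
      exact absurd hv (by simp)

theorem Om2_single_val (α : L) (ξ : O1) (b : L) (hb : b ≤ α) :
    (Om2_single α ξ b hb).val α ξ = some (fun _ => b) := by
  simp [Om2_single]

theorem Om2_O1_uncountable {C : Set O1} (hC : C.Countable) : ∃ ξ, ξ ∉ C := by
  by_contra h
  push Not at h
  have h1 : C = Set.univ := Set.eq_univ_of_forall h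
  rw [h1] at hC
  have h2 : #O1 ≤ ℵ₀ := by
    have := hC.le_aleph0
    rwa [Cardinal.mk_univ] at this
  have h3 : #O1 = Cardinal.aleph 1 := Cardinal.mk_ord_toType _
  rw [h3] at h2
  exact absurd h2 (not_le.2 Cardinal.aleph0_lt_aleph_one)

theorem Om2_exists_free (q : TT L) (α : L) : ∃ ξ, q.val α ξ = none := by
  have hC : {ξ : O1 | q.val α ξ ≠ none}.Countable := by
    have := q.ctbl.preimage (f := fun ξ : O1 => (α, ξ)) (fun a b h => by
      simpa using h)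
    exact this
  obtain ⟨ξ, hξ⟩ := Om2_O1_uncountable hC
  exact ⟨ξ, by simpa using hξ⟩

theorem Om2_v_sup {α : L} {b : L} (hb : b ≤ α) : ⨆ ξ, Om2_v α ξ b = ⊤ := by
  apply le_antisymm le_top
  intro m _
  rw [RO.mem_iSup]
  intro q _
  obtain ⟨ξ, hξ⟩ := Om2_exists_free q.q α
  refine ⟨⟨q.p, q.q.ov (Om2_single α ξ b hb)⟩, ?_, ξ, ?_⟩
  · exact mk_le_mk le_rfl (TT.ov_le_left _ _)
  · rw [Om2_v, RO.mem_cl]
    intro r hr
    refine ⟨r, le_rfl, _, ?_, hr⟩
    refine ⟨fun _ => b, ?_, fun _ _ => rfl⟩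
    rw [TT.ov_of_none hξ]
    exact Om2_single_val α ξ b hb

open Classical in
/-- The name of the collapsing function. -/
noncomputable def Om2_w (α : L) (ξ : O1) (b : L) : RO (MM L) :=
  if b < α then Om2_v α ξ b
  else if b = α then Om2_v α ξ α ⊔ (⨆ c : L, ⨆ (_ : c ≤ α), Om2_v α ξ c)ᶜ else ⊥

theorem Om2_w_lt {α : L} {ξ : O1} {b : L} (h : b < α) : Om2_w α ξ b = Om2_v α ξ b := by
  rw [Om2_w, if_pos h]

theorem Om2_w_eq {α : L} {ξ : O1} :
    Om2_w α ξ α = Om2_v α ξ α ⊔ (⨆ c : L, ⨆ (_ : c ≤ α), Om2_v α ξ c)ᶜ := by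
  rw [Om2_w, if_neg (lt_irrefl _), if_pos rfl]

theorem Om2_w_gt {α : L} {ξ : O1} {b : L} (h : ¬ b ≤ α) : Om2_w α ξ b = ⊥ := by
  rw [Om2_w, if_neg (fun h' => h h'.le), if_neg (fun h' => h h'.le)]

theorem Om2_v_le_w {α : L} {ξ : O1} {b : L} (h : b ≤ α) : Om2_v α ξ b ≤ Om2_w α ξ b := by
  rcases h.lt_or_eq with h | rfl
  · rw [Om2_w_lt h]
  · rw [Om2_w_eq]; exact le_sup_left

theorem Om2_w_tot (α : L) (ξ : O1) : ⨆ b, Om2_w α ξ b = ⊤ := by
  apply le_antisymm le_top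
  have h : (⊤ : RO (MM L)) = (⨆ c : L, ⨆ (_ : c ≤ α), Om2_v α ξ c) ⊔
      (⨆ c : L, ⨆ (_ : c ≤ α), Om2_v α ξ c)ᶜ := by simp
  rw [h]
  apply sup_le
  · exact iSup_le fun c => iSup_le fun hc => (Om2_v_le_w hc).trans (le_iSup (Om2_w α ξ) c)
  · refine le_trans ?_ (le_iSup (Om2_w α ξ) α)
    rw [Om2_w_eq]; exact le_sup_right

theorem Om2_w_uniq1 {α : L} {ξ : O1} {b b' : L} (h : b < b') :
    Om2_w α ξ b ⊓ Om2_w α ξ b' = ⊥ := by
  rcases lt_trichotomy b' α with hb' | rfl | hb'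
  · rw [Om2_w_lt (h.trans hb'), Om2_w_lt hb']
    exact Om2_v_disj h.ne
  · rw [Om2_w_lt h, Om2_w_eq, inf_sup_left, Om2_v_disj h.ne, bot_sup_eq]
    rw [← le_bot_iff]
    have h1 : Om2_v b' ξ b ≤ ⨆ c : L, ⨆ (_ : c ≤ b'), Om2_v b' ξ c :=
      le_iSup₂ (f := fun (c : L) (_ : c ≤ b') => Om2_v b' ξ c) b h.le
    refine (inf_le_inf_right _ h1).trans ?_
    rw [inf_compl_self]
  · rw [Om2_w_gt (not_le.2 hb'), inf_bot_eq]

theorem Om2_w_uniq {α : L} {ξ : O1} {b b' : L} (h : b ≠ b') :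
    Om2_w α ξ b ⊓ Om2_w α ξ b' = ⊥ := by
  rcases lt_or_gt_of_ne h with h | h
  · exact Om2_w_uniq1 h
  · rw [inf_comm]; exact Om2_w_uniq1 h

end coll

theorem claimColl : ClaimColl := by
  intro L _ I B _ E α
  refine ⟨fun ξ b => E.i (Om2_w α ξ b), ⟨?_, ?_⟩, ?_, ?_⟩
  · intro ξ
    rw [← E.i_iSup, Om2_w_tot, E.i_top]
  · intro ξ b b' h
    rw [← E.i_inf, Om2_w_uniq h, E.i_bot]
  · intro ξ b hb
    show E.i (Om2_w α ξ b) = ⊥
    rw [Om2_w_gt hb, E.i_bot]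
  · intro b hb
    rw [← E.i_iSup]
    have : ⨆ ξ, Om2_w α ξ b = ⊤ := by
      apply le_antisymm le_top
      rw [← Om2_v_sup hb]
      exact iSup_mono fun ξ => Om2_v_le_w hb
    rw [this, E.i_top]

theorem Om2_pres1 (hDL : ClaimDL) {L : Type} [LinearOrder L] {I B : Type}
    [CompleteBooleanAlgebra B] (E : Ext (RO (MM L)) I B) (f : ℕ → O1 → B) (hf : IsFun f) :
    ⨅ ξ, ⨆ n, f n ξ = ⊥ := by
  by_contra hx
  obtain ⟨a, F, ha, hcov⟩ := E.cov_ex _ hx
  obtain ⟨m, hm⟩ := RO.ne_bot_iff.1 ha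
  obtain ⟨q, hq, C, hC, hcap⟩ := hDL L I B E O1 f m.p m.q (fun n => by
    rw [hf.tot n]; exact le_top)
  obtain ⟨ξ0, hξ0⟩ := Om2_O1_uncountable hC
  have hle : (⟨m.p, q⟩ : MM L) ≤ m := mk_le_mk le_rfl hq
  have hga : gen (⟨m.p, q⟩ : MM L) ≤ a := gen_le_iff.2 (mem_down hle hm)
  have h1 : E.cov (gen (⟨m.p, q⟩ : MM L)) F (⨆ n, f n ξ0) :=
    E.cov_mono _ _ _ _ _ _ hcov hga le_rfl (iInf_le _ ξ0)
  have h2 : E.cov (gen (⟨m.p, q⟩ : MM L)) F (E.i (gen (⟨m.p, q⟩ : MM L))) :=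
    (E.cov_i _ _ _).2 le_rfl
  have h3 := E.cov_inf _ _ _ _ h1 h2
  have h4 : (⨆ n, f n ξ0) ⊓ E.i (gen (⟨m.p, q⟩ : MM L)) = ⊥ := by
    rw [iSup_inf_eq, iSup_eq_bot]
    intro n
    rw [← le_bot_iff]
    refine (inf_le_inf_left _ (hcap n)).trans ?_
    rw [inf_iSup_eq]
    refine iSup_le fun j => ?_
    rw [inf_iSup_eq]
    refine iSup_le fun hj => ?_
    rw [hf.uniq n ξ0 j (fun h => hξ0 (h ▸ hj))]
  rw [h4] at h3
  exact gen_ne_bot _ (E.cov_bot _ _ h3)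

theorem Om2_pres2 (hN : ClaimN) {L : Type} [LinearOrder L] [WellFoundedLT L] {U : Set (Set L)}
    (hU : Seg Set.univ U) {B : Type}
    [CompleteBooleanAlgebra B] (hCC : CC L B) (f : O1 → L → B) (hf : IsFun f) :
    ⨅ α, ⨆ ξ, f ξ α = ⊥ := by
  by_contra hx
  have NF := hN L Set.univ U hU
  have h1 : ∀ α : L, ∃ ξ, (⨅ α, ⨆ ξ, f ξ α) ⊓ f ξ α ≠ ⊥ := by
    intro α
    by_contra hcon
    push Not at hcon
    apply hx
    have h2 : (⨅ α, ⨆ ξ, f ξ α) ≤ (⨅ α, ⨆ ξ, f ξ α) ⊓ ⨆ ξ, f ξ α :=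
      le_inf le_rfl (iInf_le _ α)
    rw [inf_iSup_eq] at h2
    rw [← le_bot_iff]
    exact h2.trans (iSup_le fun ξ => (hcon ξ).le)
  choose g hg using h1
  obtain ⟨ξ0, hξ0⟩ := NF.const O1 g NF.aleph1
  have hcard := NF.large _ hξ0
  rw [Cardinal.mk_univ] at hcard
  obtain ⟨e⟩ := Cardinal.eq.1 hcard
  obtain ⟨i, j, hij, hne⟩ := hCC (fun i => (⨅ α, ⨆ ξ, f ξ α) ⊓ f ξ0 ((e.symm i).1)) (by
    intro i
    have h3 : g (e.symm i).1 = ξ0 := (e.symm i).2.1
    have h4 := hg (e.symm i).1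
    rw [h3] at h4
    exact h4)
  apply hne
  rw [← le_bot_iff]
  have h5 : (e.symm i).1 ≠ (e.symm j).1 := by
    intro h
    exact hij (e.symm.injective (Subtype.ext h))
  rw [← hf.uniq ξ0 _ _ h5]
  exact inf_le_inf inf_le_right inf_le_right

theorem claimOm2 (hN : ClaimN) (hDL : ClaimDL) (hC : ClaimColl) : ClaimOm2 := by
  intro L _ _ U hU I B _ E hCC
  refine ⟨fun f hf => Om2_pres1 hDL E f hf, fun f hf => Om2_pres2 hN hU hCC f hf, ?_⟩
  intro α
  obtain ⟨f, h1, _, h3⟩ := hC L I B E α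
  exact ⟨f, h1, h3⟩

end Pool.Agent.Work.MP_dbe197_lc

end

section

/-!
# Closed positions
-/

namespace Pool.Agent.Work.MP_dbe197_lc

open Set Cardinal RO MM

theorem pos_step (hDL : ClaimDL) (L : Type) [LinearOrder L] (I B : Type)
    [CompleteBooleanAlgebra B] (E : Ext (RO (MM L)) I B) (δ : L) (F : List L → L → B)
    (hF : IsFun F) (hδ : ∀ u b, ¬ b < δ → F u b = ⊥) (q : TT L) (y : Set L)
    (hc : y.Countable) (hy : y ⊆ Iio δ) :
    ∃ q1 ≤ q, ∃ y1 : Set L, y ⊆ y1 ∧ y1.Countable ∧ y1 ⊆ Iio δ ∧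
      ∀ u : List L, (∀ a ∈ u, a ∈ y) →
        E.i (gen (⟨Fn.empty, q1⟩ : MM L)) ≤ ⨆ γ ∈ y1, F u γ := by
  have : Countable y := hc.to_subtype
  obtain ⟨e, he⟩ := exists_surjective_nat (List y)
  obtain ⟨q1, hq1, C, hC, h1⟩ := hDL L I B E L (fun k γ => F ((e k).map Subtype.val) γ)
    Fn.empty q (fun n => by rw [hF.tot]; exact le_top)
  refine ⟨q1, hq1, y ∪ (C ∩ Iio δ), subset_union_left, hc.union (hC.mono inter_subset_left),
    union_subset hy inter_subset_right, ?_⟩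
  intro u hu
  have hl : ∃ l : List y, l.map Subtype.val = u := by
    lift u to List y using hu
    exact ⟨u, rfl⟩
  obtain ⟨l, rfl⟩ := hl
  obtain ⟨k, rfl⟩ := he l
  refine (h1 k).trans ?_
  refine iSup₂_le fun j hj => ?_
  by_cases hjδ : j < δ
  · exact le_iSup₂_of_le j (Or.inr ⟨hj, hjδ⟩) le_rfl
  · rw [hδ _ _ hjδ]; exact bot_le

theorem claimPos (hDL : ClaimDL) : ClaimPos := by
  intro L _ I B _ E δ F hF hδ q y hc hy
  have step := pos_step hDL L I B E δ F hF hδ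
  let X : Type := {p : TT L × Set L // p.2.Countable ∧ p.2 ⊆ Iio δ}
  have step' : ∀ x : X, ∃ x' : X, x'.1.1 ≤ x.1.1 ∧ x.1.2 ⊆ x'.1.2 ∧
      ∀ u : List L, (∀ a ∈ u, a ∈ x.1.2) →
        E.i (gen (⟨Fn.empty, x'.1.1⟩ : MM L)) ≤ ⨆ γ ∈ x'.1.2, F u γ := by
    rintro ⟨⟨q, y⟩, hc, hy⟩
    obtain ⟨q1, hq1, y1, hyy, hc1, hy1, h⟩ := step q y hc hy
    exact ⟨⟨⟨q1, y1⟩, hc1, hy1⟩, hq1, hyy, h⟩
  choose nx hn1 hn2 hn3 using step'
  let s : ℕ → X := fun n => Nat.rec ⟨⟨q, y⟩, hc, hy⟩ (fun _ x => nx x) n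
  have hs : ∀ n, s (n + 1) = nx (s n) := fun n => rfl
  obtain ⟨q', hq', -⟩ := TT.exists_lim (fun n => (s n).1.1) (fun n => by
    rw [hs n]; exact hn1 (s n))
  have hmono : Monotone (fun n => (s n).1.2) := monotone_nat_of_le_succ fun n => by
    rw [hs n]; exact hn2 (s n)
  refine ⟨q', hq' 0, ⋃ n, (s n).1.2, subset_iUnion (fun n => (s n).1.2) 0, ?_, ?_, ?_⟩
  · exact countable_iUnion fun n => (s n).2.1
  · exact iUnion_subset fun n => (s n).2.2
  · intro u hu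
    have : ∃ n, ∀ a ∈ u, a ∈ (s n).1.2 := by
      induction u with
      | nil => exact ⟨0, by simp⟩
      | cons a u ih =>
        obtain ⟨n, hn⟩ := ih fun b hb => hu b (List.mem_cons_of_mem _ hb)
        obtain ⟨m, hm⟩ := mem_iUnion.1 (hu a List.mem_cons_self)
        refine ⟨max n m, fun b hb => ?_⟩
        rcases List.mem_cons.1 hb with rfl | hb
        · exact hmono (le_max_right n m) hm
        · exact hmono (le_max_left n m) (hn b hb)
    obtain ⟨n, hn⟩ := this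
    have h1 : E.i (gen (⟨Fn.empty, q'⟩ : MM L)) ≤
        E.i (gen (⟨Fn.empty, (s (n + 1)).1.1⟩ : MM L)) :=
      E.i_mono (gen_mono (mk_le_mk le_rfl (hq' (n + 1))))
    refine h1.trans ((hn3 (s n) u hn).trans ?_)
    refine iSup₂_le fun j hj => ?_
    exact le_iSup₂_of_le j (mem_iUnion.2 ⟨n + 1, hj⟩) le_rfl

end Pool.Agent.Work.MP_dbe197_lc

end

section

/-!
# Stationary reflection in extensions of the Mitchell algebra
-/

namespace Pool.Agent.Work.MP_dbe197_lc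

open Set Cardinal RO MM

theorem SR_i_club {A I B : Type} [CompleteBooleanAlgebra A] [CompleteBooleanAlgebra B]
    (E : Ext A I B) {L : Type} [LinearOrder L] (C : L → A) :
    E.i (club C) = club (fun α => E.i (C α)) := by
  simp only [club, E.i_inf, E.i_iInf, E.i_iSup, E.i_sup, E.i_compl]

theorem SR_compl_le {B : Type} [BooleanAlgebra B] {a b : B} (h : a ⊔ b = ⊤) : aᶜ ≤ b := by
  calc aᶜ = aᶜ ⊓ (a ⊔ b) := by rw [h, inf_top_eq]
    _ = aᶜ ⊓ b := by rw [inf_sup_left]; simp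
    _ ≤ b := inf_le_right

theorem SR_le_of {B : Type} [BooleanAlgebra B] {a b : B} (h : a ⊓ bᶜ = ⊥) : a ≤ b := by
  calc a = a ⊓ (b ⊔ bᶜ) := by simp
    _ = a ⊓ b := by rw [inf_sup_left, h, sup_bot_eq]
    _ ≤ b := inf_le_right

theorem SR_le_sup {B : Type} [BooleanAlgebra B] {a b c : B} (h : a ⊓ b ⊓ cᶜ = ⊥) :
    a ≤ bᶜ ⊔ c := by
  apply SR_le_of
  rw [compl_sup, compl_compl, ← inf_assoc, h]

theorem SR_club_le {B : Type} [CompleteBooleanAlgebra B] {L : Type} [LinearOrder L]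
    {C : L → B} (hC : club C = ⊤) {α : L} (hα : ∃ β, β < α) :
    (⨅ β, ⨅ (_ : β < α), ⨆ γ, ⨆ (_ : β < γ), ⨆ (_ : γ < α), C γ) ≤ C α := by
  have h1 : (⨆ β, ⨆ (_ : β < α), ⨅ γ, ⨅ (_ : β < γ), ⨅ (_ : γ < α), (C γ)ᶜ) ⊔ C α = ⊤ := by
    have h2 : club C ≤ (⨆ β, ⨆ (_ : β < α), ⨅ γ, ⨅ (_ : β < γ), ⨅ (_ : γ < α), (C γ)ᶜ) ⊔ C α := by
      refine inf_le_right.trans ?_
      exact iInf₂_le_of_le α hα le_rfl
    rw [hC] at h2
    exact top_le_iff.1 h2
  refine le_trans (le_of_eq ?_) (SR_compl_le h1)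
  simp only [compl_iSup, compl_iInf, compl_compl]

theorem SR_club_unb {B : Type} [CompleteBooleanAlgebra B] {L : Type} [LinearOrder L]
    {C : L → B} (hC : club C = ⊤) (α : L) : (⨆ β, ⨆ (_ : α < β), C β) = ⊤ := by
  have h2 : club C ≤ ⨆ β, ⨆ (_ : α < β), C β := inf_le_left.trans (iInf_le _ α)
  rw [hC] at h2
  exact top_le_iff.1 h2

theorem SR_club_top {B : Type} [CompleteBooleanAlgebra B] {L : Type} [LinearOrder L]
    {C : L → B} (h1 : ∀ α, (⨆ β, ⨆ (_ : α < β), C β) = ⊤)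
    (h2 : ∀ α, (∃ β, β < α) →
      (⨅ β, ⨅ (_ : β < α), ⨆ γ, ⨆ (_ : β < γ), ⨆ (_ : γ < α), C γ) ≤ C α) : club C = ⊤ := by
  rw [club, inf_eq_top_iff]
  constructor
  · rw [iInf_eq_top]
    exact h1
  · simp only [iInf_eq_top]
    intro α hα
    rw [eq_top_iff]
    have h3 : (⨆ β, ⨆ (_ : β < α), ⨅ γ, ⨅ (_ : β < γ), ⨅ (_ : γ < α), (C γ)ᶜ)ᶜ ≤ C α := by
      refine le_trans (le_of_eq ?_) (h2 α hα)
      simp only [compl_iSup, compl_iInf, compl_compl]
    calc (⊤ : B) = (⨆ β, ⨆ (_ : β < α), ⨅ γ, ⨅ (_ : β < γ), ⨅ (_ : γ < α), (C γ)ᶜ) ⊔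
          (⨆ β, ⨆ (_ : β < α), ⨅ γ, ⨅ (_ : β < γ), ⨅ (_ : γ < α), (C γ)ᶜ)ᶜ := by simp
      _ ≤ _ := sup_le_sup le_rfl h3

theorem claimSR (hN : ClaimN) (hDL : ClaimDL) (hCf : ClaimCf) (hMix : ClaimMix)
    (hS2 : ClaimSRA) : ClaimSR := by
  intro L _ _ U hU hMs I B _ E _ S hS
  by_contra hcon
  set b1 : B := stat S ⊓ (⨆ β, cfω1 B β ⊓ stat (below β S))ᶜ with hb1
  have hb1ne : b1 ≠ ⊥ := fun h => hcon (SR_le_of h)
  set S1 : L → RO (MM L) := fun α => E.pr (b1 ⊓ S α) with hS1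
  have hCfG : ∀ α, S1 α ≠ ⊥ → CfG α := by
    intro α hα
    by_contra hn
    apply hα
    rw [hS1]
    simp only
    rw [E.pr_eq_bot, ← le_bot_iff]
    have h1 := (hCf L U hU I B E α).2.1 hn
    exact inf_le_right.trans ((hS α).trans h1.le)
  have hst : E.pr b1 ≤ stat S1 := by
    refine le_iInf fun C => ?_
    apply SR_le_sup
    by_contra hne
    set X : RO (MM L) := ⨆ α, C α ⊓ S1 α with hX
    set y : RO (MM L) := E.pr b1 ⊓ club C ⊓ Xᶜ with hy
    have hyb : y ≤ E.pr b1 := inf_le_left.trans inf_le_left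
    have hyC : y ≤ club C := inf_le_left.trans inf_le_right
    have hyX : y ⊓ X = ⊥ := by
      rw [← le_bot_iff]
      calc y ⊓ X ≤ Xᶜ ⊓ X := inf_le_inf_right _ inf_le_right
        _ = ⊥ := by simp
        _ ≤ ⊥ := le_rfl
    have h1 : b1 ⊓ E.i y ≠ ⊥ := by
      intro h
      have h2 := E.pr_inf_i b1 y
      rw [h, E.pr_eq_bot.2 rfl, inf_eq_right.2 hyb] at h2
      exact hne h2.symm
    have h2 : b1 ⊓ E.i y ≤ ⨆ α, E.i (C α) ⊓ S α := by
      have h3 : b1 ≤ (club (fun α => E.i (C α)))ᶜ ⊔ ⨆ α, E.i (C α) ⊓ S α :=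
        inf_le_left.trans (iInf_le _ (fun α => E.i (C α)))
      have h4 : E.i y ≤ club (fun α => E.i (C α)) := by
        rw [← SR_i_club]
        exact E.i_mono hyC
      calc b1 ⊓ E.i y ≤ ((club (fun α => E.i (C α)))ᶜ ⊔ ⨆ α, E.i (C α) ⊓ S α) ⊓
            club (fun α => E.i (C α)) := inf_le_inf h3 h4
        _ = (⨆ α, E.i (C α) ⊓ S α) ⊓ club (fun α => E.i (C α)) := by
            rw [inf_sup_right]
            simp
        _ ≤ _ := inf_le_left
    have h5 : ∃ α, b1 ⊓ E.i y ⊓ (E.i (C α) ⊓ S α) ≠ ⊥ := by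
      by_contra hall
      push Not at hall
      apply h1
      calc b1 ⊓ E.i y = b1 ⊓ E.i y ⊓ ⨆ α, E.i (C α) ⊓ S α := (inf_eq_left.2 h2).symm
        _ = ⨆ α, b1 ⊓ E.i y ⊓ (E.i (C α) ⊓ S α) := inf_iSup_eq _ _
        _ = ⊥ := by simp [hall]
    obtain ⟨α, hα⟩ := h5
    apply hα
    have h6 : b1 ⊓ E.i y ⊓ (E.i (C α) ⊓ S α) = (b1 ⊓ S α) ⊓ E.i (y ⊓ C α) := by
      rw [E.i_inf y (C α)]
      generalize E.i y = u
      generalize E.i (C α) = v
      ac_rfl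
    rw [h6, ← E.pr_eq_bot, E.pr_inf_i, ← le_bot_iff, ← hyX]
    refine le_inf (inf_le_right.trans inf_le_left) ?_
    refine le_trans ?_ (le_iSup (fun α => C α ⊓ S1 α) α)
    exact le_inf (inf_le_right.trans inf_le_right) inf_le_left
  have hpne : E.pr b1 ≠ ⊥ := fun h => hb1ne (E.pr_eq_bot.1 h)
  obtain ⟨m, hm⟩ := ne_bot_iff.1 hpne
  obtain ⟨δ, hδ, hmδ⟩ := hS2 L U hU hMs S1 hCfG m (hst m hm)
  obtain ⟨W, hW⟩ := hδ
  have hF := hN L (Iio δ) W hW
  have hcf1 : cfω1 B δ = ⊤ := (hCf L U hU I B E δ).2.2.2 ⟨W, hW⟩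
  have hb1δ : b1 ≤ (stat (below δ S))ᶜ := by
    refine inf_le_right.trans (compl_le_compl ?_)
    have h1 : cfω1 B δ ⊓ stat (below δ S) ≤ ⨆ β, cfω1 B β ⊓ stat (below β S) :=
      le_iSup (fun β => cfω1 B β ⊓ stat (below β S)) δ
    rwa [hcf1, top_inf_eq] at h1
  have hlim : ∀ α : Iio δ, ∃ β : Iio δ, α < β := by
    intro α
    obtain ⟨γ, hγ, h⟩ := hF.limit α.1 α.2
    exact ⟨⟨γ, hγ⟩, h⟩
  obtain ⟨C, hC, hbC⟩ := hMix (Iio δ) B hlim (below δ S) b1 hb1δ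
  set Ee : Iio δ → RO (MM L) := fun α => (E.pr (b1 ⊓ (C α)ᶜ))ᶜ with hEe
  have key : ∀ (x : RO (MM L)) (α : Iio δ), x ≤ Ee α ↔ E.i x ⊓ b1 ≤ C α := by
    intro x α
    rw [hEe]
    simp only
    rw [le_compl_comm, E.pr_le_iff, E.i_compl]
    constructor
    · intro h
      apply SR_le_of
      rw [inf_assoc, ← le_bot_iff]
      calc E.i x ⊓ (b1 ⊓ (C α)ᶜ) ≤ E.i x ⊓ (E.i x)ᶜ := inf_le_inf_left _ h
        _ = ⊥ := by simp
        _ ≤ ⊥ := le_rfl
    · intro h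
      apply SR_le_of
      rw [compl_compl, ← le_bot_iff]
      calc b1 ⊓ (C α)ᶜ ⊓ E.i x = (E.i x ⊓ b1) ⊓ (C α)ᶜ := by ac_rfl
        _ ≤ C α ⊓ (C α)ᶜ := inf_le_inf_right _ h
        _ = ⊥ := by simp
        _ ≤ ⊥ := le_rfl
  have hclub : club Ee = ⊤ := by
    apply SR_club_top
    · -- unbounded
      intro a0
      rw [eq_top_iff]
      intro n0 _
      rw [mem_iSup]
      intro n _
      -- one step
      have hstep : ∀ s : TT L × Iio δ, ∃ s' : TT L × Iio δ, s'.1 ≤ s.1 ∧ s.2 < s'.2 ∧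
          E.i (gen ⟨n.p, s'.1⟩) ≤ ⨆ c : Iio δ, ⨆ (_ : s.2 < c), ⨆ (_ : c < s'.2), C c := by
        intro s
        obtain ⟨q, hq, D, hD, hDq⟩ := hDL L I B E (Iio δ)
          (fun _ j => ⨆ (_ : s.2 < j), C j) n.p s.1
          (fun _ => by rw [SR_club_unb hC]; exact le_top)
        obtain ⟨β, hβ, hβD⟩ := hF.bddN (Subtype.val '' D) (by
          rintro _ ⟨x, _, rfl⟩
          exact x.2) (hD.image _)
        obtain ⟨a', ha'⟩ := hlim s.2
        refine ⟨(q, max ⟨β, hβ⟩ a'), hq, lt_of_lt_of_le ha' (le_max_right _ _), ?_⟩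
        refine (hDq 0).trans ?_
        refine iSup_le fun j => iSup_le fun hj => iSup_le fun hsj => ?_
        refine le_trans ?_ (le_iSup _ j)
        refine le_trans ?_ (le_iSup _ hsj)
        refine le_iSup_of_le ?_ le_rfl
        refine lt_of_lt_of_le ?_ (le_max_left _ _)
        exact hβD j.1 ⟨j, hj, rfl⟩
      choose f hf1 hf2 hf3 using hstep
      let sq : ℕ → TT L × Iio δ := fun k => Nat.rec (n.q, a0) (fun _ s => f s) k
      have hsq : ∀ k, sq (k + 1) = f (sq k) := fun k => rfl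
      obtain ⟨q, hq, -⟩ := TT.exists_lim (fun k => (sq k).1) (fun k => by
        rw [hsq]; exact hf1 _)
      -- the supremum of the ordinals
      obtain ⟨β0, hβ0, hβ0'⟩ := hF.bddN (Set.range fun k => (sq k).2.1) (by
        rintro _ ⟨k, rfl⟩
        exact (sq k).2.2) (Set.countable_range _)
      have hub : {x : L | ∀ k, (sq k).2.1 ≤ x}.Nonempty :=
        ⟨β0, fun k => (hβ0' _ ⟨k, rfl⟩).le⟩
      obtain ⟨α, hα, hαmin⟩ := WellFounded.has_min (wellFounded_lt (α := L)) _ hub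
      have hαδ : α < δ := by
        have h1 : ¬ β0 < α := hαmin β0 (fun k => (hβ0' _ ⟨k, rfl⟩).le)
        exact lt_of_le_of_lt (not_lt.1 h1) hβ0
      have hlt : ∀ k, (sq k).2.1 < α := by
        intro k
        have h1 : (sq k).2 < (sq (k + 1)).2 := by rw [hsq]; exact hf2 _
        exact lt_of_lt_of_le h1 (hα (k + 1))
      have hcof : ∀ b : L, b < α → ∃ k, b < (sq k).2.1 := by
        intro b hb
        by_contra hall
        push Not at hall
        exact hαmin b hall hb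
      refine ⟨⟨n.p, q⟩, ?_, ⟨α, hαδ⟩, ?_⟩
      · have h1 : q ≤ n.q := hq 0
        exact mk_le_mk le_rfl h1
      · have h0 : a0 < (⟨α, hαδ⟩ : Iio δ) := hlt 0
        rw [iSup_pos h0, ← gen_le_iff, key]
        refine inf_le_left.trans ?_
        refine le_trans ?_ (SR_club_le hC ⟨a0, h0⟩)
        refine le_iInf fun β => le_iInf fun hβ => ?_
        obtain ⟨k, hk⟩ := hcof β.1 hβ
        have h1 : E.i (gen ⟨n.p, q⟩) ≤ E.i (gen ⟨n.p, (sq (k + 1)).1⟩) :=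
          E.i_mono (gen_mono (mk_le_mk le_rfl (hq (k + 1))))
        refine h1.trans ?_
        rw [hsq]
        refine (hf3 (sq k)).trans ?_
        refine iSup_le fun c => iSup_le fun hc1 => iSup_le fun hc2 => ?_
        have h2 : β < c := lt_trans (show β < (sq k).2 from hk) hc1
        have h3 : c < (⟨α, hαδ⟩ : Iio δ) := by
          refine lt_trans hc2 ?_
          rw [← hsq]
          exact hlt (k + 1)
        exact le_iSup_of_le c (le_iSup_of_le h2 (le_iSup_of_le h3 le_rfl))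
    · -- closed
      intro α hα
      rw [key]
      refine le_trans ?_ (SR_club_le hC hα)
      refine le_iInf fun β => le_iInf fun hβ => ?_
      have h1 : (⨅ β, ⨅ (_ : β < α), ⨆ γ, ⨆ (_ : β < γ), ⨆ (_ : γ < α), Ee γ) ≤
          ⨆ γ, ⨆ (_ : β < γ), ⨆ (_ : γ < α), Ee γ := iInf₂_le β hβ
      refine (inf_le_inf_right b1 (E.i_mono h1)).trans ?_
      simp only [E.i_iSup, iSup_inf_eq]
      refine iSup_le fun γ => iSup_le fun h2 => iSup_le fun h3 => ?_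
      exact le_iSup_of_le γ (le_iSup_of_le h2 (le_iSup_of_le h3 ((key _ _).1 le_rfl)))
  have hm2 : m ∈ ⨆ α, Ee α ⊓ below δ S1 α := by
    have h1 : stat (below δ S1) ≤ (club Ee)ᶜ ⊔ ⨆ α, Ee α ⊓ below δ S1 α := iInf_le _ Ee
    rw [hclub, compl_top, bot_sup_eq] at h1
    exact h1 m hmδ
  obtain ⟨m', hm', α, hα1, hα2⟩ := mem_iSup.1 hm2 m le_rfl
  have h1 : E.i (gen m') ⊓ b1 ≤ C α := (key _ _).1 (gen_le_iff.2 hα1)
  have h2 : gen m' ≤ E.pr (b1 ⊓ S α.1) := gen_le_iff.2 hα2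
  have h3 : (b1 ⊓ S α.1) ⊓ E.i (gen m') ≠ ⊥ := by
    intro h
    have h4 := E.pr_inf_i (b1 ⊓ S α.1) (gen m')
    rw [h, E.pr_eq_bot.2 rfl, inf_eq_right.2 h2] at h4
    exact gen_ne_bot m' h4.symm
  apply h3
  rw [← le_bot_iff, ← hbC]
  refine le_inf (inf_le_left.trans inf_le_left) ?_
  refine le_trans ?_ (le_iSup _ α)
  refine le_inf ?_ (inf_le_left.trans inf_le_right)
  refine le_trans ?_ h1
  exact le_inf inf_le_right (inf_le_left.trans inf_le_left)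

end Pool.Agent.Work.MP_dbe197_lc

end

section

/-!
# MP_dbe197_lc : [S2] reflection in the Mitchell algebra
-/

namespace Pool.Agent.Work.MP_dbe197_lc

open Set Cardinal RO MM

open Classical in
/-- the value of a check name is `⊤` or `⊥` -/
theorem SRA_club_check {L : Type} [LinearOrder L] {B : Type} [CompleteBooleanAlgebra B]
    (E : Set L) (h1 : ∀ α, ∃ β ∈ E, α < β)
    (h2 : ∀ α, (∃ β, β < α) → (∀ β < α, ∃ γ ∈ E, β < γ ∧ γ < α) → α ∈ E) :
    club (fun a => if a ∈ E then (⊤ : B) else ⊥) = ⊤ := by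
  rw [club, eq_top_iff]
  apply le_inf
  · refine le_iInf fun α => ?_
    obtain ⟨β, hβ, hαβ⟩ := h1 α
    refine le_trans ?_ (le_iSup _ β)
    refine le_trans ?_ (le_iSup _ hαβ)
    rw [if_pos hβ]
  · refine le_iInf fun α => le_iInf fun hα => ?_
    by_cases hE : α ∈ E
    · rw [if_pos hE]
      exact le_sup_right
    · refine le_trans ?_ le_sup_left
      have h3 : ∃ β < α, ∀ γ ∈ E, β < γ → ¬ γ < α := by
        by_contra hcon
        push Not at hcon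
        exact hE (h2 α hα hcon)
      obtain ⟨β, hβ, h4⟩ := h3
      refine le_trans ?_ (le_iSup _ β)
      refine le_trans ?_ (le_iSup _ hβ)
      refine le_iInf fun γ => le_iInf fun h5 => le_iInf fun h6 => ?_
      have h7 : γ ∉ E := fun h8 => h4 γ h8 h5 h6
      rw [if_neg h7, compl_bot]

theorem claimSRA (hN : ClaimN) (hH : ClaimHead) (hB : ClaimBdd) (hS1 : ClaimSRd) : ClaimSRA := by
  intro L _ _ U hU hMs S hS m hm
  have hF := hN L Set.univ U hU
  have hnm := hU.nm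
  classical
  -- (a)
  obtain ⟨β0, -, hβ0⟩ := hF.bddN m.supp (subset_univ _) m.supp_countable
  have hA1 : {δ : L | β0 < δ} ∈ U := hnm.unb β0 (mem_univ _)
  have hsupp : ∀ δ, β0 < δ → m.supp ⊆ Iio δ := fun δ hδ γ hγ => (hβ0 γ hγ).trans hδ
  have hg : ∀ a, ∃ β, DepM (Iio β) (S a) := fun a => by
    obtain ⟨β, -, h⟩ := hB L Set.univ U hU (S a) (DepM.univ _)
    exact ⟨β, h⟩
  choose g hg using hg
  have hA2 : {δ : L | ∀ a < δ, g a < δ} ∈ U := hF.clos g fun _ _ => mem_univ _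
  have hdep : ∀ δ, (∀ a < δ, g a < δ) → ∀ a < δ, DepM (Iio δ) (S a) := fun δ hδ a ha =>
    (hg a).mono (Iio_subset_Iio (hδ a ha).le)
  -- (b)
  have hb : {δ : L | ∀ C, ClubG δ C → m ∈ ⨆ α ∈ C, ⨆ (_ : α < δ), S α} ∈ U := by
    rcases hnm.ultra {δ : L | ∀ C, ClubG δ C → m ∈ ⨆ α ∈ C, ⨆ (_ : α < δ), S α} with h | h
    · exact h
    exfalso
    have hA := hF.inter2 _ _ (hF.inter2 _ _ hA1 hA2) h
    set A : Set L := ({δ : L | β0 < δ} ∩ {δ : L | ∀ a < δ, g a < δ}) ∩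
      {δ : L | ∀ C, ClubG δ C → m ∈ ⨆ α ∈ C, ⨆ (_ : α < δ), S α}ᶜ with hAdef
    have hC : ∀ δ, ∃ C : Set L, δ ∈ A → ClubG δ C ∧ m ∉ ⨆ α ∈ C, ⨆ (_ : α < δ), S α := by
      intro δ
      by_cases hδ : δ ∈ A
      · have h1 := hδ.2
        simp only [mem_compl_iff, mem_ofPred_eq] at h1
        push Not at h1
        obtain ⟨C, h2, h3⟩ := h1
        exact ⟨C, fun _ => ⟨h2, h3⟩⟩
      · exact ⟨∅, fun h => absurd h hδ⟩
    choose C hC using hC
    let Ee : Set L := {a | {δ | a ∈ C δ ∧ a < δ} ∈ U}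
    have hunb : ∀ b, ∃ β ∈ Ee, b < β := by
      intro b
      have hn : ∀ δ, ∃ β, δ ∈ A → b < δ → β ∈ C δ ∧ b < β ∧ β < δ := by
        intro δ
        by_cases hδ : δ ∈ A ∧ b < δ
        · obtain ⟨β, h1, h2, h3⟩ := (hC δ hδ.1).1.1 b hδ.2
          exact ⟨β, fun _ _ => ⟨h1, h2, h3⟩⟩
        · exact ⟨b, fun h1 h2 => absurd ⟨h1, h2⟩ hδ⟩
      choose n hn using hn
      have hAb := hF.inter2 _ _ hA (hnm.unb b (mem_univ _))
      obtain ⟨β, hβ⟩ := hnm.normal n (hnm.up _ _ hAb fun δ hδ => (hn δ hδ.1 hδ.2).2.2)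
      have h1 := hF.inter2 _ _ hAb hβ
      have h2 : β ∈ Ee := by
        refine hnm.up _ _ h1 fun δ hδ => ?_
        have h3 := hn δ hδ.1.1 hδ.1.2
        have h4 : n δ = β := hδ.2
        rw [h4] at h3
        exact ⟨h3.1, h3.2.2⟩
      obtain ⟨δ, hδ, -⟩ := hF.pick _ h1 b (mem_univ _)
      have h3 := hn δ hδ.1.1 hδ.1.2
      have h4 : n δ = β := hδ.2
      rw [h4] at h3
      exact ⟨β, h2, h3.2.1⟩
    have hclo : ∀ α, (∃ β, β < α) → (∀ β < α, ∃ γ ∈ Ee, β < γ ∧ γ < α) → α ∈ Ee := by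
      intro α hα hlim
      have h1 := hF.interB (fun c => if c ∈ Ee then {δ | c ∈ C δ ∧ c < δ} else univ) α
        (mem_univ _) (by
          intro γ hγ
          by_cases h : γ ∈ Ee
          · simp only [h, if_true]
            exact h
          · simp only [h, if_false]
            exact hnm.mem)
      have h2 := hF.inter2 _ _ (hF.inter2 _ _ hA (hnm.unb α (mem_univ _))) h1
      refine hnm.up _ _ h2 fun δ hδ => ⟨?_, hδ.1.2⟩
      refine (hC δ hδ.1.1).1.2 α hδ.1.2 hα fun β hβ => ?_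
      obtain ⟨γ, hγ, h3, h4⟩ := hlim β hβ
      have h5 := hδ.2 γ h4
      simp only [hγ, if_true] at h5
      exact ⟨γ, h5.1, h3, h4⟩
    -- the check name
    have hm1 : m ∈ ⨆ α, (if α ∈ Ee then (⊤ : RO (MM L)) else ⊥) ⊓ S α := by
      have h1 := mem_iInf.1 hm (fun a => if a ∈ Ee then (⊤ : RO (MM L)) else ⊥)
      rw [SRA_club_check Ee hunb hclo, compl_top, bot_sup_eq] at h1
      exact h1
    have hh : ∀ δ, ∃ h : MM L, δ ∈ A → res (Iio δ) h ≤ m ∧
        res (Iio δ) h ∈ (⨆ α ∈ C δ, ⨆ (_ : α < δ), S α)ᶜ := by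
      intro δ
      by_cases hδ : δ ∈ A
      · obtain ⟨h0, h1, h2⟩ := not_mem_iff.1 (hC δ hδ).2
        refine ⟨h0, fun _ => ⟨?_, ?_⟩⟩
        · exact (le_iff_res_le (isLowerSet_Iio δ) (hsupp δ hδ.1.1)).1 h1
        · have h3 : DepM (Iio δ) (⨆ α ∈ C δ, ⨆ (_ : α < δ), S α)ᶜ := by
            apply DepM.compl (isLowerSet_Iio δ)
            apply DepM.iSup (isLowerSet_Iio δ)
            intro α
            apply DepM.iSup (isLowerSet_Iio δ)
            intro _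
            apply DepM.iSup (isLowerSet_Iio δ)
            intro hα
            exact hdep δ hδ.1.2 α hα
          exact h3 _ h2
      · exact ⟨m, fun h => absurd h hδ⟩
    choose hd hhd using hh
    obtain ⟨h0, hh0, -⟩ := hH L Set.univ U hU hd
    have hA3 := hF.inter2 _ _ hA hh0
    have h0m : h0 ≤ m := by
      obtain ⟨δ, hδ, -⟩ := hF.pick _ hA3 β0 (mem_univ _)
      have h1 := (hhd δ hδ.1).1
      have h2 : res (Iio δ) (hd δ) = h0 := hδ.2
      rwa [h2] at h1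
    have h1 := mem_down h0m hm1
    obtain ⟨r, hr, a, ha⟩ := mem_iSup.1 h1 h0 le_rfl
    by_cases hE : a ∈ Ee
    · have hA4 := hF.inter2 _ _ hA3 hE
      obtain ⟨δ, hδ, -⟩ := hF.pick _ hA4 β0 (mem_univ _)
      have h2 := (hhd δ hδ.1.1).2
      have h3 : res (Iio δ) (hd δ) = h0 := hδ.1.2
      rw [h3] at h2
      refine mem_compl.1 h2 r hr ?_
      have h4 : S a ≤ ⨆ α ∈ C δ, ⨆ (_ : α < δ), S α := by
        refine le_trans ?_ (le_iSup _ a)
        refine le_trans ?_ (le_iSup _ hδ.2.1)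
        exact le_iSup (fun _ : a < δ => S a) hδ.2.2
      exact h4 r ha.2
    · have h2 := ha.1
      rw [if_neg hE] at h2
      exact not_mem_bot r h2
  -- (c)
  have hfin := hF.inter2 _ _ (hF.inter2 _ _ hMs hA2) hb
  obtain ⟨δ, hδ, -⟩ := hF.pick _ hfin β0 (mem_univ _)
  exact ⟨δ, hδ.1.1, hS1 L δ hδ.1.1 S (hdep δ hδ.1.2) hS m hδ.2⟩

end Pool.Agent.Work.MP_dbe197_lc

end

section

/-!
# Preservation of stationarity at one `δ`
-/

namespace Pool.Agent.Work.MP_dbe197_lc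

open Set Cardinal RO MM

section SRd

variable {L : Type} [LinearOrder L]

theorem SRd_ov_restr_le (S : Set L) (q : TT L) : (q.restr S).ov (q.restr Sᶜ) ≤ q := by
  intro α ξ v hv
  by_cases h : α ∈ S
  · exact TT.ov_of_some (TT.restr_eq_some.2 ⟨h, hv⟩)
  · rw [TT.ov_of_none (TT.restr_of_not_mem h ξ)]
    exact TT.restr_eq_some.2 ⟨h, hv⟩

theorem SRd_compat_disj {S : Set L} {t r : TT L} (ht : t.supp ⊆ S) (hr : r.supp ⊆ Sᶜ) :
    TT.Compat t r := by
  intro α ξ v w hv hw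
  exact absurd (ht ⟨ξ, by rw [hv]; simp⟩) (hr ⟨ξ, by rw [hw]; simp⟩)

theorem SRd_compat_refl (t : TT L) : TT.Compat t t := TT.compat_of_le le_rfl le_rfl

/-- Maximal antichains. -/
theorem SRd_max (D : Set (TT L)) : ∃ A ⊆ D, (∀ s ∈ A, ∀ t ∈ A, s ≠ t → ¬ TT.Compat s t) ∧
    ∀ t ∈ D, ∃ s ∈ A, TT.Compat t s := by
  obtain ⟨A, hA⟩ := zorn_subset
    {A : Set (TT L) | A ⊆ D ∧ ∀ s ∈ A, ∀ t ∈ A, s ≠ t → ¬ TT.Compat s t} (by
    intro c hc hchain
    refine ⟨⋃₀ c, ⟨?_, ?_⟩, fun s hs => subset_sUnion_of_mem hs⟩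
    · intro x hx
      obtain ⟨s, hs, hxs⟩ := hx
      exact (hc hs).1 hxs
    · rintro s ⟨A1, hA1, hs⟩ t ⟨A2, hA2, ht⟩ hst
      rcases hchain.total hA1 hA2 with h | h
      · exact (hc hA2).2 s (h hs) t ht hst
      · exact (hc hA1).2 s hs t (h ht) hst)
  refine ⟨A, hA.prop.1, hA.prop.2, fun t ht => ?_⟩
  by_contra hcon
  push Not at hcon
  have hins : insert t A ∈ {A : Set (TT L) | A ⊆ D ∧
      ∀ s ∈ A, ∀ t ∈ A, s ≠ t → ¬ TT.Compat s t} := by
    refine ⟨insert_subset ht hA.prop.1, ?_⟩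
    rintro s (rfl | hs) u (rfl | hu) hsu
    · exact absurd rfl hsu
    · exact hcon u hu
    · exact fun h => hcon s hs h.symm
    · exact hA.prop.2 s hs u hu hsu
  have : t ∈ A := hA.le_of_ge hins (subset_insert t A) (mem_insert t A)
  exact hcon t this (SRd_compat_refl t)

/-- Antichains of heads are small. -/
theorem SRd_small [WellFoundedLT L] {δ : L} {W : Set (Set L)} (hW : Seg (Iio δ) W)
    (F : NMFacts (Iio δ) W) (hSun : ClaimSun) (A : Set (TT L))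
    (h1 : ∀ t ∈ A, t.supp ⊆ Iio δ)
    (h2 : ∀ s ∈ A, ∀ t ∈ A, s ≠ t → ¬ TT.Compat s t) : #A < #(Iio δ) := by
  by_contra hcon
  push Not at hcon
  obtain ⟨e⟩ := hcon
  classical
  let m : L → MM L := fun α => if h : α < δ then ⟨Fn.empty, (e ⟨α, h⟩).1⟩ else ⟨Fn.empty, TT.empty⟩
  have hm : ∀ α (h : α < δ), m α = ⟨Fn.empty, (e ⟨α, h⟩).1⟩ := fun α h => by simp [m, h]
  obtain ⟨A', hA', hcomp⟩ := hSun L (Iio δ) W hW m (by
    intro α
    by_cases h : α < δ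
    · rw [hm α h]
      rintro β (⟨n, hn⟩ | hβ)
      · simp [Fn.dom] at hn
      · exact h1 _ (e ⟨α, h⟩).2 hβ
    · simp only [m, dif_neg h]
      rintro β (⟨n, hn⟩ | hβ)
      · simp [Fn.dom] at hn
      · obtain ⟨ξ, hξ⟩ := hβ; simp at hξ)
  have hne : (Iio δ).Nonempty := by
    by_contra hemp
    rw [not_nonempty_iff_eq_empty] at hemp
    have := F.aleph1
    rw [hemp] at this
    simp at this
  obtain ⟨β0, hβ0⟩ := hne
  obtain ⟨α1, hα1, hα1', _⟩ := F.pick A' hA' β0 hβ0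
  obtain ⟨α2, hα2, hα2', h12⟩ := F.pick A' hA' α1 hα1'
  have h3 := (hcomp α1 hα1 α2 hα2 h12).2.2
  rw [hm α1 hα1', hm α2 hα2'] at h3
  refine h2 _ (e ⟨α1, hα1'⟩).2 _ (e ⟨α2, hα2'⟩).2 ?_ h3
  intro heq
  have := e.injective (Subtype.ext heq)
  exact h12.ne (congrArg Subtype.val this)

/-- The combinatorial core. -/
theorem SRd_game [WellFoundedLT L] {δ : L} {W : Set (Set L)} (hW : Seg (Iio δ) W)
    (F : NMFacts (Iio δ) W) (hS : ClaimSmall) (hSun : ClaimSun)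
    (Good : TT L → TT L → L → L → Prop)
    (hmono : ∀ t t' r r' g g', Good t r g g' → t' ≤ t → r' ≤ r →
      t'.supp ⊆ Iio δ → r'.supp ⊆ (Iio δ)ᶜ → Good t' r' g g')
    (t2 r2 : TT L) (hr2 : r2.supp ⊆ (Iio δ)ᶜ)
    (dense : ∀ t r g, t ≤ t2 → t.supp ⊆ Iio δ → r ≤ r2 → r.supp ⊆ (Iio δ)ᶜ → g < δ →
      ∃ t' ≤ t, ∃ r' ≤ r, ∃ g' < δ, t'.supp ⊆ Iio δ ∧ r'.supp ⊆ (Iio δ)ᶜ ∧ Good t' r' g g') :
    ∃ G : L → L, (∀ b < δ, G b < δ) ∧ ∀ a < δ, (∀ b < a, ∃ c, b < c ∧ c < a) →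
      (∀ b < a, G b < a) → ∀ f : ℕ → L, (∀ n, f n < a) → ∀ t3 ≤ t2, t3.supp ⊆ Iio δ →
      ∃ t r : TT L, t ≤ t3 ∧ r ≤ r2 ∧ t.supp ⊆ Iio δ ∧ r.supp ⊆ (Iio δ)ᶜ ∧
        ∀ n, ∃ g' < a, Good t r (f n) g' := by
  classical
  -- the antichains
  choose A hAD hAanti hAmax using fun (r : TT L) (g : L) =>
    SRd_max {t : TT L | t.supp ⊆ Iio δ ∧ t ≤ t2 ∧ ∃ r' ≤ r, ∃ g' < δ, r'.supp ⊆ (Iio δ)ᶜ ∧
      Good t r' g g'}
  have hAsmall : ∀ r g, #(A r g) < #(Iio δ) := fun r g =>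
    SRd_small hW F hSun (A r g) (fun t ht => (hAD r g ht).1) (hAanti r g)
  have hAmeet : ∀ r g, r ≤ r2 → r.supp ⊆ (Iio δ)ᶜ → g < δ → ∀ t ≤ t2, t.supp ⊆ Iio δ →
      ∃ s ∈ A r g, TT.Compat t s := by
    intro r g hr hrs hg t ht hts
    obtain ⟨t', ht', r', hr', g', hg', h1, h2, h3⟩ := dense t r g ht hts hr hrs hg
    obtain ⟨s, hs, hc⟩ := hAmax r g t' ⟨h1, ht'.trans ht, r', hr', g', hg', h2, h3⟩
    refine ⟨s, hs, fun α ξ v w hv hw => hc α ξ v w (ht' α ξ v hv) hw⟩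
  -- the responses
  have hnx : ∀ (r : TT L) (g : L) (t : TT L), ∃ x : TT L × L, t ∈ A r g →
      x.1 ≤ r ∧ x.2 < δ ∧ x.1.supp ⊆ (Iio δ)ᶜ ∧ Good t x.1 g x.2 := by
    intro r g t
    by_cases h : t ∈ A r g
    · obtain ⟨_, _, r', hr', g', hg', h2, h3⟩ := hAD r g h
      exact ⟨(r', g'), fun _ => ⟨hr', hg', h2, h3⟩⟩
    · exact ⟨(r, g), fun h' => absurd h' h⟩
  choose nx hnx using hnx
  -- bounds for the antichains
  have hBd : ∀ (r : TT L) (g : L), ∃ b < δ, ∀ t ∈ A r g, t.supp ⊆ Iio b ∧ (nx r g t).2 < b := by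
    intro r g
    have hx : ∀ t : TT L, ∃ b, t.supp ⊆ Iio δ → b < δ ∧ ∀ γ ∈ t.supp, γ < b := by
      intro t
      by_cases h : t.supp ⊆ Iio δ
      · obtain ⟨b, hb, h'⟩ := F.bddN t.supp h t.supp_countable
        exact ⟨b, fun _ => ⟨hb, h'⟩⟩
      · exact ⟨δ, fun h' => absurd h' h⟩
    choose bt hbt using hx
    obtain ⟨b, hb, hb'⟩ := F.bdd ((fun t => max (bt t) (nx r g t).2) '' A r g) (by
      rintro _ ⟨t, ht, rfl⟩
      exact max_lt (hbt t (hAD r g ht).1).1 (hnx r g t ht).2.1)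
      (lt_of_le_of_lt mk_image_le (hAsmall r g))
    refine ⟨b, hb, fun t ht => ?_⟩
    have h1 := hb' _ ⟨t, ht, rfl⟩
    refine ⟨fun γ hγ => ?_, lt_of_le_of_lt (le_max_right _ _) h1⟩
    exact ((hbt t (hAD r g ht).1).2 γ hγ).trans (lt_of_le_of_lt (le_max_left _ _) h1)
  choose Bd hBdδ hBd using hBd
  -- positions
  let rr : List (L × TT L) → TT L := fun σ => σ.foldr (fun x r => (nx r x.1 x.2).1) r2
  have hG : ∀ b, ∃ c, b < δ → c < δ ∧ ∀ (σ : List (L × TT L)) (g : L),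
      (∀ x ∈ σ, x.1 < b ∧ x.2.supp ⊆ Iio b) → g < b → Bd (rr σ) g < c := by
    intro b
    by_cases hb : b < δ
    swap
    · exact ⟨b, fun h => absurd h hb⟩
    let X : Set (L × TT L) := Iio b ×ˢ {q : TT L | q.supp ⊆ Iio b}
    have hinf : ℵ₀ < #(Iio δ) := lt_of_le_of_lt (by
      rw [show #O1 = Cardinal.aleph 1 by simp [O1, OO]]
      exact Cardinal.aleph0_le_aleph 1) F.aleph1
    have hX : #X < #(Iio δ) := by
      rw [Cardinal.mk_setProd]
      exact Cardinal.mul_lt_of_lt hinf.le (hW.inacc.2 b hb)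
        (hS L (Iio δ) hW.low hW.inacc b hb).2.1
    have hcard : #(range fun z : List X × Iio b => Bd (rr (z.1.map Subtype.val)) z.2.1)
        < #(Iio δ) := by
      refine lt_of_le_of_lt mk_range_le ?_
      rw [Cardinal.mk_prod, lift_id, lift_id]
      refine Cardinal.mul_lt_of_lt hinf.le ?_ (hW.inacc.2 b hb)
      exact lt_of_le_of_lt (Cardinal.mk_list_le_max X) (max_lt hinf hX)
    obtain ⟨c, hc, hc'⟩ := F.bdd _ (by
      rintro _ ⟨z, rfl⟩
      exact hBdδ _ _) hcard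
    refine ⟨c, fun _ => ⟨hc, fun σ g hσ hg => ?_⟩⟩
    apply hc'
    have hσ' : ∀ x ∈ σ, x ∈ X := fun x hx => ⟨(hσ x hx).1, (hσ x hx).2⟩
    have hl : (σ.attach.map fun x => (⟨x.1, hσ' x.1 x.2⟩ : X)).map Subtype.val = σ := by
      rw [List.map_map]
      exact List.attach_map_subtype_val σ
    refine ⟨(σ.attach.map fun x => ⟨x.1, hσ' x.1 x.2⟩, ⟨g, hg⟩), ?_⟩
    simp only [hl]
  choose G hG using hG
  refine ⟨G, fun b hb => (hG b hb).1, ?_⟩
  intro a ha hlim hGa f hf t3 ht3 hts3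
  by_cases ha0 : ∃ b, b < a
  swap
  · exact absurd ⟨f 0, hf 0⟩ ha0
  obtain ⟨b00, hb00⟩ := ha0
  let P : TT L × List (L × TT L) → Prop := fun s => s.1 ≤ t3 ∧ s.1.supp ⊆ Iio δ ∧ rr s.2 ≤ r2 ∧
    (rr s.2).supp ⊆ (Iio δ)ᶜ ∧ ∃ b < a, ∀ x ∈ s.2, x.1 < b ∧ x.2.supp ⊆ Iio b
  have hstep : ∀ (n : ℕ) (s : {s // P s}), ∃ s' : {s // P s}, s'.1.1 ≤ s.1.1 ∧
      rr s'.1.2 ≤ rr s.1.2 ∧ ∃ g' < a, Good s'.1.1 (rr s'.1.2) (f n) g' := by
    rintro n ⟨⟨T, σ⟩, hT1, hT2, hσ1, hσ2, b, hb, hbσ⟩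
    simp only at hT1 hT2 hσ1 hσ2 hbσ
    obtain ⟨s, hsA, hsc⟩ := hAmeet (rr σ) (f n) hσ1 hσ2 ((hf n).trans ha) T (hT1.trans ht3) hT2
    obtain ⟨b', hbb', hb'a⟩ := hlim (max b (f n)) (max_lt hb (hf n))
    have hG1 := (hG b' (hb'a.trans ha)).2 σ (f n) (fun x hx =>
      ⟨(hbσ x hx).1.trans (lt_of_le_of_lt (le_max_left _ _) hbb'),
        (hbσ x hx).2.trans (Iio_subset_Iio (le_of_lt (lt_of_le_of_lt (le_max_left _ _) hbb')))⟩)
      (lt_of_le_of_lt (le_max_right _ _) hbb')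
    have hBa : Bd (rr σ) (f n) < a := hG1.trans (hGa b' hb'a)
    have hsd := hAD (rr σ) (f n) hsA
    have hs4 := hnx (rr σ) (f n) s hsA
    have hrr : rr ((f n, s) :: σ) = (nx (rr σ) (f n) s).1 := rfl
    have hTs : T.ov s ≤ s := TT.ov_le_right hsc
    have hTsupp : (T.ov s).supp ⊆ Iio δ := by
      rw [TT.ov_supp]; exact union_subset hT2 hsd.1
    refine ⟨⟨(T.ov s, (f n, s) :: σ), (TT.ov_le_left _ _).trans hT1, hTsupp, ?_, ?_,
      max b' (Bd (rr σ) (f n)), max_lt hb'a hBa, ?_⟩, TT.ov_le_left _ _, ?_,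
      (nx (rr σ) (f n) s).2, ?_, ?_⟩
    · simp only [hrr]; exact hs4.1.trans hσ1
    · simp only [hrr]; exact hs4.2.2.1
    · simp only [List.mem_cons]
      rintro x (rfl | hx)
      · exact ⟨lt_of_lt_of_le (lt_of_le_of_lt (le_max_right _ _) hbb') (le_max_left _ _),
          ((hBd (rr σ) (f n) s hsA).1).trans (Iio_subset_Iio (le_max_right _ _))⟩
      · have hbb : b ≤ max b' (Bd (rr σ) (f n)) :=
          ((le_max_left _ _).trans hbb'.le).trans (le_max_left _ _)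
        exact ⟨lt_of_lt_of_le (hbσ x hx).1 hbb, (hbσ x hx).2.trans (Iio_subset_Iio hbb)⟩
    · simp only [hrr]; exact hs4.1
    · exact (hBd (rr σ) (f n) s hsA).2.trans hBa
    · simp only [hrr]
      exact hmono _ _ _ _ _ _ hs4.2.2.2 hTs le_rfl hTsupp hs4.2.2.1
  choose nxt hnxt1 hnxt2 hnxt3 using hstep
  let s0 : {s // P s} := ⟨(t3, []), le_rfl, hts3, le_rfl, hr2, b00, hb00, by simp⟩
  let s : ℕ → {s // P s} := fun n => Nat.rec s0 (fun n s => nxt n s) n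
  have hs : ∀ n, s (n + 1) = nxt n (s n) := fun n => rfl
  obtain ⟨t, ht1, ht2'⟩ := TT.exists_lim (fun n => (s n).1.1) (fun n => by
    simp only [hs]; exact hnxt1 n (s n))
  obtain ⟨r, hr1, hr2'⟩ := TT.exists_lim (fun n => rr (s n).1.2) (fun n => by
    simp only [hs]; exact hnxt2 n (s n))
  have htsupp : t.supp ⊆ Iio δ := by
    rintro α ⟨ξ, h⟩
    obtain ⟨v, hv⟩ := Option.ne_none_iff_exists'.1 h
    obtain ⟨n, hn⟩ := ht2' α ξ v hv
    exact (s n).2.2.1 ⟨ξ, by rw [hn]; simp⟩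
  have hrsupp : r.supp ⊆ (Iio δ)ᶜ := by
    rintro α ⟨ξ, h⟩
    obtain ⟨v, hv⟩ := Option.ne_none_iff_exists'.1 h
    obtain ⟨n, hn⟩ := hr2' α ξ v hv
    exact (s n).2.2.2.2.1 ⟨ξ, by rw [hn]; simp⟩
  refine ⟨t, r, (ht1 0).trans le_rfl, hr1 0, htsupp, hrsupp, fun n => ?_⟩
  obtain ⟨g', hg', hgood⟩ := hnxt3 n (s n)
  exact ⟨g', hg', hmono _ _ _ _ _ _ hgood (ht1 (n + 1)) (hr1 (n + 1)) htsupp hrsupp⟩

end SRd

theorem claimSRd (hN : ClaimN) (hS : ClaimSmall) (hSun : ClaimSun) (hDL : ClaimDL) :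
    ClaimSRd := by
  intro L _ _ δ hδ S hSdep hScf m hm
  classical
  obtain ⟨W, hW⟩ := hδ
  have F : NMFacts (Iio δ) W := hN L (Iio δ) W hW
  rw [stat, RO.mem_iInf]
  intro C
  by_contra hcon
  obtain ⟨m1, hm1, hm1'⟩ := RO.not_mem_iff.1 hcon
  rw [compl_sup, compl_compl] at hm1'
  obtain ⟨hclub, hbad⟩ := RO.mem_inf.1 hm1'
  have hclub' := RO.mem_inf.1 hclub
  obtain ⟨hunb, hclos⟩ := hclub'
  rw [RO.mem_iInf] at hunb hclos
  -- the restricted conditions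
  set t2 : TT L := m1.q.restr (Iio δ) with ht2
  set r2 : TT L := m1.q.restr (Iio δ)ᶜ with hr2
  have ht2s : t2.supp ⊆ Iio δ := by rw [ht2, TT.restr_supp]; exact inter_subset_left
  have hr2s : r2.supp ⊆ (Iio δ)ᶜ := by rw [hr2, TT.restr_supp]; exact inter_subset_left
  let Good : TT L → TT L → L → L → Prop := fun t r g g' =>
    (⟨m1.p, t.ov r⟩ : MM L) ∈ ⨆ b : Iio δ, ⨆ (_ : g < b.1 ∧ b.1 < g'), C b
  have hle : ∀ t t' r r' : TT L, t' ≤ t → r' ≤ r → t'.supp ⊆ Iio δ → r'.supp ⊆ (Iio δ)ᶜ →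
      t'.ov r' ≤ t.ov r := by
    intro t t' r r' h1 h2 h3 h4
    exact TT.le_ov ((TT.ov_le_left _ _).trans h1)
      ((TT.ov_le_right (SRd_compat_disj h3 h4)).trans h2)
  have hmono : ∀ t t' r r' g g', Good t r g g' → t' ≤ t → r' ≤ r →
      t'.supp ⊆ Iio δ → r'.supp ⊆ (Iio δ)ᶜ → Good t' r' g g' := by
    intro t t' r r' g g' h h1 h2 h3 h4
    exact RO.mem_down (mk_le_mk le_rfl (hle _ _ _ _ h1 h2 h3 h4)) h
  have htop : ∀ t r : TT L, t ≤ t2 → r ≤ r2 → t.supp ⊆ Iio δ → r.supp ⊆ (Iio δ)ᶜ →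
      t.ov r ≤ m1.q := by
    intro t r h1 h2 h3 h4
    exact (hle _ _ _ _ h1 h2 h3 h4).trans (SRd_ov_restr_le _ _)
  have dense : ∀ t r g, t ≤ t2 → t.supp ⊆ Iio δ → r ≤ r2 → r.supp ⊆ (Iio δ)ᶜ → g < δ →
      ∃ t' ≤ t, ∃ r' ≤ r, ∃ g' < δ, t'.supp ⊆ Iio δ ∧ r'.supp ⊆ (Iio δ)ᶜ ∧
        Good t' r' g g' := by
    intro t r g h1 h2 h3 h4 hg
    obtain ⟨q, hq, C0, hC0, hcov⟩ := hDL L Unit (RO (MM L)) (Ext.triv (RO (MM L)) Unit)
      {b : Iio δ // g < b.1} (fun _ b => C b.1) m1.p (t.ov r) (by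
        intro n
        change RO.gen _ ≤ _
        rw [RO.gen_le_iff]
        have h5 := hunb ⟨g, hg⟩
        have h6 : (⟨m1.p, t.ov r⟩ : MM L) ∈
            ⨆ β : Iio δ, ⨆ (_ : (⟨g, hg⟩ : Iio δ) < β), C β :=
          RO.mem_down (mk_le_mk le_rfl (htop t r h1 h3 h2 h4)) h5
        refine RO.le_iff.1 ?_ _ h6
        exact iSup_le fun β => iSup_le fun hβ =>
          le_iSup (fun b : {b : Iio δ // g < b.1} => C b.1) ⟨β, hβ⟩)
    have hcov0 := hcov 0
    change RO.gen _ ≤ _ at hcov0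
    rw [RO.gen_le_iff] at hcov0
    obtain ⟨g', hg', hg''⟩ := F.bddN ((fun b : {b : Iio δ // g < b.1} => b.1.1) '' C0) (by
      rintro _ ⟨b, _, rfl⟩
      exact b.1.2) (hC0.image _)
    refine ⟨q.restr (Iio δ), ?_, q.restr (Iio δ)ᶜ, ?_, g', hg', ?_, ?_, ?_⟩
    · have := TT.restr_mono (S := Iio δ) (hq.trans (TT.ov_le_left _ _))
      rwa [TT.restr_eq_self h2] at this
    · have := TT.restr_mono (S := (Iio δ)ᶜ) (hq.trans (TT.ov_le_right (SRd_compat_disj h2 h4)))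
      rwa [TT.restr_eq_self h4] at this
    · rw [TT.restr_supp]; exact inter_subset_left
    · rw [TT.restr_supp]; exact inter_subset_left
    · refine RO.mem_down (mk_le_mk le_rfl (SRd_ov_restr_le (Iio δ) q)) ?_
      refine RO.le_iff.1 ?_ _ hcov0
      refine iSup_le fun b => iSup_le fun hb => ?_
      exact le_iSup_of_le b.1 (le_iSup_of_le ⟨b.2, hg'' _ ⟨b, hb, rfl⟩⟩ le_rfl)
  obtain ⟨G, hGδ, hG⟩ := SRd_game hW F hS hSun Good hmono t2 r2 hr2s dense
  -- the ground model club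
  choose sc hsc1 hsc2 using F.limit
  let sc' : L → L := fun β => if h : β ∈ Iio δ then sc β h else β
  have hsc1' : ∀ β ∈ Iio δ, sc' β ∈ Iio δ := fun β hβ => by
    have : sc' β = sc β hβ := dif_pos hβ
    rw [this]; exact hsc1 β hβ
  have hsc2' : ∀ β ∈ Iio δ, β < sc' β := fun β hβ => by
    have : sc' β = sc β hβ := dif_pos hβ
    rw [this]; exact hsc2 β hβ
  let Ee : Set L := {a | a < δ ∧ (∀ b < a, ∃ c, b < c ∧ c < a) ∧ ∀ b < a, G b < a}
  have hEe : ClubG δ Ee := by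
    constructor
    · intro α hα
      have hU := F.inter2 _ _ (F.clos sc' hsc1') (F.clos G (fun β hβ => hGδ β hβ))
      obtain ⟨a, ⟨ha1, ha2⟩, haδ, hαa⟩ := F.pick _ hU α hα
      exact ⟨a, ⟨haδ, fun b hb => ⟨sc' b, hsc2' b (hb.trans haδ), ha1 b hb⟩, ha2⟩, hαa, haδ⟩
    · intro a ha _ h
      refine ⟨ha, fun b hb => ?_, fun b hb => ?_⟩
      · obtain ⟨c, _, hc1, hc2⟩ := h b hb
        exact ⟨c, hc1, hc2⟩
      · obtain ⟨c, hc, hc1, hc2⟩ := h b hb
        exact (hc.2.2 b hc1).trans hc2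
  have h3 := RO.mem_down hm1 (hm Ee hEe)
  obtain ⟨m3, hm3, a, ha⟩ := RO.mem_iSup.1 h3 m1 le_rfl
  obtain ⟨m3', hm3', haE, ha'⟩ := RO.mem_iSup.1 ha m3 le_rfl
  obtain ⟨m4, hm4, haδ, hma⟩ := RO.mem_iSup.1 ha' m3' le_rfl
  have hm41 : m4 ≤ m1 := (hm4.trans hm3').trans hm3
  obtain ⟨f, hf1, hf2⟩ := hScf a (RO.ne_bot_iff.2 ⟨m4, hma⟩)
  set t3 : TT L := (m1.q.ov m4.q).restr (Iio δ) with ht3
  have ht3s : t3.supp ⊆ Iio δ := by rw [ht3, TT.restr_supp]; exact inter_subset_left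
  have ht3t2 : t3 ≤ t2 := TT.restr_mono (TT.ov_le_left _ _)
  obtain ⟨t, r, htt3, hrr2, hts, hrs, hgood⟩ := hG a haδ haE.2.1 haE.2.2 f hf1 t3 ht3t2 ht3s
  -- the final condition
  let m6 : MM L := ⟨m4.p, t.ov r⟩
  have hm6S : m6 ∈ S a := by
    have h5 : (⟨m4.p, m1.q.ov m4.q⟩ : MM L) ∈ S a := RO.mem_down (norm_le hm41) hma
    have h6 := hSdep a haδ _ h5
    refine RO.mem_down ?_ h6
    exact mk_le_mk (Fn.le_restr _ _) ((TT.ov_le_left _ _).trans htt3)
  have hm61 : m6 ≤ m1 := mk_le_mk hm41.1 (htop t r (htt3.trans ht3t2) hrr2 hts hrs)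
  have hm6G : ∀ n, ∃ g' < a, m6 ∈ ⨆ b : Iio δ, ⨆ (_ : f n < b.1 ∧ b.1 < g'), C b := by
    intro n
    obtain ⟨g', hg', h⟩ := hgood n
    exact ⟨g', hg', RO.mem_down (mk_le_mk hm41.1 le_rfl) h⟩
  have hm6C : m6 ∈ C ⟨a, haδ⟩ := by
    have h5 := RO.mem_down hm61 (hclos ⟨a, haδ⟩)
    rw [RO.mem_iInf] at h5
    have h6 := h5 ⟨⟨f 0, (hf1 0).trans haδ⟩, hf1 0⟩
    apply RO.mem_reg
    intro q hq
    obtain ⟨q1, hq1, h | h⟩ := RO.mem_sup.1 h6 q hq
    · exfalso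
      obtain ⟨q2, hq2, β, hβ⟩ := RO.mem_iSup.1 h q1 le_rfl
      obtain ⟨q3, hq3, hβa, hβ'⟩ := RO.mem_iSup.1 hβ q2 le_rfl
      obtain ⟨n, hn⟩ := hf2 β.1 hβa
      obtain ⟨g', hg', h7⟩ := hm6G n
      have hq36 : q3 ≤ m6 := (hq3.trans hq2).trans (hq1.trans hq)
      obtain ⟨q4, hq4, b, hb⟩ := RO.mem_iSup.1 h7 q3 hq36
      obtain ⟨q5, hq5, hbb, hb'⟩ := RO.mem_iSup.1 hb q4 le_rfl
      rw [RO.mem_iInf] at hβ'
      have h8 := hβ' b
      rw [RO.mem_iInf] at h8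
      have h9 := h8 (hn.trans hbb.1)
      rw [RO.mem_iInf] at h9
      have h10 := h9 (hbb.2.trans hg')
      exact RO.not_mem_of_compl (RO.mem_down (hq5.trans hq4) h10) hb'
    · exact ⟨q1, hq1, h⟩
  have hbad' := RO.mem_down hm61 hbad
  apply RO.not_mem_of_compl hbad'
  refine RO.le_iff.1 (le_iSup (fun α : Iio δ => C α ⊓ below δ S α) ⟨a, haδ⟩) _ ?_
  exact RO.mem_inf.2 ⟨hm6C, hm6S⟩

end Pool.Agent.Work.MP_dbe197_lc

end

section

/-!
# Item M1: few bounded conditions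
-/

namespace Pool.Agent.Work.MP_dbe197_lc

open Set Cardinal RO MM

theorem Small_pow {κ : Cardinal.{0}} (h : κ.IsInaccessible) {x y : Cardinal.{0}} (hx : x < κ)
    (hy : y < κ) : x ^ y < κ := by
  have h0 : ℵ₀ ≤ κ := h.aleph0_lt.le
  calc x ^ y ≤ (2 ^ x) ^ y := power_le_power_right (cantor x).le
    _ = 2 ^ (x * y) := (power_mul ..).symm
    _ < κ := h.isStrongLimit.isStrongPrelimit (mul_lt_of_lt h0 hx hy)

theorem Small_mul {κ : Cardinal.{0}} (h : κ.IsInaccessible) {x y : Cardinal.{0}} (hx : x < κ)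
    (hy : y < κ) : x * y < κ := mul_lt_of_lt h.aleph0_lt.le hx hy

theorem Small_fun {κ : Cardinal.{0}} (h : κ.IsInaccessible) {X Y : Type} (hx : #X < κ)
    (hy : #Y < κ) : #(X → Y) < κ := by
  rw [← power_def]
  exact Small_pow h hy hx

theorem Small_opt {κ : Cardinal.{0}} (h : κ.IsInaccessible) {X : Type} (hx : #X < κ) :
    #(Option X) < κ := by
  rw [mk_option]
  exact add_lt_of_lt h.aleph0_lt.le hx (one_lt_aleph0.trans h.aleph0_lt)

theorem Small_prod {κ : Cardinal.{0}} (h : κ.IsInaccessible) {X Y : Type} (hx : #X < κ)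
    (hy : #Y < κ) : #(X × Y) < κ := by
  rw [mk_prod, lift_id, lift_id]
  exact Small_mul h hx hy

theorem Small_nat {κ : Cardinal.{0}} (h : κ.IsInaccessible) : #ℕ < κ := by
  rw [mk_nat]; exact h.aleph0_lt

theorem Small_bool {κ : Cardinal.{0}} (h : κ.IsInaccessible) : #Bool < κ := by
  rw [mk_bool]; exact_mod_cast h.nat_lt 2

theorem Small_O1 {κ : Cardinal.{0}} (h : κ.IsInaccessible) : #O1 < κ := by
  have h1 : #O1 = ℵ_ 1 := by
    rw [O1, OO, mk_toType, card_ord]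
  rw [h1]
  calc ℵ_ 1 ≤ 𝔠 := aleph_one_le_continuum
    _ = 2 ^ ℵ₀ := two_power_aleph0.symm
    _ < κ := h.isStrongLimit.isStrongPrelimit h.aleph0_lt

section

variable {L : Type} [LinearOrder L]

/-- The values of term conditions bounded by `β`. -/
def Small_V (β : L) : Set (Pt L → L) :=
  {v : Pt L → L | (∀ c, v c ≤ β) ∧ ∀ c c' : Pt L, (∀ γ ≤ β, c γ = c' γ) → v c = v c'}

theorem Small_V_lt {κ : Cardinal.{0}} (h : κ.IsInaccessible) (β : L) (hβ : #(Iic β) < κ) :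
    #(Small_V β) < κ := by
  classical
  refine lt_of_le_of_lt ?_ (Small_fun h (Small_fun h hβ
    (Small_fun h (Small_nat h) (Small_bool h))) hβ)
  refine mk_le_of_injective (f := fun v : Small_V β =>
    (fun c : (Iic β → ℕ → Bool) =>
      (⟨v.1 (fun γ => if hγ : γ ∈ Iic β then c ⟨γ, hγ⟩ else fun _ => false), v.2.1 _⟩ : Iic β))) ?_
  intro v w hvw
  apply Subtype.ext
  funext c
  have h1 := congrFun hvw (fun γ => c γ.1)
  have h2 := congrArg Subtype.val h1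
  simp only at h2
  rw [v.2.2 c (fun γ => if hγ : γ ∈ Iic β then c γ else fun _ => false) (fun γ hγ => by
    rw [dif_pos (show γ ∈ Iic β from hγ)]),
    w.2.2 c (fun γ => if hγ : γ ∈ Iic β then c γ else fun _ => false) (fun γ hγ => by
    rw [dif_pos (show γ ∈ Iic β from hγ)])]
  exact h2

theorem Small_T_lt {κ : Cardinal.{0}} (h : κ.IsInaccessible) (β : L) (hβ : #(Iio β) < κ)
    (hβ' : #(Iic β) < κ) : #{q : TT L | q.supp ⊆ Iio β} < κ := by
  classical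
  refine lt_of_le_of_lt ?_ (Small_fun h (Small_prod h hβ (Small_O1 h))
    (Small_opt h (Small_V_lt h β hβ')))
  have hcode : ∀ q : {q : TT L | q.supp ⊆ Iio β}, ∃ g : Iio β × O1 → Option (Small_V β),
      ∀ x, (g x).map Subtype.val = q.1.val x.1.1 x.2 := by
    intro q
    have h1 : ∀ x : Iio β × O1, ∃ o : Option (Small_V β),
        o.map Subtype.val = q.1.val x.1.1 x.2 := by
      intro x
      rcases hv : q.1.val x.1.1 x.2 with _ | v
      · exact ⟨none, rfl⟩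
      · refine ⟨some ⟨v, fun c => (q.1.le' _ _ v hv c).trans (le_of_lt x.1.2), fun c c' hc => ?_⟩,
          rfl⟩
        exact q.1.dep _ _ v hv c c' fun γ hγ => hc γ (hγ.trans (le_of_lt x.1.2))
    choose g hg using h1
    exact ⟨g, hg⟩
  choose G hG using hcode
  refine mk_le_of_injective (f := G) ?_
  intro q q' hqq
  apply Subtype.ext
  ext1 α ξ
  by_cases hα : α < β
  · have h1 := hG q (⟨α, hα⟩, ξ)
    have h2 := hG q' (⟨α, hα⟩, ξ)
    rw [hqq] at h1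
    exact h1.symm.trans h2
  · have h1 : ∀ q : {q : TT L | q.supp ⊆ Iio β}, q.1.val α ξ = none := by
      intro q
      by_contra hne
      exact hα (q.2 ⟨ξ, hne⟩)
    rw [h1 q, h1 q']

theorem Small_M_lt {κ : Cardinal.{0}} (h : κ.IsInaccessible) (β : L) (hβ : #(Iio β) < κ)
    (hβ' : #(Iic β) < κ) : #{m : MM L | m.supp ⊆ Iio β} < κ := by
  refine lt_of_le_of_lt ?_ (Small_prod h (Small_fun h (Small_prod h hβ (Small_nat h))
    (Small_opt h (Small_bool h))) (Small_T_lt h β hβ hβ'))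
  refine mk_le_of_injective (f := fun m : {m : MM L | m.supp ⊆ Iio β} =>
    ((fun x : Iio β × ℕ => m.1.p.f (x.1.1, x.2)),
      (⟨m.1.q, fun α hα => m.2 (Or.inr hα)⟩ : {q : TT L | q.supp ⊆ Iio β}))) ?_
  intro m n hmn
  have h1 := congrArg Prod.fst hmn
  have h2 := congrArg Prod.snd hmn
  simp only at h1 h2
  apply Subtype.ext
  apply MM.ext'
  · ext1 x
    obtain ⟨α, k⟩ := x
    by_cases hα : α < β
    · exact congrFun h1 (⟨α, hα⟩, k)
    · have h3 : ∀ m : {m : MM L | m.supp ⊆ Iio β}, m.1.p.f (α, k) = none := by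
        intro m
        by_contra hne
        exact hα (m.2 (Or.inl ⟨k, hne⟩))
      rw [h3 m, h3 n]
  · exact congrArg Subtype.val h2

theorem Small_D_lt {κ : Cardinal.{0}} (h : κ.IsInaccessible) (β : L) (hβ : #(Iio β) < κ)
    (hβ' : #(Iic β) < κ) : #{a : RO (MM L) | DepM (Iio β) a} < κ := by
  have hM := Small_M_lt h β hβ hβ'
  refine lt_of_le_of_lt ?_ (h.isStrongLimit.isStrongPrelimit hM)
  rw [← mk_set]
  refine mk_le_of_injective (f := fun a : {a : RO (MM L) | DepM (Iio β) a} =>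
    {m : {m : MM L | m.supp ⊆ Iio β} | m.1 ∈ a.1}) ?_
  intro a b hab
  apply Subtype.ext
  apply RO.ext_mem
  intro p
  have hs : (res (Iio β) p).supp ⊆ Iio β := by
    rw [supp_res]; exact inter_subset_left
  rw [DepM.mem_iff a.2, DepM.mem_iff b.2]
  have h1 : (⟨res (Iio β) p, hs⟩ : {m : MM L | m.supp ⊆ Iio β}) ∈
      {m : {m : MM L | m.supp ⊆ Iio β} | m.1 ∈ a.1} ↔
      (⟨res (Iio β) p, hs⟩ : {m : MM L | m.supp ⊆ Iio β}) ∈
      {m : {m : MM L | m.supp ⊆ Iio β} | m.1 ∈ b.1} := by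
    exact Set.ext_iff.1 hab _
  exact h1

end

theorem claimSmall : ClaimSmall := by
  intro L _ _ S hS hin β hβ
  have h1 : #(Iio β) < #S := hin.2 β hβ
  have h2 : #(Iic β) < #S := by
    have h : (Iic β : Set L) = insert β (Iio β) := by
      ext x; simp [le_iff_eq_or_lt]
    rw [h]
    calc #(insert β (Iio β) : Set L) ≤ #(Iio β) + 1 := Cardinal.mk_insert_le
      _ < #S := Cardinal.add_lt_of_lt hin.1.aleph0_lt.le h1
          (Cardinal.one_lt_aleph0.trans hin.1.aleph0_lt)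
  exact ⟨Small_V_lt hin.1 β h2, Small_T_lt hin.1 β h1 h2, Small_M_lt hin.1 β h1 h2,
    Small_D_lt hin.1 β h1 h2⟩

end Pool.Agent.Work.MP_dbe197_lc

end

section

/-!
# The step of the iteration, algebraic part
-/

namespace Pool.Agent.Work.MP_dbe197_lc

open Set Cardinal

section Step1Alg

variable {X : Type} {𝓑 : Set (Set X)}

theorem step1_empty (h : IsAlg 𝓑) : (∅ : Set X) ∈ 𝓑 := by
  have := h.compl _ h.univ
  rwa [compl_univ] at this

theorem step1_list (h : IsAlg 𝓑) {T : Type} (G : T → Set X) (l : List T)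
    (hl : ∀ t ∈ l, G t ∈ 𝓑) : {y | ∀ t ∈ l, y ∈ G t} ∈ 𝓑 := by
  induction l with
  | nil => simpa using h.univ
  | cons a l ih =>
    have h1 : {y | ∀ t ∈ a :: l, y ∈ G t} = G a ∩ {y | ∀ t ∈ l, y ∈ G t} := by
      ext y
      simp
    rw [h1]
    exact h.inter _ (hl a (by simp)) _ (ih fun t ht => hl t (by simp [ht]))

theorem step1_fin (h : IsAlg 𝓑) {T : Type} (G : T → Set X) (s : Finset T)
    (hs : ∀ t ∈ s, G t ∈ 𝓑) : {y | ∀ t ∈ s, y ∈ G t} ∈ 𝓑 := by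
  have := step1_list h G s.toList (fun t ht => hs t (by simpa using ht))
  simpa using this

end Step1Alg

section Step1

variable {A L J : Type} [CompleteBooleanAlgebra A] [LinearOrder L] {α : L}
  {𝓑 : Set (Set (XX A L J))} {F : J → Set (ℕ → Set (XX A L J))}

/-- Open sets. -/
def Step1Opn (α : L) (𝓑 : Set (Set (XX A L J))) (F : J → Set (ℕ → Set (XX A L J)))
    (a : Set (XX A L J)) : Prop :=
  ∀ x ∈ a, ∃ b ∈ 𝓑, ∃ l, (∀ t ∈ l, t.2.2 ∈ F t.1) ∧ x ∈ cset α b l ∧ cset α b l ⊆ a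

theorem step1_mem {a : Set (XX A L J)} :
    a ∈ stepAlg α 𝓑 F ↔ Step1Opn α 𝓑 F a ∧ Step1Opn α 𝓑 F aᶜ := Iff.rfl

omit [LinearOrder L] in
theorem step1_cset_inter (b b' : Set (XX A L J))
    (l l' : List (J × Finset ℕ × (ℕ → Set (XX A L J)))) :
    cset α b l ∩ cset α b' l' = cset α (b ∩ b') (l ++ l') := by
  ext x
  constructor
  · rintro ⟨⟨h1, h2⟩, h3, h4⟩
    refine ⟨⟨h1, h3⟩, fun t ht => ?_⟩
    rcases List.mem_append.1 ht with ht | ht
    · exact h2 t ht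
    · exact h4 t ht
  · rintro ⟨⟨h1, h3⟩, h⟩
    exact ⟨⟨h1, fun t ht => h t (List.mem_append.2 (Or.inl ht))⟩,
      h3, fun t ht => h t (List.mem_append.2 (Or.inr ht))⟩

theorem step1_initSeg_refl (τ : Finset ℕ) : InitSeg τ τ :=
  ⟨Finset.Subset.refl _, fun _ h h' => absurd h h'⟩

/-- The cofinite sets. -/
theorem step1_Z0 (H : StepHyp α 𝓑 F) (j : J) (N : ℕ) :
    (fun k => {_x : XX A L J | N ≤ k}) ∈ F j := by
  have he : ∀ k, ({_x : XX A L J | N ≤ k} : Set (XX A L J)) ∈ 𝓑 := by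
    intro k
    by_cases h : N ≤ k
    · simpa [h] using H.alg.univ
    · simpa [h] using step1_empty H.alg
  refine (H.fil j).up _ (H.fil j).univ _ he ?_
  intro b hb hbn
  refine ⟨b, hb, hbn, Subset.rfl, N, ?_⟩
  intro k hk x _
  exact hk

omit [LinearOrder L] in
theorem step1_single (j : J) (τ : Finset ℕ) (Z : ℕ → Set (XX A L J)) (b : Set (XX A L J))
    (x : XX A L J) :
    x ∈ cset α b [(j, τ, Z)] ↔ x ∈ b ∧ InitSeg τ (x.2 (α, j)) ∧
      ∀ k ∈ x.2 (α, j), k ∉ τ → x ∈ Z k := by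
  constructor
  · rintro ⟨h1, h2⟩
    exact ⟨h1, h2 (j, τ, Z) (List.mem_singleton.2 rfl)⟩
  · rintro ⟨h1, h2⟩
    refine ⟨h1, fun t ht => ?_⟩
    rw [List.mem_singleton] at ht
    rw [ht]
    exact h2

theorem step1_cset_mem (H : StepHyp α 𝓑 F) {b : Set (XX A L J)} (hb : b ∈ 𝓑)
    {l : List (J × Finset ℕ × (ℕ → Set (XX A L J)))} (hl : ∀ t ∈ l, t.2.2 ∈ F t.1) :
    cset α b l ∈ stepAlg α 𝓑 F := by
  refine ⟨fun x hx => ⟨b, hb, l, hl, hx, Subset.rfl⟩, ?_⟩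
  intro x hx
  by_cases hxb : x ∈ b
  · have h1 : ∃ t ∈ l, ¬ (InitSeg t.2.1 (x.2 (α, t.1)) ∧
        ∀ k ∈ x.2 (α, t.1), k ∉ t.2.1 → x ∈ t.2.2 k) := by
      by_contra hcon
      push Not at hcon
      exact hx ⟨hxb, fun t ht => hcon t ht⟩
    obtain ⟨t, ht, h1⟩ := h1
    by_cases hi : InitSeg t.2.1 (x.2 (α, t.1))
    · have h2 : ∃ k ∈ x.2 (α, t.1), k ∉ t.2.1 ∧ x ∉ t.2.2 k := by
        by_contra hcon
        push Not at hcon
        exact h1 ⟨hi, hcon⟩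
      obtain ⟨k, hk, hk1, hk2⟩ := h2
      refine ⟨(t.2.2 k)ᶜ, H.alg.compl _ ((H.fil t.1).nm _ (hl t ht) k),
        [(t.1, x.2 (α, t.1), fun _ => univ)], ?_, ?_, ?_⟩
      · intro s hs
        rw [List.mem_singleton] at hs
        rw [hs]
        exact (H.fil t.1).univ
      · rw [step1_single]
        exact ⟨hk2, step1_initSeg_refl _, fun k h h' => absurd h h'⟩
      · intro y hy hy'
        rw [step1_single] at hy
        have h3 := (hy'.2 t ht).2 k (hy.2.1.1 hk) hk1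
        exact hy.1 h3
    · refine ⟨univ, H.alg.univ, [(t.1, x.2 (α, t.1),
        fun k => {_x : XX A L J | (t.2.1 ∪ x.2 (α, t.1)).sup id + 1 ≤ k})], ?_, ?_, ?_⟩
      · intro s hs
        rw [List.mem_singleton] at hs
        rw [hs]
        exact step1_Z0 H t.1 _
      · rw [step1_single]
        exact ⟨mem_univ _, step1_initSeg_refl _, fun k h h' => absurd h h'⟩
      · intro y hy hy'
        rw [step1_single] at hy
        have h3 := (hy'.2 t ht).1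
        apply hi
        refine ⟨?_, fun k hk => h3.2 k (hy.2.1.1 hk)⟩
        intro k hk
        by_contra hcon
        have h4 := hy.2.2 k (h3.1 hk) hcon
        have h5 : id k ≤ (t.2.1 ∪ x.2 (α, t.1)).sup id :=
          Finset.le_sup (Finset.mem_union_left _ hk)
        have h6 : (t.2.1 ∪ x.2 (α, t.1)).sup id + 1 ≤ k := h4
        rw [id] at h5
        omega
  · refine ⟨bᶜ, H.alg.compl _ hb, [], by simp, ⟨hxb, by simp⟩, ?_⟩
    intro y hy hy'
    exact hy.1 hy'.1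

theorem step1_opn_inter (H : StepHyp α 𝓑 F) {a b : Set (XX A L J)}
    (ha : Step1Opn α 𝓑 F a) (hb : Step1Opn α 𝓑 F b) : Step1Opn α 𝓑 F (a ∩ b) := by
  intro x hx
  obtain ⟨c, hc, l, hl, h1, h2⟩ := ha x hx.1
  obtain ⟨c', hc', l', hl', h1', h2'⟩ := hb x hx.2
  refine ⟨c ∩ c', H.alg.inter _ hc _ hc', l ++ l', ?_, ?_, ?_⟩
  · intro t ht
    rcases List.mem_append.1 ht with ht | ht
    · exact hl t ht
    · exact hl' t ht
  · rw [← step1_cset_inter]
    exact ⟨h1, h1'⟩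
  · rw [← step1_cset_inter]
    exact inter_subset_inter h2 h2'

omit [LinearOrder L] in
theorem step1_opn_union {a b : Set (XX A L J)}
    (ha : Step1Opn α 𝓑 F a) (hb : Step1Opn α 𝓑 F b) : Step1Opn α 𝓑 F (a ∪ b) := by
  intro x hx
  rcases hx with hx | hx
  · obtain ⟨c, hc, l, hl, h1, h2⟩ := ha x hx
    exact ⟨c, hc, l, hl, h1, h2.trans subset_union_left⟩
  · obtain ⟨c, hc, l, hl, h1, h2⟩ := hb x hx
    exact ⟨c, hc, l, hl, h1, h2.trans subset_union_right⟩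

theorem step1_isAlg (H : StepHyp α 𝓑 F) : IsAlg (stepAlg α 𝓑 F) where
  univ := by
    refine ⟨fun x _ => ⟨univ, H.alg.univ, [], by simp, ⟨mem_univ _, by simp⟩,
      subset_univ _⟩, ?_⟩
    intro x hx
    exact absurd (mem_univ x) hx
  compl := by
    intro b hb
    refine ⟨hb.2, ?_⟩
    have := hb.1
    intro x hx
    have hx' : x ∈ b := by
      by_contra h
      exact hx h
    rw [compl_compl]
    exact this x hx'
  inter := by
    intro b hb c hc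
    rw [step1_mem] at hb hc ⊢
    refine ⟨step1_opn_inter H hb.1 hc.1, ?_⟩
    rw [compl_inter]
    exact step1_opn_union hb.2 hc.2

theorem step1_sub (H : StepHyp α 𝓑 F) {b : Set (XX A L J)} (hb : b ∈ 𝓑) :
    b ∈ stepAlg α 𝓑 F := by
  have h1 : cset α b [] = b := by
    ext x
    simp [cset]
  rw [← h1]
  exact step1_cset_mem H hb (by simp)

theorem step1_mg (H : StepHyp α 𝓑 F) (j : J) (k : ℕ) : mg α j k ∈ stepAlg α 𝓑 F := by
  rw [step1_mem]
  constructor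
  · intro x hx
    have hx' : k ∈ x.2 (α, j) := hx
    refine ⟨univ, H.alg.univ, [(j, x.2 (α, j), fun _ => univ)], ?_, ?_, ?_⟩
    · intro s hs
      rw [List.mem_singleton] at hs
      rw [hs]
      exact (H.fil j).univ
    · rw [step1_single]
      exact ⟨mem_univ _, step1_initSeg_refl _, fun k h h' => absurd h h'⟩
    · intro y hy
      rw [step1_single] at hy
      exact hy.2.1.1 hx'
  · intro x hx
    have hx' : k ∉ x.2 (α, j) := hx
    refine ⟨univ, H.alg.univ, [(j, x.2 (α, j), fun n => {_x : XX A L J | k + 1 ≤ n})], ?_, ?_, ?_⟩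
    · intro s hs
      rw [List.mem_singleton] at hs
      rw [hs]
      exact step1_Z0 H j _
    · rw [step1_single]
      exact ⟨mem_univ _, step1_initSeg_refl _, fun k h h' => absurd h h'⟩
    · intro y hy hy'
      rw [step1_single] at hy
      have h2 : k ∈ y.2 (α, j) := hy'
      have h3 : k + 1 ≤ k := hy.2.2 k h2 hx'
      omega

/-- The reduction of `cset α b l` determined by a point. -/
def step1Red (α : L) (b : Set (XX A L J)) (l : List (J × Finset ℕ × (ℕ → Set (XX A L J))))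
    (x : XX A L J) : Set (XX A L J) :=
  {y | y ∈ b ∧ ∀ t ∈ l, ∀ k ∈ x.2 (α, t.1), k ∉ t.2.1 → y ∈ t.2.2 k}

theorem step1_red_mem (H : StepHyp α 𝓑 F) {b : Set (XX A L J)} (hb : b ∈ 𝓑)
    {l : List (J × Finset ℕ × (ℕ → Set (XX A L J)))} (hl : ∀ t ∈ l, t.2.2 ∈ F t.1)
    (x : XX A L J) : step1Red α b l x ∈ 𝓑 := by
  have h1 : {y | ∀ t ∈ l, y ∈ {z : XX A L J | ∀ k ∈ x.2 (α, t.1) \ t.2.1, z ∈ t.2.2 k}} ∈ 𝓑 := by
    refine step1_list H.alg
      (fun t : J × Finset ℕ × (ℕ → Set (XX A L J)) =>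
        {z : XX A L J | ∀ k ∈ x.2 (α, t.1) \ t.2.1, z ∈ t.2.2 k}) l ?_
    intro t ht
    exact step1_fin H.alg (fun k => t.2.2 k) _ (fun k _ => (H.fil t.1).nm _ (hl t ht) k)
  have h2 : step1Red α b l x =
      b ∩ {y | ∀ t ∈ l, y ∈ {z : XX A L J | ∀ k ∈ x.2 (α, t.1) \ t.2.1, z ∈ t.2.2 k}} := by
    ext y
    simp only [step1Red, mem_ofPred_eq, mem_inter_iff, Finset.mem_sdiff, and_imp]
  rw [h2]
  exact H.alg.inter _ hb _ h1

omit [LinearOrder L] in
theorem step1_self_red {b : Set (XX A L J)}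
    {l : List (J × Finset ℕ × (ℕ → Set (XX A L J)))} {x : XX A L J} (hx : x ∈ cset α b l) :
    x ∈ step1Red α b l x :=
  ⟨hx.1, fun t ht k hk hk' => (hx.2 t ht).2 k hk hk'⟩

omit [LinearOrder L] in
theorem step1_red_sub {b : Set (XX A L J)}
    {l : List (J × Finset ℕ × (ℕ → Set (XX A L J)))} {x y : XX A L J} (hx : x ∈ cset α b l)
    (hy : y ∈ step1Red α b l x) (hxy : ∀ t ∈ l, y.2 (α, t.1) = x.2 (α, t.1)) :
    y ∈ cset α b l := by
  refine ⟨hy.1, fun t ht => ?_⟩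
  rw [hxy t ht]
  exact ⟨(hx.2 t ht).1, hy.2 t ht⟩

theorem step1_reg (H : StepHyp α 𝓑 F) : Reg 𝓑 (stepAlg α 𝓑 F) := by
  classical
  refine ⟨fun b hb => step1_sub H hb, ?_⟩
  rintro a ha ⟨x, hxa⟩
  obtain ⟨b, hb, l, hl, hx, hsub⟩ := ha.1 x hxa
  refine ⟨step1Red α b l x, step1_red_mem H hb hl x, ⟨x, step1_self_red hx⟩, ?_⟩
  rintro c hc ⟨y, hy⟩ hcb
  have h1 : (y.1, fun i : L × J => if i.1 = α then x.2 i else y.2 i) ∈ c := by
    refine H.dep c hc y _ rfl ?_ hy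
    intro i hi
    have : i.1 ≠ α := ne_of_lt hi
    simp [this]
  exact ⟨_, h1, hsub (step1_red_sub hx (hcb h1) (fun t _ => by simp))⟩

theorem step1_int (H : StepHyp α 𝓑 F) : HasInt (stepAlg α 𝓑 F) := by
  classical
  rintro a ha ⟨x, hxa⟩
  obtain ⟨b, hb, l, hl, hx, hsub⟩ := ha.1 x hxa
  obtain ⟨a0, ha0, F0, hF0⟩ := H.int _ (step1_red_mem H hb hl x) ⟨x, step1_self_red hx⟩
  have hfin : {i : L × J | (if i.1 < α then F0.f i else
      if i.1 = α ∧ ∃ t ∈ l, t.1 = i.2 then some (x.2 i) else none) ≠ none}.Finite := by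
    have hf : (F0.dom ∪ ((fun t : J × Finset ℕ × (ℕ → Set (XX A L J)) => ((α, t.1) : L × J)) ''
        {t | t ∈ l})).Finite :=
      F0.dom_fin.union ((List.finite_toSet l).image _)
    refine hf.subset ?_
    intro i hi
    rw [mem_ofPred_eq] at hi
    by_cases h1 : i.1 < α
    · left
      rw [if_pos h1] at hi
      exact hi
    · rw [if_neg h1] at hi
      by_cases h2 : i.1 = α ∧ ∃ t ∈ l, t.1 = i.2
      · right
        obtain ⟨h3, t, ht, h4⟩ := h2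
        refine ⟨t, ht, ?_⟩
        ext
        · exact h3.symm
        · exact h4
      · rw [if_neg h2] at hi
        exact absurd rfl hi
  refine ⟨a0, ha0, ⟨fun i => if i.1 < α then F0.f i else
      if i.1 = α ∧ ∃ t ∈ l, t.1 = i.2 then some (x.2 i) else none, hfin⟩, ?_⟩
  rintro y ⟨hy1, hy2⟩
  refine hsub (step1_red_sub hx ?_ ?_)
  · have h1 : (y.1, fun i : L × J => if i.1 < α then y.2 i else (F0.f i).getD (y.2 i)) ∈
        step1Red α b l x := by
      apply hF0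
      refine ⟨hy1, ?_⟩
      intro i v hv
      by_cases h : i.1 < α
      · have := hy2 i v (by simp only [if_pos h]; exact hv)
        simpa [h] using this
      · simp [h, hv]
    refine H.dep _ (step1_red_mem H hb hl x)
      (y.1, fun i : L × J => if i.1 < α then y.2 i else (F0.f i).getD (y.2 i)) y rfl ?_ h1
    intro i hi
    have hi' : i.1 < α := hi
    simp [hi']
  · intro t ht
    refine hy2 (α, t.1) _ ?_
    have h1 : ¬ ((α, t.1) : L × J).1 < α := lt_irrefl α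
    have h2 : ((α, t.1) : L × J).1 = α ∧ ∃ s ∈ l, s.1 = ((α, t.1) : L × J).2 := ⟨rfl, t, ht, rfl⟩
    change (if ((α, t.1) : L × J).1 < α then F0.f (α, t.1) else
      if ((α, t.1) : L × J).1 = α ∧ ∃ s ∈ l, s.1 = ((α, t.1) : L × J).2
        then some (x.2 (α, t.1)) else none) = some (x.2 (α, t.1))
    rw [if_neg h1, if_pos h2]

theorem step1_dep (H : StepHyp α 𝓑 F) {a : Set (XX A L J)} (ha : a ∈ stepAlg α 𝓑 F) :
    DepX (Iic α) a := by
  intro x y hxy h2 hxa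
  obtain ⟨b, hb, l, hl, hx, hsub⟩ := ha.1 x hxa
  have hd : ∀ c ∈ 𝓑, x ∈ c → y ∈ c := fun c hc =>
    H.dep c hc x y hxy (fun i hi => h2 i (le_of_lt hi))
  refine hsub ⟨hd b hb hx.1, fun t ht => ?_⟩
  have h3 : x.2 (α, t.1) = y.2 (α, t.1) := h2 (α, t.1) (le_refl α)
  rw [← h3]
  exact ⟨(hx.2 t ht).1, fun k hk hk' => hd _ ((H.fil t.1).nm _ (hl t ht) k)
    ((hx.2 t ht).2 k hk hk')⟩

theorem step1_lift (H : StepHyp α 𝓑 F) (l : List (J × Finset ℕ × (ℕ → Set (XX A L J))))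
    (hl : ∀ t ∈ l, t.2.2 ∈ F t.1) : ∃ l' : List (J × Finset ℕ × (ℕ → 𝓑)),
      l'.map (fun t => (t.1, t.2.1, fun k => (t.2.2 k : Set (XX A L J)))) = l := by
  induction l with
  | nil => exact ⟨[], rfl⟩
  | cons a l ih =>
    obtain ⟨l', hl'⟩ := ih fun t ht => hl t (by simp [ht])
    have h1 := (H.fil a.1).nm _ (hl a (by simp))
    exact ⟨(a.1, a.2.1, fun k => ⟨a.2.2 k, h1 k⟩) :: l', by simp [hl']⟩

theorem step1_size (H : StepHyp α 𝓑 F) (M : Type) (h0 : ℵ₀ ≤ #M) (h1 : #(ℕ → M) ≤ #M)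
    (h2 : #𝓑 ≤ #M) (h3 : #J ≤ #M) :
    ∃ 𝓓, DenseIn 𝓓 (stepAlg α 𝓑 F) ∧ #𝓓 ≤ #M := by
  refine ⟨{d | ∃ b ∈ 𝓑, ∃ l, (∀ t ∈ l, t.2.2 ∈ F t.1) ∧ cset α b l = d}, ⟨?_, ?_⟩, ?_⟩
  · rintro d ⟨b, hb, l, hl, rfl⟩
    exact step1_cset_mem H hb hl
  · rintro a ha ⟨x, hxa⟩
    obtain ⟨b, hb, l, hl, hx, hsub⟩ := ha.1 x hxa
    exact ⟨_, ⟨b, hb, l, hl, rfl⟩, ⟨x, hx⟩, hsub⟩
  · have h4 : {d | ∃ b ∈ 𝓑, ∃ l, (∀ t ∈ l, t.2.2 ∈ F t.1) ∧ cset α b l = d} ⊆
        range (fun p : 𝓑 × List (J × Finset ℕ × (ℕ → 𝓑)) =>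
          cset α (p.1 : Set (XX A L J))
            (p.2.map (fun t => (t.1, t.2.1, fun k => (t.2.2 k : Set (XX A L J)))))) := by
      rintro d ⟨b, hb, l, hl, rfl⟩
      obtain ⟨l', hl'⟩ := step1_lift H l hl
      exact ⟨(⟨b, hb⟩, l'), by simp only [hl']⟩
    have h5 : #(ℕ → 𝓑) ≤ #M := by
      refine le_trans ?_ h1
      obtain ⟨e⟩ := h2
      exact ⟨e.arrowCongrRight⟩
    have h6 : #(Finset ℕ) ≤ #M := by
      refine le_trans ?_ h0
      exact mk_le_aleph0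
    have hmul : #M * #M = #M := mul_eq_self h0
    have h7 : #(J × Finset ℕ × (ℕ → 𝓑)) ≤ #M := by
      have : #(J × Finset ℕ × (ℕ → 𝓑)) = #J * (#(Finset ℕ) * #(ℕ → 𝓑)) := by
        simp [mk_prod]
      rw [this]
      calc #J * (#(Finset ℕ) * #(ℕ → 𝓑)) ≤ #M * (#M * #M) :=
            mul_le_mul' h3 (mul_le_mul' h6 h5)
        _ = #M := by rw [hmul, hmul]
    have h8 : #(List (J × Finset ℕ × (ℕ → 𝓑))) ≤ #M :=
      (mk_list_le_max _).trans (max_le h0 h7)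
    have h9 : #(𝓑 × List (J × Finset ℕ × (ℕ → 𝓑))) ≤ #M := by
      have : #(𝓑 × List (J × Finset ℕ × (ℕ → 𝓑))) =
          #𝓑 * #(List (J × Finset ℕ × (ℕ → 𝓑))) := by
        simp [mk_prod]
      rw [this]
      calc #𝓑 * #(List (J × Finset ℕ × (ℕ → 𝓑))) ≤ #M * #M := mul_le_mul' h2 h8
        _ = #M := hmul
    exact (mk_le_mk_of_subset h4).trans (mk_range_le.trans h9)

end Step1

theorem claimStep1 (hU : ClaimUfEx) : ClaimStep1 := by
  intro A L J _ _ _ α 𝓑 F H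
  exact ⟨step1_isAlg H, step1_reg H, step1_int H, fun b hb => step1_dep H hb,
    fun j k => step1_mg H j k, fun b hb l hl => step1_cset_mem H hb hl,
    fun M h0 h1 h2 h3 => step1_size H M h0 h1 h2 h3⟩

end Pool.Agent.Work.MP_dbe197_lc

end

section

/-!
# [dbe197 A7b] the step, generic reals
-/

namespace Pool.Agent.Work.MP_dbe197_lc

open Set Cardinal

namespace Step2

variable {A L J : Type} [CompleteBooleanAlgebra A] [LinearOrder L]

theorem step2_finsetInter {X : Type} {𝓑 : Set (Set X)} (h : IsAlg 𝓑) (Z : ℕ → Set X)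
    (hZ : Nm 𝓑 Z) (S : Finset ℕ) : {y | ∀ k ∈ S, y ∈ Z k} ∈ 𝓑 := by
  classical
  induction S using Finset.induction_on with
  | empty =>
    have : {y : X | ∀ k ∈ (∅ : Finset ℕ), y ∈ Z k} = Set.univ := by
      ext y; simp
    rw [this]; exact h.univ
  | insert a s ha ih =>
    have : {y | ∀ k ∈ insert a s, y ∈ Z k} = Z a ∩ {y | ∀ k ∈ s, y ∈ Z k} := by
      ext y; simp
    rw [this]; exact h.inter _ (hZ a) _ ih

/-- the reduction -/
def red (b : Set (XX A L J)) (l : List (J × Finset ℕ × (ℕ → Set (XX A L J))))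
    (s : J → Finset ℕ) : Set (XX A L J) :=
  {y | y ∈ b ∧ ∀ t ∈ l, ∀ k ∈ s t.1, k ∉ t.2.1 → y ∈ t.2.2 k}

omit [LinearOrder L] in
theorem step2_red_mem {𝓑 : Set (Set (XX A L J))} (h : IsAlg 𝓑) {b : Set (XX A L J)} (hb : b ∈ 𝓑)
    (l : List (J × Finset ℕ × (ℕ → Set (XX A L J)))) (hl : ∀ t ∈ l, Nm 𝓑 t.2.2)
    (s : J → Finset ℕ) : red b l s ∈ 𝓑 := by
  classical
  induction l with
  | nil =>
    have : red b [] s = b := by
      ext y; simp [red]
    rw [this]; exact hb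
  | cons t l ih =>
    have e : red b (t :: l) s = {y | ∀ k ∈ (s t.1).filter (fun k => k ∉ t.2.1), y ∈ t.2.2 k} ∩
        red b l s := by
      ext y
      simp only [red, List.mem_cons, forall_eq_or_imp, Set.mem_inter_iff, Set.mem_ofPred_eq,
        Finset.mem_filter, and_imp]
      tauto
    rw [e]
    exact h.inter _ (step2_finsetInter h _ (hl t (by simp)) _) _
      (ih (fun t ht => hl t (List.mem_cons_of_mem _ ht)))

/-- the intersection of the filter entries with index `j` -/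
def zj (l : List (J × Finset ℕ × (ℕ → Set (XX A L J)))) (j : J) (k : ℕ) : Set (XX A L J) :=
  {y | ∀ t ∈ l, t.1 = j → y ∈ t.2.2 k}

omit [LinearOrder L] in
theorem step2_zj_mem {𝓑 : Set (Set (XX A L J))} {F : J → Set (ℕ → Set (XX A L J))}
    (j : J) (hF : IsFil 𝓑 (F j)) (l : List (J × Finset ℕ × (ℕ → Set (XX A L J))))
    (hl : ∀ t ∈ l, t.2.2 ∈ F t.1) : zj l j ∈ F j := by
  induction l with
  | nil =>
    have : zj ([] : List (J × Finset ℕ × (ℕ → Set (XX A L J)))) j = fun _ => Set.univ := by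
      funext k
      ext y; simp [zj]
    rw [this]; exact hF.univ
  | cons t l ih =>
    have ih' := ih (fun t ht => hl t (List.mem_cons_of_mem _ ht))
    by_cases htj : t.1 = j
    · have : zj (t :: l) j = fun k => t.2.2 k ∩ zj l j k := by
        funext k
        ext y
        simp only [zj, List.mem_cons, forall_eq_or_imp, Set.mem_inter_iff, Set.mem_ofPred_eq, htj,
          forall_true_left]
      rw [this]
      have h1 := hl t (by simp)
      rw [htj] at h1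
      exact hF.inter _ h1 _ ih'
    · have : zj (t :: l) j = zj l j := by
        funext k
        ext y
        simp only [zj, List.mem_cons, forall_eq_or_imp, Set.mem_ofPred_eq, htj, false_imp_iff,
          true_and]
      rw [this]; exact ih'

open Classical in
/-- the modified point -/
noncomputable def modi (α : L) (j : J) (k : ℕ) (x y : XX A L J) : XX A L J :=
  (y.1, fun i => if i.1 = α then (if i.2 = j then insert k (x.2 (α, j)) else x.2 (α, i.2))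
    else y.2 i)

theorem step2_modi_self (α : L) (j : J) (k : ℕ) (x y : XX A L J) :
    (modi α j k x y).2 (α, j) = insert k (x.2 (α, j)) := by
  simp [modi]

theorem step2_modi_ne (α : L) (j : J) (k : ℕ) (x y : XX A L J) {j' : J} (h : j' ≠ j) :
    (modi α j k x y).2 (α, j') = x.2 (α, j') := by
  simp [modi, h]

theorem step2_modi_dep (α : L) (j : J) (k : ℕ) (x y : XX A L J) {b : Set (XX A L J)}
    (hb : DepX (Iio α) b) (hy : y ∈ b) : modi α j k x y ∈ b := by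
  refine hb y (modi α j k x y) rfl ?_ hy
  intro i hi
  have : i.1 ≠ α := ne_of_lt hi
  simp [modi, this]

theorem step2_modi_mem {α : L} {𝓑 : Set (Set (XX A L J))} {F : J → Set (ℕ → Set (XX A L J))}
    (h : StepHyp α 𝓑 F) {b : Set (XX A L J)} (hb : b ∈ 𝓑)
    {l : List (J × Finset ℕ × (ℕ → Set (XX A L J)))} (hl : ∀ t ∈ l, t.2.2 ∈ F t.1)
    {x : XX A L J} (hx : x ∈ cset α b l) {y : XX A L J}
    (hy : y ∈ red b l (fun j => x.2 (α, j))) {j : J} {k : ℕ} (hk : ∀ i ∈ x.2 (α, j), i < k)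
    (hyk : y ∈ zj l j k) : modi α j k x y ∈ cset α b l := by
  refine ⟨step2_modi_dep α j k x y (h.dep b hb) hy.1, fun t ht => ?_⟩
  have hxt := hx.2 t ht
  have hnm : ∀ k', DepX (Iio α) (t.2.2 k') := fun k' =>
    h.dep _ ((h.fil t.1).nm _ (hl t ht) k')
  by_cases htj : t.1 = j
  · have e : (modi α j k x y).2 (α, t.1) = insert k (x.2 (α, t.1)) := by
      rw [htj]; exact step2_modi_self α j k x y
    rw [e]
    constructor
    · refine ⟨fun i hi => Finset.mem_insert_of_mem (hxt.1.1 hi), ?_⟩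
      intro k' hk' hk'n i hi
      rcases Finset.mem_insert.1 hk' with rfl | hk'
      · exact hk i (by rw [← htj]; exact hxt.1.1 hi)
      · exact hxt.1.2 k' hk' hk'n i hi
    · intro k' hk' hk'n
      apply step2_modi_dep α j k x y (hnm k')
      rcases Finset.mem_insert.1 hk' with rfl | hk'
      · exact hyk t ht htj
      · exact hy.2 t ht k' hk' hk'n
  · rw [step2_modi_ne α j k x y htj]
    refine ⟨hxt.1, fun k' hk' hk'n => ?_⟩
    apply step2_modi_dep α j k x y (hnm k')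
    exact hy.2 t ht k' hk' hk'n

theorem step2_exists_bound (S : Finset ℕ) : ∃ N, ∀ i ∈ S, i < N :=
  ⟨S.sup id + 1, fun i hi => Nat.lt_succ_of_le (Finset.le_sup (f := id) hi)⟩

/-- The main argument. -/
theorem step2_main {α : L} {𝓑 : Set (Set (XX A L J))} {F : J → Set (ℕ → Set (XX A L J))}
    (h : StepHyp α 𝓑 F) {c : Set (XX A L J)} (hc : c ∈ stepAlg α 𝓑 F) (hne : c.Nonempty)
    (j : J) : ∃ x ∈ c, ∀ N, ∃ k, N ≤ k ∧ (∀ i ∈ x.2 (α, j), i < k) ∧
      ∃ y ∈ c, y.2 (α, j) = insert k (x.2 (α, j)) ∧ ∀ j' ≠ j, y.2 (α, j') = x.2 (α, j') := by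
  obtain ⟨x, hx⟩ := hne
  refine ⟨x, hx, fun N => ?_⟩
  obtain ⟨b, hb, l, hl, hxc, hsub⟩ := hc.1 x hx
  obtain ⟨N', hN'⟩ := step2_exists_bound (x.2 (α, j))
  have hl' : ∀ t ∈ l, Nm 𝓑 t.2.2 := fun t ht => (h.fil t.1).nm _ (hl t ht)
  have hxr : x ∈ red b l (fun j => x.2 (α, j)) :=
    ⟨hxc.1, fun t ht k hk hkn => (hxc.2 t ht).2 k hk hkn⟩
  obtain ⟨k, hk, y, hy1, hy2⟩ := (h.fil j).inf _ (step2_zj_mem j (h.fil j) l hl) _
    (step2_red_mem h.alg hb l hl' (fun j => x.2 (α, j))) ⟨x, hxr⟩ (Set.subset_univ _) (max N N')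
  have hk1 : ∀ i ∈ x.2 (α, j), i < k := fun i hi =>
    lt_of_lt_of_le (hN' i hi) ((le_max_right _ _).trans hk)
  exact ⟨k, (le_max_left _ _).trans hk, hk1, modi α j k x y,
    hsub (step2_modi_mem h hb hl hxc hy1 hk1 hy2), step2_modi_self α j k x y,
    fun j' hj' => step2_modi_ne α j k x y hj'⟩

end Step2

open Step2 in
/-- [dbe197 A7b] -/
theorem claimStep2 (h1 : ClaimStep1) : ClaimStep2 := by
  intro A L J _ _ _ α 𝓑 F h
  refine ⟨fun j => ?_, fun j Z hZ => ?_, fun j j' hjj => ?_⟩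
  · intro c hc hne _ n
    obtain ⟨x, _, hN⟩ := step2_main h hc hne j
    obtain ⟨k, hk, _, y, hy, hyj, _⟩ := hN n
    refine ⟨k, hk, y, hy, ?_⟩
    show k ∈ y.2 (α, j)
    rw [hyj]
    exact Finset.mem_insert_self _ _
  · intro c hc hne
    obtain ⟨x, hx⟩ := hne
    obtain ⟨b, hb, l, hl, hxc, hsub⟩ := hc.1 x hx
    obtain ⟨N, hN⟩ := step2_exists_bound (x.2 (α, j))
    have hl' : ∀ t ∈ l ++ [(j, x.2 (α, j), Z)], t.2.2 ∈ F t.1 := by
      intro t ht
      rcases List.mem_append.1 ht with ht | ht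
      · exact hl t ht
      · rw [List.mem_singleton] at ht
        subst ht
        exact hZ
    refine ⟨cset α b (l ++ [(j, x.2 (α, j), Z)]), (h1 A L J α 𝓑 F h).2.2.2.2.2.1 b hb _ hl',
      ⟨x, hxc.1, ?_⟩, ?_, N, ?_⟩
    · intro t ht
      rcases List.mem_append.1 ht with ht | ht
      · exact hxc.2 t ht
      · rw [List.mem_singleton] at ht
        subst ht
        exact ⟨⟨fun i hi => hi, fun k hk hkn => absurd hk hkn⟩, fun k hk hkn => absurd hk hkn⟩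
    · intro z hz
      exact hsub ⟨hz.1, fun t ht => hz.2 t (List.mem_append_left _ ht)⟩
    · rintro k hk z ⟨hz, hzk⟩
      have hzk' : k ∈ z.2 (α, j) := hzk
      refine (hz.2 (j, x.2 (α, j), Z) (by simp)).2 k hzk' fun hkx => ?_
      exact absurd (hN k hkx) (not_lt.2 hk)
  · intro c hc hne
    obtain ⟨x, _, hN⟩ := step2_main h hc hne j
    obtain ⟨N, hN'⟩ := step2_exists_bound (x.2 (α, j'))
    obtain ⟨k, hk, _, y, hy, hyj, hyj'⟩ := hN N
    refine ⟨k, Or.inl ⟨y, hy, ?_, ?_⟩⟩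
    · show k ∈ y.2 (α, j)
      rw [hyj]
      exact Finset.mem_insert_self _ _
    · show k ∉ y.2 (α, j')
      rw [hyj' j' hjj.symm]
      exact fun hkx => absurd (hN' k hkx) (not_lt.2 hk)

end Pool.Agent.Work.MP_dbe197_lc

end

section

/-!
# Item A7c: the step, Cohen reals
-/

namespace Pool.Agent.Work.MP_dbe197_lc

open Set Cardinal

theorem Step3_inter {X : Type} {𝓑 : Set (Set X)} (hA : IsAlg 𝓑) (x : X) (Z : ℕ → Set X)
    (hZ : ∀ k, Z k ∈ 𝓑) (s : Finset ℕ) (hx : ∀ k ∈ s, x ∈ Z k) :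
    ∃ b ∈ 𝓑, x ∈ b ∧ ∀ k ∈ s, b ⊆ Z k := by
  classical
  induction s using Finset.induction_on with
  | empty => exact ⟨Set.univ, hA.univ, mem_univ _, by simp⟩
  | insert a s _ ih =>
    obtain ⟨b, hb, hxb, hb2⟩ := ih (fun k hk => hx k (Finset.mem_insert_of_mem hk))
    refine ⟨b ∩ Z a, hA.inter _ hb _ (hZ a), ⟨hxb, hx a (Finset.mem_insert_self _ _)⟩, ?_⟩
    intro k hk
    rcases Finset.mem_insert.1 hk with rfl | hk
    · exact inter_subset_right
    · exact inter_subset_left.trans (hb2 k hk)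

theorem Step3_list {X J : Type} {𝓑 : Set (Set X)} (hA : IsAlg 𝓑) (x : X)
    (τ : J → Finset ℕ) (l : List (J × Finset ℕ × (ℕ → Set X))) :
    (∀ t ∈ l, ∀ k, t.2.2 k ∈ 𝓑) → (∀ t ∈ l, ∀ k ∈ τ t.1, k ∉ t.2.1 → x ∈ t.2.2 k) →
    ∃ b ∈ 𝓑, x ∈ b ∧ ∀ t ∈ l, ∀ k ∈ τ t.1, k ∉ t.2.1 → b ⊆ t.2.2 k := by
  classical
  induction l with
  | nil => exact fun _ _ => ⟨Set.univ, hA.univ, mem_univ _, by simp⟩
  | cons t l ih =>
    intro h1 h2
    obtain ⟨b, hb, hxb, hb2⟩ := ih (fun t ht => h1 t (List.mem_cons_of_mem _ ht))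
      (fun t ht => h2 t (List.mem_cons_of_mem _ ht))
    obtain ⟨b', hb', hxb', hb2'⟩ := Step3_inter hA x t.2.2 (h1 t List.mem_cons_self)
      (τ t.1 \ t.2.1) (by
        intro k hk
        rw [Finset.mem_sdiff] at hk
        exact h2 t List.mem_cons_self k hk.1 hk.2)
    refine ⟨b ∩ b', hA.inter _ hb _ hb', ⟨hxb, hxb'⟩, ?_⟩
    intro u hu k hk hk2
    rcases List.mem_cons.1 hu with rfl | hu
    · exact inter_subset_right.trans (hb2' k (Finset.mem_sdiff.2 ⟨hk, hk2⟩))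
    · exact inter_subset_left.trans (hb2 u hu k hk hk2)

theorem Step3_cof {X J : Type} {𝓑 : Set (Set X)} (j : J)
    (l : List (J × Finset ℕ × (ℕ → Set X))) :
    (∀ t ∈ l, t.1 = j → t.2.2 ∈ Cof 𝓑) → ∀ b ∈ 𝓑, b.Nonempty →
    ∃ c ∈ 𝓑, c.Nonempty ∧ c ⊆ b ∧ ∃ N, ∀ t ∈ l, t.1 = j → ∀ k, N ≤ k → c ⊆ t.2.2 k := by
  induction l with
  | nil => exact fun _ b hb hne => ⟨b, hb, hne, subset_rfl, 0, by simp⟩
  | cons t l ih =>
    intro h b hb hne
    obtain ⟨c, hc, hcne, hcb, N, hN⟩ := ih (fun t ht => h t (List.mem_cons_of_mem _ ht)) b hb hne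
    by_cases htj : t.1 = j
    · obtain ⟨d, hd, hdne, hdc, M, hM⟩ := (h t List.mem_cons_self htj).2 c hc hcne
      refine ⟨d, hd, hdne, hdc.trans hcb, max N M, ?_⟩
      intro u hu huj k hk
      rcases List.mem_cons.1 hu with rfl | hu
      · intro y hy
        exact hM k ((le_max_right _ _).trans hk) ⟨hy, mem_univ _⟩
      · exact hdc.trans (hN u hu huj k ((le_max_left _ _).trans hk))
    · refine ⟨c, hc, hcne, hcb, N, ?_⟩
      intro u hu huj k hk
      rcases List.mem_cons.1 hu with rfl | hu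
      · exact absurd huj htj
      · exact hN u hu huj k hk

section

variable {A L J : Type} [CompleteBooleanAlgebra A] [LinearOrder L]

/-- Change of the column `α`. -/
def Step3_upd (α : L) (y : XX A L J) (g : J → Finset ℕ) : XX A L J :=
  (y.1, fun p => if p.1 = α then g p.2 else y.2 p)

theorem Step3_upd_mem {α : L} {b : Set (XX A L J)} (hb : DepX (Iio α) b) (y : XX A L J)
    (g : J → Finset ℕ) (hy : y ∈ b) : Step3_upd α y g ∈ b := by
  refine hb y _ rfl (fun i hi => ?_) hy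
  have : i.1 ≠ α := ne_of_lt hi
  simp [Step3_upd, this]

theorem Step3_upd_col (α : L) (y : XX A L J) (g : J → Finset ℕ) (j : J) :
    (Step3_upd α y g).2 (α, j) = g j := by simp [Step3_upd]

end

theorem claimStep3 (h1 : ClaimStep1) : ClaimStep3 := by
  classical
  intro A L J _ _ _ α 𝓑 F hS j hF T hT A0 hA0 hInf
  obtain ⟨hAlg, hReg, -, -, -, -, -⟩ := h1 A L J α 𝓑 F hS
  -- the common construction
  have main : ∀ c ∈ stepAlg α 𝓑 F, c.Nonempty → c ⊆ A0 → ∀ n, ∃ k, n ≤ k ∧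
      (c ∩ (T k ∩ mg α j k)).Nonempty ∧ (c ∩ (T k \ mg α j k)).Nonempty := by
    intro c hc hcne hcA n
    obtain ⟨x, hx⟩ := hcne
    obtain ⟨b0, hb0, l, hl, hxc, hlc⟩ := hc.1 x hx
    set τ : J → Finset ℕ := fun i => x.2 (α, i) with hτ
    have hlB : ∀ t ∈ l, ∀ k, t.2.2 k ∈ 𝓑 := fun t ht k => (hS.fil t.1).nm _ (hl t ht) k
    obtain ⟨b1, hb1, hxb1, hb1l⟩ := Step3_list hS.alg x τ l hlB
      (fun t ht k hk hk2 => (hxc.2 t ht).2 k hk hk2)
    obtain ⟨b2, hb2, hb2ne, hb21, N, hN⟩ := Step3_cof j l (𝓑 := 𝓑) (by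
      intro t ht htj
      have := hl t ht
      rw [htj, hF] at this
      exact this) (b0 ∩ b1) (hS.alg.inter _ hb0 _ hb1) ⟨x, hxc.1, hxb1⟩
    have keyτ : ∀ y ∈ b2, Step3_upd α y τ ∈ c := by
      intro y hy
      apply hlc
      refine ⟨Step3_upd_mem (hS.dep _ hb0) y τ (hb21 hy).1, ?_⟩
      intro t ht
      rw [Step3_upd_col]
      exact ⟨(hxc.2 t ht).1, fun k hk hk2 =>
        Step3_upd_mem (hS.dep _ (hlB t ht k)) y τ (hb1l t ht k hk hk2 (hb21 hy).2)⟩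
    obtain ⟨y0, hy0⟩ := hb2ne
    obtain ⟨k, hk, y, ⟨hyc, hyb2⟩, hyT⟩ := hInf (c ∩ b2)
      (hAlg.inter _ hc _ (hReg.1 hb2)) ⟨_, keyτ y0 hy0, Step3_upd_mem (hS.dep _ hb2) y0 τ hy0⟩
      (inter_subset_left.trans hcA) (max (max n N) ((τ j).sup id + 1))
    have hkn : n ≤ k := (le_max_left _ _).trans ((le_max_left _ _).trans hk)
    have hkN : N ≤ k := (le_max_right _ _).trans ((le_max_left _ _).trans hk)
    have hkτ : ∀ i ∈ τ j, i < k := by
      intro i hi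
      have h2 : i ≤ (τ j).sup id := Finset.le_sup (f := id) hi
      have h3 : (τ j).sup id + 1 ≤ k := (le_max_right _ _).trans hk
      omega
    refine ⟨k, hkn, ?_, ?_⟩
    · set g : J → Finset ℕ := fun i => if i = j then insert k (τ j) else τ i with hg
      have hgj : g j = insert k (τ j) := by simp [hg]
      refine ⟨Step3_upd α y g, ?_, Step3_upd_mem (hS.dep _ (hT k)) y g hyT, ?_⟩
      · apply hlc
        refine ⟨Step3_upd_mem (hS.dep _ hb0) y g (hb21 hyb2).1, ?_⟩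
        intro t ht
        rw [Step3_upd_col]
        by_cases htj : t.1 = j
        · have hgt : g t.1 = insert k (τ j) := by rw [htj, hgj]
          rw [hgt]
          have hx1 := (hxc.2 t ht).1
          have hx1' : InitSeg t.2.1 (τ j) := by
            have : x.2 (α, t.1) = τ j := by rw [htj]
            rw [← this]; exact hx1
          refine ⟨⟨hx1'.1.trans (Finset.subset_insert _ _), ?_⟩, ?_⟩
          · intro m hm hm2 i hi
            rcases Finset.mem_insert.1 hm with rfl | hm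
            · exact hkτ i (hx1'.1 hi)
            · exact hx1'.2 m hm hm2 i hi
          · intro m hm hm2
            rcases Finset.mem_insert.1 hm with rfl | hm
            · exact Step3_upd_mem (hS.dep _ (hlB t ht m)) y g (hN t ht htj m hkN hyb2)
            · exact Step3_upd_mem (hS.dep _ (hlB t ht m)) y g
                (hb1l t ht m (by rw [htj]; exact hm) hm2 (hb21 hyb2).2)
        · have hgt : g t.1 = τ t.1 := by simp [hg, htj]
          rw [hgt]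
          exact ⟨(hxc.2 t ht).1, fun m hm hm2 =>
            Step3_upd_mem (hS.dep _ (hlB t ht m)) y g (hb1l t ht m hm hm2 (hb21 hyb2).2)⟩
      · show k ∈ (Step3_upd α y g).2 (α, j)
        rw [Step3_upd_col, hgj]
        exact Finset.mem_insert_self _ _
    · refine ⟨Step3_upd α y τ, keyτ y hyb2, Step3_upd_mem (hS.dep _ (hT k)) y τ hyT, ?_⟩
      intro hmem
      have : k ∈ (Step3_upd α y τ).2 (α, j) := hmem
      rw [Step3_upd_col] at this
      exact lt_irrefl _ (hkτ k this)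
  refine ⟨?_, ?_⟩
  · intro c hc hne hcA n
    obtain ⟨k, hk, h, _⟩ := main c hc hne hcA n
    exact ⟨k, hk, h⟩
  · intro c hc hne hcA n
    obtain ⟨k, hk, _, h⟩ := main c hc hne hcA n
    exact ⟨k, hk, h⟩

end Pool.Agent.Work.MP_dbe197_lc

end
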