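import Pool.Agent.Work.MP_dbe197_lc.StmtsA
import Pool.Agent.Work.MP_dbe197_lc.Stmts
import Pool.Agent.Work.MP_dbe197_lc.Bd.B01
import Pool.Agent.Work.MP_dbe197_lc.App
import Pool.Agent.Work.MP_dbe197_lc.Bd.B02
import Pool.Agent.Work.MP_dbe197_lc.Rec
import Pool.Agent.Work.MP_dbe197_lc.Repr
import Pool.Agent.Work.MP_dbe197_lc.Stmts2

/-! Bundle of small proof modules (one section per former module). -/

section

/-!
# Item A13: the main tower, and `𝔲 ≥ ω₂`
-/

namespace Pool.Agent.Work.MP_dbe197_lc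

open Set Cardinal

namespace TUle

section Bval

variable {B : Type} [CompleteBooleanAlgebra B]

lemma BSub_apply_le (r s : ℕ → B) (n : ℕ) : (⨅ k, ⨅ (_ : n ≤ k), (r k)ᶜ ⊔ s k) ≤ BSub r s :=
  le_iSup (fun n => ⨅ k, ⨅ (_ : n ≤ k), (r k)ᶜ ⊔ s k) n

lemma BSub_of_all (r s : ℕ → B) : (⨅ k, (r k)ᶜ ⊔ s k) ≤ BSub r s := by
  refine le_trans ?_ (BSub_apply_le r s 0)
  exact le_iInf fun k => le_iInf fun _ => iInf_le _ k

lemma inf_BSub_le {b : B} {r s s' : ℕ → B} (h : ∀ k, b ⊓ s k ≤ s' k) :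
    b ⊓ BSub r s ≤ BSub r s' := by
  rw [BSub, inf_iSup_eq]
  apply iSup_le
  intro n
  refine le_trans ?_ (BSub_apply_le r s' n)
  apply le_iInf
  intro k
  apply le_iInf
  intro hk
  calc b ⊓ (⨅ k, ⨅ (_ : n ≤ k), (r k)ᶜ ⊔ s k) ≤ b ⊓ ((r k)ᶜ ⊔ s k) :=
        inf_le_inf_left _ (iInf_le_of_le k (iInf_le _ hk))
    _ = (b ⊓ (r k)ᶜ) ⊔ (b ⊓ s k) := inf_sup_left _ _ _
    _ ≤ (r k)ᶜ ⊔ s' k := sup_le_sup inf_le_right (h k)

lemma BSub_trans (r s t : ℕ → B) : BSub r s ⊓ BSub s t ≤ BSub r t := by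
  rw [BSub, BSub, iSup_inf_iSup]
  apply iSup_le
  rintro ⟨n, m⟩
  refine le_trans ?_ (BSub_apply_le r t (max n m))
  apply le_iInf
  intro k
  apply le_iInf
  intro hk
  calc (⨅ k, ⨅ (_ : n ≤ k), (r k)ᶜ ⊔ s k) ⊓ (⨅ k, ⨅ (_ : m ≤ k), (s k)ᶜ ⊔ t k)
      ≤ ((r k)ᶜ ⊔ s k) ⊓ ((s k)ᶜ ⊔ t k) :=
        inf_le_inf (iInf_le_of_le k (iInf_le _ ((le_max_left n m).trans hk)))
          (iInf_le_of_le k (iInf_le _ ((le_max_right n m).trans hk)))
    _ ≤ (r k)ᶜ ⊔ t k := by
        rw [inf_sup_right, inf_sup_left (s k), inf_compl_self, bot_sup_eq]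
        exact sup_le_sup inf_le_left inf_le_right

lemma BSub_inf_BInf (r s : ℕ → B) : BSub r s ⊓ BInf (fun k => r k ⊓ (s k)ᶜ) = ⊥ := by
  rw [eq_bot_iff, BSub, iSup_inf_eq]
  apply iSup_le
  intro n
  refine le_trans (inf_le_inf_left _ (iInf_le _ n)) ?_
  rw [inf_iSup_eq]
  apply iSup_le
  intro k
  rw [inf_iSup_eq]
  apply iSup_le
  intro hk
  calc (⨅ k, ⨅ (_ : n ≤ k), (r k)ᶜ ⊔ s k) ⊓ (r k ⊓ (s k)ᶜ)
      ≤ ((r k)ᶜ ⊔ s k) ⊓ (r k ⊓ (s k)ᶜ) :=
        inf_le_inf_right _ (iInf_le_of_le k (iInf_le _ hk))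
    _ = ⊥ := by
        have : ((r k)ᶜ ⊔ s k) = (r k ⊓ (s k)ᶜ)ᶜ := by rw [compl_inf, compl_compl]
        rw [this, compl_inf_self]

end Bval

section Main

variable {A L Jt : Type} [CompleteBooleanAlgebra A] [LinearOrder L]
  {𝓑 : L → Set (Set (XX A L (Bool ⊕ Jt)))}
  {F : L → Bool ⊕ Jt → Set (ℕ → Set (XX A L (Bool ⊕ Jt)))} {B : Type}
  [CompleteBooleanAlgebra B] {E : Ext A (L × (Bool ⊕ Jt)) B}
  {e : B → Set (XX A L (Bool ⊕ Jt))}

lemma exists_gt (rg : RegL L) (α : L) : ∃ β, α < β := by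
  by_contra h
  push Not at h
  have h1 : (Set.univ : Set L) ⊆ insert α (Iio α) := by
    intro β _
    rcases lt_or_eq_of_le (h β) with h2 | h2
    · exact Or.inr h2
    · exact Or.inl h2
  have h2 : #(Set.univ : Set L) ≤ #(Iio α) + 1 :=
    (Cardinal.mk_le_mk_of_subset h1).trans Cardinal.mk_insert_le
  rw [Cardinal.mk_univ] at h2
  have h3 : #(Iio α) + 1 < #L :=
    Cardinal.add_lt_of_lt rg.unc.le (rg.seg α) (Cardinal.one_lt_aleph0.trans rg.unc)
  exact absurd (h2.trans_lt h3) (lt_irrefl _)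

lemma e_sup (S : Sit 𝓑 F E e) (b c : B) : e (b ⊔ c) = e b ∪ e c := by
  have h : b ⊔ c = (bᶜ ⊓ cᶜ)ᶜ := by rw [compl_inf, compl_compl, compl_compl]
  rw [h, S.rep.compl, S.rep.inf, S.rep.compl, S.rep.compl, Set.compl_inter, _root_.compl_compl,
    _root_.compl_compl]

lemma algU (S : Sit 𝓑 F E e) : IsAlg (⋃ α, 𝓑 α) := by
  refine ⟨?_, ?_, ?_⟩
  · rw [← S.rep.top]
    exact S.rep.mem _
  · intro b hb
    obtain ⟨x, rfl⟩ := S.rep.surj b hb
    rw [← S.rep.compl]
    exact S.rep.mem _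
  · intro b hb c hc
    obtain ⟨x, rfl⟩ := S.rep.surj b hb
    obtain ⟨y, rfl⟩ := S.rep.surj c hc
    rw [← S.rep.inf]
    exact S.rep.mem _

/-- elements of `B` representing the generic reals -/
lemma ex_mg (S : Sit 𝓑 F E e) (α : L) (j : Bool ⊕ Jt) : ∃ m : ℕ → B, ∀ n, e (m n) = mg α j n := by
  obtain ⟨β, hβ⟩ := exists_gt S.rg α
  have h : ∀ n, ∃ b : B, e b = mg α j n := fun n =>
    S.rep.surj _ (Set.mem_iUnion.mpr ⟨β, S.st.mg_nm α β hβ j n⟩)
  choose m hm using h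
  exact ⟨m, hm⟩

lemma cohU (hR : ClaimReg) (S : Sit 𝓑 F E e) (α : L) :
    Coh (𝓑 α) (⋃ α, 𝓑 α) (mg α (Sum.inl false)) := by
  obtain ⟨β, hβ⟩ := exists_gt S.rg α
  obtain ⟨-, -, -, -, -, h6⟩ := hR _ (𝓑 α) (𝓑 β) (⋃ α, 𝓑 α) (S.st.alg α) (S.st.alg β) (algU S)
  exact h6 _ (S.st.reg α β hβ).1 (S.st.mg_nm α β hβ _) (S.un β) (S.st.mg_coh α β hβ)

/-- the splitting argument -/
lemma split (hR : ClaimReg) (hT : ClaimTrans) (S : Sit 𝓑 F E e) (α : L) (cc r : ℕ → B)
    (hcc : ∀ n, e (cc n) = mg α (Sum.inl false) n) (hr : ∀ n, e (r n) ∈ 𝓑 α) (y : B)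
    (hy : y ≤ BInf r) (hy' : y ≤ BSub r cc ∨ y ≤ BSub r (fun n => (cc n)ᶜ)) : y = ⊥ := by
  obtain ⟨t1, -, -, -⟩ := hT A L (Bool ⊕ Jt) (⋃ α, 𝓑 α) B E e S.rep
  have h1 := cohU hR S α (fun k => e (r k)) hr (e y) (S.rep.mem y) ((t1 r y).mp hy)
  rcases hy' with hy' | hy'
  · have h2 : y ≤ BInf (fun k => r k ⊓ (cc k)ᶜ) := by
      rw [t1]
      have h3 : (fun k => e (r k ⊓ (cc k)ᶜ)) = fun k => e (r k) \ mg α (Sum.inl false) k := by
        funext k
        rw [S.rep.inf, S.rep.compl, hcc, Set.sdiff_eq]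
      rw [h3]
      exact h1.2
    rw [eq_bot_iff, ← BSub_inf_BInf r cc]
    exact le_inf hy' h2
  · have h2 : y ≤ BInf (fun k => r k ⊓ ((cc k)ᶜ)ᶜ) := by
      rw [t1]
      have h3 : (fun k => e (r k ⊓ ((cc k)ᶜ)ᶜ)) = fun k => e (r k) ∩ mg α (Sum.inl false) k := by
        funext k
        rw [S.rep.inf, compl_compl, hcc]
      rw [h3]
      exact h1.1
    rw [eq_bot_iff, ← BSub_inf_BInf r (fun n => (cc n)ᶜ)]
    exact le_inf hy' h2

/-- the main tower decides every real -/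
lemma decide' (hR : ClaimReg) (hT : ClaimTrans) (S : Sit 𝓑 F E e) (m : L → ℕ → B)
    (hm : ∀ α n, e (m α n) = mg α (Sum.inl true) n) (r : ℕ → B) :
    (⨆ α, BSub (m α) r) ⊔ (⨆ α, BSub (m α) (fun n => (r n)ᶜ)) = ⊤ := by
  obtain ⟨-, t2, -, -⟩ := hT A L (Bool ⊕ Jt) (⋃ α, 𝓑 α) B E e S.rep
  obtain ⟨α, hα⟩ := S.small ℕ (fun n => e (r n)) (by rw [Cardinal.mk_nat]; exact S.rg.unc)
    (fun n => S.rep.mem _)
  obtain ⟨b, hb, g1, g2⟩ := S.st.ult α (fun n => e (r n)) hα
  obtain ⟨β, hβ⟩ := exists_gt S.rg α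
  obtain ⟨bb, rfl⟩ := S.rep.surj b (Set.mem_iUnion.mpr ⟨α, hb⟩)
  obtain ⟨-, -, -, h4, -, -⟩ := hR _ (𝓑 β) (⋃ α, 𝓑 α) (⋃ α, 𝓑 α) (S.st.alg β) (algU S) (algU S)
  have hsub : 𝓑 α ⊆ 𝓑 β := (S.st.reg α β hβ).1
  have k1 := h4 _ _ (S.st.mg_nm α β hβ _) (fun k => hsub ((S.st.fil α _).nm _ g1 k)) (S.un β)
    (S.st.mg_sub α β hβ _ _ g1)
  have k2 := h4 _ _ (S.st.mg_nm α β hβ _) (fun k => hsub ((S.st.fil α _).nm _ g2 k)) (S.un β)
    (S.st.mg_sub α β hβ _ _ g2)
  have e1 : BSub (m α) (fun n => r n ⊔ bbᶜ) = ⊤ := by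
    rw [t2]
    have e2 : (fun k => e (m α k)) = mg α (Sum.inl true) := funext (hm α)
    have e3 : (fun k => e (r k ⊔ bbᶜ)) = fun k => e (r k) ∪ (e bb)ᶜ := by
      funext k
      rw [e_sup S, S.rep.compl]
    rw [e2, e3]
    exact k1
  have e4 : BSub (m α) (fun n => (r n)ᶜ ⊔ bb) = ⊤ := by
    rw [t2]
    have e2 : (fun k => e (m α k)) = mg α (Sum.inl true) := funext (hm α)
    have e3 : (fun k => e ((r k)ᶜ ⊔ bb)) = fun k => (e (r k))ᶜ ∪ e bb := by
      funext k
      rw [e_sup S, S.rep.compl]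
    rw [e2, e3]
    exact k2
  have f1 : bb ≤ BSub (m α) r := by
    have := inf_BSub_le (b := bb) (r := m α) (s := fun n => r n ⊔ bbᶜ) (s' := r) (by
      intro k
      rw [inf_sup_left, inf_compl_self, sup_bot_eq]
      exact inf_le_right)
    rwa [e1, inf_top_eq] at this
  have f2 : bbᶜ ≤ BSub (m α) (fun n => (r n)ᶜ) := by
    have := inf_BSub_le (b := bbᶜ) (r := m α) (s := fun n => (r n)ᶜ ⊔ bb)
      (s' := fun n => (r n)ᶜ) (by
      intro k
      rw [inf_sup_left, compl_inf_self, sup_bot_eq]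
      exact inf_le_right)
    rwa [e4, inf_top_eq] at this
  rw [eq_top_iff, ← sup_compl_eq_top (x := bb)]
  exact sup_le_sup (f1.trans (le_iSup (fun α => BSub (m α) r) α))
    (f2.trans (le_iSup (fun α => BSub (m α) (fun n => (r n)ᶜ)) α))

end Main

end TUle

open TUle in
theorem claimTUle (hR : ClaimReg) (hT : ClaimTrans) : ClaimTUle := by
  intro A L Jt _ _ _ 𝓑 F B _ E e S
  obtain ⟨t1, t2, -, -⟩ := hT A L (Bool ⊕ Jt) (⋃ α, 𝓑 α) B E e S.rep
  choose m hm using fun α => ex_mg S α (Sum.inl true)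
  have hmf : ∀ α, (fun k => e (m α k)) = mg α (Sum.inl true) := fun α => funext (hm α)
  have hdec := decide' hR hT S m hm
  refine ⟨m, ?_, ?_, ?_, hdec⟩
  · intro α
    obtain ⟨β, hβ⟩ := exists_gt S.rg α
    obtain ⟨-, -, h3, -, -, -⟩ := hR _ (𝓑 β) (⋃ α, 𝓑 α) (⋃ α, 𝓑 α) (S.st.alg β) (algU S)
      (algU S)
    rw [eq_top_iff, t1, hmf, S.rep.top]
    exact h3 _ (S.st.mg_nm α β hβ _) (S.un β) (S.st.mg_inf α β hβ _)
  · intro α β hαβ
    obtain ⟨γ, hγ⟩ := exists_gt S.rg β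
    obtain ⟨-, -, -, h4, -, -⟩ := hR _ (𝓑 γ) (⋃ α, 𝓑 α) (⋃ α, 𝓑 α) (S.st.alg γ) (algU S)
      (algU S)
    rw [t2, hmf, hmf]
    exact h4 _ _ (S.st.mg_nm β γ hγ _) (S.st.mg_nm α γ (hαβ.trans hγ) _) (S.un γ)
      (S.st.mg_sub β γ hγ _ _ (S.st.main β α hαβ))
  · intro r
    by_contra hx
    obtain ⟨α, hα⟩ := S.small ℕ (fun n => e (r n)) (by rw [Cardinal.mk_nat]; exact S.rg.unc)
      (fun n => S.rep.mem _)
    obtain ⟨cc, hcc⟩ := ex_mg S α (Sum.inl false)
    have h1 := hdec cc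
    apply hx
    rw [eq_bot_iff]
    calc BInf r ⊓ (⨅ α, BSub r (m α))
        = (BInf r ⊓ (⨅ α, BSub r (m α))) ⊓ ((⨆ α, BSub (m α) cc) ⊔
            (⨆ α, BSub (m α) (fun n => (cc n)ᶜ))) := by rw [h1, inf_top_eq]
      _ ≤ ⊥ := by
        rw [inf_sup_left, inf_iSup_eq, inf_iSup_eq]
        apply sup_le
        · apply iSup_le
          intro β
          apply le_of_eq
          apply split hR hT S α cc r hcc hα
          · exact inf_le_left.trans inf_le_left
          · left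
            refine le_trans ?_ (BSub_trans r (m β) cc)
            exact inf_le_inf_right _ (inf_le_right.trans (iInf_le _ β))
        · apply iSup_le
          intro β
          apply le_of_eq
          apply split hR hT S α cc r hcc hα
          · exact inf_le_left.trans inf_le_left
          · right
            refine le_trans ?_ (BSub_trans r (m β) (fun n => (cc n)ᶜ))
            exact inf_le_inf_right _ (inf_le_right.trans (iInf_le _ β))

open TUle in
theorem claimUge (hR : ClaimReg) (hT : ClaimTrans) : ClaimUge := by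
  intro A L Jt _ _ _ 𝓑 F B _ E e S ρ T
  obtain ⟨α, hα⟩ := S.small (Iio ρ × ℕ) (fun p => e (T p.1 p.2)) (by
    rw [Cardinal.mk_prod, Cardinal.lift_id, Cardinal.lift_id, Cardinal.mk_nat]
    exact Cardinal.mul_lt_of_lt S.rg.unc.le (S.rg.seg ρ) S.rg.unc) (fun p => S.rep.mem _)
  obtain ⟨cc, hcc⟩ := ex_mg S α (Sum.inl false)
  have h0 : ∀ ξ, ufBase T ≤ BInf (T ξ) := fun ξ =>
    (inf_le_left.trans inf_le_left).trans (iInf_le _ ξ)
  have h1 : ufBase T ≤ (⨆ α, ⨅ n, (T α n)ᶜ ⊔ cc n) ⊔ (⨆ α, ⨅ n, (T α n)ᶜ ⊔ (cc n)ᶜ) :=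
    inf_le_right.trans (iInf_le _ cc)
  rw [eq_bot_iff]
  calc ufBase T = ufBase T ⊓ ((⨆ α, ⨅ n, (T α n)ᶜ ⊔ cc n) ⊔ (⨆ α, ⨅ n, (T α n)ᶜ ⊔ (cc n)ᶜ)) :=
        (inf_eq_left.mpr h1).symm
    _ ≤ ⊥ := by
      rw [inf_sup_left, inf_iSup_eq, inf_iSup_eq]
      apply sup_le
      · apply iSup_le
        intro ξ
        apply le_of_eq
        apply split hR hT S α cc (T ξ) hcc (fun n => hα (ξ, n))
        · exact inf_le_left.trans (h0 ξ)
        · left
          exact inf_le_right.trans (BSub_of_all (T ξ) cc)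
      · apply iSup_le
        intro ξ
        apply le_of_eq
        apply split hR hT S α cc (T ξ) hcc (fun n => hα (ξ, n))
        · exact inf_le_left.trans (h0 ξ)
        · right
          exact inf_le_right.trans (BSub_of_all (T ξ) (fun n => (cc n)ᶜ))

end Pool.Agent.Work.MP_dbe197_lc

end

section

/-!
# MP_dbe197_lc : item A12, `𝔱 ≥ ω₂` and `2^ω > ω₂`
-/

namespace Pool.Agent.Work.MP_dbe197_lc

open Set Cardinal

section Basic

variable {X : Type} {𝓑 : Set (Set X)}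

theorem Tge_sub_trans {Z Z' Z'' : ℕ → Set X} (h1 : SubIn 𝓑 Z Z') (h2 : SubIn 𝓑 Z' Z'') :
    SubIn 𝓑 Z Z'' := by
  intro b hb hne
  obtain ⟨c, hc, hcne, hcb, n, hn⟩ := h1 b hb hne
  obtain ⟨c', hc', hcne', hcb', n', hn'⟩ := h2 c hc hcne
  refine ⟨c', hc', hcne', hcb'.trans hcb, max n n', fun k hk x hx => ?_⟩
  refine hn' k (le_trans (le_max_right _ _) hk) ⟨hx.1, ?_⟩
  exact hn k (le_trans (le_max_left _ _) hk) ⟨hcb' hx.1, hx.2⟩

theorem Tge_sub_inter {Z Z' Z'' : ℕ → Set X} (h1 : SubIn 𝓑 Z Z') (h2 : SubIn 𝓑 Z Z'') :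
    SubIn 𝓑 Z (fun k => Z' k ∩ Z'' k) := by
  intro b hb hne
  obtain ⟨c, hc, hcne, hcb, n, hn⟩ := h1 b hb hne
  obtain ⟨c', hc', hcne', hcb', n', hn'⟩ := h2 c hc hcne
  refine ⟨c', hc', hcne', hcb'.trans hcb, max n n', fun k hk x hx => ⟨?_, ?_⟩⟩
  · exact hn k (le_trans (le_max_left _ _) hk) ⟨hcb' hx.1, hx.2⟩
  · exact hn' k (le_trans (le_max_right _ _) hk) hx

theorem Tge_sub_of_subset {Z Z' : ℕ → Set X} (h : ∀ k, Z k ⊆ Z' k) : SubIn 𝓑 Z Z' :=
  fun b hb hne => ⟨b, hb, hne, subset_rfl, 0, fun k _ _ hx => h k hx.2⟩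

theorem Tge_inf_of_sub {Z Z' : ℕ → Set X} (h : InfOn 𝓑 Set.univ Z) (h1 : SubIn 𝓑 Z Z') :
    InfOn 𝓑 Set.univ Z' := by
  intro c hc hne _ n
  obtain ⟨c', hc', hcne', hcc', m, hm⟩ := h1 c hc hne
  obtain ⟨k, hk, x, hx⟩ := h c' hc' hcne' (Set.subset_univ _) (max n m)
  exact ⟨k, le_trans (le_max_left _ _) hk, x, hcc' hx.1,
    hm k (le_trans (le_max_right _ _) hk) hx⟩

/-- Almost inclusion goes down along regular extensions. -/
theorem Tge_sub_down {𝓐 : Set (Set X)} (hA : IsAlg 𝓐) (hr : Reg 𝓐 𝓑) {Z Z' : ℕ → Set X}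
    (hZ : Nm 𝓐 Z) (hZ' : Nm 𝓐 Z') (h : SubIn 𝓑 Z Z') : SubIn 𝓐 Z Z' := by
  intro b hb hne
  obtain ⟨c, hc, hcne, hcb, n, hn⟩ := h b (hr.1 hb) hne
  obtain ⟨d, hd, hdne, hdc⟩ := hr.2 c hc hcne
  refine ⟨d ∩ b, hA.inter d hd b hb, ?_, inter_subset_right, n, fun k hk x hx => ?_⟩
  · obtain ⟨x, hx⟩ := hdc d hd hdne subset_rfl
    exact ⟨x, hx.1, hcb hx.2⟩
  · by_contra hx'
    have hg : d ∩ b ∩ (Z k ∩ (Z' k)ᶜ) ∈ 𝓐 :=
      hA.inter _ (hA.inter d hd b hb) _ (hA.inter _ (hZ k) _ (hA.compl _ (hZ' k)))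
    obtain ⟨y, hy⟩ := hdc _ hg ⟨x, hx.1, hx.2, hx'⟩ fun y hy => hy.1.1
    exact hy.1.2.2 (hn k hk ⟨hy.2, hy.1.2.1⟩)

end Basic

theorem Tge_noMax {L : Type} [LinearOrder L] (h : RegL L) (a : L) : ∃ b, a < b := by
  by_contra hno
  push Not at hno
  have h1 : (Set.univ : Set L) ⊆ Iio a ∪ {a} := by
    intro x _
    rcases (hno x).lt_or_eq with h | h
    · exact Or.inl h
    · exact Or.inr h
  have h2 : #L ≤ #(Iio a) + 1 := by
    calc #L = #(Set.univ : Set L) := (Cardinal.mk_univ).symm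
      _ ≤ #(Iio a ∪ {a} : Set L) := Cardinal.mk_le_mk_of_subset h1
      _ ≤ #(Iio a) + #({a} : Set L) := Cardinal.mk_union_le _ _
      _ = #(Iio a) + 1 := by rw [Cardinal.mk_singleton]
  have h3 : #(Iio a) + 1 < #L :=
    Cardinal.add_lt_of_lt h.unc.le (h.seg a) (lt_trans Cardinal.one_lt_aleph0 h.unc)
  exact absurd h2 (not_le.2 h3)

theorem Tge_alg {A L J : Type} [CompleteBooleanAlgebra A] [LinearOrder L]
    {𝓑 : Set (Set (XX A L J))} {B : Type} [CompleteBooleanAlgebra B]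
    {E : Ext A (L × J) B} {e : B → Set (XX A L J)} (h : Repr 𝓑 E e) : IsAlg 𝓑 where
  univ := h.top ▸ h.mem ⊤
  compl := fun b hb => by
    obtain ⟨b', rfl⟩ := h.surj b hb
    rw [← h.compl]
    exact h.mem _
  inter := fun b hb c hc => by
    obtain ⟨b', rfl⟩ := h.surj b hb
    obtain ⟨c', rfl⟩ := h.surj c hc
    rw [← h.inf]
    exact h.mem _

theorem claimTge (hR : ClaimReg) (hT : ClaimTrans) : ClaimTge := by
  intro A L Jt _ _ _ 𝓑 F B _ E e hs ρ T hinf hsub
  have hU : IsAlg (⋃ α, 𝓑 α) := Tge_alg hs.rep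
  obtain ⟨t1, t2, -, -⟩ := hT A L (Bool ⊕ Jt) (⋃ α, 𝓑 α) B E e hs.rep
  -- one stage
  have hcard : #(Iio ρ × ℕ) < #L := by
    rw [Cardinal.mk_prod, Cardinal.lift_id, Cardinal.lift_id, Cardinal.mk_nat]
    exact Cardinal.mul_lt_of_lt hs.rg.unc.le (hs.rg.seg ρ) hs.rg.unc
  obtain ⟨a, ha⟩ := hs.small (Iio ρ × ℕ) (fun x => e (T x.1 x.2)) hcard
    (fun x => hs.rep.mem _)
  let T' : Iio ρ → ℕ → Set (XX A L (Bool ⊕ Jt)) := fun ξ k => e (T ξ k)
  have hnm : ∀ ξ, Nm (𝓑 a) (T' ξ) := fun ξ k => ha (ξ, k)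
  have hsubU : 𝓑 a ⊆ ⋃ α, 𝓑 α := (hs.un a).1
  have hinfU : ∀ ξ, InfOn (⋃ α, 𝓑 α) Set.univ (T' ξ) := by
    intro ξ
    have := (t1 (T ξ) ⊤).1 (by rw [hinf ξ])
    rwa [hs.rep.top] at this
  have hinfa : ∀ ξ, InfOn (𝓑 a) Set.univ (T' ξ) := fun ξ c hc =>
    hinfU ξ c (hsubU hc)
  have hsuba : ∀ ξ ξ', ξ < ξ' → SubIn (𝓑 a) (T' ξ') (T' ξ) := fun ξ ξ' h =>
    Tge_sub_down (hs.st.alg a) (hs.un a) (hnm ξ') (hnm ξ) ((t2 (T ξ') (T ξ)).1 (hsub ξ ξ' h))
  have hsuba' : ∀ ξ ξ', ξ ≤ ξ' → SubIn (𝓑 a) (T' ξ') (T' ξ) := by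
    intro ξ ξ' h
    rcases h.lt_or_eq with h | h
    · exact hsuba ξ ξ' h
    · subst h
      exact Tge_sub_of_subset fun k => subset_rfl
  -- the filter
  let 𝓖 : Set (ℕ → Set (XX A L (Bool ⊕ Jt))) := {Z | Nm (𝓑 a) Z ∧
    ((∃ ξ, SubIn (𝓑 a) (T' ξ) Z) ∨ SubIn (𝓑 a) (fun _ => Set.univ) Z)}
  have hfil : IsFil (𝓑 a) 𝓖 := by
    constructor
    · exact fun Z hZ => hZ.1
    · rintro Z ⟨_, ⟨ξ, hξ⟩ | h⟩
      · exact Tge_inf_of_sub (hinfa ξ) hξ
      · refine Tge_inf_of_sub (Z := fun _ => Set.univ) ?_ h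
        intro c _ hne _ n
        exact ⟨n, le_refl n, by simpa using hne⟩
    · rintro Z ⟨hZ, h1⟩ Z' ⟨hZ', h2⟩
      refine ⟨fun k => (hs.st.alg a).inter _ (hZ k) _ (hZ' k), ?_⟩
      rcases h1 with ⟨ξ, hξ⟩ | h1
      · rcases h2 with ⟨ξ', hξ'⟩ | h2
        · rcases le_total ξ ξ' with h | h
          · exact Or.inl ⟨ξ', Tge_sub_inter (Tge_sub_trans (hsuba' ξ ξ' h) hξ) hξ'⟩
          · exact Or.inl ⟨ξ, Tge_sub_inter hξ (Tge_sub_trans (hsuba' ξ' ξ h) hξ')⟩
        · exact Or.inl ⟨ξ, Tge_sub_inter hξ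
            (Tge_sub_trans (Tge_sub_of_subset fun k => Set.subset_univ _) h2)⟩
      · rcases h2 with ⟨ξ', hξ'⟩ | h2
        · exact Or.inl ⟨ξ', Tge_sub_inter
            (Tge_sub_trans (Tge_sub_of_subset fun k => Set.subset_univ _) h1) hξ'⟩
        · exact Or.inr (Tge_sub_inter h1 h2)
    · rintro Z ⟨hZ, h1⟩ Z' hZ' h
      refine ⟨hZ', ?_⟩
      rcases h1 with ⟨ξ, hξ⟩ | h1
      · exact Or.inl ⟨ξ, Tge_sub_trans hξ h⟩
      · exact Or.inr (Tge_sub_trans h1 h)
    · exact ⟨fun k => (hs.st.alg a).univ, Or.inr (Tge_sub_of_subset fun k => subset_rfl)⟩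
  obtain ⟨j, hj⟩ := hs.st.fam a ρ T' ⟨𝓖, hfil, fun ξ =>
    ⟨hnm ξ, Or.inl ⟨ξ, Tge_sub_of_subset fun k => subset_rfl⟩⟩⟩
  obtain ⟨b, hab⟩ := Tge_noMax hs.rg a
  have hmgnm := hs.st.mg_nm a b hab (Sum.inr j)
  have hbU : 𝓑 b ⊆ ⋃ α, 𝓑 α := (hs.un b).1
  choose r hr using fun n => hs.rep.surj (mg a (Sum.inr j) n) (hbU (hmgnm n))
  obtain ⟨-, -, c3, c4, -, -⟩ := hR (XX A L (Bool ⊕ Jt)) (𝓑 b) (⋃ α, 𝓑 α) (⋃ α, 𝓑 α)
    (hs.st.alg b) hU hU
  have hre : (fun k => e (r k)) = mg a (Sum.inr j) := funext hr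
  refine ⟨r, ?_, fun ξ => ?_⟩
  · rw [eq_top_iff, t1 r ⊤, hs.rep.top, hre]
    exact c3 _ hmgnm (hs.un b) (hs.st.mg_inf a b hab _)
  · rw [t2 r (T ξ), hre]
    exact c4 _ _ hmgnm (fun k => (hs.st.reg a b hab).1 (hnm ξ k)) (hs.un b)
      (hs.st.mg_sub a b hab _ _ (hj ξ))

theorem Tge_beq_trans {B X : Type} [CompleteBooleanAlgebra B] (x y z : X → B) :
    beq x z ⊓ beq y z ≤ beq x y := by
  refine le_iInf fun a => ?_
  have h1 : beq x z ≤ (x a ⊓ z a) ⊔ ((x a)ᶜ ⊓ (z a)ᶜ) := iInf_le _ a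
  have h2 : beq y z ≤ (y a ⊓ z a) ⊔ ((y a)ᶜ ⊓ (z a)ᶜ) := iInf_le _ a
  refine (inf_le_inf h1 h2).trans ?_
  rw [inf_sup_left, inf_sup_right, inf_sup_right]
  refine sup_le (sup_le ?_ ?_) (sup_le ?_ ?_)
  · exact le_sup_of_le_left (le_inf (inf_le_left.trans inf_le_left)
      (inf_le_right.trans inf_le_left))
  · have : (x a)ᶜ ⊓ (z a)ᶜ ⊓ (y a ⊓ z a) ≤ (z a)ᶜ ⊓ z a :=
      le_inf (inf_le_left.trans inf_le_right) (inf_le_right.trans inf_le_right)
    rw [compl_inf_self] at this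
    exact this.trans bot_le
  · have : x a ⊓ z a ⊓ ((y a)ᶜ ⊓ (z a)ᶜ) ≤ z a ⊓ (z a)ᶜ :=
      le_inf (inf_le_left.trans inf_le_right) (inf_le_right.trans inf_le_right)
    rw [inf_compl_self] at this
    exact this.trans bot_le
  · exact le_sup_of_le_right (le_inf (inf_le_left.trans inf_le_left)
      (inf_le_right.trans inf_le_left))

theorem claimCgt (hR : ClaimReg) (hT : ClaimTrans) : ClaimCgt := by
  intro A L Jt _ _ _ 𝓑 F B _ E e hs f
  have hU : IsAlg (⋃ α, 𝓑 α) := Tge_alg hs.rep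
  obtain ⟨-, -, t3, -⟩ := hT A L (Bool ⊕ Jt) (⋃ α, 𝓑 α) B E e hs.rep
  by_contra hne
  set c : B := ⨆ r : ℕ → B, ⨅ α, (beq r (f α))ᶜ with hc
  have hb : cᶜ ≠ ⊥ := by
    intro h
    exact hne (compl_eq_bot.1 h)
  have hle : ∀ r : ℕ → B, cᶜ ≤ ⨆ α, beq r (f α) := by
    intro r
    rw [compl_le_iff_compl_le, compl_iSup]
    exact le_iSup (fun r : ℕ → B => ⨅ α, (beq r (f α))ᶜ) r
  have hex : ∀ r : ℕ → B, ∃ α, cᶜ ⊓ beq r (f α) ≠ ⊥ := by
    intro r
    by_contra hno
    push Not at hno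
    apply hb
    rw [← inf_eq_left.2 (hle r), inf_iSup_eq]
    simp [hno]
  have hLne : Nonempty L := by
    rw [← Cardinal.mk_ne_zero_iff]
    intro h
    have := hs.rg.unc
    rw [h] at this
    exact absurd this (not_lt.2 zero_le)
  obtain ⟨a0⟩ := hLne
  obtain ⟨b0, hab⟩ := Tge_noMax hs.rg a0
  have hbU : 𝓑 b0 ⊆ ⋃ α, 𝓑 α := (hs.un b0).1
  choose r hr using fun (j : Jt) (n : ℕ) =>
    hs.rep.surj (mg a0 (Sum.inr j) n) (hbU (hs.st.mg_nm a0 b0 hab (Sum.inr j) n))
  have hre : ∀ j, (fun k => e (r j k)) = mg a0 (Sum.inr j) := fun j => funext (hr j)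
  choose a ha using fun j => hex (r j)
  -- a large fiber
  have hLinf : ℵ₀ ≤ #L := hs.rg.unc.le
  obtain ⟨α, hα⟩ : ∃ α : L, #L ≤ #{j : Jt // a j = α} := by
    by_contra hno
    push Not at hno
    have h1 : #Jt ≤ #L * #L := by
      calc #Jt = #(Σ α : L, {j : Jt // a j = α}) :=
            (Cardinal.mk_congr (Equiv.sigmaFiberEquiv a)).symm
        _ = Cardinal.sum (fun α : L => #{j : Jt // a j = α}) := Cardinal.mk_sigma _
        _ ≤ Cardinal.sum (fun _ : L => #L) := Cardinal.sum_le_sum _ _ fun α => (hno α).le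
        _ = #L * #L := by rw [Cardinal.sum_const']
    rw [Cardinal.mul_eq_self hLinf] at h1
    exact absurd h1 (not_le.2 hs.card)
  obtain ⟨g⟩ : Nonempty (L ↪ {j : Jt // a j = α}) := Cardinal.le_def _ _ |>.1 hα
  obtain ⟨i, i', hii, hne'⟩ := hs.cc (fun i => cᶜ ⊓ beq (r (g i).1) (f α)) (fun i => by
    have := ha (g i).1
    rwa [(g i).2] at this)
  apply hne'
  have hjj : (g i).1 ≠ (g i').1 := fun h => hii (g.injective (Subtype.ext h))
  obtain ⟨-, -, -, -, c5, -⟩ := hR (XX A L (Bool ⊕ Jt)) (𝓑 b0) (⋃ α, 𝓑 α) (⋃ α, 𝓑 α)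
    (hs.st.alg b0) hU hU
  have hbot : beq (r (g i).1) (r (g i').1) = ⊥ := by
    rw [t3, hre, hre]
    exact c5 _ _ (hs.st.mg_nm a0 b0 hab _) (hs.st.mg_nm a0 b0 hab _) (hs.un b0)
      (hs.st.mg_diff a0 b0 hab _ _ fun h => hjj (Sum.inr_injective h))
  rw [eq_bot_iff, ← hbot]
  refine le_trans ?_ (Tge_beq_trans _ _ (f α))
  exact inf_le_inf inf_le_right inf_le_right

end Pool.Agent.Work.MP_dbe197_lc

end

section

/-!
# T3: every tree has locally a thin subtree
-/

namespace Pool.Agent.Work.MP_dbe197_lc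

open Set Cardinal RO MM

section ThinAux

variable {B L : Type} [CompleteBooleanAlgebra B] [LinearOrder L]

/-- The least node of the level `δ`. -/
def thinY (T : BTree B L O1) (δ : L) (w : O1) : B :=
  T.D (δ, w) ⊓ ⨅ w' : O1, ⨅ (_ : w' < w), (T.D (δ, w'))ᶜ

/-- The branch below the least node of the level `δ`. -/
def thinU (T : BTree B L O1) (δ : L) (x : L × O1) : B :=
  ⨆ w : O1, thinY T δ w ⊓ T.t x (δ, w)

theorem thin_Y_lt (T : BTree B L O1) (δ : L) {w w' : O1} (h : w < w') :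
    thinY T δ w ⊓ thinY T δ w' = ⊥ := by
  have h1 : thinY T δ w ≤ T.D (δ, w) := inf_le_left
  have h2 : thinY T δ w' ≤ (T.D (δ, w))ᶜ :=
    inf_le_right.trans ((iInf_le _ w).trans (iInf_le _ h))
  exact le_bot_iff.1 ((inf_le_inf h1 h2).trans (inf_compl_self _).le)

theorem thin_Y_ne (T : BTree B L O1) (δ : L) {w w' : O1} (h : w ≠ w') :
    thinY T δ w ⊓ thinY T δ w' = ⊥ := by
  rcases lt_or_gt_of_ne h with h | h
  · exact thin_Y_lt T δ h
  · rw [inf_comm]; exact thin_Y_lt T δ h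

theorem thin_D_le (T : BTree B L O1) (δ : L) (w : O1) : T.D (δ, w) ≤ ⨆ w', thinY T δ w' := by
  induction w using WellFoundedLT.induction with
  | ind w ih =>
    have h1 : (⨅ w' : O1, ⨅ (_ : w' < w), (T.D (δ, w'))ᶜ)ᶜ ≤ ⨆ w', thinY T δ w' := by
      rw [compl_iInf]
      refine iSup_le fun w' => ?_
      rw [compl_iInf]
      refine iSup_le fun hw' => ?_
      rw [compl_compl]
      exact ih w' hw'
    calc T.D (δ, w)
        = (T.D (δ, w) ⊓ ⨅ w' : O1, ⨅ (_ : w' < w), (T.D (δ, w'))ᶜ) ⊔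
          (T.D (δ, w) ⊓ (⨅ w' : O1, ⨅ (_ : w' < w), (T.D (δ, w'))ᶜ)ᶜ) := by
          rw [← inf_sup_left]; simp
      _ ≤ _ := sup_le (le_iSup (thinY T δ) w) (inf_le_right.trans h1)

theorem thin_Y_top (T : BTree B L O1) (δ : L) : ⨆ w, thinY T δ w = ⊤ := by
  rw [eq_top_iff, ← T.lvl δ]
  exact iSup_le fun w => thin_D_le T δ w

theorem thin_U_top (T : BTree B L O1) {δ a : L} (h : a < δ) : ⨆ w, thinU T δ (a, w) = ⊤ := by
  rw [eq_top_iff, ← thin_Y_top T δ]
  refine iSup_le fun w0 => ?_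
  have h1 : thinY T δ w0 ≤ ⨆ w, T.t (a, w) (δ, w0) :=
    (inf_le_left : thinY T δ w0 ≤ T.D (δ, w0)).trans (T.t_pred (δ, w0) a h)
  calc thinY T δ w0 = thinY T δ w0 ⊓ ⨆ w, T.t (a, w) (δ, w0) := (inf_eq_left.2 h1).symm
    _ = ⨆ w, thinY T δ w0 ⊓ T.t (a, w) (δ, w0) := inf_iSup_eq _ _
    _ ≤ _ := iSup_mono fun w => le_iSup (fun w0 => thinY T δ w0 ⊓ T.t (a, w) (δ, w0)) w0

/-- Meets of two values of `thinU`. -/
theorem thin_U_inf_le (T : BTree B L O1) (δ : L) (x y : L × O1) (c : B)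
    (h : ∀ w, T.t x (δ, w) ⊓ T.t y (δ, w) ≤ c) : thinU T δ x ⊓ thinU T δ y ≤ c := by
  rw [thinU, iSup_inf_eq]
  refine iSup_le fun w => ?_
  rw [thinU, inf_iSup_eq]
  refine iSup_le fun w' => ?_
  by_cases hw : w = w'
  · subst hw
    exact (inf_le_inf inf_le_right inf_le_right).trans (h w)
  · have := thin_Y_ne T δ hw
    calc thinY T δ w ⊓ T.t x (δ, w) ⊓ (thinY T δ w' ⊓ T.t y (δ, w'))
        ≤ thinY T δ w ⊓ thinY T δ w' := inf_le_inf inf_le_left inf_le_left
      _ = ⊥ := this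
      _ ≤ c := bot_le

theorem thin_U_coh (T : BTree B L O1) (δ : L) {x y : L × O1} (h : x.1 < y.1) :
    thinU T δ x ⊓ thinU T δ y ≤ T.t x y :=
  thin_U_inf_le T δ x y _ fun w => T.t_tree x y (δ, w) h

theorem thin_U_uniq (T : BTree B L O1) (δ : L) {x y : L × O1} (h : x.1 = y.1) (hxy : x ≠ y) :
    thinU T δ x ⊓ thinU T δ y = ⊥ :=
  le_bot_iff.1 (thin_U_inf_le T δ x y _ fun w => (T.t_uniq x y (δ, w) h hxy).le)

theorem thin_U_down (T : BTree B L O1) (δ : L) (x y : L × O1) :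
    T.t x y ⊓ thinU T δ y ≤ thinU T δ x := by
  rw [thinU, inf_iSup_eq]
  refine iSup_le fun w => ?_
  refine le_trans ?_ (le_iSup (fun w => thinY T δ w ⊓ T.t x (δ, w)) w)
  refine le_inf (inf_le_right.trans inf_le_left) ?_
  exact (inf_le_inf_left _ inf_le_right).trans (T.t_trans x y (δ, w))

theorem thin_U_le (T : BTree B L O1) (δ : L) (x : L × O1) : thinU T δ x ≤ T.D x := by
  rw [thinU]
  exact iSup_le fun w => inf_le_right.trans ((T.t_le _ _).trans inf_le_left)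

end ThinAux

theorem claimThin (hN : ClaimN) (hCov : ClaimCover) (hL : ClaimLim) : ClaimThin := by
  intro L _ _ U hU hM I B _ E T b0 hb0
  -- cardinality
  have hfacts := hN L Set.univ U hU
  have hO1 : #O1 < #L := by
    have := hfacts.aleph1
    rwa [mk_univ] at this
  have hinf : ℵ₀ ≤ #L := by
    have h1 : ℵ₀ ≤ #O1 := by
      rw [mk_ord_toType]
      exact aleph0_le_aleph 1
    exact h1.trans hO1.le
  have hLO : #(L × O1) ≤ #L := by
    rw [mk_prod, lift_id, lift_id]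
    exact (mul_le_mul' le_rfl hO1.le).trans (mul_eq_self hinf).le
  let V : Set B := Set.range (fun p : (L × O1) × (L × O1) => T.t p.1 p.2) ∪
    Set.range (fun p : L × (L × O1) => thinU T p.1 p.2)
  have hV : #V ≤ #L := by
    refine (mk_union_le _ _).trans ?_
    have h1 : #(Set.range (fun p : (L × O1) × (L × O1) => T.t p.1 p.2)) ≤ #L := by
      refine mk_range_le.trans ?_
      simp only [mk_prod, lift_id]
      have hLO' : #L * #O1 ≤ #L := (mul_le_mul' le_rfl hO1.le).trans (mul_eq_self hinf).le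
      exact (mul_le_mul' hLO' hLO').trans (mul_eq_self hinf).le
    have h2 : #(Set.range (fun p : L × (L × O1) => thinU T p.1 p.2)) ≤ #L := by
      refine mk_range_le.trans ?_
      rw [mk_prod, lift_id, lift_id]
      exact (mul_le_mul' le_rfl hLO).trans (mul_eq_self hinf).le
    exact (add_le_add h1 h2).trans (add_eq_self hinf).le
  obtain ⟨h, hh⟩ := hCov L U hU I B E V hV
  have hmono : ∀ n (b b' : B), b ≤ b' → h n b ≤ h n b' := by
    intro n b b' hb
    rw [← inf_eq_left, ← hh.inf, inf_eq_left.2 hb]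
  -- the trees and the branches
  have hTree : ∀ n, TreeLike (fun x y : L × O1 => h n (T.t x y)) := by
    intro n
    refine ⟨?_, ?_, ?_, ?_⟩
    · intro x y hxy
      change h n (T.t x y) = ⊥
      rw [T.t_lvl x y hxy, hh.bot]
    · intro x y z
      change h n (T.t x y) ⊓ h n (T.t y z) ≤ h n (T.t x z)
      rw [← hh.inf]
      exact hmono n _ _ (T.t_trans x y z)
    · intro x y z hxy
      change h n (T.t x z) ⊓ h n (T.t y z) ≤ h n (T.t x y)
      rw [← hh.inf]
      exact hmono n _ _ (T.t_tree x y z hxy)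
    · intro x y z hxy hne
      change h n (T.t x z) ⊓ h n (T.t y z) = ⊥
      rw [← hh.inf, T.t_uniq x y z hxy hne, hh.bot]
  obtain ⟨a, F, ha, hcov⟩ := E.cov_ex b0 hb0
  obtain ⟨m0, hm0⟩ := ne_bot_iff.1 ha
  obtain ⟨q1, Z, γs, A, q, hq1, -, hZ, hA, hlim⟩ := hL L U hU hM
    (fun n x y => h n (T.t x y)) (fun δ n x => h n (thinU T δ x)) hTree
    (by
      intro δ n x y hxy _
      change h n (thinU T δ x) ⊓ h n (thinU T δ y) ≤ h n (T.t x y)
      rw [← hh.inf]
      exact hmono n _ _ (thin_U_coh T δ hxy))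
    (by
      intro δ n x y hxy hne _
      change h n (thinU T δ x) ⊓ h n (thinU T δ y) = ⊥
      rw [← hh.inf, thin_U_uniq T δ hxy hne, hh.bot])
    (by
      intro δ n x y _ _
      change h n (T.t x y) ⊓ h n (thinU T δ y) ≤ h n (thinU T δ x)
      rw [← hh.inf]
      exact hmono n _ _ (thin_U_down T δ x y)) m0
  have hle1 : (⟨m0.p, q1⟩ : MM L) ≤ m0 := mk_le_mk (le_refl m0.p) hq1
  have hga : RO.gen (⟨m0.p, q1⟩ : MM L) ≤ a := gen_le_iff.2 (mem_down hle1 hm0)
  refine ⟨b0 ⊓ E.i (RO.gen (⟨m0.p, q1⟩ : MM L)), inf_le_left, ?_, fun k x => E.i (Z k x), γs,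
    ?_, ?_⟩
  · intro hbot
    have h1 : E.cov (RO.gen (⟨m0.p, q1⟩ : MM L)) F b0 :=
      E.cov_mono _ _ _ _ _ _ hcov hga le_rfl le_rfl
    have h2 : E.cov (RO.gen (⟨m0.p, q1⟩ : MM L)) F (E.i (RO.gen (⟨m0.p, q1⟩ : MM L))) :=
      (E.cov_i _ _ F).2 le_rfl
    have h3 := E.cov_inf _ _ _ _ h1 h2
    rw [hbot] at h3
    exact gen_ne_bot _ (E.cov_bot _ _ h3)
  · intro k x y hxy hne
    change E.i (Z k x) ⊓ E.i (Z k y) = ⊥
    rw [← E.i_inf, hZ k x y hxy hne, E.i_bot]
  · intro α hα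
    -- the key estimate
    have key : ∀ δ ∈ A, ∀ x : L × O1, γs < x.1 → x.1 < δ →
        thinU T δ x ⊓ E.i (RO.gen (⟨m0.p, q δ⟩ : MM L)) ≤ ⨆ k, E.i (Z k x) := by
      intro δ hδ x hx1 hx2
      rw [← E.i_iSup]
      by_contra hcon
      have hne : thinU T δ x ⊓ E.i (RO.gen (⟨m0.p, q δ⟩ : MM L) ⊓ (⨆ k, Z k x)ᶜ) ≠ ⊥ := by
        intro h0
        apply hcon
        rw [E.i_inf, E.i_compl, ← inf_assoc] at h0
        exact (le_compl_iff_disjoint_right.2 (disjoint_iff.2 h0)).trans (compl_compl _).le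
      have hmem : thinU T δ x ∈ V := Or.inr ⟨(δ, x), rfl⟩
      obtain ⟨n, hn⟩ := hh.cov _ hmem _ hne
      apply hn
      have h1 := (hA δ hδ).2 n x hx1 hx2
      have h2 : h n (thinU T δ x) ⊓ (RO.gen (⟨m0.p, q δ⟩ : MM L) ⊓ (⨆ k, Z k x)ᶜ) ≤
          (⨆ k, Z k x) ⊓ (⨆ k, Z k x)ᶜ := by
        refine le_inf ?_ (inf_le_right.trans inf_le_right)
        exact (le_inf (inf_le_right.trans inf_le_left) inf_le_left).trans h1
      exact le_bot_iff.1 (h2.trans (inf_compl_self _).le)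
    refine inf_le_right.trans ((E.i_mono (hlim α)).trans ?_)
    rw [E.i_iSup]
    refine iSup_le fun δ => ?_
    rw [E.i_iSup]
    refine iSup_le fun hδ => ?_
    rw [E.i_iSup]
    refine iSup_le fun hαδ => ?_
    calc E.i (RO.gen (⟨m0.p, q δ⟩ : MM L))
        = E.i (RO.gen (⟨m0.p, q δ⟩ : MM L)) ⊓ ⨆ w, thinU T δ (α, w) := by
          rw [thin_U_top T hαδ, inf_top_eq]
      _ = ⨆ w, E.i (RO.gen (⟨m0.p, q δ⟩ : MM L)) ⊓ thinU T δ (α, w) := inf_iSup_eq _ _
      _ ≤ _ := by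
          refine iSup_mono fun w => ?_
          rw [inf_comm, thin]
          refine le_inf (le_inf ?_ ?_) ?_
          · exact inf_le_left.trans (thin_U_le T δ _)
          · exact key δ hδ (α, w) hα hαδ
          · refine le_iInf fun y => le_iInf fun hy => ?_
            by_cases hyx : y.1 < (α, w).1
            · have h1 : T.t y (α, w) ⊓ (thinU T δ (α, w) ⊓
                  E.i (RO.gen (⟨m0.p, q δ⟩ : MM L))) ≤ ⨆ k, E.i (Z k y) := by
                refine le_trans ?_ (key δ hδ y hy (hyx.trans hαδ))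
                refine le_inf ?_ (inf_le_right.trans inf_le_right)
                exact (inf_le_inf_left _ inf_le_left).trans (thin_U_down T δ y (α, w))
              calc thinU T δ (α, w) ⊓ E.i (RO.gen (⟨m0.p, q δ⟩ : MM L))
                  = ((T.t y (α, w))ᶜ ⊔ T.t y (α, w)) ⊓ (thinU T δ (α, w) ⊓
                      E.i (RO.gen (⟨m0.p, q δ⟩ : MM L))) := by
                    rw [compl_sup_eq_top, top_inf_eq]
                _ ≤ _ := by
                    rw [inf_sup_right]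
                    exact sup_le_sup inf_le_left h1
            · rw [T.t_lvl _ _ hyx, compl_bot, top_sup_eq]
              exact le_top

end Pool.Agent.Work.MP_dbe197_lc

end

section

/-!
# The tree of positions
-/

namespace Pool.Agent.Work.MP_dbe197_lc

open Set Cardinal

section

variable {L : Type} [LinearOrder L]

/-- The iterated `W`-quantifier. -/
def TreeIt (W : Set (Set L)) (Ph : List L → Prop) : ℕ → List L → Prop
  | 0, u => Ph u
  | n + 1, u => {g | TreeIt W Ph n (u ++ [g])} ∈ W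

/-- The union of the iterated quantifiers. -/
def TreeBar (W : Set (Set L)) (Ph : List L → Prop) (u : List L) : Prop := ∃ n, TreeIt W Ph n u

/-- Increasing predicates. -/
def TreeInc (Ph : List L → Prop) : Prop := ∀ u g, Ph u → Ph (u ++ [g])

variable {S : Set L} {W : Set (Set L)}

theorem Tree_univ_mem (hW : NM S W) : (Set.univ : Set L) ∈ W :=
  hW.up _ _ hW.mem (Set.subset_univ _)

theorem Tree_nonempty (hW : NM S W) {A : Set L} (hA : A ∈ W) : A.Nonempty := by
  rw [Set.nonempty_iff_ne_empty]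
  rintro rfl
  exact hW.empty hA

theorem TreeIt_succ (hW : NM S W) {Ph : List L → Prop} (hi : TreeInc Ph) (n : ℕ) :
    ∀ u, TreeIt W Ph n u → TreeIt W Ph (n + 1) u := by
  induction n with
  | zero =>
    intro u h
    have : {g | TreeIt W Ph 0 (u ++ [g])} = Set.univ := by
      ext g; simp only [mem_univ, iff_true]; exact hi u g h
    show {g | TreeIt W Ph 0 (u ++ [g])} ∈ W
    rw [this]; exact Tree_univ_mem hW
  | succ n ih =>
    intro u h
    exact hW.up _ _ h (fun g hg => ih _ hg)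

theorem TreeIt_mono (hW : NM S W) {Ph : List L → Prop} (hi : TreeInc Ph) {n m : ℕ}
    (h : n ≤ m) (u : List L) (hu : TreeIt W Ph n u) : TreeIt W Ph m u := by
  induction h with
  | refl => exact hu
  | step _ ih => exact TreeIt_succ hW hi _ u ih

theorem TreeIt_exists (hW : NM S W) {Ph : List L → Prop} (n : ℕ) :
    ∀ u, TreeIt W Ph n u → ∃ v, Ph v := by
  induction n with
  | zero => intro u h; exact ⟨u, h⟩
  | succ n ih =>
    intro u h
    obtain ⟨g, hg⟩ := Tree_nonempty hW h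
    exact ih _ hg

theorem TreeIt_and (hW : NM S W) (hF : NMFacts S W) {Ph Ps : List L → Prop} (n : ℕ) :
    ∀ u, TreeIt W Ph n u → TreeIt W Ps n u → TreeIt W (fun u => Ph u ∧ Ps u) n u := by
  induction n with
  | zero => intro u h1 h2; exact ⟨h1, h2⟩
  | succ n ih =>
    intro u h1 h2
    exact hW.up _ _ (hF.inter2 _ _ h1 h2) (fun g hg => ih _ hg.1 hg.2)

theorem TreeBar_and (hW : NM S W) (hF : NMFacts S W) {Ph Ps : List L → Prop}
    (h1 : TreeInc Ph) (h2 : TreeInc Ps) {u : List L} (hu : TreeBar W Ph u)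
    (hu' : TreeBar W Ps u) : ∃ v, Ph v ∧ Ps v := by
  obtain ⟨n, hn⟩ := hu
  obtain ⟨m, hm⟩ := hu'
  exact TreeIt_exists hW (max n m) u (TreeIt_and hW hF (max n m) u
    (TreeIt_mono hW h1 (le_max_left _ _) u hn) (TreeIt_mono hW h2 (le_max_right _ _) u hm))

theorem Tree_nat_lt (hF : NMFacts S W) : #ℕ < #S := by
  refine lt_of_le_of_lt ?_ hF.aleph1
  have : #O1 = Cardinal.aleph 1 := by simp [O1, OO]
  rw [this, Cardinal.mk_nat]
  exact Cardinal.aleph0_le_aleph 1

theorem TreeBar_iff (hW : NM S W) (hF : NMFacts S W) {Ph : List L → Prop}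
    (hi : TreeInc Ph) (u : List L) :
    TreeBar W Ph u ↔ {g | TreeBar W Ph (u ++ [g])} ∈ W := by
  constructor
  · rintro ⟨n, hn⟩
    have h1 := TreeIt_succ hW hi n u hn
    exact hW.up _ _ h1 (fun g hg => ⟨n, hg⟩)
  · intro h
    have h1 : {g | TreeBar W Ph (u ++ [g])} = ⋃ n : ℕ, {g | TreeIt W Ph n (u ++ [g])} := by
      ext g; simp [TreeBar]
    rw [h1] at h
    obtain ⟨n, hn⟩ := hF.split ℕ _ (Tree_nat_lt hF) h
    exact ⟨n + 1, hn⟩

/-- For `W`-almost all `g` the predicate has the same value at `u ++ [g]` and `u`. -/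
theorem TreeBar_typ (hW : NM S W) (hF : NMFacts S W) {Ph : List L → Prop}
    (hi : TreeInc Ph) (u : List L) :
    {g | TreeBar W Ph (u ++ [g]) ↔ TreeBar W Ph u} ∈ W := by
  by_cases h : TreeBar W Ph u
  · refine hW.up _ _ ((TreeBar_iff hW hF hi u).1 h) (fun g hg => ?_)
    exact ⟨fun _ => h, fun _ => hg⟩
  · have h1 : {g | TreeBar W Ph (u ++ [g])} ∉ W := fun h' => h ((TreeBar_iff hW hF hi u).2 h')
    have h2 := (hW.ultra {g | TreeBar W Ph (u ++ [g])}).resolve_left h1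
    refine hW.up _ _ h2 (fun g hg => ?_)
    exact ⟨fun h3 => absurd h3 hg, fun h3 => absurd h3 h⟩

theorem Tree_uncountable_inj {B : Type} {A : Set B} (h : ¬ A.Countable) :
    ∃ f : O1 → B, Function.Injective f ∧ ∀ ξ, f ξ ∈ A := by
  have h1 : Cardinal.aleph0 < #A := by
    rw [← not_le]
    intro h2
    exact h (Set.countable_coe_iff.1 (Cardinal.mk_le_aleph0_iff.1 h2))
  have h2 : #O1 ≤ #A := by
    have : #O1 = Cardinal.aleph 1 := by simp [O1, OO]
    rw [this, ← Cardinal.succ_aleph0]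
    exact Order.succ_le_of_lt h1
  obtain ⟨e⟩ : Nonempty (O1 ↪ A) := h2
  exact ⟨fun ξ => (e ξ : B), fun a b hab => e.injective (Subtype.ext hab), fun ξ => (e ξ).2⟩

theorem Tree_O1_uncountable : ¬ (Set.univ : Set O1).Countable := by
  intro h
  have h1 : #O1 ≤ Cardinal.aleph0 := by
    have := Cardinal.mk_le_aleph0_iff.2 (Set.countable_coe_iff.2 h)
    rwa [Cardinal.mk_univ] at this
  have h2 : #O1 = Cardinal.aleph 1 := by simp [O1, OO]
  rw [h2] at h1
  exact absurd Cardinal.aleph0_lt_aleph_one (not_lt.2 h1)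

theorem TreeIt_countable (hW : NM S W) (hF : NMFacts S W) {B : Type} (P : B → List L → Prop)
    (hc : ∀ u, {b | P b u}.Countable) (n : ℕ) :
    ∀ u, {b | TreeIt W (P b) n u}.Countable := by
  induction n with
  | zero => intro u; exact hc u
  | succ n ih =>
    intro u
    by_contra h
    obtain ⟨f, hf, hfA⟩ := Tree_uncountable_inj h
    have h1 := hF.inter1 (fun ξ => {g | TreeIt W (P (f ξ)) n (u ++ [g])}) (fun ξ => hfA ξ)
    obtain ⟨g, hg⟩ := Tree_nonempty hW h1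
    have h2 : Set.range f ⊆ {b | TreeIt W (P b) n (u ++ [g])} := by
      rintro _ ⟨ξ, rfl⟩
      exact mem_iInter.1 hg ξ
    have h3 : (Set.range f).Countable := (ih (u ++ [g])).mono h2
    have h4 : (Set.univ : Set O1).Countable := by
      rw [← Set.preimage_range f]
      exact h3.preimage_of_injOn hf.injOn
    exact Tree_O1_uncountable h4

theorem TreeBar_countable (hW : NM S W) (hF : NMFacts S W) {B : Type} (P : B → List L → Prop)
    (hc : ∀ u, {b | P b u}.Countable) (u : List L) : {b | TreeBar W (P b) u}.Countable := by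
  have : {b | TreeBar W (P b) u} = ⋃ n : ℕ, {b | TreeIt W (P b) n u} := by
    ext b; simp [TreeBar]
  rw [this]
  exact Set.countable_iUnion fun n => TreeIt_countable hW hF P hc n u

omit [LinearOrder L] in
theorem TreeBar_of {Ph : List L → Prop} {u : List L} (h : Ph u) : TreeBar W Ph u := ⟨0, h⟩

theorem TreeBar_imp (hW : NM S W) {Ph Ps : List L → Prop} (h : ∀ u, Ph u → Ps u) {u : List L}
    (hu : TreeBar W Ph u) : TreeBar W Ps u := by
  obtain ⟨n, hn⟩ := hu
  refine ⟨n, ?_⟩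
  induction n generalizing u with
  | zero => exact h u hn
  | succ n ih => exact hW.up _ _ hn (fun g hg => ih hg)

end

/-- The code of a node. -/
def TreeCode (t : List Bool) : ℕ := t.foldl (fun n b => 2 * n + 1 + (if b then 1 else 0)) 0

theorem TreeCode_append (s : List Bool) (b : Bool) :
    TreeCode (s ++ [b]) = 2 * TreeCode s + (if b then 1 else 0) + 1 := by
  simp only [TreeCode, List.foldl_append, List.foldl_cons, List.foldl_nil]
  omega

theorem TreeCode_inj : ∀ s t : List Bool, TreeCode s = TreeCode t → s = t := by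
  intro s
  induction s using List.reverseRecOn with
  | nil =>
    intro t h
    rcases List.eq_nil_or_concat t with rfl | ⟨t', b, rfl⟩
    · rfl
    · rw [List.concat_eq_append, TreeCode_append] at h
      simp [TreeCode] at h
  | append_singleton s b ih =>
    intro t h
    rcases List.eq_nil_or_concat t with rfl | ⟨t', b', rfl⟩
    · rw [TreeCode_append] at h
      simp [TreeCode] at h
    · rw [List.concat_eq_append, TreeCode_append, TreeCode_append] at h
      have h1 : TreeCode s = TreeCode t' := by split_ifs at h <;> omega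
      have h2 : b = b' := by cases b <;> cases b' <;> simp at h ⊢ <;> omega
      rw [ih t' h1, h2, List.concat_eq_append]

section

variable {L : Type}

/-- The nodes, given the choice function. -/
noncomputable def TreeU (F : (k : ℕ) → (Fin (k + 1) → List L) → L) : ℕ → List L
  | 0 => []
  | k + 1 => TreeU F (k / 2) ++ [F k (fun i => TreeU F i.1)]
termination_by k => k
decreasing_by
  · exact Nat.lt_succ_of_le (Nat.div_le_self k 2)
  · exact i.2

theorem TreeU_zero (F : (k : ℕ) → (Fin (k + 1) → List L) → L) : TreeU F 0 = [] := by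
  rw [TreeU]

theorem TreeU_succ (F : (k : ℕ) → (Fin (k + 1) → List L) → L) (k : ℕ) :
    TreeU F (k + 1) = TreeU F (k / 2) ++ [F k (fun i => TreeU F i.1)] := by
  rw [TreeU]

end

theorem claimTree (hN : ClaimN) (hS : ClaimSmall) : ClaimTree := by
  intro L _ _ δ W hseg q y hq hy hgy hyc hyS
  have hW : NM (Iio δ) W := hseg.nm
  have hF : NMFacts (Iio δ) W := hN L (Iio δ) W hseg
  -- the predicates
  set Y : L → List L → Prop := fun b u => b ∈ y u with hY
  set T : L → O1 → (Pt L → L) → List L → Prop := fun a ξ v u => (q u).val a ξ = some v with hT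
  set D : L × O1 → List L → Prop := fun x u => (q u).val x.1 x.2 ≠ none with hD
  have hYi : ∀ b, TreeInc (Y b) := fun b u g h => hy u g h
  have hTi : ∀ a ξ v, TreeInc (T a ξ v) := fun a ξ v u g h => hq u g a ξ v h
  have hDi : ∀ x, TreeInc (D x) := by
    intro x u g h
    obtain ⟨v, hv⟩ := Option.ne_none_iff_exists'.1 h
    have := hq u g x.1 x.2 v hv
    simp only [hD, this]; simp
  have hYc : ∀ u, {b | TreeBar W (Y b) u}.Countable :=
    TreeBar_countable hW hF Y (fun u => hyc u)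
  have hDc : ∀ u, {x | TreeBar W (D x) u}.Countable :=
    TreeBar_countable hW hF D (fun u => (q u).ctbl)
  have hTD : ∀ a ξ v u, TreeBar W (T a ξ v) u → TreeBar W (D (a, ξ)) u := by
    intro a ξ v u h
    refine TreeBar_imp hW (fun u' h' => ?_) h
    simp only [hT] at h'
    simp only [hD, h']; simp
  have hTu : ∀ a ξ v w u, TreeBar W (T a ξ v) u → TreeBar W (T a ξ w) u → v = w := by
    intro a ξ v w u h1 h2
    obtain ⟨u', h3, h4⟩ := TreeBar_and hW hF (hTi a ξ v) (hTi a ξ w) h1 h2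
    simp only [hT] at h3 h4
    rw [h3] at h4
    exact Option.some.inj h4
  -- typical elements
  set Typ : List L → Set L := fun u => {g | g ∈ Iio δ ∧ ∀ b < g,
    g ∈ ({g | TreeBar W (Y b) (u ++ [g]) ↔ TreeBar W (Y b) u} ∩
      {g | ∀ ξ v, TreeBar W (T b ξ v) (u ++ [g]) ↔ TreeBar W (T b ξ v) u} : Set L)} with hTyp
  have hTypW : ∀ u, Typ u ∈ W := by
    intro u
    apply hF.diag
    intro b hb
    apply hF.inter2
    · exact TreeBar_typ hW hF (hYi b) u
    · have hsm := (hS L (Iio δ) hseg.low hseg.inacc b hb).1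
      set V : Set (Pt L → L) := {v : Pt L → L | (∀ c, v c ≤ b) ∧
        ∀ c c' : Pt L, (∀ γ ≤ b, c γ = c' γ) → v c = v c'} with hV
      have hcard : #(O1 × V) < #(Iio δ) := by
        rw [Cardinal.mk_prod, Cardinal.lift_id, Cardinal.lift_id]
        exact Cardinal.mul_lt_of_lt (Cardinal.aleph0_le_mk_iff.2 (by
          rw [← Cardinal.aleph0_le_mk_iff]
          have := Tree_nat_lt hF
          rw [Cardinal.mk_nat] at this
          exact this.le)) hF.aleph1 hsm
      have h1 := hW.inter (O1 × V)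
        (fun x => {g | TreeBar W (T b x.1 x.2.1) (u ++ [g]) ↔ TreeBar W (T b x.1 x.2.1) u}) hcard
        (fun x => TreeBar_typ hW hF (hTi b x.1 x.2.1) u)
      refine hW.up _ _ h1 (fun g hg ξ v => ?_)
      by_cases hv : v ∈ V
      · exact mem_iInter.1 hg (ξ, ⟨v, hv⟩)
      · have hno : ∀ u', ¬ TreeBar W (T b ξ v) u' := by
          intro u' h'
          obtain ⟨w, hw, _⟩ := TreeBar_and hW hF (hTi b ξ v) (hTi b ξ v) h' h'
          exact hv ⟨(q w).le' b ξ v hw, (q w).dep b ξ v hw⟩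
        exact ⟨fun h' => absurd h' (hno _), fun h' => absurd h' (hno _)⟩
  -- the choice function
  have hex : ∀ (k : ℕ) (prev : Fin (k + 1) → List L), ∃ g : L,
      g ∈ Typ (prev ⟨k / 2, Nat.lt_succ_of_le (Nat.div_le_self k 2)⟩) ∧ g < δ ∧
      (∀ i b, TreeBar W (Y b) (prev i) → b < g) ∧
      ∀ i a ξ, a < δ → TreeBar W (D (a, ξ)) (prev i) → a < g := by
    intro k prev
    set C : Set L := (⋃ i, {b | TreeBar W (Y b) (prev i)}) ∪
      ((⋃ i, Prod.fst '' {x | TreeBar W (D x) (prev i)}) ∩ Iio δ) with hC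
    have hCc : C.Countable := by
      apply Set.Countable.union
      · exact Set.countable_iUnion fun i => hYc (prev i)
      · exact (Set.countable_iUnion fun i => (hDc (prev i)).image _).mono inter_subset_left
    have hCS : C ⊆ Iio δ := by
      rintro b (hb | hb)
      · obtain ⟨i, hi⟩ := mem_iUnion.1 hb
        obtain ⟨v, hv, _⟩ := TreeBar_and hW hF (hYi b) (hYi b) hi hi
        exact hyS v hv
      · exact hb.2
    obtain ⟨β, hβ, hβC⟩ := hF.bddN C hCS hCc
    obtain ⟨g, hg, hgS, hβg⟩ := hF.pick _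
      (hTypW (prev ⟨k / 2, Nat.lt_succ_of_le (Nat.div_le_self k 2)⟩)) β hβ
    refine ⟨g, hg, hgS, fun i b hb => (hβC b (Or.inl (mem_iUnion.2 ⟨i, hb⟩))).trans hβg,
      fun i a ξ ha hb => (hβC a (Or.inr ⟨mem_iUnion.2 ⟨i, (a, ξ), hb, rfl⟩, ha⟩)).trans hβg⟩
  choose F hF1 hF2 hF3 hF4 using hex
  set U : ℕ → List L := TreeU F with hU
  obtain ⟨g0, hg0⟩ : (Iio δ).Nonempty := by
    rw [Set.nonempty_iff_ne_empty]
    intro h
    exact hW.empty (h ▸ hW.mem)
  let G : ℕ → L := fun k => match k with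
    | 0 => g0
    | k + 1 => F k (fun i => U i.1)
  have hGδ : ∀ k, G k < δ := by
    intro k
    cases k with
    | zero => exact hg0
    | succ k => exact hF2 _ _
  have hUs : ∀ k, U (k + 1) = U (k / 2) ++ [G (k + 1)] := fun k => TreeU_succ F k
  have hG1 : ∀ k, G (k + 1) ∈ Typ (U (k / 2)) := fun k => hF1 k (fun i => U i.1)
  have hG3 : ∀ k, ∀ i ≤ k, ∀ b, TreeBar W (Y b) (U i) → b < G (k + 1) :=
    fun k i hi b hb => hF3 k (fun i => U i.1) ⟨i, Nat.lt_succ_of_le hi⟩ b hb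
  have hG4 : ∀ k, ∀ i ≤ k, ∀ a ξ, a < δ → TreeBar W (D (a, ξ)) (U i) → a < G (k + 1) :=
    fun k i hi a ξ ha hb => hF4 k (fun i => U i.1) ⟨i, Nat.lt_succ_of_le hi⟩ a ξ ha hb
  -- Claim 1
  have claim1 : ∀ n i j, i + j ≤ n → ∀ a ξ v w, a < δ → TreeBar W (T a ξ v) (U i) →
      TreeBar W (T a ξ w) (U j) → v = w := by
    intro n
    induction n with
    | zero =>
      intro i j hij a ξ v w _ h1 h2
      obtain rfl : i = 0 := by omega
      obtain rfl : j = 0 := by omega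
      exact hTu a ξ v w _ h1 h2
    | succ n ih =>
      intro i j hij a ξ v w ha h1 h2
      rcases lt_trichotomy i j with h | h | h
      · obtain ⟨j', rfl⟩ : ∃ j', j = j' + 1 := ⟨j - 1, by omega⟩
        have h3 : a < G (j' + 1) := hG4 j' i (by omega) a ξ ha (hTD _ _ _ _ h1)
        rw [hUs] at h2
        have h4 := ((hG1 j').2 a h3).2 ξ w
        exact ih i (j' / 2) (by omega) a ξ v w ha h1 (h4.1 h2)
      · subst h; exact hTu a ξ v w _ h1 h2
      · obtain ⟨i', rfl⟩ : ∃ i', i = i' + 1 := ⟨i - 1, by omega⟩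
        have h3 : a < G (i' + 1) := hG4 i' j (by omega) a ξ ha (hTD _ _ _ _ h2)
        rw [hUs] at h1
        have h4 := ((hG1 i').2 a h3).2 ξ v
        exact ih (i' / 2) j (by omega) a ξ v w ha (h4.1 h1) h2
  -- Claim 2
  have claim2 : ∀ t : List Bool, ∀ k, TreeBar W (Y (G (k + 1))) (U (TreeCode t)) →
      ∃ t', t' <+: t ∧ TreeCode t' = k + 1 := by
    intro t
    induction t using List.reverseRecOn with
    | nil =>
      intro k h
      exact absurd (hG3 k 0 (Nat.zero_le k) _ h) (lt_irrefl _)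
    | append_singleton s b ih =>
      intro k h
      obtain ⟨i, hi⟩ : ∃ i, i = 2 * TreeCode s + (if b then 1 else 0) := ⟨_, rfl⟩
      have hc : TreeCode (s ++ [b]) = i + 1 := by rw [TreeCode_append, hi]
      have hi2 : i / 2 = TreeCode s := by rw [hi]; split_ifs <;> omega
      rcases lt_trichotomy k i with hk | hk | hk
      · rw [hc] at h
        have h1 : TreeBar W (Y (G (k + 1))) (U (k + 1)) := by
          apply TreeBar_of
          rw [hUs]
          exact hgy _ _ (hGδ (k + 1))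
        have h2 : G (k + 1) < G (i + 1) := hG3 i (k + 1) (by omega) _ h1
        rw [hUs] at h
        have h3 := (((hG1 i).2 _ h2).1).1 h
        rw [hi2] at h3
        obtain ⟨t', ht', hct⟩ := ih k h3
        exact ⟨t', ht'.trans (List.prefix_append s [b]), hct⟩
      · exact ⟨s ++ [b], List.prefix_refl _, by rw [hc, hk]⟩
      · rw [hc] at h
        exact absurd (hG3 k (i + 1) (by omega) _ h) (lt_irrefl _)
  refine ⟨fun s => U (TreeCode s), fun s => G (TreeCode s), TreeU_zero F, fun s => hGδ _, ?_, ?_, ?_⟩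
  · intro s b
    show U (TreeCode (s ++ [b])) = U (TreeCode s) ++ [G (TreeCode (s ++ [b]))]
    rw [TreeCode_append, hUs]
    congr 2
    split_ifs <;> omega
  · intro s t a ξ v w hv hw
    rw [TT.restr_eq_some] at hv hw
    exact claim1 _ _ _ le_rfl a ξ v w hv.1 (TreeBar_of hv.2) (TreeBar_of hw.2)
  · intro s t h1 h2
    have h3 : TreeCode (s ++ [false]) = 2 * TreeCode s + 1 := by
      rw [TreeCode_append]; simp
    have h1' : TreeBar W (Y (G (2 * TreeCode s + 1))) (U (TreeCode t)) := by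
      apply TreeBar_of
      have h1'' : G (TreeCode (s ++ [false])) ∈ y (U (TreeCode t)) := h1
      rw [h3] at h1''
      exact h1''
    obtain ⟨t', ht', hct⟩ := claim2 t _ h1'
    have h4 : t' = s ++ [false] := TreeCode_inj _ _ (hct.trans h3.symm)
    subst h4
    have h5 := List.prefix_of_prefix_length_le ht' h2 (by simp)
    have h6 := h5.eq_of_length (by simp)
    simp at h6

end Pool.Agent.Work.MP_dbe197_lc

end

section

/-!
# Item A3: extension of a filter to an ultrafilter; the size of an algebra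
-/

namespace Pool.Agent.Work.MP_dbe197_lc

open Set Cardinal

section

variable {X : Type} {𝓑 : Set (Set X)}

theorem Ult_union (h : IsAlg 𝓑) {b c : Set X} (hb : b ∈ 𝓑) (hc : c ∈ 𝓑) :
    b ∪ c ∈ 𝓑 := by
  have := h.compl _ (h.inter _ (h.compl _ hb) _ (h.compl _ hc))
  rwa [compl_inter, compl_compl, compl_compl] at this

theorem Ult_sdiff (h : IsAlg 𝓑) {b c : Set X} (hb : b ∈ 𝓑) (hc : c ∈ 𝓑) :
    b \ c ∈ 𝓑 := h.inter _ hb _ (h.compl _ hc)

theorem Ult_sub_of_le {Z Z' : ℕ → Set X} (h : ∀ k, Z k ⊆ Z' k) : SubIn 𝓑 Z Z' :=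
  fun b hb hne => ⟨b, hb, hne, subset_rfl, 0, fun k _ x hx => h k hx.2⟩

theorem Ult_sub_trans {Z Z' Z'' : ℕ → Set X} (h1 : SubIn 𝓑 Z Z') (h2 : SubIn 𝓑 Z' Z'') :
    SubIn 𝓑 Z Z'' := by
  intro b hb hne
  obtain ⟨c, hc, hcne, hcb, n, hn⟩ := h1 b hb hne
  obtain ⟨d, hd, hdne, hdc, n', hn'⟩ := h2 c hc hcne
  refine ⟨d, hd, hdne, hdc.trans hcb, max n n', fun k hk x hx => ?_⟩
  exact hn' k (le_trans (le_max_right _ _) hk)
    ⟨hx.1, hn k (le_trans (le_max_left _ _) hk) ⟨hdc hx.1, hx.2⟩⟩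

/-- The filter generated by `𝓕` and `W`. -/
def Ult_gen (𝓑 : Set (Set X)) (𝓕 : Set (ℕ → Set X)) (W : ℕ → Set X) : Set (ℕ → Set X) :=
  {Z' | Nm 𝓑 Z' ∧ ∃ Z ∈ 𝓕, SubIn 𝓑 (fun k => Z k ∩ W k) Z'}

theorem Ult_gen_fil (h : IsAlg 𝓑) {𝓕 : Set (ℕ → Set X)} (hF : IsFil 𝓑 𝓕) {W : ℕ → Set X}
    (hinf : ∀ Z ∈ 𝓕, InfOn 𝓑 Set.univ (fun k => Z k ∩ W k)) : IsFil 𝓑 (Ult_gen 𝓑 𝓕 W) := by
  refine ⟨fun Z hZ => hZ.1, ?_, ?_, ?_, ?_⟩
  · rintro Z' ⟨hZ', Z, hZ, hsub⟩ c hc hcne _ n
    obtain ⟨d, hd, hdne, hdc, n', hn'⟩ := hsub c hc hcne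
    obtain ⟨k, hk, x, hx1, hx2⟩ := hinf Z hZ d hd hdne (subset_univ _) (max n n')
    exact ⟨k, le_trans (le_max_left _ _) hk, x, hdc hx1,
      hn' k (le_trans (le_max_right _ _) hk) ⟨hx1, hx2⟩⟩
  · rintro Z1 ⟨hZ1, Y1, hY1, hs1⟩ Z2 ⟨hZ2, Y2, hY2, hs2⟩
    refine ⟨fun k => h.inter _ (hZ1 k) _ (hZ2 k), _, hF.inter Y1 hY1 Y2 hY2, ?_⟩
    intro b hb hne
    obtain ⟨c, hc, hcne, hcb, n, hn⟩ := hs1 b hb hne
    obtain ⟨d, hd, hdne, hdc, n', hn'⟩ := hs2 c hc hcne
    refine ⟨d, hd, hdne, hdc.trans hcb, max n n', fun k hk x hx => ?_⟩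
    obtain ⟨hxd, ⟨hx1, hx2⟩, hxW⟩ := hx
    exact ⟨hn k (le_trans (le_max_left _ _) hk) ⟨hdc hxd, hx1, hxW⟩,
      hn' k (le_trans (le_max_right _ _) hk) ⟨hxd, hx2, hxW⟩⟩
  · rintro Z' ⟨hZ', Z, hZ, hsub⟩ Z'' hZ'' hsub'
    exact ⟨hZ'', Z, hZ, Ult_sub_trans hsub hsub'⟩
  · exact ⟨fun _ => h.univ, _, hF.univ, Ult_sub_of_le fun k => subset_univ _⟩

end

theorem claimUlt : ClaimUlt := by
  intro X 𝓑 𝓕₀ hA hC hF₀
  obtain ⟨𝓕, hsub, hmax⟩ := zorn_subset_nonempty {𝓕 : Set (ℕ → Set X) | IsFil 𝓑 𝓕} (by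
    intro C hC' hchain hne
    refine ⟨⋃₀ C, ⟨?_, ?_, ?_, ?_, ?_⟩, fun s hs => subset_sUnion_of_mem hs⟩
    · rintro Z ⟨t, ht, hZ⟩
      exact (hC' ht).nm Z hZ
    · rintro Z ⟨t, ht, hZ⟩
      exact (hC' ht).inf Z hZ
    · rintro Z ⟨t, ht, hZ⟩ Z' ⟨t', ht', hZ'⟩
      rcases hchain.total ht ht' with h | h
      · exact ⟨t', ht', (hC' ht').inter Z (h hZ) Z' hZ'⟩
      · exact ⟨t, ht, (hC' ht).inter Z hZ Z' (h hZ')⟩
    · rintro Z ⟨t, ht, hZ⟩ Z' hZ' hs
      exact ⟨t, ht, (hC' ht).up Z hZ Z' hZ' hs⟩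
    · obtain ⟨t, ht⟩ := hne
      exact ⟨t, ht, (hC' ht).univ⟩) 𝓕₀ hF₀
  have hF : IsFil 𝓑 𝓕 := hmax.prop
  have key : ∀ W, Nm 𝓑 W → (∀ Z ∈ 𝓕, InfOn 𝓑 Set.univ (fun k => Z k ∩ W k)) → W ∈ 𝓕 := by
    intro W hW hinf
    have h1 : Ult_gen 𝓑 𝓕 W ⊆ 𝓕 := by
      apply hmax.le_of_ge (y := Ult_gen 𝓑 𝓕 W) (Ult_gen_fil hA hF hinf)
      intro Z hZ
      exact ⟨hF.nm Z hZ, Z, hZ, Ult_sub_of_le fun k => inter_subset_left⟩
    exact h1 ⟨hW, _, hF.univ, Ult_sub_of_le fun k => inter_subset_right⟩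
  refine ⟨𝓕, hsub, hF, ?_⟩
  intro Y hY
  let D : Set (Set X) := {b | b ∈ 𝓑 ∧ (fun k => Y k ∪ bᶜ) ∈ 𝓕}
  obtain ⟨bh, hbh, hub, hlub⟩ := hC D fun b hb => hb.1
  refine ⟨bh, hbh, ?_, ?_⟩
  · apply key _ fun k => Ult_union hA (hY k) (hA.compl _ hbh)
    intro Z hZ c hc hcne _ n
    by_cases hcb : c ⊆ bh
    · have hex : ∃ d ∈ D, (c ∩ d).Nonempty := by
        by_contra hno
        push Not at hno
        have h1 : bh ⊆ cᶜ := hlub _ (hA.compl _ hc) fun d hd x hxd hxc =>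
          (Set.eq_empty_iff_forall_notMem.1 (hno d hd)) x ⟨hxc, hxd⟩
        obtain ⟨x, hx⟩ := hcne
        exact h1 (hcb hx) hx
      obtain ⟨d, hd, hcd⟩ := hex
      obtain ⟨k, hk, x, hx1, hx2⟩ := hF.inf _ (hF.inter Z hZ _ hd.2) (c ∩ d)
        (hA.inter _ hc _ hd.1) hcd (subset_univ _) n
      refine ⟨k, hk, x, hx1.1, hx2.1, ?_⟩
      rcases hx2.2 with h | h
      · exact Or.inl h
      · exact absurd hx1.2 h
    · obtain ⟨y, hyc, hyb⟩ := not_subset.1 hcb
      obtain ⟨k, hk, x, hx1, hx2⟩ := hF.inf Z hZ (c \ bh) (Ult_sdiff hA hc hbh) ⟨y, hyc, hyb⟩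
        (subset_univ _) n
      exact ⟨k, hk, x, hx1.1, hx2, Or.inr hx1.2⟩
  · apply key _ fun k => Ult_union hA (hA.compl _ (hY k)) hbh
    intro Z hZ c hc hcne _ n
    by_contra hno
    push Not at hno
    have hno' : ∀ k, n ≤ k → ∀ x ∈ c, x ∈ Z k → x ∈ Y k ∧ x ∉ bh := by
      intro k hk x hxc hxZ
      have h1 := Set.eq_empty_iff_forall_notMem.1 (hno k hk) x
      constructor
      · by_contra hxY
        exact h1 ⟨hxc, hxZ, Or.inl hxY⟩
      · intro hxb
        exact h1 ⟨hxc, hxZ, Or.inr hxb⟩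
    have hcD : c ∈ D := by
      refine ⟨hc, hF.up Z hZ _ (fun k => Ult_union hA (hY k) (hA.compl _ hc)) ?_⟩
      intro b hb hbne
      refine ⟨b, hb, hbne, subset_rfl, n, fun k hk x hx => ?_⟩
      by_cases hxc : x ∈ c
      · exact Or.inl (hno' k hk x hxc hx.2).1
      · exact Or.inr hxc
    obtain ⟨k, hk, x, hxc, hxZ⟩ := hF.inf Z hZ c hc hcne (subset_univ _) n
    exact (hno' k hk x hxc hxZ).2 (hub c hcD hxc)

section

variable {L : Type} [LinearOrder L]

theorem Ult_Iic (hR : RegL L) (β : L) : #(Iic β) < #L := by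
  have h : (Iic β : Set L) = insert β (Iio β) := by
    ext x; simp [le_iff_eq_or_lt]
  rw [h]
  calc #(insert β (Iio β) : Set L) ≤ #(Iio β) + 1 := Cardinal.mk_insert_le
    _ < #L := Cardinal.add_lt_of_lt hR.unc.le (hR.seg β)
        (Cardinal.one_lt_aleph0.trans hR.unc)

theorem Ult_bdd (hR : RegL L) {K : Type} (hK : #K < #L) (g : K → L) :
    ∃ α, ∀ k, g k < α := by
  by_contra hc
  push Not at hc
  have h1 : (Set.univ : Set L) = ⋃ k, Iic (g k) := by
    ext α; simp only [mem_univ, mem_iUnion, mem_Iic, true_iff]; exact hc α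
  have h2 : #(⋃ k, Iic (g k) : Set L) < #L :=
    (card_iUnion_lt_iff_forall_of_isRegular hR.reg hK).2 fun k => Ult_Iic hR _
  rw [← h1, mk_univ] at h2
  exact lt_irrefl _ h2

end

theorem claimSize : ClaimSize := by
  intro L _ _ hR M hLM hpow X 𝓓 𝓑 hA hC hD hcc hcard
  have hfam : ∀ b : 𝓑, ∃ N : Set (Set X), N ⊆ 𝓓 ∧ #N < #L ∧
      ∀ c ∈ 𝓑, (∀ m ∈ N, m ⊆ c) ↔ b.1 ⊆ c := by
    rintro ⟨b, hb⟩
    obtain ⟨N, hN⟩ := zorn_subset {N : Set (Set X) | (∀ m ∈ N, m ∈ 𝓓 ∧ m.Nonempty ∧ m ⊆ b) ∧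
        ∀ m ∈ N, ∀ m' ∈ N, (m ∩ m').Nonempty → m = m'} (by
      intro C hC hchain
      refine ⟨⋃₀ C, ⟨?_, ?_⟩, fun s hs => subset_sUnion_of_mem hs⟩
      · rintro m ⟨N, hN, hm⟩
        exact (hC hN).1 m hm
      · rintro m ⟨N, hN, hm⟩ m' ⟨N', hN', hm'⟩ hmm
        rcases hchain.total hN hN' with h | h
        · exact (hC hN').2 m (h hm) m' hm' hmm
        · exact (hC hN).2 m hm m' (h hm') hmm)
    refine ⟨N, fun m hm => (hN.prop.1 m hm).1, ?_, ?_⟩
    · by_contra hc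
      push Not at hc
      obtain ⟨f⟩ := hc
      obtain ⟨i, j, hij, hne⟩ := hcc (fun i => (f i).1)
        (fun i => ⟨hD.1 (hN.prop.1 _ (f i).2).1, (hN.prop.1 _ (f i).2).2.1⟩)
      exact hij (f.injective (Subtype.ext (hN.prop.2 _ (f i).2 _ (f j).2 hne)))
    · intro c hc
      constructor
      · intro hmc
        by_contra hbc
        obtain ⟨x, hxb, hxc⟩ := not_subset.1 hbc
        obtain ⟨d, hd, hdne, hdb⟩ := hD.2 (b \ c) (Ult_sdiff hA hb hc) ⟨x, hxb, hxc⟩
        have hdN : d ∈ N := by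
          have hins : insert d N ⊆ N := by
            apply hN.le_of_ge (y := insert d N) ?_ (subset_insert _ _)
            have key : ∀ m ∈ N, ¬ (d ∩ m).Nonempty := by
              rintro m hm ⟨y, hyd, hym⟩
              exact (hdb hyd).2 (hmc m hm hym)
            refine ⟨?_, ?_⟩
            · intro m hm
              rcases hm with rfl | hm
              · exact ⟨hd, hdne, hdb.trans sdiff_subset⟩
              · exact hN.prop.1 m hm
            · intro m hm m' hm' hmm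
              rcases hm with rfl | hm <;> rcases hm' with rfl | hm'
              · rfl
              · exact absurd hmm (key m' hm')
              · exact absurd (by rwa [inter_comm] at hmm) (key m hm)
              · exact hN.prop.2 m hm m' hm' hmm
          exact hins (mem_insert _ _)
        obtain ⟨y, hy⟩ := hdne
        exact (hdb hy).2 (hmc d hdN hy)
      · intro hbc m hm
        exact (hN.prop.1 m hm).2.2.trans hbc
  have hcode : ∀ b : 𝓑, ∃ (p : Σ ρ : L, (Iio ρ → Option 𝓓)),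
      ∀ c ∈ 𝓑, (∀ i d, p.2 i = some d → d.1 ⊆ c) ↔ b.1 ⊆ c := by
    intro b
    obtain ⟨N, hND, hNL, hNc⟩ := hfam b
    obtain ⟨g⟩ := hNL.le
    obtain ⟨ρ, hρ⟩ := Ult_bdd hR hNL g
    classical
    refine ⟨⟨ρ, fun i => if h : ∃ m : N, g m = i.1 then some ⟨h.choose.1, hND h.choose.2⟩
      else none⟩, ?_⟩
    intro c hc
    rw [← hNc c hc]
    constructor
    · intro h m hm
      have hex : ∃ m' : N, g m' = g ⟨m, hm⟩ := ⟨_, rfl⟩
      have h1 := h ⟨g ⟨m, hm⟩, hρ _⟩ ⟨hex.choose.1, hND hex.choose.2⟩ (dif_pos hex)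
      have h2 : hex.choose = ⟨m, hm⟩ := g.injective hex.choose_spec
      have h3 : hex.choose.1 = m := by rw [h2]
      rwa [h3] at h1
    · intro h i d hd
      by_cases hex : ∃ m : N, g m = i.1
      · simp only [dif_pos hex] at hd
        rw [← Option.some.inj hd]
        exact h _ hex.choose.2
      · simp only [dif_neg hex] at hd
        exact absurd hd (by simp)
  choose F hF using hcode
  have hinj : Function.Injective F := by
    intro b b' hbb
    apply Subtype.ext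
    apply Subset.antisymm
    · rw [← hF b b'.1 b'.2, hbb, hF b' b'.1 b'.2]
    · rw [← hF b' b.1 b.2, ← hbb, hF b b.1 b.2]
  have h0 : ℵ₀ ≤ #M := hR.unc.le.trans hLM
  have hopt : #(Option 𝓓) ≤ #M := by
    rw [mk_option]
    calc #𝓓 + 1 ≤ #M + 1 := by gcongr
      _ = #M := add_one_eq h0
  calc #𝓑 ≤ #(Σ ρ : L, (Iio ρ → Option 𝓓)) := mk_le_of_injective hinj
    _ = Cardinal.sum fun ρ : L => #(Iio ρ → Option 𝓓) := mk_sigma _
    _ ≤ Cardinal.sum fun _ : L => #M := by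
        apply Cardinal.sum_le_sum
        intro ρ
        refine le_trans ?_ (hpow ρ)
        rw [← power_def, ← power_def]
        exact power_le_power_right hopt
    _ = #L * #M := by rw [sum_const']
    _ ≤ #M * #M := by gcongr
    _ = #M := mul_eq_self h0

end Pool.Agent.Work.MP_dbe197_lc

end

section

/-!
# Item A5: union of the stages, uniformization of finite functions, chain condition
-/

namespace Pool.Agent.Work.MP_dbe197_lc

open Set Cardinal

section Reg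

variable {L : Type} [LinearOrder L]

theorem Union_Iic (hR : RegL L) (β : L) : #(Iic β) < #L := by
  have h : (Iic β : Set L) = insert β (Iio β) := by
    ext x; simp [le_iff_eq_or_lt]
  rw [h]
  calc #(insert β (Iio β) : Set L) ≤ #(Iio β) + 1 := Cardinal.mk_insert_le
    _ < #L := Cardinal.add_lt_of_lt hR.unc.le (hR.seg β)
        (Cardinal.one_lt_aleph0.trans hR.unc)

theorem Union_bdd (hR : RegL L) {K : Type} (hK : #K < #L) (g : K → L) :
    ∃ α, ∀ k, g k < α := by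
  by_contra hc
  push Not at hc
  have h1 : (univ : Set L) = ⋃ k, Iic (g k) := by
    ext α; simp only [mem_univ, mem_iUnion, mem_Iic, true_iff]; exact hc α
  have h2 : #(⋃ k, Iic (g k) : Set L) < #L :=
    (card_iUnion_lt_iff_forall_of_isRegular hR.reg hK).2 fun k => Union_Iic hR _
  rw [← h1, mk_univ] at h2
  exact lt_irrefl _ h2

theorem Union_pigeon (hR : RegL L) {K : Type} (hK : #K < #L) (S : K → Set L)
    (h : #(⋃ k, S k : Set L) = #L) : ∃ k, #(S k) = #L := by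
  by_contra hc
  push Not at hc
  have h2 : #(⋃ k, S k : Set L) < #L :=
    (card_iUnion_lt_iff_forall_of_isRegular hR.reg hK).2 fun k =>
      lt_of_le_of_ne (mk_set_le _) (hc k)
  exact absurd h (ne_of_lt h2)

theorem Union_bij {S : Set L} (h : #S = #L) :
    ∃ g : L → L, Function.Injective g ∧ ∀ i, g i ∈ S := by
  obtain ⟨e⟩ := Cardinal.eq.1 h
  exact ⟨fun i => (e.symm i).1, fun i j hij => e.symm.injective (Subtype.ext hij),
    fun i => (e.symm i).2⟩

end Reg

theorem claimUnion : ClaimUnion := by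
  intro L _ _ hR X 𝓑 hA hReg hCC
  have hne : Nonempty L := by
    rw [← mk_ne_zero_iff]
    exact (aleph0_pos.trans hR.unc).ne'
  have mono : ∀ α β, α ≤ β → 𝓑 α ⊆ 𝓑 β := by
    intro α β h
    rcases h.eq_or_lt with rfl | h
    · exact subset_rfl
    · exact (hReg α β h).1
  have small : ∀ (K : Type) (f : K → Set X), #K < #L → (∀ k, f k ∈ ⋃ α, 𝓑 α) →
      ∃ α, ∀ k, f k ∈ 𝓑 α := by
    intro K f hK hf
    have hf' : ∀ k, ∃ α, f k ∈ 𝓑 α := fun k => mem_iUnion.1 (hf k)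
    choose g hg using hf'
    obtain ⟨α, hα⟩ := Union_bdd hR hK g
    exact ⟨α, fun k => mono _ _ (hα k).le (hg k)⟩
  have alg : IsAlg (⋃ α, 𝓑 α) := by
    refine ⟨?_, ?_, ?_⟩
    · obtain ⟨α⟩ := hne
      exact mem_iUnion.2 ⟨α, (hA α).1.univ⟩
    · intro b hb
      obtain ⟨α, hα⟩ := mem_iUnion.1 hb
      exact mem_iUnion.2 ⟨α, (hA α).1.compl b hα⟩
    · intro b hb c hc
      obtain ⟨α, hα⟩ := mem_iUnion.1 hb
      obtain ⟨β, hβ⟩ := mem_iUnion.1 hc
      exact mem_iUnion.2 ⟨max α β, (hA _).1.inter b (mono _ _ (le_max_left _ _) hα) c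
        (mono _ _ (le_max_right _ _) hβ)⟩
  have reg : ∀ α, Reg (𝓑 α) (⋃ α, 𝓑 α) := by
    intro α
    refine ⟨subset_iUnion _ α, ?_⟩
    intro b' hb' hne'
    obtain ⟨β, hβ⟩ := mem_iUnion.1 hb'
    rcases lt_or_ge α β with h | h
    · exact (hReg α β h).2 b' hβ hne'
    · refine ⟨b', mono _ _ h hβ, hne', fun c _ hc hcb => ?_⟩
      rwa [inter_eq_left.2 hcb]
  refine ⟨alg, ?_, reg, small⟩
  intro 𝓢 h𝓢
  obtain ⟨M, hM⟩ := zorn_subset {M : Set (Set X) | (∀ m ∈ M, m ∈ (⋃ α, 𝓑 α) ∧ m.Nonempty ∧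
      ∃ t ∈ 𝓢, m ⊆ t) ∧ ∀ m ∈ M, ∀ m' ∈ M, (m ∩ m').Nonempty → m = m'} (by
    intro C hC hchain
    refine ⟨⋃₀ C, ⟨?_, ?_⟩, fun s hs => subset_sUnion_of_mem hs⟩
    · rintro m ⟨N, hN, hm⟩
      exact (hC hN).1 m hm
    · rintro m ⟨N, hN, hm⟩ m' ⟨N', hN', hm'⟩ hmm
      rcases hchain.total hN hN' with h | h
      · exact (hC hN').2 m (h hm) m' hm' hmm
      · exact (hC hN).2 m hm m' (h hm') hmm)
  have hMcard : #M < #L := by
    by_contra hc
    push Not at hc
    obtain ⟨e⟩ := hc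
    obtain ⟨i, j, hij, hne'⟩ := hCC (fun i => (e i).1)
      (fun i => ⟨(hM.prop.1 _ (e i).2).1, (hM.prop.1 _ (e i).2).2.1⟩)
    exact hij (e.injective (Subtype.ext (hM.prop.2 _ (e i).2 _ (e j).2 hne')))
  obtain ⟨α, hα⟩ := small M (fun m => m.1) hMcard (fun m => (hM.prop.1 _ m.2).1)
  obtain ⟨s, hs, hs1, hs2⟩ := (hA α).2 M (fun m hm => hα ⟨m, hm⟩)
  have hsU : s ∈ ⋃ α, 𝓑 α := mem_iUnion.2 ⟨α, hs⟩
  refine ⟨s, hsU, ?_, ?_⟩
  · intro t ht
    by_contra hts
    obtain ⟨x, hxt, hxs⟩ := not_subset.1 hts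
    have hm0 : t ∩ sᶜ ∈ M := by
      have hins : insert (t ∩ sᶜ) M ⊆ M := by
        apply hM.le_of_ge (y := insert (t ∩ sᶜ) M) ?_ (subset_insert _ _)
        refine ⟨?_, ?_⟩
        · intro m hm
          rcases hm with rfl | hm
          · exact ⟨alg.inter _ (h𝓢 ht) _ (alg.compl _ hsU), ⟨x, hxt, hxs⟩, t, ht,
              inter_subset_left⟩
          · exact hM.prop.1 m hm
        · have key : ∀ m ∈ M, ¬ (t ∩ sᶜ ∩ m).Nonempty := by
            rintro m hm ⟨y, ⟨_, hy⟩, hym⟩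
            exact hy (hs1 m hm hym)
          intro m hm m' hm' hmm
          rcases hm with rfl | hm <;> rcases hm' with rfl | hm'
          · rfl
          · exact absurd hmm (key m' hm')
          · exact absurd (by rwa [inter_comm] at hmm) (key m hm)
          · exact hM.prop.2 m hm m' hm' hmm
      exact hins (mem_insert _ _)
    exact hxs (hs1 _ hm0 ⟨hxt, hxs⟩)
  · intro b hb hb2
    by_contra hsb
    obtain ⟨x, hxs, hxb⟩ := not_subset.1 hsb
    obtain ⟨c, hc, hcne, hc2⟩ := (reg α).2 (s ∩ bᶜ) (alg.inter _ hsU _ (alg.compl _ hb))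
      ⟨x, hxs, hxb⟩
    have hcs : c ∩ s ∈ 𝓑 α := (hA α).1.inter _ hc _ hs
    obtain ⟨y, hyc, hys, hyb⟩ := hc2 c hc hcne subset_rfl
    have hex : ∃ m ∈ M, (c ∩ s ∩ m).Nonempty := by
      by_contra hno
      push Not at hno
      have : s ⊆ (c ∩ s)ᶜ := hs2 _ ((hA α).1.compl _ hcs) (by
        intro m hm z hz hz'
        exact (Set.eq_empty_iff_forall_notMem.1 (hno m hm)) z ⟨hz', hz⟩)
      exact this hys ⟨hyc, hys⟩
    obtain ⟨m, hm, z, ⟨hzc, hzs⟩, hzm⟩ := hex
    obtain ⟨w, ⟨hwc, hwm⟩, hws, hwb⟩ := hc2 (c ∩ m) ((hA α).1.inter _ hc _ (hα ⟨m, hm⟩))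
      ⟨z, hzc, hzm⟩ inter_subset_left
    obtain ⟨t, ht, hmt⟩ := (hM.prop.1 m hm).2.2
    exact hwb (hb2 t ht (hmt hwm))

theorem Union_delta_aux {L : Type} [LinearOrder L] (hR : RegL L) (I V : Type) [Countable V] :
    ∀ (n : ℕ) (f : L → Fn I V), (∀ i, (f i).dom.ncard ≤ n) →
    ∃ A : Set L, #A = #L ∧ ∀ i ∈ A, ∀ j ∈ A, Fn.Compat (f i) (f j) := by
  intro n
  induction n with
  | zero =>
    intro f hf
    refine ⟨univ, mk_univ, fun i _ j _ x v w hv _ => ?_⟩
    have h1 : (f i).dom = ∅ := by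
      rw [← Set.ncard_eq_zero (f i).dom_fin]
      exact Nat.le_zero.1 (hf i)
    have h2 : x ∈ (f i).dom := Fn.mem_dom.2 ⟨v, hv⟩
    rw [h1] at h2
    exact absurd h2 (notMem_empty _)
  | succ n ih =>
    intro f hf
    by_cases hx : ∃ x : I, #{i | x ∈ (f i).dom} = #L
    · obtain ⟨x, hx⟩ := hx
      have hV : #V < #L := lt_of_le_of_lt mk_le_aleph0 hR.unc
      obtain ⟨v, hv⟩ := Union_pigeon hR hV (fun v => {i | (f i).f x = some v}) (by
        rw [← hx]
        congr 2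
        ext i
        simp only [mem_iUnion, mem_ofPred_eq]
        exact Fn.mem_dom.symm)
      obtain ⟨g, hg, hgv⟩ := Union_bij hv
      obtain ⟨A, hA, hA2⟩ := ih (fun i => Fn.restr {x}ᶜ (f (g i))) (by
        intro i
        have hxi : x ∈ (f (g i)).dom := Fn.mem_dom.2 ⟨v, hgv i⟩
        have h1 : (Fn.restr {x}ᶜ (f (g i))).dom = (f (g i)).dom \ {x} := by
          rw [Fn.restr_dom, inter_comm]; rfl
        rw [h1, Set.ncard_sdiff_singleton_of_mem hxi]
        have := hf (g i)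
        omega)
      refine ⟨g '' A, ?_, ?_⟩
      · rw [mk_image_eq hg, hA]
      · rintro _ ⟨i, hi, rfl⟩ _ ⟨j, hj, rfl⟩ y p q hp hq
        by_cases hyx : y = x
        · subst hyx
          have e1 : (f (g i)).f y = some v := hgv i
          have e2 : (f (g j)).f y = some v := hgv j
          rw [e1] at hp
          rw [e2] at hq
          exact (Option.some.inj hp).symm.trans (Option.some.inj hq)
        · exact hA2 i hi j hj y p q (Fn.restr_f_eq_some.2 ⟨hyx, hp⟩)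
            (Fn.restr_f_eq_some.2 ⟨hyx, hq⟩)
    · push Not at hx
      have hx' : ∀ x : I, #{i | x ∈ (f i).dom} < #L := fun x =>
        lt_of_le_of_ne (mk_set_le _) (hx x)
      obtain ⟨A, hA⟩ := zorn_subset {A : Set L | ∀ i ∈ A, ∀ j ∈ A,
          ((f i).dom ∩ (f j).dom).Nonempty → i = j} (by
        intro C hC hchain
        refine ⟨⋃₀ C, ?_, fun s hs => subset_sUnion_of_mem hs⟩
        rintro m ⟨N, hN, hm⟩ m' ⟨N', hN', hm'⟩ hmm
        rcases hchain.total hN hN' with h | h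
        · exact hC hN' m (h hm) m' hm' hmm
        · exact hC hN m hm m' (h hm') hmm)
      refine ⟨A, ?_, ?_⟩
      · by_contra hcard
        have hAlt : #A < #L := lt_of_le_of_ne (mk_set_le _) hcard
        -- the union of the domains
        have hD : #(⋃ i : A, (f i.1).dom : Set I) < #L := by
          rw [card_iUnion_lt_iff_forall_of_isRegular hR.reg hAlt]
          intro i
          have := (f i.1).dom_fin
          exact (this.lt_aleph0).trans hR.unc
        have hE : #(⋃ x : (⋃ i : A, (f i.1).dom : Set I), {i | x.1 ∈ (f i).dom} : Set L) < #L := by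
          rw [card_iUnion_lt_iff_forall_of_isRegular hR.reg hD]
          intro x
          exact hx' x.1
        have hAE : #(A ∪ (⋃ x : (⋃ i : A, (f i.1).dom : Set I), {i | x.1 ∈ (f i).dom}) : Set L)
            < #L :=
          lt_of_le_of_lt (mk_union_le _ _) (add_lt_of_lt hR.unc.le hAlt hE)
        obtain ⟨k, hk⟩ : ∃ k, k ∉ (A ∪ (⋃ x : (⋃ i : A, (f i.1).dom : Set I),
            {i | x.1 ∈ (f i).dom}) : Set L) := by
          by_contra hno
          push Not at hno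
          rw [Set.eq_univ_of_forall hno, mk_univ] at hAE
          exact lt_irrefl _ hAE
        have hk1 : k ∉ A := fun h => hk (Or.inl h)
        have hk2 : ∀ i ∈ A, ¬ ((f i).dom ∩ (f k).dom).Nonempty := by
          rintro i hi ⟨x, hxi, hxk⟩
          exact hk (Or.inr (mem_iUnion.2 ⟨⟨x, mem_iUnion.2 ⟨⟨i, hi⟩, hxi⟩⟩, hxk⟩))
        have hins : insert k A ⊆ A := by
          apply hA.le_of_ge (y := insert k A) ?_ (subset_insert _ _)
          intro i hi j hj hij
          rcases hi with rfl | hi <;> rcases hj with rfl | hj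
          · rfl
          · exact absurd (by rwa [inter_comm] at hij) (hk2 j hj)
          · exact absurd hij (hk2 i hi)
          · exact hA.prop i hi j hj hij
        exact hk1 (hins (mem_insert _ _))
      · intro i hi j hj y p q hp hq
        have hij : i = j := hA.prop i hi j hj ⟨y, Fn.mem_dom.2 ⟨p, hp⟩, Fn.mem_dom.2 ⟨q, hq⟩⟩
        subst hij
        rw [hp] at hq
        exact Option.some.inj hq

theorem claimDelta : ClaimDelta := by
  intro L _ _ hR I V _ f
  obtain ⟨n, hn⟩ := Union_pigeon hR (K := ℕ) (by rw [mk_nat]; exact hR.unc)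
    (fun n => {i | (f i).dom.ncard = n}) (by
      have : (⋃ n, {i | (f i).dom.ncard = n} : Set L) = Set.univ := by
        ext i; simp
      rw [this, mk_univ])
  obtain ⟨g, hg, hgn⟩ := Union_bij hn
  obtain ⟨A, hA, hA2⟩ := Union_delta_aux hR I V n (fun i => f (g i)) (fun i => (hgn i).le)
  refine ⟨g '' A, ?_, ?_⟩
  · rw [mk_image_eq hg, hA]
  · rintro _ ⟨i, hi, rfl⟩ _ ⟨j, hj, rfl⟩
    exact hA2 i hi j hj

theorem claimCCint (hD : ClaimDelta) (hU : ClaimUfEx) : ClaimCCint := by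
  intro A L J _ _ _ hR hCC 𝓑 hInt f hf
  choose a ha F hF using fun i => hInt (f i) (hf i).1 (hf i).2
  obtain ⟨S, hS, hS2⟩ := hD L hR (L × J) (Finset ℕ) F
  obtain ⟨g, hg, hgS⟩ := Union_bij hS
  obtain ⟨i, j, hij, hne⟩ := hCC (fun i => a (g i)) (fun i => ha (g i))
  obtain ⟨u, hu⟩ := hU A _ hne
  refine ⟨g i, g j, fun h => hij (hg h), ?_⟩
  have hcomp := hS2 (g i) (hgS i) (g j) (hgS j)
  let x : XX A L J := (u, fun p => (((F (g i)).union (F (g j))).f p).getD ∅)
  refine ⟨x, hF (g i) ⟨u.up _ _ inf_le_left hu, fun p v hv => ?_⟩,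
    hF (g j) ⟨u.up _ _ inf_le_right hu, fun p v hv => ?_⟩⟩
  · show (((F (g i)).union (F (g j))).f p).getD ∅ = v
    rw [Fn.union_f_of_some hv]; rfl
  · show (((F (g i)).union (F (g j))).f p).getD ∅ = v
    rw [Fn.union_le_right hcomp p v hv]; rfl

end Pool.Agent.Work.MP_dbe197_lc

end

section

/-!
# The Boolean valued theorem
-/

namespace Pool.Agent.Work.MP_dbe197_lc

open Set Cardinal

theorem cSun : ClaimSun := claimSun claimN (claimHead claimN claimSmall)
theorem cCCM : ClaimCCM := claimCCM claimN cSun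
theorem cHead : ClaimHead := claimHead claimN claimSmall
theorem cBdd : ClaimBdd := claimBdd claimN cHead
theorem cCard : ClaimCard := claimCard claimN claimSmall cBdd
theorem cDL : ClaimDL := claimDL claimClos
theorem cOm2 : ClaimOm2 := claimOm2 claimN cDL claimColl
theorem cCf : ClaimCf := claimCf claimN cDL claimColl
theorem cClubU : ClaimClubU := claimClubU claimN
theorem cAppS : ClaimAppS := claimAppS claimClos claimAppN
theorem cApp : ClaimApp := claimApp cAppS claimFusion claimMixT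
theorem cCover : ClaimCover := claimCover cCard
theorem cGuess : ClaimGuess := claimGuess claimClos cApp
theorem cLim : ClaimLim := claimLim claimN claimSmall cHead cBdd cGuess
theorem cThin : ClaimThin := claimThin claimN cCover cLim
theorem cKur : ClaimKur := claimKur claimN cDL cClubU
theorem cTP : ClaimTP := claimTP_of cThin cKur claimMixBr
theorem cKH : ClaimKH := claimKH claimN claimSmall cSun cBdd cDL cCover cApp
theorem cSRd : ClaimSRd := claimSRd claimN claimSmall cSun cDL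
theorem cSRA : ClaimSRA := claimSRA claimN cHead cBdd cSRd
theorem cSR : ClaimSR := claimSR claimN cDL cCf claimMix cSRA
theorem cPos : ClaimPos := claimPos cDL
theorem cTree : ClaimTree := claimTree claimN claimSmall
theorem cNst : ClaimNst := claimNst cPos cTree claimMixT
theorem cDSS : ClaimDSS := claimDSS claimN cCf cClubU claimNd cNst
theorem cCCint : ClaimCCint := claimCCint claimDelta claimUfEx
theorem cStep1 : ClaimStep1 := claimStep1 claimUfEx
theorem cRec : ClaimRec :=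
  claimRec claimUfEx claimCompl claimReg claimUlt claimSize cStep1 (claimStep2 cStep1)
    (claimStep3 cStep1) cCCint
theorem cA : ClaimA :=
  claimA claimUfEx claimUnion cRec (claimRepr claimUfEx) claimTrans cCCint
    (claimTge claimReg claimTrans) (claimTUle claimReg claimTrans)
    (claimUge claimReg claimTrans) (claimCgt claimReg claimTrans)

/-- The Boolean valued theorem. -/
theorem main1 (κ : Cardinal.{0}) (hκ : LC κ) :
    ∃ (B : Type) (_ : CompleteBooleanAlgebra B), Nontrivial B ∧ AllHold (OO κ) B :=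
  main_of cCCM cOm2 cTP cKH cSR cDSS cA κ hκ

end Pool.Agent.Work.MP_dbe197_lc

end

section

/-!
# omega, omega_1, omega_2 in the Boolean valued universe
-/

namespace Pool.Agent.Work.MP_dbe197_lc

open Set Cardinal BSet

section Ev0

variable {B : Type} [CompleteBooleanAlgebra B]

/-! ### Extensional functions -/

theorem Ev0_ext_const (b : B) : Extl (fun _ : BSet B => b) := fun _ _ => inf_le_right

theorem Ev0_ext_inf {f g : BSet B → B} (hf : Extl f) (hg : Extl g) :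
    Extl (fun x => f x ⊓ g x) := by
  intro x y
  exact le_inf (le_trans (inf_le_inf_left _ inf_le_left) (hf x y))
    (le_trans (inf_le_inf_left _ inf_le_right) (hg x y))

theorem Ev0_ext_sup {f g : BSet B → B} (hf : Extl f) (hg : Extl g) :
    Extl (fun x => f x ⊔ g x) := by
  intro x y
  show eqv x y ⊓ (f x ⊔ g x) ≤ _
  rw [inf_sup_left]
  exact sup_le_sup (hf x y) (hg x y)

theorem Ev0_ext_compl {f : BSet B → B} (hf : Extl f) : Extl (fun x => (f x)ᶜ) := by
  intro x y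
  show eqv x y ⊓ (f x)ᶜ ≤ (f y)ᶜ
  rw [le_compl_iff_disjoint_right, disjoint_iff]
  have h1 : eqv x y ⊓ f y ≤ f x := by
    rw [eqv_symm]
    exact hf y x
  rw [← le_bot_iff]
  calc eqv x y ⊓ (f x)ᶜ ⊓ f y ≤ f x ⊓ (f x)ᶜ := by
        refine le_inf (le_trans ?_ h1) (inf_le_left.trans inf_le_right)
        exact le_inf (inf_le_left.trans inf_le_left) inf_le_right
    _ = ⊥ := inf_compl_eq_bot

theorem Ev0_ext_iInf {ι : Sort*} {f : ι → BSet B → B} (h : ∀ i, Extl (f i)) :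
    Extl (fun x => ⨅ i, f i x) := by
  intro x y
  exact le_iInf fun i => le_trans (inf_le_inf_left _ (iInf_le _ i)) (h i x y)

theorem Ev0_ext_iSup {ι : Sort*} {f : ι → BSet B → B} (h : ∀ i, Extl (f i)) :
    Extl (fun x => ⨆ i, f i x) := by
  intro x y
  show eqv x y ⊓ (⨆ i, f i x) ≤ _
  rw [inf_iSup_eq]
  exact iSup_mono fun i => h i x y

theorem Ev0_ext_meml (a : BSet B) : Extl (fun x => mem x a) := fun x y => mem_congr_left x y a

theorem Ev0_ext_memr (a : BSet B) : Extl (fun x => mem a x) := fun x y => mem_congr_right x y a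

theorem Ev0_ext_subl (a : BSet B) : Extl (fun x => sub x a) := by
  unfold sub
  exact Ev0_ext_iInf fun z => Ev0_ext_sup (Ev0_ext_compl (Ev0_ext_memr _)) (Ev0_ext_const _)

theorem Ev0_ext_subr (a : BSet B) : Extl (fun x => sub a x) := by
  unfold sub
  exact Ev0_ext_iInf fun z => Ev0_ext_sup (Ev0_ext_const _) (Ev0_ext_memr _)

theorem Ev0_ext_R (hC : ClaimCongr) (r a b r' a' b' : BSet B) :
    eqv r r' ⊓ (eqv a a' ⊓ eqv b b') ⊓ BV.R r a b ≤ BV.R r' a' b' := by
  have h := hC B (F.r 0 1 2) (cons r (cons a (cons b (fun _ => r))))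
    (cons r' (cons a' (cons b' (fun _ => r'))))
  rw [Val_r, Val_r] at h
  refine le_trans (inf_le_inf_right _ ?_) h
  refine le_iInf fun n => ?_
  rcases n with _ | _ | _ | n
  · exact inf_le_left
  · exact inf_le_right.trans inf_le_left
  · exact inf_le_right.trans inf_le_right
  · exact inf_le_left

theorem Ev0_ext_R1 (hC : ClaimCongr) (a b : BSet B) : Extl (fun x => BV.R x a b) := by
  intro x y
  refine le_trans (inf_le_inf_right _ ?_) (Ev0_ext_R hC x a b y a b)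
  rw [eqv_refl, eqv_refl, inf_top_eq, inf_top_eq]

theorem Ev0_ext_R2 (hC : ClaimCongr) (r b : BSet B) : Extl (fun x => BV.R r x b) := by
  intro x y
  refine le_trans (inf_le_inf_right _ ?_) (Ev0_ext_R hC r x b r y b)
  rw [eqv_refl, eqv_refl, inf_top_eq, top_inf_eq]

theorem Ev0_ext_R3 (hC : ClaimCongr) (r a : BSet B) : Extl (fun x => BV.R r a x) := by
  intro x y
  refine le_trans (inf_le_inf_right _ ?_) (Ev0_ext_R hC r a x r a y)
  rw [eqv_refl, eqv_refl, top_inf_eq, top_inf_eq]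

/-! ### Canonical names -/

theorem Ev0_mem_hat {X : Type} (nm : X → BSet B) (x : X) : mem (nm x) (hatF nm) = ⊤ :=
  top_le_iff.1 (mem_fam nm (fun _ => ⊤) x)

theorem Ev0_sub_hatF {X : Type} (nm : X → BSet B) (z : BSet B) :
    sub (hatF nm) z = ⨅ x, mem (nm x) z := by
  unfold hatF
  rw [sub_mk]
  refine iInf_congr fun x => ?_
  rw [compl_top, bot_sup_eq]

theorem Ev0_sub_onm (N1 : Nice1 B) {X : Type} [LinearOrder X] [WellFoundedLT X] (x y : X)
    (h : x ≤ y) : sub (onm x : BSet B) (onm y) = ⊤ := by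
  rw [onm_eq x, Ev0_sub_hatF, iInf_eq_top]
  intro z
  exact N1.onm_lt X z.1 y (lt_of_lt_of_le z.2 h)

theorem Ev0_sub_hat {X : Type} [LinearOrder X] [WellFoundedLT X] (x : X) :
    sub (onm x : BSet B) (hatF (onm : X → BSet B)) = ⊤ := by
  rw [onm_eq x, Ev0_sub_hatF, iInf_eq_top]
  intro z
  exact Ev0_mem_hat _ z.1

theorem Ev0_onm_all (N1 : Nice1 B) {X : Type} [LinearOrder X] [WellFoundedLT X] (x : X)
    (φ : BSet B → B) (hφ : Extl φ) :
    ⨅ a, (mem a (onm x))ᶜ ⊔ φ a = ⨅ y : Iio x, φ (onm y.1) := by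
  rw [onm_eq x]
  exact N1.all_mem (Iio x) (fun y => onm y.1) φ hφ

theorem Ev0_ord (N1 : Nice1 B) (X : Type) [LinearOrder X] [WellFoundedLT X] :
    BV.ord (hatF (onm : X → BSet B)) = ⊤ := by
  unfold BV.ord
  rw [inf_eq_top_iff]
  constructor
  · rw [N1.all_mem X onm (fun y => sub y (hatF (onm : X → BSet B))) (Ev0_ext_subl _),
      iInf_eq_top]
    exact fun x => Ev0_sub_hat x
  · rw [N1.all_mem X onm (fun y => ⨅ z, (mem z y)ᶜ ⊔ sub z y), iInf_eq_top]
    · intro x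
      rw [Ev0_onm_all N1 x (fun z => sub z (onm x)) (Ev0_ext_subl _), iInf_eq_top]
      exact fun y => Ev0_sub_onm N1 y.1 x (le_of_lt y.2)
    · exact Ev0_ext_iInf fun z => Ev0_ext_sup (Ev0_ext_compl (Ev0_ext_memr _)) (Ev0_ext_subr _)

theorem Ev0_isOmega (N1 : Nice1 B) : BV.isOmega (w0 B) = ⊤ := by
  unfold BV.isOmega
  rw [inf_eq_top_iff, inf_eq_top_iff, inf_eq_top_iff]
  refine ⟨Ev0_ord N1 ℕ, ?_, ?_, ?_⟩
  · rw [eq_top_iff]
    exact le_iSup_of_le (onm (0 : ℕ)) (Ev0_mem_hat _ _).ge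
  · unfold w0
    rw [N1.all_mem ℕ onm (fun x => ⨆ y, mem y (hatF (onm : ℕ → BSet B)) ⊓ mem x y), iInf_eq_top]
    · intro n
      rw [eq_top_iff]
      refine le_iSup_of_le (onm (n + 1 : ℕ)) ?_
      rw [Ev0_mem_hat, top_inf_eq, N1.onm_lt ℕ n (n + 1) (Nat.lt_succ_self n)]
    · exact Ev0_ext_iSup fun y => Ev0_ext_inf (Ev0_ext_const _) (Ev0_ext_meml _)
  · unfold w0
    rw [N1.all_mem ℕ onm (fun v => (⨆ x, mem x v)ᶜ ⊔
      ⨆ x, mem x v ⊓ ⨅ y, (mem y v)ᶜ ⊔ (mem x y)ᶜ), iInf_eq_top]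
    · intro n
      rcases n with _ | n
      · have h1 : (⨆ x, mem x (onm (0 : ℕ) : BSet B)) = ⊥ := by
          rw [iSup_eq_bot]
          intro x
          rw [onm_eq (0 : ℕ), N1.mem_hat, iSup_eq_bot]
          intro i
          exact absurd i.2 (Nat.not_lt_zero _)
        rw [h1, compl_bot, top_sup_eq]
      · rw [eq_top_iff]
        refine le_sup_of_le_right (le_iSup_of_le (onm n) ?_)
        rw [N1.onm_lt ℕ n (n + 1) (Nat.lt_succ_self n), top_inf_eq,
          Ev0_onm_all N1 (n + 1) (fun y => (mem (onm n) y)ᶜ) (Ev0_ext_compl (Ev0_ext_memr _))]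
        refine le_iInf fun j => ?_
        have hj : ¬ n < j.1 := by
          have := j.2
          simp only [mem_Iio] at this
          omega
        rw [N1.onm_nlt ℕ n j.1 hj, compl_bot]
    · exact Ev0_ext_sup (Ev0_ext_compl (Ev0_ext_iSup fun x => Ev0_ext_memr _))
        (Ev0_ext_iSup fun x => Ev0_ext_inf (Ev0_ext_memr _)
          (Ev0_ext_iInf fun y => Ev0_ext_sup (Ev0_ext_compl (Ev0_ext_memr _)) (Ev0_ext_const _)))

theorem Ev0_surj (N1 : Nice1 B) (N2 : Nice2 B) (hC : ClaimCongr) {X Y : Type} [Nonempty Y]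
    (nmX : X → BSet B) (nmY : Y → BSet B) (hX : Disc nmX) (hY : Disc nmY) :
    ⨆ f, BV.surj f (hatF nmX) (hatF nmY) =
      ⨆ (r : X → Y → B) (_ : IsFun r), ⨅ y, ⨆ x, r x y := by
  unfold BV.surj
  rw [N2.ex_fn X Y nmX nmY hX hY (fun f => ⨅ y, (mem y (hatF nmY))ᶜ ⊔
    ⨆ x, mem x (hatF nmX) ⊓ BV.R f x y)]
  · refine iSup_congr fun r => iSup_congr fun hr => ?_
    rw [N1.all_mem Y nmY (fun y => ⨆ x, mem x (hatF nmX) ⊓ BV.R (rl nmX nmY r) x y)]
    · refine iInf_congr fun y => ?_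
      rw [N1.ex_mem X nmX (fun x => BV.R (rl nmX nmY r) x (nmY y)) (Ev0_ext_R2 hC _ _)]
      exact iSup_congr fun x => N2.R_rl X Y nmX nmY r hX hY x y
    · exact Ev0_ext_iSup fun x => Ev0_ext_inf (Ev0_ext_const _) (Ev0_ext_R3 hC _ _)
  · exact Ev0_ext_iInf fun y => Ev0_ext_sup (Ev0_ext_const _)
      (Ev0_ext_iSup fun x => Ev0_ext_inf (Ev0_ext_const _) (Ev0_ext_R1 hC _ _))

theorem Ev0_disc_Iio (N1 : Nice1 B) {X : Type} [LinearOrder X] [WellFoundedLT X] (x : X) :
    Disc (fun y : Iio x => (onm y.1 : BSet B)) := by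
  intro y z h
  exact N1.onm_disc X y.1 z.1 (fun h' => h (Subtype.ext h'))

/-- The value of `isNext`. -/
theorem Ev0_isNext [Nontrivial B] (N1 : Nice1 B) (N2 : Nice2 B) (hC : ClaimCongr) (X Y : Type)
    [LinearOrder X] [WellFoundedLT X] [LinearOrder Y] [WellFoundedLT Y] [Nonempty X]
    [Nonempty Y] (h1 : ∀ r : X → Y → B, IsFun r → ⨅ y, ⨆ x, r x y = ⊥)
    (h2 : ∀ y : Y, Nonempty (Iio y) → ∃ r : X → Iio y → B, IsFun r ∧ ⨅ z, ⨆ x, r x z = ⊤) :
    BV.isNext (hatF (onm : X → BSet B)) (hatF (onm : Y → BSet B)) = ⊤ := by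
  unfold BV.isNext
  rw [inf_eq_top_iff, inf_eq_top_iff, inf_eq_top_iff]
  refine ⟨Ev0_ord N1 Y, ?_, ?_, ?_⟩
  · obtain ⟨y⟩ := ‹Nonempty Y›
    rw [eq_top_iff]
    refine le_trans ?_ (le_iSup _ (onm y))
    rw [Ev0_mem_hat]
  · rw [compl_eq_top]
    rcases isEmpty_or_nonempty Y with hY | hY
    · rw [iSup_eq_bot]
      intro f
      rw [eq_bot_iff]
      obtain ⟨x⟩ := ‹Nonempty X›
      unfold BV.surj BV.fn
      refine inf_le_left.trans (inf_le_right.trans (inf_le_left.trans ?_))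
      refine (iInf_le _ (onm x)).trans ?_
      rw [Ev0_mem_hat, compl_top, bot_sup_eq]
      refine iSup_le fun y => inf_le_left.trans ?_
      rw [N1.mem_hat]
      exact iSup_le fun z => (hY.false z).elim
    · rw [Ev0_surj N1 N2 hC onm onm (N1.onm_disc X) (N1.onm_disc Y), iSup_eq_bot]
      intro r
      rw [iSup_eq_bot]
      exact fun hr => h1 r hr
  · rw [N1.all_mem Y onm (fun v => (⨆ x, mem x v)ᶜ ⊔
      ⨆ f, BV.surj f (hatF (onm : X → BSet B)) v), iInf_eq_top]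
    · intro y
      rcases isEmpty_or_nonempty (Iio y) with hy | hy
      · have h3 : (⨆ x, mem x (onm y : BSet B)) = ⊥ := by
          rw [iSup_eq_bot]
          intro x
          rw [onm_eq y, N1.mem_hat, iSup_eq_bot]
          exact fun i => (hy.false i).elim
        rw [h3, compl_bot, top_sup_eq]
      · obtain ⟨r, hr1, hr2⟩ := h2 y hy
        rw [eq_top_iff]
        refine le_sup_of_le_right ?_
        rw [onm_eq y, Ev0_surj N1 N2 hC onm (fun z : Iio y => (onm z.1 : BSet B))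
          (N1.onm_disc X) (Ev0_disc_Iio N1 y)]
        exact le_iSup_of_le r (le_iSup_of_le hr1 hr2.ge)
    · refine Ev0_ext_sup (Ev0_ext_compl (Ev0_ext_iSup fun x => Ev0_ext_memr _)) ?_
      refine Ev0_ext_iSup fun f => ?_
      intro x y
      have h := hC B (F.surj 1 2 0)
        (cons x (cons f (cons (hatF (onm : X → BSet B)) (fun _ => x))))
        (cons y (cons f (cons (hatF (onm : X → BSet B)) (fun _ => y))))
      rw [Val_surj, Val_surj] at h
      refine le_trans (inf_le_inf_right _ ?_) h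
      refine le_iInf fun n => ?_
      rcases n with _ | _ | _ | n
      · exact le_rfl
      · show _ ≤ eqv f f
        rw [eqv_refl]; exact le_top
      · show _ ≤ eqv (hatF (onm : X → BSet B)) (hatF (onm : X → BSet B))
        rw [eqv_refl]; exact le_top
      · exact le_rfl

open Classical in
theorem Ev0_ctbl (ξ : O1) (h : Nonempty (Iio ξ)) :
    ∃ r : ℕ → Iio ξ → B, IsFun r ∧ ⨅ z, ⨆ x, r x z = ⊤ := by
  have hc : Countable (Iio ξ) := by
    have h1 : #(Iio ξ) < Cardinal.aleph 1 := Cardinal.mk_Iio_ord_toType ξ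
    rw [← Cardinal.countable_iff_lt_aleph_one] at h1
    exact h1.to_subtype
  obtain ⟨s, hs⟩ := exists_surjective_nat (Iio ξ)
  refine ⟨fun n y => ⨆ (_ : s n = y), ⊤, ⟨?_, ?_⟩, ?_⟩
  · intro n
    rw [eq_top_iff]
    exact le_iSup_of_le (s n) (le_iSup_of_le rfl le_rfl)
  · intro n y z hyz
    by_cases h1 : s n = y
    · have h2 : ¬ s n = z := fun h => hyz (h1.symm.trans h)
      simp [h2]
    · simp [h1]
  · rw [iInf_eq_top]
    intro z
    obtain ⟨n, hn⟩ := hs z
    rw [eq_top_iff]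
    exact le_iSup_of_le n (le_iSup_of_le hn le_rfl)

open Classical in
theorem Ev0_coll {X L : Type} [LinearOrder L] (α : L) (h : Nonempty (Iio α)) (f : X → L → B)
    (hf : IsFun f) (hf2 : ∀ β ≤ α, ⨆ ξ, f ξ β = ⊤) :
    ∃ r : X → Iio α → B, IsFun r ∧ ⨅ z, ⨆ x, r x z = ⊤ := by
  obtain ⟨b0⟩ := h
  have hne : ∀ y z : Iio α, y ≠ z → y.1 ≠ z.1 := fun y z h h' => h (Subtype.ext h')
  have hle : ∀ ξ, f ξ b0.1 ≤ (⨆ (z : Iio α) (_ : z ≠ b0), f ξ z.1)ᶜ := by
    intro ξ
    rw [compl_iSup]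
    refine le_iInf fun z => ?_
    rw [compl_iSup]
    refine le_iInf fun hz => ?_
    rw [le_compl_iff_disjoint_right, disjoint_iff]
    exact hf.uniq ξ _ _ (hne b0 z (Ne.symm hz))
  refine ⟨fun ξ y => if y = b0 then (⨆ (z : Iio α) (_ : z ≠ b0), f ξ z.1)ᶜ else f ξ y.1,
    ⟨?_, ?_⟩, ?_⟩
  · intro ξ
    rw [eq_top_iff, ← compl_sup_eq_top (x := ⨆ (z : Iio α) (_ : z ≠ b0), f ξ z.1)]
    refine sup_le ?_ ?_
    · refine le_iSup_of_le b0 ?_
      rw [if_pos rfl]
    · refine iSup_le fun z => iSup_le fun hz => le_iSup_of_le z ?_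
      rw [if_neg hz]
  · intro ξ y z hyz
    by_cases hy : y = b0
    · have hz : ¬ z = b0 := fun h => hyz (hy.trans h.symm)
      show (if y = b0 then _ else _) ⊓ (if z = b0 then _ else _) = ⊥
      rw [if_pos hy, if_neg hz, eq_bot_iff,
        ← compl_inf_eq_bot (a := ⨆ (z : Iio α) (_ : z ≠ b0), f ξ z.1)]
      refine inf_le_inf_left _ ?_
      exact le_iSup_of_le z (le_iSup_of_le hz le_rfl)
    · by_cases hz : z = b0
      · show (if y = b0 then _ else _) ⊓ (if z = b0 then _ else _) = ⊥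
        rw [if_neg hy, if_pos hz, inf_comm, eq_bot_iff,
          ← compl_inf_eq_bot (a := ⨆ (z : Iio α) (_ : z ≠ b0), f ξ z.1)]
        refine inf_le_inf_left _ ?_
        exact le_iSup_of_le y (le_iSup_of_le hy le_rfl)
      · show (if y = b0 then _ else _) ⊓ (if z = b0 then _ else _) = ⊥
        rw [if_neg hy, if_neg hz]
        exact hf.uniq ξ _ _ (hne y z hyz)
  · rw [iInf_eq_top]
    intro z
    rw [eq_top_iff, ← hf2 z.1 (le_of_lt z.2)]
    refine iSup_mono fun ξ => ?_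
    show f ξ z.1 ≤ if z = b0 then _ else _
    by_cases hz : z = b0
    · rw [if_pos hz, hz]
      exact hle ξ
    · rw [if_neg hz]

end Ev0

theorem claimEv0 (h1 : ClaimNice1) (h2 : ClaimNice2) (hC : ClaimCongr) : ClaimEv0 := by
  intro B _ _ L _ _ _ hom
  have N1 := h1 B
  have N2 := h2 B
  have hO1 : Nonempty O1 := by
    rw [← Cardinal.mk_ne_zero_iff]
    show #((Cardinal.aleph 1).ord.ToType) ≠ 0
    rw [Cardinal.mk_ord_toType]
    exact (Cardinal.aleph_pos 1).ne'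
  refine ⟨Ev0_isOmega N1, ?_, ?_⟩
  · exact Ev0_isNext N1 N2 hC ℕ O1 hom.pres1 Ev0_ctbl
  · refine Ev0_isNext N1 N2 hC O1 L hom.pres2 fun α hα => ?_
    obtain ⟨f, hf1, hf2⟩ := hom.coll α
    exact Ev0_coll α hα f hf1 hf2

end Pool.Agent.Work.MP_dbe197_lc

end

section

/-!
# Item Z8: cofinality and countability at canonical names
-/

namespace Pool.Agent.Work.MP_dbe197_lc

open Set Cardinal BSet

theorem EvCof_imp {B : Type} [CompleteBooleanAlgebra B] {b c d : B} :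
    b ≤ cᶜ ⊔ d ↔ b ⊓ c ≤ d := by
  rw [sup_comm, ← himp_eq, le_himp_iff]

section Ext

variable {B : Type} [CompleteBooleanAlgebra B]

theorem EvCof_extl (hC : ClaimCongr) (φ : Fml) (v : ℕ → BSet B) :
    Extl (fun x => Val φ (cons x v)) := by
  intro x y
  refine le_trans (inf_le_inf_right _ ?_) (hC B φ (cons x v) (cons y v))
  refine le_iInf fun n => ?_
  cases n with
  | zero => rw [cons_zero, cons_zero]
  | succ n =>
    rw [cons_succ, cons_succ, eqv_refl]
    exact le_top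

theorem EvCof_inf {φ ψ : BSet B → B} (h : Extl φ) (h' : Extl ψ) :
    Extl (fun x => φ x ⊓ ψ x) := fun x y =>
  le_inf (le_trans (le_inf inf_le_left (inf_le_right.trans inf_le_left)) (h x y))
    (le_trans (le_inf inf_le_left (inf_le_right.trans inf_le_right)) (h' x y))

theorem EvCof_const (b : B) : Extl (fun _ : BSet B => b) := fun _ _ => inf_le_right

theorem EvCof_iSup {ι : Type*} {φ : ι → BSet B → B} (h : ∀ i, Extl (φ i)) :
    Extl (fun x => ⨆ i, φ i x) := by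
  intro x y
  rw [inf_iSup_eq]
  exact iSup_mono fun i => h i x y

theorem EvCof_R1 (hC : ClaimCongr) (a b : BSet B) : Extl (fun r => BV.R r a b) := by
  have h := EvCof_extl hC (F.r 0 1 2) (cons a (cons b (fun _ => a)))
  simpa using h

theorem EvCof_R2 (hC : ClaimCongr) (r b : BSet B) : Extl (fun a => BV.R r a b) := by
  have h := EvCof_extl hC (F.r 1 0 2) (cons r (cons b (fun _ => r)))
  simpa using h

theorem EvCof_R3 (hC : ClaimCongr) (r a : BSet B) : Extl (fun b => BV.R r a b) := by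
  have h := EvCof_extl hC (F.r 1 2 0) (cons r (cons a (fun _ => r)))
  simpa using h

theorem EvCof_mem1 (y : BSet B) : Extl (fun x => mem x y) := fun _ _ => mem_congr_left _ _ _

theorem EvCof_mem2 (x : BSet B) : Extl (fun y => mem x y) := fun _ _ => mem_congr_right _ _ _

end Ext

theorem EvCof_phi (hC : ClaimCongr) {B : Type} [CompleteBooleanAlgebra B] (a α : BSet B) :
    Extl (fun f => ⨅ β, (mem β α)ᶜ ⊔ ⨆ n, mem n a ⊓ ⨆ γ, mem γ α ⊓ (BV.R f n γ ⊓ mem β γ)) := by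
  have h := EvCof_extl hC (.all (.imp (.mem 0 3) (.ex (.and (.mem 0 3) (.ex (.and (.mem 0 5)
    (.and (F.r 3 1 0) (.mem 2 0)))))))) (cons a (cons α (fun _ => a)))
  simpa using h

theorem claimEvCof (h1 : ClaimNice1) (h2 : ClaimNice2) (hC : ClaimCongr) : ClaimEvCof := by
  intro B _ L _ _ N _ nm hnm α
  have n1 := h1 B
  have n2 := h2 B
  rw [onm_eq α, BV.cofinal]
  have hdisc : Disc (fun y : Iio α => (onm y.1 : BSet B)) := fun x y hxy =>
    n1.onm_disc L x.1 y.1 (fun h => hxy (Subtype.ext h))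
  set nm' : Iio α → BSet B := fun y : Iio α => (onm y.1 : BSet B) with hnm'
  rcases isEmpty_or_nonempty (Iio α) with hemp | hne
  · have hm : ∀ z, mem z (hatF nm') = ⊥ := by
      intro z
      rw [n1.mem_hat, iSup_of_empty]
    obtain ⟨n0⟩ := ‹Nonempty N›
    have hmem : mem (nm n0) (hatF nm) = ⊤ := by
      rw [n1.mem_hat, eq_top_iff]
      refine le_trans ?_ (le_iSup _ n0)
      rw [eqv_refl]
    apply le_antisymm
    · refine iSup_le fun f => ?_
      refine le_trans inf_le_left ?_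
      rw [BV.fn]
      refine le_trans (inf_le_right.trans (inf_le_left.trans (iInf_le _ (nm n0)))) ?_
      rw [hmem, compl_top, bot_sup_eq]
      refine iSup_le fun y => ?_
      rw [hm, bot_inf_eq]
      exact bot_le
    · refine iSup₂_le fun f hf => ?_
      have htop : (⊥ : B) = ⊤ := by
        rw [← hf.tot n0, iSup_of_empty]
      exact le_top.trans (htop.symm.le.trans bot_le)
  · rw [n2.ex_fn N (Iio α) nm nm' hnm hdisc _ (EvCof_phi hC (hatF nm) (hatF nm'))]
    refine iSup_congr fun r => iSup_congr fun _ => ?_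
    have e3 : ∀ (β n : BSet B), Extl (fun γ => BV.R (rl nm nm' r) n γ ⊓ mem β γ) := fun β n =>
      EvCof_inf (EvCof_R3 hC _ _) (EvCof_mem2 _)
    have e2 : ∀ β : BSet B, Extl (fun n => ⨆ γ, mem γ (hatF nm') ⊓
        (BV.R (rl nm nm' r) n γ ⊓ mem β γ)) := fun β =>
      EvCof_iSup fun γ => EvCof_inf (EvCof_const _) (EvCof_inf (EvCof_R2 hC _ _) (EvCof_const _))
    have e1 : Extl (fun β => ⨆ n, mem n (hatF nm) ⊓ ⨆ γ, mem γ (hatF nm') ⊓
        (BV.R (rl nm nm' r) n γ ⊓ mem β γ)) :=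
      EvCof_iSup fun n => EvCof_inf (EvCof_const _) (EvCof_iSup fun γ => EvCof_inf (EvCof_const _)
        (EvCof_inf (EvCof_const _) (EvCof_mem1 _)))
    rw [n1.all_mem _ nm' _ e1]
    refine iInf_congr fun β => ?_
    rw [n1.ex_mem _ nm _ (e2 (nm' β))]
    refine iSup_congr fun n => ?_
    rw [n1.ex_mem _ nm' _ (e3 (nm' β) (nm n))]
    refine iSup_congr fun γ => ?_
    rw [n2.R_rl N (Iio α) nm nm' r hnm hdisc n γ]
    by_cases hβγ : β < γ
    · rw [iSup_pos hβγ]
      have : mem (nm' β) (nm' γ) = ⊤ := n1.onm_lt L β.1 γ.1 hβγ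
      rw [this, inf_top_eq]
    · rw [iSup_neg hβγ]
      have : mem (nm' β) (nm' γ) = ⊥ := n1.onm_nlt L β.1 γ.1 hβγ
      rw [this, inf_bot_eq]

theorem claimEvCtbl (h1 : ClaimNice1) (h2 : ClaimNice2) (hC : ClaimCongr) : ClaimEvCtbl := by
  intro B _ L _ _ hLne α x
  have n1 := h1 B
  have n2 := h2 B
  have hdN : Disc (onm : ℕ → BSet B) := n1.onm_disc ℕ
  have hdL : Disc (onm : L → BSet B) := n1.onm_disc L
  have hsub : sub (sb onm x) (onm α) = ⨅ a, (x a)ᶜ ⊔ mem (onm a) (onm α) := by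
    rw [sb, sub_mk]
  have hlt : ∀ a : L, mem (onm a : BSet B) (onm α) = ⨆ (_ : a < α), (⊤ : B) := by
    intro a
    by_cases h : a < α
    · rw [iSup_pos h, n1.onm_lt L a α h]
    · rw [iSup_neg h, n1.onm_nlt L a α h]
  have hcov : ∀ g : BSet B, (⨅ z, (mem z (sb onm x))ᶜ ⊔ ⨆ n, mem n (w0 B) ⊓ BV.R g n z) =
      ⨅ a, (x a)ᶜ ⊔ ⨆ n : ℕ, BV.R g (onm n) (onm a) := by
    intro g
    rw [sb, iInf_mem onm x (fun z => ⨆ n, mem n (w0 B) ⊓ BV.R g n z)
      (EvCof_iSup fun n => EvCof_inf (EvCof_const _) (EvCof_R3 hC _ _))]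
    refine iInf_congr fun a => ?_
    rw [w0, n1.ex_mem ℕ onm _ (EvCof_R2 hC g (onm a))]
  rw [BV.ctbl, ctblSub]
  apply le_antisymm
  · rw [inf_iSup_eq]
    refine iSup_le fun g => ?_
    rw [hcov g]
    set Fv : B := ⨅ n, ⨅ y, ⨅ z, (BV.R g n y)ᶜ ⊔ ((BV.R g n z)ᶜ ⊔ eqv y z) with hFv
    set c : B := sub (sb onm x) (onm α) ⊓ (Fv ⊓ ⨅ a, (x a)ᶜ ⊔ ⨆ n : ℕ, BV.R g (onm n) (onm a))
      with hc
    obtain ⟨a0⟩ := hLne
    let f : ℕ → L → B := fun n a => (c ⊓ BV.R g (onm n) (onm a)) ⊔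
      ⨆ (_ : a = a0), (c ⊓ ⨆ b : L, BV.R g (onm n) (onm b))ᶜ
    have hRR : ∀ (n : ℕ) (a b : L), a ≠ b →
        (c ⊓ BV.R g (onm n) (onm a)) ⊓ (c ⊓ BV.R g (onm n) (onm b)) = ⊥ := by
      intro n a b hab
      rw [← le_bot_iff, ← hdL a b hab]
      have hF : Fv ≤ (BV.R g (onm n) (onm a))ᶜ ⊔ ((BV.R g (onm n) (onm b))ᶜ ⊔
          eqv (onm a) (onm b)) :=
        (iInf_le _ (onm n)).trans ((iInf_le _ (onm a)).trans (iInf_le _ (onm b)))
      rw [EvCof_imp, EvCof_imp] at hF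
      refine le_trans ?_ hF
      refine le_inf (le_inf ?_ (inf_le_left.trans inf_le_right)) (inf_le_right.trans inf_le_right)
      exact inf_le_left.trans (inf_le_left.trans (inf_le_right.trans inf_le_left))
    have hRC : ∀ (n : ℕ) (a : L) (P : Prop), (c ⊓ BV.R g (onm n) (onm a)) ⊓
        (⨆ (_ : P), (c ⊓ ⨆ b : L, BV.R g (onm n) (onm b))ᶜ) = ⊥ := by
      intro n a P
      rw [← le_bot_iff, inf_iSup_eq]
      refine iSup_le fun _ => ?_
      calc c ⊓ BV.R g (onm n) (onm a) ⊓ (c ⊓ ⨆ b : L, BV.R g (onm n) (onm b))ᶜ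
          ≤ (c ⊓ ⨆ b : L, BV.R g (onm n) (onm b)) ⊓
              (c ⊓ ⨆ b : L, BV.R g (onm n) (onm b))ᶜ := by
            refine inf_le_inf_right _ (inf_le_inf_left _ ?_)
            exact le_iSup (fun b : L => BV.R g (onm n) (onm b)) a
        _ = ⊥ := inf_compl_self _
    have hf : IsFun f := by
      refine ⟨fun n => ?_, fun n a b hab => ?_⟩
      · rw [eq_top_iff, ← sup_compl_eq_top (x := c ⊓ ⨆ b : L, BV.R g (onm n) (onm b))]
        refine sup_le ?_ ?_
        · rw [inf_iSup_eq]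
          exact iSup_mono fun b => le_sup_left
        · refine le_trans ?_ (le_iSup _ a0)
          refine le_trans ?_ le_sup_right
          rw [iSup_pos rfl]
      · have hdd : (⨆ (_ : a = a0), (c ⊓ ⨆ b : L, BV.R g (onm n) (onm b))ᶜ) ⊓
            (⨆ (_ : b = a0), (c ⊓ ⨆ b : L, BV.R g (onm n) (onm b))ᶜ) = ⊥ := by
          by_cases ha : a = a0
          · have hb : ¬ b = a0 := fun hb => hab (ha.trans hb.symm)
            rw [iSup_neg hb, inf_bot_eq]
          · rw [iSup_neg ha, bot_inf_eq]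
        change ((c ⊓ BV.R g (onm n) (onm a)) ⊔ ⨆ (_ : a = a0), _) ⊓
          ((c ⊓ BV.R g (onm n) (onm b)) ⊔ ⨆ (_ : b = a0), _) = ⊥
        rw [inf_sup_right, inf_sup_left, inf_sup_left, hRR n a b hab, hRC, hdd, inf_comm
          (⨆ (_ : a = a0), _) (c ⊓ _), hRC]
        simp
    refine le_trans ?_ (le_iSup₂ (f := fun (f : ℕ → L → B) (_ : IsFun f) =>
      ⨅ a, (x a)ᶜ ⊔ ((⨆ n, f n a) ⊓ ⨆ (_ : a < α), ⊤)) f hf)
    refine le_iInf fun a => ?_
    rw [EvCof_imp]
    refine le_inf ?_ ?_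
    · have hcv : c ≤ (x a)ᶜ ⊔ ⨆ n : ℕ, BV.R g (onm n) (onm a) :=
        inf_le_right.trans (inf_le_right.trans (iInf_le _ a))
      rw [EvCof_imp] at hcv
      calc c ⊓ x a ≤ c ⊓ ⨆ n : ℕ, BV.R g (onm n) (onm a) := le_inf inf_le_left hcv
        _ = ⨆ n : ℕ, c ⊓ BV.R g (onm n) (onm a) := inf_iSup_eq _ _
        _ ≤ ⨆ n, f n a := iSup_mono fun n => le_sup_left
    · have hs : c ≤ (x a)ᶜ ⊔ mem (onm a) (onm α) := by
        refine le_trans inf_le_left ?_
        rw [hsub]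
        exact iInf_le _ a
      rw [EvCof_imp, hlt] at hs
      exact hs
  · refine iSup₂_le fun f hf => ?_
    refine le_inf ?_ ?_
    · rw [hsub]
      refine iInf_mono fun a => sup_le_sup le_rfl ?_
      rw [hlt]
      exact inf_le_right
    · refine le_trans ?_ (le_iSup _ (rl onm onm f))
      refine le_inf ?_ ?_
      · refine le_trans le_top (le_iInf fun n => le_iInf fun y => le_iInf fun z => ?_)
        rw [EvCof_imp, EvCof_imp, top_inf_eq, n2.R_rl', n2.R_rl', iSup_inf_eq]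
        refine iSup_le fun i => ?_
        rw [iSup_inf_eq]
        refine iSup_le fun a => ?_
        rw [inf_iSup_eq]
        refine iSup_le fun j => ?_
        rw [inf_iSup_eq]
        refine iSup_le fun b => ?_
        by_cases hij : i = j
        · subst hij
          by_cases hab : a = b
          · subst hab
            refine le_trans ?_ (eqv_trans y (onm a) z)
            refine le_inf (inf_le_left.trans (inf_le_right.trans inf_le_right)) ?_
            rw [eqv_symm (onm a)]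
            exact inf_le_right.trans (inf_le_right.trans inf_le_right)
          · have : f i a ⊓ f i b = ⊥ := hf.uniq i a b hab
            refine le_trans ?_ bot_le
            rw [← this]
            exact inf_le_inf inf_le_left inf_le_left
        · have : eqv (onm i : BSet B) (onm j) = ⊥ := hdN i j hij
          refine le_trans ?_ bot_le
          rw [← this]
          refine le_trans ?_ (eqv_trans (onm i) n (onm j))
          refine le_inf ?_ (inf_le_right.trans (inf_le_right.trans inf_le_left))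
          rw [eqv_symm (onm i)]
          exact inf_le_left.trans (inf_le_right.trans inf_le_left)
      · rw [hcov]
        refine iInf_mono fun a => sup_le_sup le_rfl ?_
        refine le_trans inf_le_left (iSup_mono fun n => ?_)
        rw [n2.R_rl ℕ L onm onm f hdN hdL n a]

end Pool.Agent.Work.MP_dbe197_lc

end

section

/-!
# The value of the disjoint stationary sequence statement
-/

namespace Pool.Agent.Work.MP_dbe197_lc

open Set Cardinal BSet

section

variable {B : Type} [CompleteBooleanAlgebra B]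

theorem EvDSS_ext (hC : ClaimCongr) (φ : Fml) (u : ℕ → BSet B) :
    Extl (fun x => Val φ (cons x u)) := by
  intro x y
  refine le_trans (inf_le_inf_right _ (le_iInf fun n => ?_)) (hC B φ (cons x u) (cons y u))
  cases n with
  | zero => exact le_rfl
  | succ n =>
    rw [cons_succ, cons_succ, eqv_refl]
    exact le_top

theorem EvDSS_top {a b : B} (h : a ≤ b) : aᶜ ⊔ b = ⊤ := by
  rw [eq_top_iff, ← compl_sup_eq_top (x := a)]
  exact sup_le_sup le_rfl h

theorem EvDSS_le {a b c : B} (h : a ⊓ b ≤ c) : a ≤ bᶜ ⊔ c := by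
  rw [sup_comm, ← himp_eq, le_himp_iff]
  exact h

theorem EvDSS_all {X : Type} (h1 : Nice1 B) (nm : X → BSet B) (S : X → B) (φ : BSet B → B)
    (hφ : Extl φ) (h : ∀ x, S x ≤ φ (nm x)) : ⨅ z, (mem z (sb nm S))ᶜ ⊔ φ z = ⊤ := by
  rw [iInf_eq_top]
  intro z
  apply EvDSS_top
  rw [h1.mem_sb']
  refine iSup_le fun x => ?_
  refine le_trans ?_ (hφ (nm x) z)
  rw [eqv_symm z]
  exact le_inf inf_le_right (inf_le_left.trans (h x))

/-- The name of the sequence. -/
noncomputable def EvDSS_N {L : Type} [LinearOrder L] [WellFoundedLT L] (S : L → B)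
    (N : L → (L → B) → B) : BSet B :=
  .mk (L × (L → B)) (fun p => opn (onm p.1) (sb onm p.2)) (fun p => S p.1 ⊓ N p.1 p.2)

theorem EvDSS_R (h2 : Nice2 B) {L : Type} [LinearOrder L] [WellFoundedLT L] (S : L → B)
    (N : L → (L → B) → B) (a x : BSet B) : BV.R (EvDSS_N S N) a x =
      ⨆ p : L × (L → B), (S p.1 ⊓ N p.1 p.2) ⊓ (eqv a (onm p.1) ⊓ eqv x (sb onm p.2)) := by
  rw [h2.R_eq, EvDSS_N, mem_mk]
  refine iSup_congr fun p => ?_
  rw [h2.opn_eqv]

end

theorem claimEvDSS (h1 : ClaimNice1) (h2 : ClaimNice2) (hC : ClaimCongr) (hCof : ClaimEvCof)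
    (hSt : ClaimEvStat) (hCt : ClaimEvCtbl) (hP : ClaimEvP) : ClaimEvDSS := by
  intro B _ L _ _ ⟨S, N, hS, hcf, hN, hct, hst, hdj⟩
  have n1 := h1 B
  have n2 := h2 B
  have hO1 : Nonempty O1 := by
    rw [Ordinal.nonempty_toType_iff]
    simpa using (Ordinal.omega_pos 1).ne'
  have hR1 : ∀ α x, BV.R (EvDSS_N S N) (onm α) x ≤
      ⨆ y : L → B, (S α ⊓ N α y) ⊓ eqv x (sb onm y) := by
    intro α x
    rw [EvDSS_R n2]
    refine iSup_le fun p => ?_
    obtain ⟨β, y⟩ := p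
    by_cases hαβ : α = β
    · subst hαβ
      refine le_trans ?_ (le_iSup _ y)
      exact inf_le_inf_left _ inf_le_right
    · have := n1.onm_disc L α β hαβ
      simp only [this, bot_inf_eq, inf_bot_eq]
      exact bot_le
  have hR2 : ∀ α (y : L → B), S α ⊓ N α y ≤ BV.R (EvDSS_N S N) (onm α) (sb onm y) := by
    intro α y
    rw [EvDSS_R n2]
    refine le_trans ?_ (le_iSup _ (α, y))
    simp only [eqv_refl, inf_top_eq]
    exact le_rfl
  rw [eq_top_iff]
  unfold BV.dss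
  refine le_iSup_of_le (sb onm S) (le_iSup_of_le (EvDSS_N S N) ?_)
  refine le_inf ?_ (le_inf ?_ (le_inf ?_ (le_inf ?_ (le_inf ?_ ?_))))
  · exact (n1.sub_sb L onm S).ge
  · rw [(hSt B L S).2.1, hS]
  · refine (EvDSS_all n1 onm S (fun z => BV.cofinal (w1 B) z ⊓ (BV.cofinal (w0 B) z)ᶜ) ?_ ?_).ge
    · have := EvDSS_ext hC (.and (F.cofinal 1 0) (.neg (F.cofinal 2 0)))
        (cons (w1 B) (cons (w0 B) (fun _ => w0 B)))
      simpa using this
    · intro α
      have e1 := hCof B L O1 onm (n1.onm_disc O1) α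
      have e2 := hCof B L ℕ onm (n1.onm_disc ℕ) α
      refine (hcf α).trans (le_of_eq ?_)
      unfold cfω1 cfω
      rw [← e1, ← e2]
      rfl
  · refine (EvDSS_all n1 onm S (fun α => ⨅ x, (BV.R (EvDSS_N S N) α x)ᶜ ⊔
      (sub x α ⊓ BV.ctbl (w0 B) x)) ?_ ?_).ge
    · have := EvDSS_ext hC (.all (.imp (F.r 2 1 0) (.and (F.sub 0 1) (F.ctbl 3 0))))
        (cons (EvDSS_N S N) (cons (w0 B) (fun _ => w0 B)))
      simpa using this
    · intro α
      have : Nonempty L := ⟨α⟩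
      refine le_iInf fun x => EvDSS_le ?_
      refine le_trans (inf_le_inf_left _ (hR1 α x)) ?_
      rw [inf_iSup_eq]
      refine iSup_le fun y => ?_
      have hext : Extl (fun x => sub x (onm α) ⊓ BV.ctbl (w0 B) x) := by
        have := EvDSS_ext hC (.and (F.sub 0 1) (F.ctbl 2 0))
          (cons (onm α) (cons (w0 B) (fun _ => w0 B)))
        simpa using this
      refine le_trans ?_ (hext (sb onm y) x)
      refine le_inf ?_ ?_
      · rw [eqv_symm]
        exact inf_le_right.trans inf_le_right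
      · change _ ≤ sub (sb onm y) (onm α) ⊓ BV.ctbl (w0 B) (sb onm y)
        rw [hCt B L α y]
        exact (inf_le_right.trans inf_le_left).trans (hct α y)
  · refine (EvDSS_all n1 onm S (fun α => ⨅ C, (BV.clubP (w0 B) C α)ᶜ ⊔
      ⨆ x, BV.R (EvDSS_N S N) α x ⊓ mem x C) ?_ ?_).ge
    · have := EvDSS_ext hC (.all (.imp (F.clubP 3 0 1) (.ex (.and (F.r 3 2 0) (.mem 0 1)))))
        (cons (EvDSS_N S N) (cons (w0 B) (fun _ => w0 B)))
      simpa using this
    · intro α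
      refine le_iInf fun C => EvDSS_le ?_
      by_cases hα : ∃ β, β < α
      · have h3 := hP B L α (N α) (S α) (hN α) (hct α) (hst α) hα C
        refine le_trans (le_inf inf_le_left h3) ?_
        rw [inf_iSup_eq]
        refine iSup_le fun x => le_iSup_of_le (sb onm x) ?_
        refine le_inf ?_ (inf_le_right.trans inf_le_right)
        refine le_trans ?_ (hR2 α x)
        exact le_inf inf_le_left (inf_le_right.trans inf_le_left)
      · have h3 : S α ≤ ⊥ := by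
          refine (hcf α).trans (inf_le_left.trans ?_)
          refine iSup₂_le fun f hf => ?_
          have : IsEmpty (Iio α) := ⟨fun β => hα ⟨β.1, β.2⟩⟩
          obtain ⟨ξ⟩ := hO1
          have h4 := hf.tot ξ
          rw [iSup_of_empty] at h4
          rw [h4]
          exact le_top
        exact (inf_le_left.trans h3).trans bot_le
  · refine le_iInf fun a => le_iInf fun b => le_iInf fun x => ?_
    refine EvDSS_le (EvDSS_le (EvDSS_le (EvDSS_le ?_)))
    have h3 : BV.R (EvDSS_N S N) a x ⊓ BV.R (EvDSS_N S N) b x ≤ eqv a b := by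
      rw [EvDSS_R n2, EvDSS_R n2, iSup_inf_eq]
      refine iSup_le fun p => ?_
      rw [inf_iSup_eq]
      refine iSup_le fun q => ?_
      obtain ⟨α, y⟩ := p
      obtain ⟨β, z⟩ := q
      simp only
      by_cases hαβ : α = β
      · subst hαβ
        refine le_trans ?_ (eqv_trans a (onm α) b)
        refine le_inf (inf_le_left.trans (inf_le_right.trans inf_le_left)) ?_
        rw [eqv_symm (onm α) b]
        exact inf_le_right.trans (inf_le_right.trans inf_le_left)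
      · have h4 : S α ⊓ N α y ⊓ (eqv a (onm α) ⊓ eqv x (sb onm y)) ⊓
            (S β ⊓ N β z ⊓ (eqv b (onm β) ⊓ eqv x (sb onm z))) ≤ ⊥ := by
          rw [← hdj α β z hαβ]
          have h5 : S α ⊓ N α y ⊓ (eqv a (onm α) ⊓ eqv x (sb onm y)) ⊓
            (S β ⊓ N β z ⊓ (eqv b (onm β) ⊓ eqv x (sb onm z))) ≤ beq y z := by
            rw [← n1.eqv_sb L onm y z (n1.onm_disc L)]
            refine le_trans ?_ (eqv_trans (sb onm y) x (sb onm z))
            refine le_inf ?_ (inf_le_right.trans (inf_le_right.trans inf_le_right))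
            rw [eqv_symm (sb onm y) x]
            exact inf_le_left.trans (inf_le_right.trans inf_le_right)
          refine le_inf (le_inf ?_ ?_) (le_inf ?_ ?_)
          · exact inf_le_left.trans (inf_le_left.trans inf_le_left)
          · exact inf_le_right.trans (inf_le_left.trans inf_le_left)
          · refine le_trans (le_inf ?_ h5) (hN α y z)
            exact inf_le_left.trans (inf_le_left.trans inf_le_right)
          · exact inf_le_right.trans (inf_le_left.trans inf_le_right)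
        exact h4.trans bot_le
    refine le_trans ?_ h3
    exact le_inf (inf_le_left.trans inf_le_right) inf_le_right

end Pool.Agent.Work.MP_dbe197_lc

end

section

/-!
# MP_dbe197_lc, item Z13: from functions to clubs of countable sets
-/

namespace Pool.Agent.Work.MP_dbe197_lc

open Set Cardinal BSet

section EvPbasic

variable {B : Type} [CompleteBooleanAlgebra B]

theorem EvP_mp {a p q : B} (h : a ≤ pᶜ ⊔ q) (hp : a ≤ p) : a ≤ q := by
  calc a ≤ p ⊓ (pᶜ ⊔ q) := le_inf hp h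
    _ = p ⊓ q := by rw [inf_sup_left, inf_compl_eq_bot, bot_sup_eq]
    _ ≤ q := inf_le_right

theorem EvP_intro {a p q : B} (h : a ⊓ p ≤ q) : a ≤ pᶜ ⊔ q := by
  rw [sup_comm, ← himp_eq, le_himp_iff]
  exact h

theorem EvP_case {ι : Sort*} {c t : B} {s : ι → B} (h : c ≤ ⨆ i, s i)
    (h' : ∀ i, c ⊓ s i ≤ t) : c ≤ t := by
  calc c ≤ c ⊓ ⨆ i, s i := le_inf le_rfl h
    _ = ⨆ i, c ⊓ s i := inf_iSup_eq _ _
    _ ≤ t := iSup_le h'

/-- disjoint refinement of a family with the same supremum -/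
theorem EvP_disjoint {ι : Type*} (v : ι → B) : ∃ x : ι → B, (∀ i, x i ≤ v i) ∧
    (∀ i j, i ≠ j → x i ⊓ x j = ⊥) ∧ ⨆ i, x i = ⨆ i, v i := by
  refine ⟨fun i => v i ⊓ (⨆ j, ⨆ (_ : WellOrderingRel j i), v j)ᶜ, fun i => inf_le_left, ?_, ?_⟩
  · have key : ∀ i j, WellOrderingRel j i →
        (v i ⊓ (⨆ j, ⨆ (_ : WellOrderingRel j i), v j)ᶜ) ⊓
          (v j ⊓ (⨆ k, ⨆ (_ : WellOrderingRel k j), v k)ᶜ) = ⊥ := by
      intro i j hij
      rw [eq_bot_iff]
      calc _ ≤ (⨆ j, ⨆ (_ : WellOrderingRel j i), v j)ᶜ ⊓ v j :=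
            inf_le_inf inf_le_right inf_le_left
        _ ≤ (⨆ j, ⨆ (_ : WellOrderingRel j i), v j)ᶜ ⊓
              (⨆ j, ⨆ (_ : WellOrderingRel j i), v j) :=
            inf_le_inf_left _ (le_iSup_of_le j (le_iSup_of_le hij le_rfl))
        _ = ⊥ := compl_inf_self _
    intro i j hij
    rcases trichotomous_of (WellOrderingRel (α := ι)) i j with h | h | h
    · rw [inf_comm]
      exact key j i h
    · exact absurd h hij
    · exact key i j h
  · apply le_antisymm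
    · exact iSup_mono fun i => inf_le_left
    · refine iSup_le fun i => ?_
      induction i using (IsWellFounded.wf (r := WellOrderingRel (α := ι))).induction with
      | _ i ih =>
        have h1 : v i = (v i ⊓ (⨆ j, ⨆ (_ : WellOrderingRel j i), v j)ᶜ) ⊔
            (v i ⊓ (⨆ j, ⨆ (_ : WellOrderingRel j i), v j)) := by
          rw [← inf_sup_left]
          simp
        rw [h1]
        refine sup_le (le_iSup (fun i => v i ⊓ (⨆ j, ⨆ (_ : WellOrderingRel j i), v j)ᶜ) i) ?_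
        refine inf_le_right.trans ?_
        exact iSup_le fun j => iSup_le fun hj => ih j hj

/-- Completing a partial function. -/
theorem EvP_fill {X Y : Type} (m : X → Y → B) (hm : ∀ x y z, y ≠ z → m x y ⊓ m x z = ⊥)
    (y0 : Y) : ∃ f : X → Y → B, IsFun f ∧ (∀ x y, m x y ≤ f x y) ∧
      ∀ x y, y ≠ y0 → f x y = m x y := by
  classical
  refine ⟨fun x y => m x y ⊔ (if y = y0 then (⨆ z, m x z)ᶜ else ⊥),
    ⟨fun x => ?_, fun x y z hyz => ?_⟩, fun x y => le_sup_left, fun x y hy => by simp [hy]⟩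
  · rw [eq_top_iff, ← sup_compl_eq_top (x := ⨆ z, m x z)]
    refine sup_le (iSup_mono fun y => le_sup_left) ?_
    refine le_trans ?_ (le_iSup _ y0)
    rw [if_pos rfl]
    exact le_sup_right
  · have hc : ∀ w, m x w ⊓ (⨆ z, m x z)ᶜ = ⊥ := fun w => by
      rw [eq_bot_iff]
      calc m x w ⊓ (⨆ z, m x z)ᶜ ≤ (⨆ z, m x z) ⊓ (⨆ z, m x z)ᶜ :=
            inf_le_inf_right _ (le_iSup _ w)
        _ = ⊥ := inf_compl_self _
    beta_reduce
    by_cases h1 : y = y0
    · have h2 : z ≠ y0 := fun h => hyz (h1.trans h.symm)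
      rw [if_pos h1, if_neg h2, sup_bot_eq, inf_sup_right, hm x y z hyz, bot_sup_eq, inf_comm, hc]
    · rw [if_neg h1, sup_bot_eq, inf_sup_left, hm x y z hyz, bot_sup_eq]
      split_ifs
      · exact hc y
      · exact inf_bot_eq _

/-- One enumeration with the value of countability. -/
theorem EvP_enum {L : Type} [LinearOrder L] {α a0 : L} (h0 : a0 < α) (x : L → B) :
    ∃ f : ℕ → L → B, IsFun f ∧ (∀ n a, ¬ a < α → f n a = ⊥) ∧
      (∀ a, ¬ a < α → ctblSub α x ⊓ x a = ⊥) ∧ ∀ a, ctblSub α x ⊓ x a ≤ ⨆ n, f n a := by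
  set G : {f : ℕ → L → B // IsFun f} → B := fun f =>
    ⨅ a, (x a)ᶜ ⊔ ((⨆ n, f.1 n a) ⊓ ⨆ (_ : a < α), ⊤) with hG
  have hGc : ctblSub α x = ⨆ f, G f := by
    rw [ctblSub, iSup_subtype']
  obtain ⟨d, d1, d2, d3⟩ := EvP_disjoint G
  rw [← d3] at hGc
  set m : ℕ → L → B := fun n a => ⨆ f, d f ⊓ (f.1 n a ⊓ ⨆ (_ : a < α), ⊤) with hm
  have hmd : ∀ n a a', a ≠ a' → m n a ⊓ m n a' = ⊥ := by
    intro n a a' haa
    rw [eq_bot_iff, hm]
    beta_reduce
    rw [iSup_inf_eq]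
    refine iSup_le fun f => ?_
    rw [inf_iSup_eq]
    refine iSup_le fun g => ?_
    by_cases hfg : f = g
    · subst hfg
      rw [← f.2.uniq n a a' haa]
      exact le_inf (inf_le_left.trans (inf_le_right.trans inf_le_left))
        (inf_le_right.trans (inf_le_right.trans inf_le_left))
    · rw [← d2 f g hfg]
      exact inf_le_inf inf_le_left inf_le_left
  obtain ⟨f0, f1, f2, f3⟩ := EvP_fill m hmd a0
  have key : ∀ a, ctblSub α x ⊓ x a ≤ (⨆ n, f0 n a) ⊓ ⨆ (_ : a < α), ⊤ := by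
    intro a
    refine EvP_case (s := d) (inf_le_left.trans hGc.le) fun f => ?_
    have e1 : ctblSub α x ⊓ x a ⊓ d f ≤ (⨆ n, f.1 n a) ⊓ ⨆ (_ : a < α), ⊤ :=
      EvP_mp (p := x a) (inf_le_right.trans ((d1 f).trans (iInf_le _ a)))
        (inf_le_left.trans inf_le_right)
    refine le_inf ?_ (e1.trans inf_le_right)
    refine EvP_case (e1.trans inf_le_left) fun n => ?_
    refine le_trans ?_ (le_iSup _ n)
    refine le_trans ?_ (f2 n a)
    refine le_trans ?_ (le_iSup _ f)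
    refine le_inf (inf_le_left.trans inf_le_right) (le_inf inf_le_right ?_)
    exact inf_le_left.trans (e1.trans inf_le_right)
  refine ⟨f0, f1, fun n a ha => ?_, fun a ha => ?_, fun a => (key a).trans inf_le_left⟩
  · rw [f3 n a (fun h => ha (h ▸ h0)), hm]
    simp [ha]
  · rw [eq_bot_iff]
    refine (key a).trans ?_
    simp [ha]

theorem EvP_ctbl_bot {L : Type} [LinearOrder L] (α : L) : ctblSub α (fun _ => (⊥ : B)) = ⊤ := by
  classical
  rw [eq_top_iff, ctblSub]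
  refine le_iSup₂_of_le (fun _ a => if a = α then ⊤ else ⊥) ⟨fun n => ?_, fun n y z hyz => ?_⟩ ?_
  · rw [eq_top_iff]
    refine le_trans ?_ (le_iSup _ α)
    simp
  · beta_reduce
    split_ifs with h1 h2
    · exact absurd (h1.trans h2.symm) hyz
    · simp
    · simp
    · simp
  · simp

theorem EvP_ctbl_ins {L : Type} [LinearOrder L] {α a' : L} (h : a' < α) (x : L → B)
    [DecidableEq L] :
    ctblSub α x ≤ ctblSub α (fun a => x a ⊔ (if a = a' then ⊤ else ⊥)) := by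
  conv_lhs => rw [ctblSub]
  refine iSup₂_le fun f hf => ?_
  rw [ctblSub]
  refine le_iSup₂_of_le (fun n a => Nat.casesOn n (if a = a' then ⊤ else ⊥) fun n => f n a)
    ⟨fun n => ?_, fun n y z hyz => ?_⟩ ?_
  · cases n with
    | zero =>
      rw [eq_top_iff]
      refine le_trans ?_ (le_iSup _ a')
      simp
    | succ n => exact hf.tot n
  · cases n with
    | zero =>
      simp only
      split_ifs with h1 h2
      · exact absurd (h1.trans h2.symm) hyz
      · simp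
      · simp
      · simp
    | succ n => exact hf.uniq n y z hyz
  · refine le_iInf fun a => ?_
    by_cases haa : a = a'
    · subst haa
      refine le_sup_of_le_right (le_inf ?_ ?_)
      · refine le_iSup_of_le 0 ?_
        simp
      · simp [h]
    · refine (iInf_le _ a).trans ?_
      simp only [if_neg haa, sup_bot_eq]
      refine sup_le_sup le_rfl (inf_le_inf_right _ ?_)
      refine iSup_le fun n => ?_
      exact le_iSup_of_le (n + 1) le_rfl

theorem EvP_closed {L : Type} {F : List L → L → B} {x : L → B} {c : B}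
    (hc : c ≤ closedUnder F x) (u : List L) (hu : ∀ a ∈ u, c ≤ x a) :
    c ≤ ⨆ b, F u b ⊓ x b := by
  have h1 := hc.trans (iInf_le _ u)
  refine EvP_mp (p := ⨅ a ∈ u, x a) ?_ (le_iInf₂ hu)
  rw [compl_iInf]
  simp_rw [compl_iInf]
  exact h1

/-- The core: names of subsets of `L`. -/
theorem EvP_core {L : Type} [LinearOrder L] {α a0 : L} (h0 : a0 < α) (N C : (L → B) → B) (b : B)
    (hext : ∀ x y, C x ⊓ beq x y ≤ C y) (h1 : ∀ x, b ⊓ C x ≤ ctblSub α x)
    (h2 : ∀ x, ∃ y, b ⊓ ctblSub α x ≤ C y ∧ ∀ a, b ⊓ ctblSub α x ⊓ x a ≤ y a)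
    (h3 : ∀ (z : ℕ → L → B) (c : B), c ≤ b → (∀ n, c ≤ C (z n)) →
      (∀ m n, m < n → ∀ a, c ⊓ z m a ≤ z n a) → c ≤ C (fun a => ⨆ n, z n a))
    (hN : ∀ x, b ⊓ N x ≤ ctblSub α x) (hS : b ≤ statP α N) : b ≤ ⨆ x, N x ⊓ C x := by
  classical
  choose nxt hn1 hn2 using h2
  -- the sets
  let X : List L → L → B := fun u => List.rec (nxt fun _ => ⊥)
    (fun a' _ r => nxt fun a => r a ⊔ (if a = a' ∧ a' < α then ⊤ else ⊥)) u
  have X0 : X [] = nxt fun _ => ⊥ := rfl
  have X1 : ∀ a' u, X (a' :: u) = nxt fun a => X u a ⊔ (if a = a' ∧ a' < α then ⊤ else ⊥) :=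
    fun _ _ => rfl
  have hstep : ∀ u, b ≤ C (X u) → ∀ a',
      b ≤ ctblSub α fun a => X u a ⊔ (if a = a' ∧ a' < α then ⊤ else ⊥) := by
    intro u hu a'
    have h4 : b ≤ ctblSub α (X u) := (le_inf le_rfl hu).trans (h1 _)
    by_cases ha : a' < α
    · simp only [ha, and_true]
      exact h4.trans (EvP_ctbl_ins ha _)
    · simp only [ha, and_false, if_false, sup_bot_eq]
      exact h4
  have XC : ∀ u, b ≤ C (X u) := by
    intro u
    induction u with
    | nil =>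
      rw [X0]
      refine (le_inf le_rfl ?_).trans (hn1 _)
      rw [EvP_ctbl_bot]
      exact le_top
    | cons a' u ih =>
      rw [X1]
      exact (le_inf le_rfl (hstep u ih a')).trans (hn1 _)
  have Xmono : ∀ u a' a, b ⊓ X u a ≤ X (a' :: u) a := by
    intro u a' a
    rw [X1]
    refine le_trans ?_ (hn2 _ a)
    exact le_inf (le_inf inf_le_left (inf_le_left.trans (hstep u (XC u) a')))
      (inf_le_right.trans le_sup_left)
  have Xin : ∀ u a', a' < α → b ≤ X (a' :: u) a' := by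
    intro u a' ha
    rw [X1]
    refine le_trans ?_ (hn2 _ a')
    refine le_inf (le_inf le_rfl (hstep u (XC u) a')) ?_
    simp [ha]
  choose e e1 e2 e3 e4 using fun u => EvP_enum h0 (X u)
  have e5 : ∀ u a, b ⊓ X u a ≤ ⨆ n, e u n a := fun u a =>
    le_trans (inf_le_inf_right _ ((le_inf le_rfl (XC u)).trans (h1 _))) (e4 u a)
  set F : List L → L → B := fun v c =>
    e (v.drop (v.length - (Nat.unpair v.length).1)) (Nat.unpair v.length).2 c with hF
  have hFf : IsFun F ∧ ∀ u, ∀ c, ¬ c < α → F u c = ⊥ :=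
    ⟨⟨fun v => (e1 _).tot _, fun v => (e1 _).uniq _⟩, fun v c hc => e2 _ _ c hc⟩
  have hS' : b ≤ ⨆ x : L → B, N x ⊓ closedUnder F x := hS.trans (iInf₂_le F hFf)
  refine EvP_case hS' fun x => le_iSup_of_le x (le_inf (inf_le_right.trans inf_le_left) ?_)
  set c : B := b ⊓ (N x ⊓ closedUnder F x) with hc
  have cb : c ≤ b := inf_le_left
  have cN : c ≤ N x := inf_le_right.trans inf_le_left
  have cF : c ≤ closedUnder F x := inf_le_right.trans inf_le_right
  have cx : c ≤ ctblSub α x := (le_inf cb cN).trans (hN x)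
  have cne : c ≤ ⨆ a, x a := (EvP_closed cF [] (by simp)).trans (iSup_mono fun a => inf_le_right)
  -- closure under the enumerations
  have hcl : ∀ (c' : B), c' ≤ c → ∀ u : List L, (∀ a ∈ u, c' ≤ x a) → ∀ k,
      c' ≤ ⨆ a, e u k a ⊓ x a := by
    intro c' hc' u hu k
    refine EvP_case (hc'.trans cne) fun a1 => ?_
    have hlen : (List.replicate (Nat.pair u.length k - u.length) a1 ++ u).length =
        Nat.pair u.length k := by
      rw [List.length_append, List.length_replicate]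
      have := Nat.left_le_pair u.length k
      omega
    have h5 := EvP_closed (F := F) (x := x) (c := c' ⊓ x a1) (inf_le_left.trans (hc'.trans cF))
      (List.replicate (Nat.pair u.length k - u.length) a1 ++ u) (by
        intro a ha
        rw [List.mem_append] at ha
        rcases ha with ha | ha
        · rw [List.eq_of_mem_replicate ha]
          exact inf_le_right
        · exact inf_le_left.trans (hu a ha))
    have h6 : F (List.replicate (Nat.pair u.length k - u.length) a1 ++ u) = e u k := by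
      rw [hF]
      funext y
      beta_reduce
      rw [hlen, Nat.unpair_pair]
      have : (List.replicate (Nat.pair u.length k - u.length) a1 ++ u).drop
          (Nat.pair u.length k - u.length) = u := by
        rw [List.drop_append_of_le_length (by simp)]
        simp
      simp only [this]
    rw [h6] at h5
    exact h5
  have hsub : ∀ u : List L, ∀ (c' : B), c' ≤ c → (∀ a ∈ u, c' ≤ x a) → ∀ a, c' ⊓ X u a ≤ x a := by
    intro u c' hc' hu a
    refine EvP_case (s := fun n => e u n a) ((inf_le_inf_right _ (hc'.trans cb)).trans (e5 u a))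
      fun n => ?_
    refine EvP_case (s := fun a2 => e u n a2 ⊓ x a2)
      ((inf_le_left.trans inf_le_left).trans (hcl c' hc' u hu n)) fun a2 => ?_
    by_cases haa : a2 = a
    · subst haa
      exact inf_le_right.trans inf_le_right
    · have h7 := (e1 u).uniq n a2 a haa
      calc _ ≤ e u n a2 ⊓ e u n a :=
            le_inf (inf_le_right.trans inf_le_left) (inf_le_left.trans inf_le_right)
        _ = ⊥ := h7
        _ ≤ x a := bot_le
  -- an enumeration of x by elements of x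
  obtain ⟨f0, f1, f2, f3, f4⟩ := EvP_enum h0 x
  obtain ⟨t, t1, t2, t3⟩ := EvP_disjoint x
  set g : ℕ → L → B := fun n a => (f0 n a ⊓ x a) ⊔ ((⨆ a', f0 n a' ⊓ x a')ᶜ ⊓ t a) with hg
  have gx : ∀ n a, g n a ≤ x a := fun n a =>
    sup_le inf_le_right (inf_le_right.trans (t1 a))
  have gd : ∀ n a a', a ≠ a' → g n a ⊓ g n a' = ⊥ := by
    intro n a a' haa
    have hh : ∀ w, f0 n w ⊓ x w ⊓ (⨆ a', f0 n a' ⊓ x a')ᶜ = ⊥ := fun w => by
      rw [eq_bot_iff]
      calc f0 n w ⊓ x w ⊓ (⨆ a', f0 n a' ⊓ x a')ᶜ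
          ≤ (⨆ a', f0 n a' ⊓ x a') ⊓ (⨆ a', f0 n a' ⊓ x a')ᶜ :=
            inf_le_inf_right _ (le_iSup (fun a' => f0 n a' ⊓ x a') w)
        _ = ⊥ := inf_compl_self _
    rw [eq_bot_iff, hg]
    beta_reduce
    rw [inf_sup_right, inf_sup_left, inf_sup_left]
    refine sup_le (sup_le ?_ ?_) (sup_le ?_ ?_)
    · rw [← f1.uniq n a a' haa]
      exact inf_le_inf inf_le_left inf_le_left
    · rw [← hh a]
      exact le_inf inf_le_left (inf_le_right.trans inf_le_left)
    · rw [← hh a']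
      exact le_inf inf_le_right (inf_le_left.trans inf_le_left)
    · rw [← t2 a a' haa]
      exact inf_le_inf inf_le_right inf_le_right
  have gt : ∀ n, c ≤ ⨆ a, g n a := by
    intro n
    have h8 : c ≤ (⨆ a', f0 n a' ⊓ x a') ⊔ ((⨆ a', f0 n a' ⊓ x a')ᶜ ⊓ ⨆ a, t a) := by
      rw [sup_inf_left, sup_compl_eq_top, top_inf_eq, t3]
      exact cne.trans le_sup_right
    refine h8.trans (sup_le ?_ ?_)
    · exact iSup_mono fun a => le_sup_left
    · rw [inf_iSup_eq]
      exact iSup_mono fun a => le_sup_right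
  have gc : ∀ a, c ⊓ x a ≤ ⨆ n, g n a := by
    intro a
    refine EvP_case (s := fun n => f0 n a) ((inf_le_inf_right _ cx).trans (f4 a)) fun n => ?_
    refine le_iSup_of_le n (le_sup_of_le_left ?_)
    exact le_inf inf_le_right (inf_le_left.trans inf_le_right)
  have gα : ∀ a, ¬ a < α → c ⊓ x a = ⊥ := by
    intro a ha
    rw [eq_bot_iff, ← f3 a ha]
    exact inf_le_inf_right _ cx
  -- values of initial segments
  let V : List L → B := fun u => List.rec ⊤ (fun a' u r => r ⊓ g u.length a') u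
  have V0 : V [] = ⊤ := rfl
  have V1 : ∀ a' u, V (a' :: u) = V u ⊓ g u.length a' := fun _ _ => rfl
  have Vd : ∀ u u' : List L, u.length = u'.length → u ≠ u' → V u ⊓ V u' = ⊥ := by
    intro u
    induction u with
    | nil =>
      intro u' hl hne
      cases u' with
      | nil => exact absurd rfl hne
      | cons a' u' => simp at hl
    | cons a u ih =>
      intro u' hl hne
      cases u' with
      | nil => simp at hl
      | cons a' u' =>
        simp only [List.length_cons, add_left_inj] at hl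
        rw [V1, V1, eq_bot_iff]
        by_cases huu : u = u'
        · subst huu
          have haa : a ≠ a' := fun h => hne (by rw [h])
          rw [← gd u.length a a' haa]
          exact inf_le_inf inf_le_right inf_le_right
        · rw [← ih u' hl huu]
          exact inf_le_inf inf_le_left inf_le_left
  have Vx : ∀ u, ∀ a ∈ u, V u ≤ x a := by
    intro u
    induction u with
    | nil => simp
    | cons a' u ih =>
      intro a ha
      rw [V1]
      rcases List.mem_cons.1 ha with rfl | ha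
      · exact inf_le_right.trans (gx _ _)
      · exact inf_le_left.trans (ih a ha)
  have Vt : ∀ n, c ≤ ⨆ (u : {u : List L // u.length = n}), V u.1 := by
    intro n
    induction n with
    | zero =>
      refine le_iSup_of_le ⟨[], rfl⟩ ?_
      rw [V0]
      exact le_top
    | succ n ih =>
      refine EvP_case ih fun u => ?_
      refine EvP_case (inf_le_left.trans (gt n)) fun a => ?_
      refine le_iSup_of_le ⟨a :: u.1, by simp [u.2]⟩ ?_
      rw [V1, u.2]
      exact le_inf (inf_le_left.trans inf_le_right) inf_le_right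
  set z : ℕ → L → B := fun n a => ⨆ (u : {u : List L // u.length = n}), V u.1 ⊓ X u.1 a with hz
  have zC : ∀ n, c ≤ C (z n) := by
    intro n
    refine EvP_case (Vt n) fun u => ?_
    refine le_trans ?_ (hext (X u.1) (z n))
    refine le_inf (inf_le_left.trans (cb.trans (XC u.1))) ?_
    rw [beq]
    refine le_iInf fun a => ?_
    have hA : V u.1 ⊓ X u.1 a ≤ z n a := le_iSup (fun u : {u : List L // u.length = n} =>
      V u.1 ⊓ X u.1 a) u
    have hB : V u.1 ⊓ z n a ≤ X u.1 a := by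
      rw [hz]
      beta_reduce
      rw [inf_iSup_eq]
      refine iSup_le fun u' => ?_
      by_cases huu : u = u'
      · subst huu
        exact inf_le_right.trans inf_le_right
      · have h9 := Vd u.1 u'.1 (u.2.trans u'.2.symm) (fun h => huu (Subtype.ext h))
        calc _ ≤ V u.1 ⊓ V u'.1 := inf_le_inf_left _ inf_le_left
          _ = ⊥ := h9
          _ ≤ _ := bot_le
    calc c ⊓ V u.1 ≤ V u.1 ⊓ (X u.1 a ⊔ (X u.1 a)ᶜ) := by
          rw [sup_compl_eq_top, inf_top_eq]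
          exact inf_le_right
      _ = (V u.1 ⊓ X u.1 a) ⊔ (V u.1 ⊓ (X u.1 a)ᶜ) := inf_sup_left _ _ _
      _ ≤ _ := by
          refine sup_le (le_sup_of_le_left (le_inf inf_le_right hA)) (le_sup_of_le_right
            (le_inf inf_le_right ?_))
          rw [le_compl_iff_disjoint_right, disjoint_iff, eq_bot_iff]
          calc V u.1 ⊓ (X u.1 a)ᶜ ⊓ z n a ≤ X u.1 a ⊓ (X u.1 a)ᶜ :=
                le_inf (le_trans (le_inf (inf_le_left.trans inf_le_left) inf_le_right) hB)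
                  (inf_le_left.trans inf_le_right)
            _ = ⊥ := inf_compl_self _
  have zs : ∀ n a, c ⊓ z n a ≤ z (n + 1) a := by
    intro n a
    rw [hz]
    beta_reduce
    rw [inf_iSup_eq]
    refine iSup_le fun u => ?_
    refine EvP_case (inf_le_left.trans (gt n)) fun a' => ?_
    refine le_iSup_of_le ⟨a' :: u.1, by simp [u.2]⟩ ?_
    refine le_inf ?_ ?_
    · rw [V1, u.2]
      exact le_inf (inf_le_left.trans (inf_le_right.trans inf_le_left)) inf_le_right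
    · refine le_trans ?_ (Xmono u.1 a' a)
      exact le_inf (inf_le_left.trans (inf_le_left.trans cb))
        (inf_le_left.trans (inf_le_right.trans inf_le_right))
  have zm : ∀ m n, m < n → ∀ a, c ⊓ z m a ≤ z n a := by
    intro m n hmn a
    induction n, hmn using Nat.le_induction with
    | base => exact zs m a
    | succ n _ ih => exact (le_inf inf_le_left ih).trans (zs n a)
  have hU := h3 z c cb zC zm
  refine le_trans ?_ (hext (fun a => ⨆ n, z n a) x)
  refine le_inf hU ?_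
  rw [beq]
  refine le_iInf fun a => ?_
  have hA : c ⊓ (⨆ n, z n a) ≤ x a := by
    rw [inf_iSup_eq]
    refine iSup_le fun n => ?_
    rw [hz]
    beta_reduce
    rw [inf_iSup_eq]
    refine iSup_le fun u => ?_
    refine le_trans ?_ (hsub u.1 (c ⊓ V u.1) inf_le_left
      (fun a ha => inf_le_right.trans (Vx u.1 a ha)) a)
    exact (inf_assoc _ _ _).ge
  have hB : c ⊓ x a ≤ ⨆ n, z n a := by
    by_cases ha : a < α
    · refine EvP_case (gc a) fun n => ?_
      refine EvP_case ((inf_le_left.trans inf_le_left).trans (Vt n)) fun u => ?_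
      refine le_iSup_of_le (n + 1) (le_iSup_of_le ⟨a :: u.1, by simp [u.2]⟩ (le_inf ?_ ?_))
      · rw [V1, u.2]
        exact le_inf inf_le_right (inf_le_left.trans inf_le_right)
      · exact (inf_le_left.trans (inf_le_left.trans (inf_le_left.trans cb))).trans (Xin u.1 a ha)
    · rw [gα a ha]
      exact bot_le
  calc c ≤ c ⊓ (x a ⊔ (x a)ᶜ) := le_inf le_rfl (by rw [sup_compl_eq_top]; exact le_top)
    _ = (c ⊓ x a) ⊔ (c ⊓ (x a)ᶜ) := inf_sup_left _ _ _
    _ ≤ _ := by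
        refine sup_le (le_sup_of_le_left (le_inf hB inf_le_right)) (le_sup_of_le_right
          (le_inf ?_ inf_le_right))
        rw [le_compl_iff_disjoint_right, disjoint_iff, eq_bot_iff]
        calc c ⊓ (x a)ᶜ ⊓ (⨆ n, z n a) ≤ x a ⊓ (x a)ᶜ :=
              le_inf (le_trans (le_inf (inf_le_left.trans inf_le_left) inf_le_right) hA)
                (inf_le_left.trans inf_le_right)
          _ = ⊥ := inf_compl_self _

/-! ### Names -/

theorem EvP_sub_app (x y z : BSet B) : sub x y ⊓ mem z x ≤ mem z y :=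
  EvP_mp (p := mem z x) (inf_le_left.trans (iInf_le _ z)) inf_le_right

theorem EvP_sub_trans (x y z : BSet B) : sub x y ⊓ sub y z ≤ sub x z := by
  refine le_iInf fun w => EvP_intro ?_
  refine le_trans (le_inf (inf_le_left.trans inf_le_right) ?_) (EvP_sub_app y z w)
  exact le_trans (le_inf (inf_le_left.trans inf_le_left) inf_le_right) (EvP_sub_app x y w)

theorem EvP_eqv_sub (x y : BSet B) : eqv x y ≤ sub x y := by
  rw [eqv_eq]
  exact inf_le_left

theorem EvP_eqv_sub' (x y : BSet B) : eqv x y ≤ sub y x := by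
  rw [eqv_eq]
  exact inf_le_right

end EvPbasic

theorem claimEvP (h1 : ClaimNice1) (h2 : ClaimNice2) (_hC : ClaimCongr) (hF : ClaimFull)
    (hCt : ClaimEvCtbl) : ClaimEvP := by
  intro B _ L _ _ α N b _ hN hS hex C
  obtain ⟨a0, ha0⟩ := hex
  haveI : Nonempty L := ⟨α⟩
  have n1 := h1 B
  have n2 := h2 B
  have disc : Disc (onm : L → BSet B) := n1.onm_disc L
  have discω : Disc (onm : ℕ → BSet B) := n1.onm_disc ℕ
  set b1 := b ⊓ BV.clubP (w0 B) C (onm α) with hb1
  have c1 : ∀ x : BSet B, b1 ⊓ mem x C ≤ sub x (onm α) ⊓ BV.ctbl (w0 B) x := fun x =>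
    EvP_mp (p := mem x C) (inf_le_left.trans (inf_le_right.trans (inf_le_left.trans
      (iInf_le _ x)))) inf_le_right
  have c2 : ∀ x : BSet B, b1 ⊓ (sub x (onm α) ⊓ BV.ctbl (w0 B) x) ≤
      ⨆ y, mem y C ⊓ sub x y := fun x =>
    EvP_mp (p := BV.ctbl (w0 B) x) (EvP_mp (p := sub x (onm α)) (inf_le_left.trans
      (inf_le_right.trans (inf_le_right.trans (inf_le_left.trans (iInf_le _ x)))))
      (inf_le_right.trans inf_le_left)) (inf_le_right.trans inf_le_right)
  have hαw : sub (onm α : BSet B) (w2 L B) = ⊤ := by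
    rw [eq_top_iff]
    refine le_iInf fun w => EvP_intro ?_
    rw [onm_eq α, n1.mem_hat, w2, n1.mem_hat]
    refine inf_le_right.trans (iSup_le fun y => ?_)
    exact le_iSup (fun x : L => eqv w (onm x)) y.1
  refine EvP_core ha0 N (fun x => mem (sb onm x) C) b1 ?_ ?_ ?_ ?_ ?_ ?_
  · intro x y
    rw [← n1.eqv_sb L onm x y disc, inf_comm]
    exact mem_congr_left _ _ _
  · intro x
    rw [← hCt B L α x]
    exact c1 _
  · intro x
    have hE : Extl (fun y : BSet B => mem y C ⊓ sub (sb onm x) y) := by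
      intro y y'
      refine le_inf ?_ ?_
      · exact (inf_le_inf_left _ inf_le_left).trans (mem_congr_left _ _ _)
      · exact le_trans (le_inf (inf_le_right.trans inf_le_right)
          (inf_le_left.trans (EvP_eqv_sub _ _))) (EvP_sub_trans _ y y')
    obtain ⟨y0, hy0⟩ := hF B _ hE
    refine ⟨fun a => mem (onm a) y0, ?_⟩
    have e1 : b1 ⊓ ctblSub α x ≤ mem y0 C ⊓ sub (sb onm x) y0 := by
      rw [← hCt B L α x]
      exact (c2 _).trans hy0
    have e2 : b1 ⊓ ctblSub α x ≤ sub y0 (hatF (onm : L → BSet B)) := by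
      refine le_trans (le_inf ?_ ?_) (EvP_sub_trans y0 (onm α) (w2 L B))
      · exact (le_inf inf_le_left (e1.trans inf_le_left)).trans ((c1 y0).trans inf_le_left)
      · rw [hαw]
        exact le_top
    constructor
    · refine le_trans (le_inf ?_ (e1.trans inf_le_left))
        (mem_congr_left y0 (sb onm fun a => mem (onm a) y0) C)
      exact e2.trans (n1.sub_le L onm y0)
    · intro a
      refine le_trans (le_inf (inf_le_left.trans (e1.trans inf_le_right)) ?_)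
        (EvP_sub_app (sb onm x) y0 (onm a))
      rw [n1.mem_sb L onm x disc a]
      exact inf_le_right
  · intro z c hc hz hm
    set h : BSet B := .mk ℕ (fun n => opn (onm n) (sb (onm : L → BSet B) (z n)))
      (fun _ => ⊤) with hh
    have hR : ∀ p y, BV.R h p y = ⨆ n : ℕ, eqv p (onm n) ⊓ eqv y (sb onm (z n)) := by
      intro p y
      rw [n2.R_eq, hh, mem_mk]
      simp only [top_inf_eq, n2.opn_eqv]
    have hw : ∀ p : BSet B, mem p (w0 B) = ⨆ n : ℕ, eqv p (onm n) := fun p =>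
      n1.mem_hat ℕ onm p
    have hsubz : ∀ i j : ℕ, i < j → c ≤ sub (sb onm (z i)) (sb onm (z j)) := by
      intro i j hij
      rw [sb, sub_mk]
      refine le_iInf fun a => EvP_intro ?_
      have := n1.mem_sb L onm (z j) disc a
      rw [this]
      exact hm i j hij a
    have hunion : ∀ w : BSet B, (⨆ p, mem p (w0 B) ⊓ ⨆ y, BV.R h p y ⊓ mem w y) =
        mem w (sb onm fun a => ⨆ n, z n a) := by
      intro w
      rw [n1.mem_sb']
      apply le_antisymm
      · refine iSup_le fun p => ?_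
        rw [inf_iSup_eq]
        refine iSup_le fun y => ?_
        rw [hR, iSup_inf_eq, inf_iSup_eq]
        refine iSup_le fun n => ?_
        have e1 : mem p (w0 B) ⊓ (eqv p (onm n) ⊓ eqv y (sb onm (z n)) ⊓ mem w y) ≤
            mem w (sb onm (z n)) :=
          le_trans (le_inf (inf_le_right.trans (inf_le_left.trans inf_le_right))
            (inf_le_right.trans inf_le_right)) (mem_congr_right y _ w)
        refine e1.trans ?_
        rw [n1.mem_sb']
        refine iSup_mono fun a => inf_le_inf_right _ ?_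
        exact le_iSup (fun n => z n a) n
      · refine iSup_le fun a => ?_
        rw [iSup_inf_eq]
        refine iSup_le fun n => ?_
        refine le_iSup_of_le (onm n) (le_inf ?_ (le_iSup_of_le (sb onm (z n)) (le_inf ?_ ?_)))
        · rw [hw]
          refine le_iSup_of_le n ?_
          rw [eqv_refl]
          exact le_top
        · rw [hR]
          refine le_iSup_of_le n ?_
          rw [eqv_refl, eqv_refl]
          simp
        · rw [n1.mem_sb']
          exact le_iSup (fun a => z n a ⊓ eqv w (onm a)) a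
    have c3 := hc.trans (inf_le_right.trans (inf_le_right.trans (inf_le_right.trans
      (iInf_le _ h))))
    have c4 := EvP_mp c3 (by
      refine le_iInf fun p => EvP_intro ?_
      rw [hw]
      refine EvP_case inf_le_right fun n => ?_
      refine le_iSup_of_le (sb onm (z n)) (le_inf (inf_le_left.trans (inf_le_left.trans (hz n))) ?_)
      rw [hR]
      refine le_iSup_of_le n (le_inf inf_le_right ?_)
      rw [eqv_refl]
      exact le_top)
    have c5 := EvP_mp c4 (by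
      refine le_iInf fun p => le_iInf fun y => le_iInf fun y' => EvP_intro (EvP_intro ?_)
      rw [hR, hR]
      refine EvP_case (inf_le_left.trans inf_le_right) fun n => ?_
      refine EvP_case (inf_le_left.trans inf_le_right) fun m => ?_
      by_cases hnm : n = m
      · subst hnm
        refine le_trans (le_inf (inf_le_left.trans (inf_le_right.trans inf_le_right)) ?_)
          (eqv_trans y (sb onm (z n)) y')
        rw [eqv_symm (sb onm (z n))]
        exact inf_le_right.trans inf_le_right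
      · calc _ ≤ eqv (onm n) p ⊓ eqv p (onm m) := by
              refine le_inf ?_ (inf_le_right.trans inf_le_left)
              rw [eqv_symm (onm n)]
              exact inf_le_left.trans (inf_le_right.trans inf_le_left)
          _ ≤ eqv (onm n) (onm m) := eqv_trans _ _ _
          _ = ⊥ := discω n m hnm
          _ ≤ _ := bot_le)
    have c6 := EvP_mp c5 (by
      refine le_iInf fun p => EvP_intro (le_iInf fun m => EvP_intro (le_iInf fun y =>
        le_iInf fun y' => EvP_intro (EvP_intro ?_)))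
      rw [hR, hR]
      refine EvP_case (inf_le_left.trans inf_le_right) fun i => ?_
      refine EvP_case (inf_le_left.trans inf_le_right) fun j => ?_
      by_cases hij : i < j
      · refine le_trans (le_inf ?_ ?_) (EvP_sub_trans y (sb onm (z i)) y')
        · exact (inf_le_left.trans (inf_le_right.trans inf_le_right)).trans (EvP_eqv_sub _ _)
        · refine le_trans (le_inf ?_ ?_) (EvP_sub_trans (sb onm (z i)) (sb onm (z j)) y')
          · exact (inf_le_left.trans (inf_le_left.trans (inf_le_left.trans (inf_le_left.trans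
              (inf_le_left.trans inf_le_left))))).trans (hsubz i j hij)
          · exact (inf_le_right.trans inf_le_right).trans (EvP_eqv_sub' _ _)
      · refine le_trans ?_ (bot_le : ⊥ ≤ sub y y')
        rw [← n1.onm_nlt ℕ i j hij]
        refine le_trans (le_inf (inf_le_right.trans inf_le_left) ?_)
          (mem_congr_right p (onm j) (onm i))
        refine le_trans (le_inf (inf_le_left.trans (inf_le_right.trans inf_le_left)) ?_)
          (mem_congr_left m (onm i) p)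
        exact inf_le_left.trans (inf_le_left.trans (inf_le_left.trans (inf_le_left.trans
          inf_le_right))))
    have c7 := EvP_mp (c6.trans (iInf_le _ (sb onm fun a => ⨆ n, z n a))) (by
      refine le_iInf fun w => ?_
      rw [hunion]
      simp)
    exact c7
  · exact fun x => (inf_le_inf_right _ inf_le_left).trans (hN x)
  · exact inf_le_left.trans hS

end Pool.Agent.Work.MP_dbe197_lc

end

section

/-!
# Clubs and stationary sets at canonical names; stationary reflection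
-/

namespace Pool.Agent.Work.MP_dbe197_lc

open Set Cardinal BSet

section EvStat

variable {B : Type} [CompleteBooleanAlgebra B]

/-- Extensionality from the congruence theorem. -/
theorem EvStat_extl (hC : ClaimCongr) (φ : Fml) (v : ℕ → BSet B) :
    Extl (fun x => Val φ (cons x v)) := by
  intro x y
  refine le_trans (inf_le_inf_right _ ?_) (hC B φ (cons x v) (cons y v))
  refine le_iInf fun n => ?_
  cases n with
  | zero => exact le_rfl
  | succ n =>
    rw [cons_succ, cons_succ, eqv_refl]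
    exact le_top

theorem EvStat_extl_mem (T : BSet B) : Extl (fun x => mem x T) := fun _ _ => mem_congr_left _ _ _

theorem EvStat_extl_mem' (x : BSet B) : Extl (fun T => mem x T) := fun _ _ => mem_congr_right _ _ _

/-- The elements of `nm x` are the `nm y`, `y < x`. -/
def EvStat_tr {X : Type} [LinearOrder X] (nm : X → BSet B) : Prop :=
  ∀ x z, mem z (nm x) = ⨆ y, ⨆ (_ : y < x), eqv z (nm y)

theorem EvStat_tr_onm {L : Type} [LinearOrder L] [WellFoundedLT L] :
    EvStat_tr (onm : L → BSet B) := by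
  intro x z
  rw [onm_eq x, hatF, mem_mk, iSup_subtype]
  simp only [top_inf_eq, mem_Iio]

theorem EvStat_tr_below {L : Type} [LinearOrder L] [WellFoundedLT L] (δ : L) :
    EvStat_tr (fun y : Iio δ => (onm y.1 : BSet B)) := by
  intro x z
  show mem z (onm x.1) = _
  rw [EvStat_tr_onm x.1 z]
  apply le_antisymm
  · refine iSup_le fun y => iSup_le fun hy => ?_
    exact le_iSup_of_le (⟨y, lt_trans hy x.2⟩ : Iio δ) (le_iSup_of_le (show _ < x from hy) le_rfl)
  · refine iSup_le fun y => iSup_le fun hy => ?_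
    exact le_iSup_of_le y.1 (le_iSup_of_le (show y.1 < x.1 from hy) le_rfl)

section tr

variable {X : Type} [LinearOrder X] {nm : X → BSet B} (ht : EvStat_tr nm) (hd : Disc nm)

include ht in
theorem EvStat_lt {x y : X} (h : y < x) : mem (nm y) (nm x) = ⊤ := by
  rw [ht, eq_top_iff, ← eqv_refl (nm y)]
  exact le_iSup_of_le y (le_iSup_of_le h le_rfl)

include ht hd in
theorem EvStat_nlt {x y : X} (h : ¬ y < x) : mem (nm y) (nm x) = ⊥ := by
  rw [ht, eq_bot_iff]
  refine iSup_le fun z => iSup_le fun hz => ?_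
  rw [hd y z (fun e => h (e ▸ hz))]

include ht in
theorem EvStat_ex {x : X} {φ : BSet B → B} (hφ : Extl φ) :
    ⨆ z, mem z (nm x) ⊓ φ z = ⨆ y, ⨆ (_ : y < x), φ (nm y) := by
  apply le_antisymm
  · refine iSup_le fun z => ?_
    rw [ht, iSup_inf_eq]
    refine iSup_mono fun y => ?_
    rw [iSup_inf_eq]
    refine iSup_mono fun _ => hφ _ _
  · refine iSup_le fun y => iSup_le fun hy => ?_
    refine le_iSup_of_le (nm y) ?_
    rw [EvStat_lt ht hy, top_inf_eq]

include ht in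
theorem EvStat_all {x : X} {φ : BSet B → B} (hφ : Extl φ) :
    ⨅ z, (mem z (nm x))ᶜ ⊔ φ z = ⨅ y, ⨅ (_ : y < x), φ (nm y) := by
  apply le_antisymm
  · refine le_iInf fun y => le_iInf fun hy => ?_
    refine iInf_le_of_le (nm y) ?_
    rw [EvStat_lt ht hy, compl_top, bot_sup_eq]
  · refine le_iInf fun z => ?_
    rw [sup_comm, ← himp_eq, le_himp_iff, ht, inf_iSup_eq]
    refine iSup_le fun y => ?_
    rw [inf_iSup_eq]
    refine iSup_le fun hy => ?_
    refine le_trans ?_ (hφ (nm y) z)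
    refine le_inf ?_ ?_
    · rw [eqv_symm]
      exact inf_le_right
    · exact inf_le_left.trans (iInf_le_of_le y (iInf_le_of_le hy le_rfl))

include ht hd in
/-- Clubs at canonical names. -/
theorem EvStat_club (hC : ClaimCongr) (h1 : Nice1 B) (C : X → B) :
    BV.club (sb nm C) (hatF nm) = club C := by
  unfold BV.club club
  rw [h1.sub_sb, top_inf_eq]
  have e1 : Extl (fun α => ⨆ β, mem β (sb nm C) ⊓ mem α β) := by
    have := EvStat_extl hC (.ex (.and (.mem 0 2) (.mem 1 0))) (cons (sb nm C) (fun _ => sb nm C))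
    simpa using this
  have e2 : Extl (fun α => ((⨆ β, mem β α)ᶜ ⊔
      ((⨅ β, (mem β α)ᶜ ⊔ ⨆ γ, mem γ (sb nm C) ⊓ (mem γ α ⊓ mem β γ))ᶜ ⊔ mem α (sb nm C)))) := by
    have := EvStat_extl hC (.imp (.ex (.mem 0 1)) (.imp (.all (.imp (.mem 0 1)
      (.ex (.and (.mem 0 3) (.and (.mem 0 2) (.mem 1 0)))))) (.mem 0 1)))
      (cons (sb nm C) (fun _ => sb nm C))
    simpa using this
  rw [h1.all_mem X nm _ e1, h1.all_mem X nm _ e2]
  congr 1
  · refine iInf_congr fun x => ?_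
    have e3 := iSup_mem nm C (fun β => mem (nm x) β) (EvStat_extl_mem' (nm x))
    have e4 : (mk X nm C) = sb nm C := rfl
    rw [e4] at e3
    rw [e3]
    refine iSup_congr fun y => ?_
    by_cases h : x < y
    · rw [EvStat_lt ht h, inf_top_eq]
      simp [h]
    · rw [EvStat_nlt ht hd h, inf_bot_eq]
      simp [h]
  · refine iInf_congr fun x => ?_
    rw [h1.mem_sb X nm C hd]
    by_cases hx : ∃ β, β < x
    · obtain ⟨y, hy⟩ := hx
      have e5 : ⨆ β, mem β (nm x) = ⊤ := by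
        rw [eq_top_iff, ← EvStat_lt ht hy]
        exact le_iSup (fun β => mem β (nm x)) (nm y)
      have hx : ∃ β, β < x := ⟨y, hy⟩
      rw [e5, compl_top, bot_sup_eq]
      simp only [hx, iInf_pos]
      congr 1
      have e6 : Extl (fun β => ⨆ γ, mem γ (sb nm C) ⊓ (mem γ (nm x) ⊓ mem β γ)) := by
        have := EvStat_extl hC (.ex (.and (.mem 0 2) (.and (.mem 0 3) (.mem 1 0))))
          (cons (sb nm C) (cons (nm x) (fun _ => sb nm C)))
        simpa using this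
      rw [EvStat_all ht e6, compl_iInf]
      refine iSup_congr fun β => ?_
      rw [compl_iInf]
      refine iSup_congr fun _ => ?_
      have e7 : Extl (fun γ => mem γ (nm x) ⊓ mem (nm β) γ) := by
        have := EvStat_extl hC (.and (.mem 0 1) (.mem 2 0))
          (cons (nm x) (cons (nm β) (fun _ => nm x)))
        simpa using this
      have e3 := iSup_mem nm C (fun γ => mem γ (nm x) ⊓ mem (nm β) γ) e7
      have e4 : (mk X nm C) = sb nm C := rfl
      rw [e4] at e3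
      rw [e3, compl_iSup]
      refine iInf_congr fun γ => ?_
      by_cases h : β < γ
      · by_cases h' : γ < x
        · rw [EvStat_lt ht h, EvStat_lt ht h']
          simp [h, h']
        · rw [EvStat_nlt ht hd h']
          simp [h']
      · rw [EvStat_nlt ht hd h]
        simp [h]
    · have e5 : ⨆ β, mem β (nm x) = ⊥ := by
        rw [eq_bot_iff]
        refine iSup_le fun β => ?_
        rw [ht]
        exact iSup_le fun y => iSup_le fun hy => absurd ⟨y, hy⟩ hx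
      rw [e5, compl_bot, top_sup_eq]
      simp [hx]

include ht hd in
/-- Stationary sets at canonical names. -/
theorem EvStat_stat (hC : ClaimCongr) (h1 : Nice1 B) (T : BSet B) (S : X → B)
    (hT : ∀ x, mem (nm x) T = S x) : BV.stat T (hatF nm) = stat S := by
  unfold BV.stat stat
  have e1 : Extl (fun C => (BV.club C (hatF nm))ᶜ ⊔ ⨆ α, mem α C ⊓ mem α T) := by
    have := EvStat_extl hC (.imp (F.club 0 1) (.ex (.and (.mem 0 1) (.mem 0 3))))
      (cons (hatF nm) (cons T (fun _ => T)))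
    simpa using this
  have e2 : ∀ C : BSet B, (BV.club C (hatF nm))ᶜ ⊔ ⨆ α, mem α C ⊓ mem α T =
      (sub C (hatF nm))ᶜ ⊔ ((BV.club C (hatF nm))ᶜ ⊔ ⨆ α, mem α C ⊓ mem α T) := by
    intro C
    have h : (sub C (hatF nm))ᶜ ≤ (BV.club C (hatF nm))ᶜ := compl_le_compl inf_le_left
    rw [← sup_assoc, sup_eq_right.2 h]
  rw [iInf_congr e2, h1.all_sub X nm _ e1]
  refine iInf_congr fun C => ?_
  rw [EvStat_club ht hd hC h1]
  congr 1
  have e3 := iSup_mem nm C (fun α => mem α T) (EvStat_extl_mem T)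
  have e4 : (mk X nm C) = sb nm C := rfl
  rw [e4] at e3
  rw [e3]
  exact iSup_congr fun x => by rw [hT]

end tr

end EvStat

theorem claimEvStat (h1 : ClaimNice1) (hC : ClaimCongr) : ClaimEvStat := by
  intro B _ L _ _ S
  have hd : Disc (onm : L → BSet B) := (h1 B).onm_disc L
  refine ⟨fun C => ?_, ?_, fun δ => ?_⟩
  · exact EvStat_club EvStat_tr_onm hd hC (h1 B) C
  · exact EvStat_stat EvStat_tr_onm hd hC (h1 B) (sb onm S) S ((h1 B).mem_sb L onm S hd)
  · rw [onm_eq δ]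
    refine EvStat_stat (EvStat_tr_below δ) ?_ hC (h1 B) (sb onm S) (below δ S) ?_
    · intro x y hxy
      exact hd x.1 y.1 (fun e => hxy (Subtype.ext e))
    · intro x
      exact (h1 B).mem_sb L onm S hd x.1

theorem EvStat_mono {B : Type} [CompleteBooleanAlgebra B] {L : Type} [LinearOrder L]
    {S S' : L → B} (h : ∀ a, S a ≤ S' a) : stat S ≤ stat S' :=
  iInf_mono fun _ => sup_le_sup le_rfl (iSup_mono fun a => inf_le_inf_left _ (h a))

theorem claimEvSR (h1 : ClaimNice1) (hC : ClaimCongr) (hCof : ClaimEvCof) (hSt : ClaimEvStat) :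
    ClaimEvSR := by
  intro B _ L _ _ hSR
  have hn := h1 B
  have hc0 : ∀ a : L, BV.cofinal (w0 B) (onm a) = cfω B a := fun a =>
    hCof B L ℕ onm (hn.onm_disc ℕ) a
  have hc1 : ∀ a : L, BV.cofinal (w1 B) (onm a) ⊓ (cfω B a)ᶜ = cfω1 B a := by
    intro a
    unfold cfω1
    congr 1
    have : Nonempty O1 := by
      apply Ordinal.nonempty_toType_iff.2
      rw [Ne, Cardinal.ord_eq_zero]
      exact (Cardinal.aleph_pos 1).ne'
    exact hCof B L O1 onm (hn.onm_disc O1) a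
  unfold BV.sr
  have e1 : Extl (fun S => ((⨅ α, (mem α S)ᶜ ⊔ BV.cofinal (w0 B) α)ᶜ ⊔ ((BV.stat S (w2 L B))ᶜ ⊔
      ⨆ β, mem β (w2 L B) ⊓ ((BV.cofinal (w1 B) β ⊓ (BV.cofinal (w0 B) β)ᶜ) ⊓
        BV.stat S β)))) := by
    have := EvStat_extl hC (.imp (.all (.imp (.mem 0 1) (F.cofinal 2 0))) (.imp (F.stat 0 3)
      (.ex (.and (.mem 0 4) (.and (.and (F.cofinal 3 0) (.neg (F.cofinal 2 0))) (F.stat 1 0))))))
      (cons (w0 B) (cons (w1 B) (cons (w2 L B) (fun _ => w0 B))))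
    simpa using this
  have e2 := hn.all_sub L onm _ e1
  have e3 : hatF (onm : L → BSet B) = w2 L B := rfl
  rw [e3] at e2
  rw [e2, eq_top_iff]
  refine le_iInf fun S => ?_
  have e40 : Extl (fun α => BV.cofinal (w0 B) α) := by
    have := EvStat_extl hC (F.cofinal 1 0) (cons (w0 B) (fun _ => w0 B))
    simpa using this
  have e4 := iInf_mem onm S (fun α => BV.cofinal (w0 B) α) e40
  have e5 : (mk L onm S) = sb onm S := rfl
  rw [e5] at e4
  have e6 := hn.ex_mem L onm (fun β => (BV.cofinal (w1 B) β ⊓ (BV.cofinal (w0 B) β)ᶜ) ⊓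
        BV.stat (sb onm S) β) (by
    have := EvStat_extl hC (.and (.and (F.cofinal 2 0) (.neg (F.cofinal 1 0))) (F.stat 3 0))
      (cons (w0 B) (cons (w1 B) (cons (sb onm S) (fun _ => w0 B))))
    simpa using this)
  rw [e3] at e6
  obtain ⟨-, s1, s2⟩ := hSt B L S
  rw [e4, e6, s1]
  simp only [hc0, hc1, s2]
  set c : B := ⨅ i, (S i)ᶜ ⊔ cfω B i with hc
  have key : c ⊓ stat S ≤ ⨆ β, cfω1 B β ⊓ stat (below β S) := by
    have k1 : c ⊓ stat S ≤ stat (fun a => S a ⊓ cfω B a) := by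
      refine le_iInf fun C => ?_
      refine le_trans (inf_le_inf_left _ (iInf_le _ C)) ?_
      rw [inf_sup_left]
      refine sup_le_sup inf_le_right ?_
      rw [inf_iSup_eq]
      refine iSup_mono fun a => ?_
      refine le_inf (inf_le_right.trans inf_le_left) (le_inf (inf_le_right.trans inf_le_right) ?_)
      calc c ⊓ (C a ⊓ S a) ≤ ((S a)ᶜ ⊔ cfω B a) ⊓ S a :=
            inf_le_inf (iInf_le _ a) inf_le_right
        _ ≤ cfω B a := by
            rw [inf_sup_right, compl_inf_eq_bot, bot_sup_eq]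
            exact inf_le_left
    refine k1.trans ((hSR _ fun a => inf_le_right).trans ?_)
    refine iSup_mono fun β => inf_le_inf_left _ (EvStat_mono fun a => ?_)
    exact inf_le_left
  rw [← sup_assoc, ← compl_inf]
  rw [← compl_sup_eq_top (x := c ⊓ stat S)]
  exact sup_le_sup le_rfl key

end Pool.Agent.Work.MP_dbe197_lc

end

section

/-!
# t = omega_2, u = omega_2, 2^omega > omega_2 in the Boolean valued universe
-/

namespace Pool.Agent.Work.MP_dbe197_lc

open Set Cardinal BSet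

section EvT

variable {B : Type} [CompleteBooleanAlgebra B]

/-! ### Extensional functions -/

theorem EvT_ext_const (b : B) : Extl (fun _ : BSet B => b) := fun _ _ => inf_le_right

theorem EvT_ext_inf {f g : BSet B → B} (hf : Extl f) (hg : Extl g) :
    Extl (fun x => f x ⊓ g x) := by
  intro x y
  exact le_inf (le_trans (inf_le_inf_left _ inf_le_left) (hf x y))
    (le_trans (inf_le_inf_left _ inf_le_right) (hg x y))

theorem EvT_ext_sup {f g : BSet B → B} (hf : Extl f) (hg : Extl g) :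
    Extl (fun x => f x ⊔ g x) := by
  intro x y
  show eqv x y ⊓ (f x ⊔ g x) ≤ _
  rw [inf_sup_left]
  exact sup_le_sup (hf x y) (hg x y)

theorem EvT_ext_compl {f : BSet B → B} (hf : Extl f) : Extl (fun x => (f x)ᶜ) := by
  intro x y
  show eqv x y ⊓ (f x)ᶜ ≤ (f y)ᶜ
  rw [le_compl_iff_disjoint_right, disjoint_iff]
  have h1 : eqv x y ⊓ f y ≤ f x := by
    rw [eqv_symm]
    exact hf y x
  rw [← le_bot_iff]
  calc eqv x y ⊓ (f x)ᶜ ⊓ f y ≤ f x ⊓ (f x)ᶜ := by
        refine le_inf (le_trans ?_ h1) (inf_le_left.trans inf_le_right)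
        exact le_inf (inf_le_left.trans inf_le_left) inf_le_right
    _ = ⊥ := inf_compl_eq_bot

theorem EvT_ext_iInf {ι : Sort*} {f : ι → BSet B → B} (h : ∀ i, Extl (f i)) :
    Extl (fun x => ⨅ i, f i x) := by
  intro x y
  exact le_iInf fun i => le_trans (inf_le_inf_left _ (iInf_le _ i)) (h i x y)

theorem EvT_ext_iSup {ι : Sort*} {f : ι → BSet B → B} (h : ∀ i, Extl (f i)) :
    Extl (fun x => ⨆ i, f i x) := by
  intro x y
  show eqv x y ⊓ (⨆ i, f i x) ≤ _
  rw [inf_iSup_eq]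
  exact iSup_mono fun i => h i x y

theorem EvT_ext_meml (a : BSet B) : Extl (fun x => mem x a) := fun x y => mem_congr_left x y a

theorem EvT_ext_memr (a : BSet B) : Extl (fun x => mem a x) := fun x y => mem_congr_right x y a

theorem EvT_ext_R (hC : ClaimCongr) (r a b r' a' b' : BSet B) :
    eqv r r' ⊓ (eqv a a' ⊓ eqv b b') ⊓ BV.R r a b ≤ BV.R r' a' b' := by
  have h := hC B (F.r 0 1 2) (cons r (cons a (cons b (fun _ => r))))
    (cons r' (cons a' (cons b' (fun _ => r'))))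
  rw [Val_r, Val_r] at h
  refine le_trans (inf_le_inf_right _ ?_) h
  refine le_iInf fun n => ?_
  rcases n with _ | _ | _ | n
  · exact inf_le_left
  · exact inf_le_right.trans inf_le_left
  · exact inf_le_right.trans inf_le_right
  · exact inf_le_left

theorem EvT_ext_R1 (hC : ClaimCongr) (a b : BSet B) : Extl (fun x => BV.R x a b) := by
  intro x y
  refine le_trans (inf_le_inf_right _ ?_) (EvT_ext_R hC x a b y a b)
  rw [eqv_refl, eqv_refl, inf_top_eq, inf_top_eq]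

theorem EvT_ext_R2 (hC : ClaimCongr) (r b : BSet B) : Extl (fun x => BV.R r x b) := by
  intro x y
  refine le_trans (inf_le_inf_right _ ?_) (EvT_ext_R hC r x b r y b)
  rw [eqv_refl, eqv_refl, inf_top_eq, top_inf_eq]

theorem EvT_ext_R3 (hC : ClaimCongr) (r a : BSet B) : Extl (fun x => BV.R r a x) := by
  intro x y
  refine le_trans (inf_le_inf_right _ ?_) (EvT_ext_R hC r a x r a y)
  rw [eqv_refl, eqv_refl, top_inf_eq, top_inf_eq]

/-! ### Natural numbers -/

theorem EvT_mem (N1 : Nice1 B) (n k : ℕ) :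
    mem (onm n : BSet B) (onm k) = ⨆ (_ : n < k), (⊤ : B) := by
  by_cases h : n < k
  · rw [N1.onm_lt ℕ n k h]; simp [h]
  · rw [N1.onm_nlt ℕ n k h]; simp [h]

theorem EvT_inf_lt (r : ℕ → B) : (⨅ n, ⨆ k, ⨆ (_ : n < k), r k) = BInf r := by
  unfold BInf
  apply le_antisymm
  · refine iInf_mono fun n => iSup_mono fun k => ?_
    exact iSup_le fun h => le_iSup_of_le h.le le_rfl
  · refine le_iInf fun n => iInf_le_of_le (n + 1) ?_
    refine iSup_mono fun k => ?_
    exact iSup_le fun h => le_iSup_of_le (by omega) le_rfl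

theorem EvT_sub_lt (r s : ℕ → B) :
    (⨆ n, ⨅ k, ⨅ (_ : n < k), (r k)ᶜ ⊔ s k) = BSub r s := by
  unfold BSub
  apply le_antisymm
  · refine iSup_le fun n => le_iSup_of_le (n + 1) ?_
    refine iInf_mono fun k => ?_
    exact le_iInf fun h => iInf_le_of_le (by omega) le_rfl
  · refine iSup_mono fun n => iInf_mono fun k => ?_
    exact le_iInf fun h => iInf_le_of_le h.le le_rfl

theorem EvT_lt_inf (N1 : Nice1 B) (n k : ℕ) (b : B) :
    b ⊓ mem (onm n : BSet B) (onm k) = ⨆ (_ : n < k), b := by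
  rw [EvT_mem N1]
  by_cases h : n < k <;> simp [h]

theorem EvT_lt_sup (N1 : Nice1 B) (n k : ℕ) (b : B) :
    (mem (onm n : BSet B) (onm k))ᶜ ⊔ b = ⨅ (_ : n < k), b := by
  rw [EvT_mem N1]
  by_cases h : n < k <;> simp [h]

theorem EvT_infS (N1 : Nice1 B) (hC : ClaimCongr) (T a : BSet B) :
    BV.infS (w0 B) T a = BInf (fun k => BV.R T a (onm k)) := by
  unfold BV.infS w0
  rw [N1.all_mem ℕ onm (fun n => ⨆ k, mem k (hatF (onm : ℕ → BSet B)) ⊓ (BV.R T a k ⊓ mem n k))]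
  · rw [← EvT_inf_lt]
    refine iInf_congr fun n => ?_
    rw [N1.ex_mem ℕ onm (fun k => BV.R T a k ⊓ mem (onm n) k)]
    · exact iSup_congr fun k => EvT_lt_inf N1 n k _
    · exact EvT_ext_inf (EvT_ext_R3 hC _ _) (EvT_ext_memr _)
  · exact EvT_ext_iSup fun k => EvT_ext_inf (EvT_ext_const _)
      (EvT_ext_inf (EvT_ext_const _) (EvT_ext_meml _))

theorem EvT_almS (N1 : Nice1 B) (hC : ClaimCongr) (T b a : BSet B) :
    BV.almS (w0 B) T b a = BSub (fun k => BV.R T b (onm k)) (fun k => BV.R T a (onm k)) := by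
  unfold BV.almS w0
  rw [N1.ex_mem ℕ onm (fun n => ⨅ k, (mem k (hatF (onm : ℕ → BSet B)))ᶜ ⊔
    ((mem n k)ᶜ ⊔ ((BV.R T b k)ᶜ ⊔ BV.R T a k)))]
  · rw [← EvT_sub_lt]
    refine iSup_congr fun n => ?_
    rw [N1.all_mem ℕ onm (fun k => (mem (onm n) k)ᶜ ⊔ ((BV.R T b k)ᶜ ⊔ BV.R T a k))]
    · exact iInf_congr fun k => EvT_lt_sup N1 n k _
    · exact EvT_ext_sup (EvT_ext_compl (EvT_ext_memr _))
        (EvT_ext_sup (EvT_ext_compl (EvT_ext_R3 hC _ _)) (EvT_ext_R3 hC _ _))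
  · exact EvT_ext_iInf fun k => EvT_ext_sup (EvT_ext_const _)
      (EvT_ext_sup (EvT_ext_compl (EvT_ext_meml _)) (EvT_ext_const _))

theorem EvT_ext_BInf {f : ℕ → BSet B → B} (h : ∀ k, Extl (f k)) :
    Extl (fun x => BInf (fun k => f k x)) := by
  unfold BInf
  exact EvT_ext_iInf fun n => EvT_ext_iSup fun k => EvT_ext_iSup fun _ => h k

theorem EvT_ext_BSub {f g : ℕ → BSet B → B} (hf : ∀ k, Extl (f k)) (hg : ∀ k, Extl (g k)) :
    Extl (fun x => BSub (fun k => f k x) (fun k => g k x)) := by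
  unfold BSub
  exact EvT_ext_iSup fun n => EvT_ext_iInf fun k => EvT_ext_iInf fun _ =>
    EvT_ext_sup (EvT_ext_compl (hf k)) (hg k)

theorem EvT_tower (N1 : Nice1 B) (hC : ClaimCongr) {X : Type} (nm : X → BSet B) (T : BSet B) :
    BV.tower (w0 B) T (hatF nm) = (⨅ x, BInf (fun k => BV.R T (nm x) (onm k))) ⊓
      ⨅ x, ⨅ a, (mem a (nm x))ᶜ ⊔
        BSub (fun k => BV.R T (nm x) (onm k)) (fun k => BV.R T a (onm k)) := by
  unfold BV.tower
  congr 1
  · rw [N1.all_mem X nm (fun a => BV.infS (w0 B) T a)]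
    · exact iInf_congr fun x => EvT_infS N1 hC _ _
    · simp only [EvT_infS N1 hC]
      exact EvT_ext_BInf fun k => EvT_ext_R2 hC _ _
  · simp only [EvT_almS N1 hC]
    rw [N1.all_mem X nm (fun b => ⨅ a, (mem a b)ᶜ ⊔
      BSub (fun k => BV.R T b (onm k)) (fun k => BV.R T a (onm k)))]
    exact EvT_ext_iInf fun a => EvT_ext_sup (EvT_ext_compl (EvT_ext_memr _))
      (EvT_ext_BSub (fun k => EvT_ext_R2 hC _ _) (fun k => EvT_ext_const _))

theorem EvT_onm_all (N1 : Nice1 B) {X : Type} [LinearOrder X] [WellFoundedLT X] (x : X)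
    (φ : BSet B → B) (hφ : Extl φ) :
    ⨅ a, (mem a (onm x))ᶜ ⊔ φ a = ⨅ y : Iio x, φ (onm y.1) := by
  rw [onm_eq x]
  exact N1.all_mem (Iio x) (fun y => onm y.1) φ hφ

theorem EvT_psI (N1 : Nice1 B) (hC : ClaimCongr) (T a : BSet B) (r : ℕ → B) :
    BV.psI (w0 B) T a (sb onm r) = BInf r ⊓
      ⨅ α, (mem α a)ᶜ ⊔ BSub r (fun k => BV.R T α (onm k)) := by
  unfold BV.psI
  have h1 : sub (sb onm r) (w0 B) = ⊤ := N1.sub_sb ℕ onm r
  rw [h1, top_inf_eq]
  congr 1
  · unfold w0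
    rw [N1.all_mem ℕ onm (fun n => ⨆ k, mem k (sb onm r) ⊓ mem n k)]
    · rw [← EvT_inf_lt]
      refine iInf_congr fun n => ?_
      unfold sb
      rw [iSup_mem onm r (fun k => mem (onm n) k) (EvT_ext_memr _)]
      exact iSup_congr fun k => EvT_lt_inf N1 n k _
    · exact EvT_ext_iSup fun k => EvT_ext_inf (EvT_ext_const _) (EvT_ext_meml _)
  · refine iInf_congr fun α => ?_
    congr 1
    unfold w0
    rw [N1.ex_mem ℕ onm (fun n => ⨅ k, (mem k (sb onm r))ᶜ ⊔ ((mem n k)ᶜ ⊔ BV.R T α k))]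
    · rw [← EvT_sub_lt]
      refine iSup_congr fun n => ?_
      unfold sb
      rw [iInf_mem onm r (fun k => (mem (onm n) k)ᶜ ⊔ BV.R T α k)]
      · refine iInf_congr fun k => ?_
        rw [← EvT_lt_sup N1]
        rw [sup_left_comm]
      · exact EvT_ext_sup (EvT_ext_compl (EvT_ext_memr _)) (EvT_ext_R3 hC _ _)
    · exact EvT_ext_iInf fun k => EvT_ext_sup (EvT_ext_const _)
        (EvT_ext_sup (EvT_ext_compl (EvT_ext_meml _)) (EvT_ext_const _))

theorem EvT_ext_psI (N1 : Nice1 B) (hC : ClaimCongr) (T a : BSet B) :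
    Extl (fun r => BV.psI (w0 B) T a r) := by
  have h := fun x y => hC B (F.psI 1 2 3 0) (cons x (cons (w0 B) (cons T (cons a (fun _ => x)))))
    (cons y (cons (w0 B) (cons T (cons a (fun _ => y)))))
  intro x y
  have h' := h x y
  rw [Val_psI, Val_psI] at h'
  refine le_trans (inf_le_inf_right _ ?_) h'
  refine le_iInf fun n => ?_
  rcases n with _ | _ | _ | _ | n
  · exact le_rfl
  · show _ ≤ eqv (w0 B) (w0 B)
    rw [eqv_refl]; exact le_top
  · show _ ≤ eqv T T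
    rw [eqv_refl]; exact le_top
  · show _ ≤ eqv a a
    rw [eqv_refl]; exact le_top
  · exact le_rfl

theorem EvT_sup_psI (N1 : Nice1 B) (hC : ClaimCongr) (T a : BSet B) :
    ⨆ r, BV.psI (w0 B) T a r = ⨆ r : ℕ → B, BInf r ⊓
      ⨅ α, (mem α a)ᶜ ⊔ BSub r (fun k => BV.R T α (onm k)) := by
  have h1 : ∀ r, BV.psI (w0 B) T a r =
      sub r (hatF (onm : ℕ → BSet B)) ⊓ BV.psI (w0 B) T a r := by
    intro r
    refine le_antisymm (le_inf ?_ le_rfl) inf_le_right
    unfold BV.psI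
    exact inf_le_left
  calc ⨆ r, BV.psI (w0 B) T a r =
        ⨆ r, sub r (hatF (onm : ℕ → BSet B)) ⊓ BV.psI (w0 B) T a r := iSup_congr h1
    _ = _ := by
        rw [N1.ex_sub ℕ onm (fun r => BV.psI (w0 B) T a r) (EvT_ext_psI N1 hC T a)]
        exact iSup_congr fun r => EvT_psI N1 hC T a r

/-! ### Boolean lemmas -/

theorem EvT_shift_inf (b : B) (r : ℕ → B) (h : b ≤ BInf r) :
    BInf (fun n => (r n ⊓ b) ⊔ bᶜ) = ⊤ := by
  unfold BInf at *
  rw [iInf_eq_top]
  intro n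
  rw [eq_top_iff, ← sup_compl_eq_top (x := b)]
  refine sup_le ?_ ?_
  · have h1 : b ≤ (⨆ k, ⨆ (_ : n ≤ k), r k) ⊓ b := le_inf (h.trans (iInf_le _ n)) le_rfl
    refine h1.trans ?_
    rw [iSup_inf_eq]
    refine iSup_mono fun k => ?_
    rw [iSup_inf_eq]
    exact iSup_mono fun _ => le_sup_left
  · exact le_iSup_of_le n (le_iSup_of_le le_rfl le_sup_right)

theorem EvT_shift_sub (b : B) (r s : ℕ → B) (h : b ≤ BSub r s) :
    BSub (fun n => (r n ⊓ b) ⊔ bᶜ) (fun n => (s n ⊓ b) ⊔ bᶜ) = ⊤ := by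
  unfold BSub at *
  rw [eq_top_iff, ← sup_compl_eq_top (x := b)]
  refine sup_le (h.trans ?_) ?_
  · refine iSup_mono fun n => iInf_mono fun k => iInf_mono fun _ => ?_
    refine sup_le ?_ ?_
    · rw [compl_sup, compl_inf, compl_compl, inf_sup_right, compl_inf_eq_bot, sup_bot_eq]
      calc (r k)ᶜ = ((r k)ᶜ ⊓ b) ⊔ ((r k)ᶜ ⊓ bᶜ) := by
            rw [← inf_sup_left, sup_compl_eq_top, inf_top_eq]
        _ ≤ _ := sup_le_sup le_rfl (inf_le_right.trans le_sup_right)
    · calc s k = (s k ⊓ b) ⊔ (s k ⊓ bᶜ) := by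
            rw [← inf_sup_left, sup_compl_eq_top, inf_top_eq]
        _ ≤ (s k ⊓ b) ⊔ bᶜ := sup_le_sup le_rfl inf_le_right
        _ ≤ _ := le_sup_right
  · refine le_iSup_of_le 0 (le_iInf fun k => le_iInf fun _ => ?_)
    exact le_sup_right.trans le_sup_right

theorem EvT_unshift (b : B) (r s : ℕ → B) (h : BSub r (fun n => (s n ⊓ b) ⊔ bᶜ) = ⊤) :
    b ≤ BSub r s := by
  have h1 : b = b ⊓ BSub r (fun n => (s n ⊓ b) ⊔ bᶜ) := by rw [h, inf_top_eq]
  rw [h1]
  unfold BSub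
  rw [inf_iSup_eq]
  refine iSup_mono fun n => le_iInf fun k => le_iInf fun hk => ?_
  refine le_trans (inf_le_inf_left _ ((iInf_le _ k).trans (iInf_le _ hk))) ?_
  rw [inf_sup_left]
  refine sup_le (inf_le_right.trans le_sup_left) ?_
  rw [inf_sup_left, inf_compl_eq_bot, sup_bot_eq]
  exact (inf_le_right.trans inf_le_left).trans le_sup_right

theorem EvT_mem_w (N1 : Nice1 B) {X : Type} (nm : X → BSet B) (φ : BSet B → B) (hφ : Extl φ)
    (h : ∀ x, φ (nm x) = ⊤) : ⨅ z, (mem z (hatF nm))ᶜ ⊔ φ z = ⊤ := by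
  rw [N1.all_mem X nm φ hφ, iInf_eq_top]
  exact h

theorem EvT_R_rl (N1 : Nice1 B) (N2 : Nice2 B) {X : Type} [LinearOrder X] [WellFoundedLT X]
    (m : X → ℕ → B) (x : X) (k : ℕ) : BV.R (rl onm onm m) (onm x) (onm k) = m x k :=
  N2.R_rl X ℕ onm onm m (N1.onm_disc X) (N1.onm_disc ℕ) x k

end EvT

theorem claimEvT (h1 : ClaimNice1) (h2 : ClaimNice2) (hC : ClaimCongr) : ClaimEvT := by
  intro B _ L _ _ hge hle
  have N1 := h1 B
  have N2 := h2 B
  unfold BV.teq
  rw [inf_eq_top_iff]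
  constructor
  · refine EvT_mem_w N1 (onm : L → BSet B) _ ?_ ?_
    · have h := fun x y => hC B (.all (.imp (F.tower 2 0 1) (.ex (F.psI 3 1 2 0))))
        (cons x (cons (w0 B) (fun _ => x))) (cons y (cons (w0 B) (fun _ => y)))
      intro x y
      have h' := h x y
      simp only [Val_all, Val_imp, Val_ex, Val_tower, Val_psI, cons_zero, cons_one, cons_two,
        cons_three] at h'
      refine le_trans (inf_le_inf_right _ ?_) h'
      refine le_iInf fun n => ?_
      rcases n with _ | _ | n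
      · exact le_rfl
      · show _ ≤ eqv (w0 B) (w0 B)
        rw [eqv_refl]; exact le_top
      · exact le_rfl
    · intro ρ
      rw [iInf_eq_top]
      intro T
      rw [EvT_sup_psI N1 hC]
      rw [eq_top_iff, ← compl_sup_eq_top (x := BV.tower (w0 B) T (onm ρ))]
      refine sup_le_sup le_rfl ?_
      set b := BV.tower (w0 B) T (onm ρ) with hb
      have hb' := hb
      rw [onm_eq ρ, EvT_tower N1 hC] at hb'
      have hb1 : ∀ x : Iio ρ, b ≤ BInf (fun k => BV.R T (onm x.1) (onm k)) := by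
        intro x
        rw [hb']
        exact inf_le_left.trans (iInf_le _ x)
      have hb2 : ∀ x y : Iio ρ, x < y → b ≤ BSub (fun k => BV.R T (onm y.1) (onm k))
          (fun k => BV.R T (onm x.1) (onm k)) := by
        intro x y hxy
        rw [hb']
        refine inf_le_right.trans ((iInf_le _ y).trans ?_)
        rw [EvT_onm_all N1 y.1 (fun a => BSub (fun k => BV.R T (onm y.1) (onm k))
          (fun k => BV.R T a (onm k)))
          (EvT_ext_BSub (fun k => EvT_ext_const _) (fun k => EvT_ext_R2 hC _ _))]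
        exact iInf_le (fun z : Iio y.1 => BSub (fun k => BV.R T (onm y.1) (onm k))
          (fun k => BV.R T (onm z.1) (onm k))) ⟨x.1, hxy⟩
      obtain ⟨r, hr1, hr2⟩ := hge ρ (fun x n => (BV.R T (onm x.1) (onm n) ⊓ b) ⊔ bᶜ)
        (fun x => EvT_shift_inf b _ (hb1 x)) (fun x y hxy => EvT_shift_sub b _ _ (hb2 x y hxy))
      refine le_iSup_of_le r ?_
      rw [hr1, top_inf_eq, EvT_onm_all N1 ρ (fun a => BSub r (fun k => BV.R T a (onm k)))
        (EvT_ext_BSub (fun k => EvT_ext_const _) (fun k => EvT_ext_R2 hC _ _))]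
      exact le_iInf fun x => EvT_unshift b r _ (hr2 x)
  · obtain ⟨m, hm1, hm2, hm3, -⟩ := hle
    rw [eq_top_iff]
    refine le_iSup_of_le (rl onm onm m) ?_
    rw [top_le_iff, inf_eq_top_iff]
    constructor
    · unfold w2
      rw [EvT_tower N1 hC, inf_eq_top_iff, iInf_eq_top, iInf_eq_top]
      constructor
      · intro x
        simp only [EvT_R_rl N1 N2]
        exact hm1 x
      · intro x
        rw [EvT_onm_all N1 x (fun a => BSub (fun k => BV.R (rl onm onm m) (onm x) (onm k))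
          (fun k => BV.R (rl onm onm m) a (onm k)))
          (EvT_ext_BSub (fun k => EvT_ext_const _) (fun k => EvT_ext_R2 hC _ _)), iInf_eq_top]
        intro y
        simp only [EvT_R_rl N1 N2]
        exact hm2 y.1 x y.2
    · rw [compl_eq_top, EvT_sup_psI N1 hC, iSup_eq_bot]
      intro r
      unfold w2
      rw [N1.all_mem L onm (fun a => BSub r (fun k => BV.R (rl onm onm m) a (onm k)))
        (EvT_ext_BSub (fun k => EvT_ext_const _) (fun k => EvT_ext_R2 hC _ _))]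
      simp only [EvT_R_rl N1 N2]
      exact hm3 r

section EvU

variable {B : Type} [CompleteBooleanAlgebra B]

theorem EvT_uBase (N1 : Nice1 B) (hC : ClaimCongr) {X : Type} (nm : X → BSet B) (T : BSet B) :
    BV.uBase (w0 B) T (hatF nm) = ufBase (fun x k => BV.R T (nm x) (onm k)) := by
  unfold BV.uBase ufBase
  rw [inf_assoc]
  congr 1
  · rw [N1.all_mem X nm (fun a => BV.infS (w0 B) T a)]
    · exact iInf_congr fun x => EvT_infS N1 hC _ _
    · simp only [EvT_infS N1 hC]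
      exact EvT_ext_BInf fun k => EvT_ext_R2 hC _ _
  congr 1
  · have e1 : ∀ a b : BSet B, (⨆ γ, mem γ (hatF nm) ⊓ ⨅ k, (mem k (w0 B))ᶜ ⊔
        ((BV.R T γ k)ᶜ ⊔ (BV.R T a k ⊓ BV.R T b k))) =
        ⨆ x, ⨅ n : ℕ, (BV.R T (nm x) (onm n))ᶜ ⊔ (BV.R T a (onm n) ⊓ BV.R T b (onm n)) := by
      intro a b
      rw [N1.ex_mem X nm (fun γ => ⨅ k, (mem k (w0 B))ᶜ ⊔
        ((BV.R T γ k)ᶜ ⊔ (BV.R T a k ⊓ BV.R T b k)))]
      · refine iSup_congr fun x => ?_
        unfold w0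
        rw [N1.all_mem ℕ onm (fun k => (BV.R T (nm x) k)ᶜ ⊔ (BV.R T a k ⊓ BV.R T b k))]
        exact EvT_ext_sup (EvT_ext_compl (EvT_ext_R3 hC _ _))
          (EvT_ext_inf (EvT_ext_R3 hC _ _) (EvT_ext_R3 hC _ _))
      · exact EvT_ext_iInf fun k => EvT_ext_sup (EvT_ext_const _)
          (EvT_ext_sup (EvT_ext_compl (EvT_ext_R2 hC _ _)) (EvT_ext_const _))
    simp only [e1]
    have e2 : ∀ a : BSet B, (⨅ b, (mem a (hatF nm))ᶜ ⊔ ((mem b (hatF nm))ᶜ ⊔
        ⨆ x, ⨅ n : ℕ, (BV.R T (nm x) (onm n))ᶜ ⊔ (BV.R T a (onm n) ⊓ BV.R T b (onm n)))) =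
        (mem a (hatF nm))ᶜ ⊔ ⨅ y, ⨆ x, ⨅ n : ℕ, (BV.R T (nm x) (onm n))ᶜ ⊔
          (BV.R T a (onm n) ⊓ BV.R T (nm y) (onm n)) := by
      intro a
      rw [← sup_iInf_eq, N1.all_mem X nm (fun b => ⨆ x, ⨅ n : ℕ, (BV.R T (nm x) (onm n))ᶜ ⊔
        (BV.R T a (onm n) ⊓ BV.R T b (onm n)))]
      exact EvT_ext_iSup fun x => EvT_ext_iInf fun n => EvT_ext_sup (EvT_ext_const _)
        (EvT_ext_inf (EvT_ext_const _) (EvT_ext_R2 hC _ _))
    simp only [e2]
    rw [N1.all_mem X nm (fun a => ⨅ y, ⨆ x, ⨅ n : ℕ, (BV.R T (nm x) (onm n))ᶜ ⊔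
          (BV.R T a (onm n) ⊓ BV.R T (nm y) (onm n)))]
    exact EvT_ext_iInf fun y => EvT_ext_iSup fun x => EvT_ext_iInf fun n =>
      EvT_ext_sup (EvT_ext_const _) (EvT_ext_inf (EvT_ext_R2 hC _ _) (EvT_ext_const _))
  · have e1 : ∀ r : BSet B, (⨆ α, mem α (hatF nm) ⊓ ⨅ k, (mem k (w0 B))ᶜ ⊔
        ((BV.R T α k)ᶜ ⊔ mem k r)) =
        ⨆ x, ⨅ n : ℕ, (BV.R T (nm x) (onm n))ᶜ ⊔ mem (onm n) r := by
      intro r
      rw [N1.ex_mem X nm (fun α => ⨅ k, (mem k (w0 B))ᶜ ⊔ ((BV.R T α k)ᶜ ⊔ mem k r))]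
      · refine iSup_congr fun x => ?_
        unfold w0
        rw [N1.all_mem ℕ onm (fun k => (BV.R T (nm x) k)ᶜ ⊔ mem k r)]
        exact EvT_ext_sup (EvT_ext_compl (EvT_ext_R3 hC _ _)) (EvT_ext_meml _)
      · exact EvT_ext_iInf fun k => EvT_ext_sup (EvT_ext_const _)
          (EvT_ext_sup (EvT_ext_compl (EvT_ext_R2 hC _ _)) (EvT_ext_const _))
    have e2 : ∀ r : BSet B, (⨆ α, mem α (hatF nm) ⊓ ⨅ k, (mem k (w0 B))ᶜ ⊔
        ((BV.R T α k)ᶜ ⊔ (mem k r)ᶜ)) =
        ⨆ x, ⨅ n : ℕ, (BV.R T (nm x) (onm n))ᶜ ⊔ (mem (onm n) r)ᶜ := by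
      intro r
      rw [N1.ex_mem X nm (fun α => ⨅ k, (mem k (w0 B))ᶜ ⊔ ((BV.R T α k)ᶜ ⊔ (mem k r)ᶜ))]
      · refine iSup_congr fun x => ?_
        unfold w0
        rw [N1.all_mem ℕ onm (fun k => (BV.R T (nm x) k)ᶜ ⊔ (mem k r)ᶜ)]
        exact EvT_ext_sup (EvT_ext_compl (EvT_ext_R3 hC _ _)) (EvT_ext_compl (EvT_ext_meml _))
      · exact EvT_ext_iInf fun k => EvT_ext_sup (EvT_ext_const _)
          (EvT_ext_sup (EvT_ext_compl (EvT_ext_R2 hC _ _)) (EvT_ext_const _))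
    simp only [e1, e2]
    unfold w0
    rw [N1.all_sub ℕ onm (fun r => (⨆ x, ⨅ n : ℕ, (BV.R T (nm x) (onm n))ᶜ ⊔ mem (onm n) r) ⊔
      ⨆ x, ⨅ n : ℕ, (BV.R T (nm x) (onm n))ᶜ ⊔ (mem (onm n) r)ᶜ)]
    · refine iInf_congr fun r => ?_
      simp only [N1.mem_sb ℕ onm r (N1.onm_disc ℕ)]
    · exact EvT_ext_sup (EvT_ext_iSup fun x => EvT_ext_iInf fun n =>
          EvT_ext_sup (EvT_ext_const _) (EvT_ext_memr _))
        (EvT_ext_iSup fun x => EvT_ext_iInf fun n =>
          EvT_ext_sup (EvT_ext_const _) (EvT_ext_compl (EvT_ext_memr _)))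

theorem EvT_BSub_refl (r : ℕ → B) : BSub r r = ⊤ := by
  unfold BSub
  rw [eq_top_iff]
  refine le_iSup_of_le 0 (le_iInf fun k => le_iInf fun _ => ?_)
  rw [compl_sup_eq_top]

theorem EvT_comm {X : Type} (T : X → ℕ → B) (a b c : X) :
    (⨅ n, (T c n)ᶜ ⊔ (T a n ⊓ T b n)) = ⨅ n, (T c n)ᶜ ⊔ (T b n ⊓ T a n) := by
  simp only [inf_comm]

theorem EvT_ufBase (L : Type) [LinearOrder L] (e : L → L × ℕ) (he : Function.Surjective e)
    (m : L → ℕ → B) (hm1 : ∀ α, BInf (m α) = ⊤) (hm2 : ∀ α β, α < β → BSub (m β) (m α) = ⊤)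
    (hm4 : ∀ r : ℕ → B, (⨆ α, BSub (m α) r) ⊔ (⨆ α, BSub (m α) (fun n => (r n)ᶜ)) = ⊤) :
    ufBase (fun (a : L) (k : ℕ) => ⨆ (_ : (e a).2 ≤ k), m (e a).1 k) = ⊤ := by
  unfold ufBase
  rw [inf_eq_top_iff, inf_eq_top_iff]
  refine ⟨⟨?_, ?_⟩, ?_⟩
  · rw [iInf_eq_top]
    intro a
    unfold BInf
    rw [iInf_eq_top]
    intro n
    rw [eq_top_iff]
    have h1 : (⊤ : B) ≤ ⨆ k, ⨆ (_ : max n (e a).2 ≤ k), m (e a).1 k := by
      rw [← hm1 (e a).1]
      exact iInf_le _ _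
    refine h1.trans (iSup_mono fun k => iSup_le fun hk => ?_)
    exact le_iSup_of_le ((le_max_left _ _).trans hk)
      (le_iSup_of_le ((le_max_right _ _).trans hk) le_rfl)
  · have key : ∀ a b : L, (e a).1 ≤ (e b).1 → (⨆ c : L, ⨅ n : ℕ,
        (⨆ (_ : (e c).2 ≤ n), m (e c).1 n)ᶜ ⊔
          ((⨆ (_ : (e a).2 ≤ n), m (e a).1 n) ⊓ ⨆ (_ : (e b).2 ≤ n), m (e b).1 n)) = ⊤ := by
      intro a b hab
      have h1 : BSub (m (e b).1) (m (e a).1) = ⊤ := by
        rcases hab.eq_or_lt with h | h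
        · rw [h]; exact EvT_BSub_refl _
        · exact hm2 _ _ h
      rw [eq_top_iff, ← h1]
      unfold BSub
      refine iSup_le fun n => ?_
      obtain ⟨c, hc⟩ := he ((e b).1, max n (max (e a).2 (e b).2))
      refine le_iSup_of_le c (le_iInf fun k => ?_)
      rw [hc]
      show _ ≤ (⨆ (_ : max n (max (e a).2 (e b).2) ≤ k), m (e b).1 k)ᶜ ⊔ _
      by_cases hk : max n (max (e a).2 (e b).2) ≤ k
      · have hn : n ≤ k := (le_max_left _ _).trans hk
        have ha : (e a).2 ≤ k := ((le_max_left _ _).trans (le_max_right _ _)).trans hk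
        have hb : (e b).2 ≤ k := ((le_max_right _ _).trans (le_max_right _ _)).trans hk
        simp only [hk, ha, hb, iSup_pos]
        refine ((iInf_le _ k).trans (iInf_le _ hn)).trans ?_
        rw [sup_inf_left]
        exact le_inf le_rfl (by rw [compl_sup_eq_top]; exact le_top)
      · simp only [hk, iSup_false, compl_bot, top_sup_eq]
        exact le_top
    rw [iInf_eq_top]
    intro a
    rw [iInf_eq_top]
    intro b
    rcases le_total (e a).1 (e b).1 with h | h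
    · exact key a b h
    · have := key b a h
      simpa only [inf_comm] using this
  · rw [iInf_eq_top]
    intro r
    have key : ∀ s : ℕ → B, (⨆ α, BSub (m α) s) ≤ ⨆ a : L, ⨅ n : ℕ,
        (⨆ (_ : (e a).2 ≤ n), m (e a).1 n)ᶜ ⊔ s n := by
      intro s
      refine iSup_le fun α => ?_
      unfold BSub
      refine iSup_le fun n => ?_
      obtain ⟨c, hc⟩ := he (α, n)
      refine le_iSup_of_le c (le_iInf fun k => ?_)
      rw [hc]
      show _ ≤ (⨆ (_ : n ≤ k), m α k)ᶜ ⊔ _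
      by_cases hk : n ≤ k
      · simp only [hk, iSup_pos]
        exact (iInf_le _ k).trans (iInf_le _ hk)
      · simp only [hk, iSup_false, compl_bot, top_sup_eq]
        exact le_top
    rw [eq_top_iff, ← hm4 r]
    exact sup_le_sup (key r) (key _)

end EvU

theorem claimEvU (h1 : ClaimNice1) (h2 : ClaimNice2) (hC : ClaimCongr) : ClaimEvU := by
  intro B _ L _ _ he hge hle
  have N1 := h1 B
  have N2 := h2 B
  obtain ⟨e, he⟩ := he
  unfold BV.ueq
  rw [inf_eq_top_iff]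
  constructor
  · refine EvT_mem_w N1 (onm : L → BSet B) _ ?_ ?_
    · have h := fun x y => hC B (.neg (.ex (F.uBase 2 0 1)))
        (cons x (cons (w0 B) (fun _ => x))) (cons y (cons (w0 B) (fun _ => y)))
      intro x y
      have h' := h x y
      simp only [Val_neg, Val_ex, Val_uBase, cons_zero, cons_one, cons_two,
        cons_three] at h'
      refine le_trans (inf_le_inf_right _ ?_) h'
      refine le_iInf fun n => ?_
      rcases n with _ | _ | n
      · exact le_rfl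
      · show _ ≤ eqv (w0 B) (w0 B)
        rw [eqv_refl]; exact le_top
      · exact le_rfl
    · intro ρ
      rw [compl_eq_top, iSup_eq_bot]
      intro T
      rw [onm_eq ρ, EvT_uBase N1 hC]
      exact hge ρ _
  · obtain ⟨m, hm1, hm2, -, hm4⟩ := hle
    rw [eq_top_iff]
    refine le_iSup_of_le (rl onm onm (fun (a : L) (k : ℕ) => ⨆ (_ : (e a).2 ≤ k), m (e a).1 k)) ?_
    unfold w2
    rw [EvT_uBase N1 hC]
    simp only [EvT_R_rl N1 N2]
    rw [EvT_ufBase L e he m hm1 hm2 hm4]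

theorem claimEvC (h1 : ClaimNice1) (h2 : ClaimNice2) (hC : ClaimCongr) : ClaimEvC := by
  intro B _ L _ _ hc
  have N1 := h1 B
  unfold BV.cgt
  rw [iInf_eq_top]
  intro G
  have e1 : ∀ r : BSet B, (⨅ α, (mem α (w2 L B))ᶜ ⊔ ⨆ k, mem k (w0 B) ⊓
      (((BV.R G α k)ᶜ ⊔ mem k r) ⊓ ((mem k r)ᶜ ⊔ BV.R G α k))ᶜ) =
      ⨅ α : L, ⨆ k : ℕ, (((BV.R G (onm α) (onm k))ᶜ ⊔ mem (onm k) r) ⊓
        ((mem (onm k) r)ᶜ ⊔ BV.R G (onm α) (onm k)))ᶜ := by
    intro r
    unfold w2
    rw [N1.all_mem L onm (fun α => ⨆ k, mem k (w0 B) ⊓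
      (((BV.R G α k)ᶜ ⊔ mem k r) ⊓ ((mem k r)ᶜ ⊔ BV.R G α k))ᶜ)]
    · refine iInf_congr fun α => ?_
      unfold w0
      rw [N1.ex_mem ℕ onm (fun k => (((BV.R G (onm α) k)ᶜ ⊔ mem k r) ⊓
        ((mem k r)ᶜ ⊔ BV.R G (onm α) k))ᶜ)]
      exact EvT_ext_compl (EvT_ext_inf
        (EvT_ext_sup (EvT_ext_compl (EvT_ext_R3 hC _ _)) (EvT_ext_meml _))
        (EvT_ext_sup (EvT_ext_compl (EvT_ext_meml _)) (EvT_ext_R3 hC _ _)))
    · exact EvT_ext_iSup fun k => EvT_ext_inf (EvT_ext_const _) (EvT_ext_compl (EvT_ext_inf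
        (EvT_ext_sup (EvT_ext_compl (EvT_ext_R2 hC _ _)) (EvT_ext_const _))
        (EvT_ext_sup (EvT_ext_const _) (EvT_ext_R2 hC _ _))))
  simp only [e1]
  unfold w0
  rw [N1.ex_sub ℕ onm (fun r => ⨅ α : L, ⨆ k : ℕ, (((BV.R G (onm α) (onm k))ᶜ ⊔ mem (onm k) r) ⊓
        ((mem (onm k) r)ᶜ ⊔ BV.R G (onm α) (onm k)))ᶜ)]
  · rw [← hc (fun α k => BV.R G (onm α) (onm k))]
    refine iSup_congr fun r => iInf_congr fun α => ?_
    simp only [N1.mem_sb ℕ onm r (N1.onm_disc ℕ)]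
    unfold beq
    rw [compl_iInf]
    refine iSup_congr fun k => ?_
    congr 1
    rw [inf_sup_left, inf_sup_right, inf_sup_right, compl_inf_eq_bot, inf_compl_eq_bot]
    simp only [sup_bot_eq, bot_sup_eq]
    rw [sup_comm]
    congr 1
    exact inf_comm _ _
  · exact EvT_ext_iInf fun α => EvT_ext_iSup fun k => EvT_ext_compl (EvT_ext_inf
      (EvT_ext_sup (EvT_ext_const _) (EvT_ext_memr _))
      (EvT_ext_sup (EvT_ext_compl (EvT_ext_memr _)) (EvT_ext_const _)))

end Pool.Agent.Work.MP_dbe197_lc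

end

section

/-!
# Item Z11: the tree property for general trees
-/

namespace Pool.Agent.Work.MP_dbe197_lc

open Set Cardinal BSet

section EvTPabs

variable {B : Type} [CompleteBooleanAlgebra B]

theorem EvTP_mp {Γ A C : B} (h : Γ ≤ A) (h' : Γ ≤ Aᶜ ⊔ C) : Γ ≤ C :=
  calc Γ ≤ A ⊓ (Aᶜ ⊔ C) := le_inf h h'
    _ = A ⊓ C := by rw [inf_sup_left, inf_compl_eq_bot, bot_sup_eq]
    _ ≤ C := inf_le_right

theorem EvTP_ex {ι : Sort*} {Γ C : B} {A : ι → B} (h : Γ ≤ ⨆ i, A i) (h' : ∀ i, Γ ⊓ A i ≤ C) :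
    Γ ≤ C :=
  calc Γ ≤ Γ ⊓ ⨆ i, A i := le_inf le_rfl h
    _ = ⨆ i, Γ ⊓ A i := inf_iSup_eq _ _
    _ ≤ C := iSup_le h'

theorem EvTP_intro {Γ A C : B} (h : Γ ⊓ A ≤ C) : Γ ≤ Aᶜ ⊔ C := by
  rw [sup_comm, ← himp_eq, le_himp_iff]
  exact h

theorem EvTP_mix {b P1 Q1 P2 Q2 P Q : B} (hP1 : P1 ≤ b) (hP2 : P2 ≤ b) (hQ1 : Q1 ≤ bᶜ)
    (hQ2 : Q2 ≤ bᶜ) (hP : P1 ⊓ P2 ≤ P) (hQ : Q1 ⊓ Q2 ≤ Q) :
    (P1 ⊔ Q1) ⊓ (P2 ⊔ Q2) ≤ P ⊔ Q := by
  rw [inf_sup_left, inf_sup_right, inf_sup_right]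
  refine sup_le (sup_le ?_ ?_) (sup_le ?_ ?_)
  · exact hP.trans le_sup_left
  · exact (inf_le_inf hQ1 hP2).trans (by rw [compl_inf_eq_bot]; exact bot_le)
  · exact (inf_le_inf hP1 hQ2).trans (by rw [inf_compl_eq_bot]; exact bot_le)
  · exact hQ.trans le_sup_right

/-- indicator -/
def EvTP_ind (B : Type) [CompleteBooleanAlgebra B] (c : Prop) : B := ⨆ (_ : c), ⊤

theorem EvTP_ind_pos {c : Prop} (h : c) : EvTP_ind B c = ⊤ := by
  unfold EvTP_ind
  exact iSup_pos h

theorem EvTP_ind_neg {c : Prop} (h : ¬ c) : EvTP_ind B c = ⊥ := by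
  unfold EvTP_ind
  exact iSup_neg h

theorem EvTP_ind_le {c : Prop} {x : B} (h : c → x = ⊤) : EvTP_ind B c ≤ x := by
  unfold EvTP_ind
  exact iSup_le fun hc => (h hc).ge

theorem EvTP_ind_inf {c d e : Prop} (h : c → d → e) :
    EvTP_ind B c ⊓ EvTP_ind B d ≤ EvTP_ind B e := by
  by_cases hc : c
  · by_cases hd : d
    · rw [EvTP_ind_pos (h hc hd)]
      exact le_top
    · rw [EvTP_ind_neg hd, inf_bot_eq]
      exact bot_le
  · rw [EvTP_ind_neg hc, bot_inf_eq]
    exact bot_le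

theorem EvTP_inf_ind {b : B} {c d e : Prop} (h : c → d → e) :
    (b ⊓ EvTP_ind B c) ⊓ (b ⊓ EvTP_ind B d) ≤ b ⊓ EvTP_ind B e := by
  refine le_inf (inf_le_left.trans inf_le_left) (le_trans ?_ (EvTP_ind_inf h))
  exact le_inf (inf_le_left.trans inf_le_right) (inf_le_right.trans inf_le_right)

theorem EvTP_abs (L : Type) [LinearOrder L] (hTP : TP L B) (b0 : B) (V : L × O1 → B)
    (r : L × O1 → L × O1 → B)
    (hV : ∀ p, V p ≤ b0)
    (h1 : ∀ p q s, V p ⊓ V q ⊓ V s ⊓ (r p q ⊓ r q s) ≤ r p s)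
    (h2 : ∀ p q, ¬ p.1 < q.1 → V p ⊓ V q ⊓ r p q = ⊥)
    (h3 : ∀ x y z, x.1 < y.1 → V x ⊓ V y ⊓ V z ⊓ (r x z ⊓ r y z) ≤ r x y)
    (h4 : ∀ x y z, x.1 = y.1 → x ≠ y → V x ⊓ V y ⊓ V z ⊓ (r x z ⊓ r y z) = ⊥)
    (h5 : ∀ z : L × O1, ∀ α < z.1, V z ≤ ⨆ ξ, V (α, ξ) ⊓ r (α, ξ) z)
    (h6 : ∀ α, b0 ≤ ⨆ ξ, V (α, ξ)) :
    ∃ f : L × O1 → B, (∀ p, b0 ⊓ f p ≤ V p) ∧
      (∀ p q, p.1 < q.1 → b0 ⊓ (f p ⊓ f q) ≤ r p q) ∧
      (∀ p q, p.1 = q.1 → p ≠ q → f p ⊓ f q = ⊥) ∧ (∀ α, ⨆ w, f (α, w) = ⊤) := by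
  have hO : Nonempty O1 := by
    have h1 : #O1 = Cardinal.aleph 1 := mk_ord_toType _
    rw [← mk_ne_zero_iff, h1]
    exact (aleph_pos _).ne'
  obtain ⟨ξ0⟩ := hO
  let D : L × O1 → B := fun p => V p ⊔ (b0ᶜ ⊓ EvTP_ind B (p.2 = ξ0))
  let t : L × O1 → L × O1 → B := fun p q => (V p ⊓ V q ⊓ r p q) ⊔
    (b0ᶜ ⊓ EvTP_ind B (p.2 = ξ0 ∧ q.2 = ξ0 ∧ p.1 < q.1))
  have hPt : ∀ p q, V p ⊓ V q ⊓ r p q ≤ b0 := fun p q =>
    (inf_le_left.trans inf_le_left).trans (hV p)
  have hQt : ∀ c : Prop, b0ᶜ ⊓ EvTP_ind B c ≤ b0ᶜ := fun c => inf_le_left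
  have hbD : ∀ p, b0 ⊓ D p ≤ V p := by
    intro p
    show b0 ⊓ (V p ⊔ (b0ᶜ ⊓ EvTP_ind B (p.2 = ξ0))) ≤ V p
    rw [inf_sup_left, ← inf_assoc, inf_compl_eq_bot, bot_inf_eq, sup_bot_eq]
    exact inf_le_right
  have hbt : ∀ p q, b0 ⊓ t p q ≤ V p ⊓ V q ⊓ r p q := by
    intro p q
    show b0 ⊓ ((V p ⊓ V q ⊓ r p q) ⊔
      (b0ᶜ ⊓ EvTP_ind B (p.2 = ξ0 ∧ q.2 = ξ0 ∧ p.1 < q.1))) ≤ _
    rw [inf_sup_left, ← inf_assoc b0 b0ᶜ, inf_compl_eq_bot, bot_inf_eq, sup_bot_eq]
    exact inf_le_right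
  let T : BTree B L O1 :=
    { D := D
      t := t
      t_le := by
        intro x y
        refine sup_le (le_inf ?_ ?_) (le_inf ?_ ?_)
        · exact (inf_le_left.trans inf_le_left).trans le_sup_left
        · exact (inf_le_left.trans inf_le_right).trans le_sup_left
        · refine le_trans (inf_le_inf_left _ ?_) le_sup_right
          exact EvTP_ind_le fun h => EvTP_ind_pos h.1
        · refine le_trans (inf_le_inf_left _ ?_) le_sup_right
          exact EvTP_ind_le fun h => EvTP_ind_pos h.2.1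
      t_lvl := by
        intro x y hxy
        show (V x ⊓ V y ⊓ r x y) ⊔ (b0ᶜ ⊓ EvTP_ind B (x.2 = ξ0 ∧ y.2 = ξ0 ∧ x.1 < y.1)) = ⊥
        rw [h2 x y hxy, EvTP_ind_neg (fun h => hxy h.2.2), inf_bot_eq, bot_sup_eq]
      t_trans := by
        intro x y z
        refine EvTP_mix (hPt x y) (hPt y z) (hQt _) (hQt _) ?_ ?_
        · refine le_inf (le_inf ?_ ?_) ?_
          · exact inf_le_left.trans (inf_le_left.trans inf_le_left)
          · exact inf_le_right.trans (inf_le_left.trans inf_le_right)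
          · refine le_trans ?_ (h1 x y z)
            refine le_inf (le_inf (le_inf ?_ ?_) ?_) (le_inf ?_ ?_)
            · exact inf_le_left.trans (inf_le_left.trans inf_le_left)
            · exact inf_le_left.trans (inf_le_left.trans inf_le_right)
            · exact inf_le_right.trans (inf_le_left.trans inf_le_right)
            · exact inf_le_left.trans inf_le_right
            · exact inf_le_right.trans inf_le_right
        · exact EvTP_inf_ind fun h h' => ⟨h.1, h'.2.1, h.2.2.trans h'.2.2⟩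
      t_tree := by
        intro x y z hxy
        refine EvTP_mix (hPt x z) (hPt y z) (hQt _) (hQt _) ?_ ?_
        · refine le_inf (le_inf ?_ ?_) ?_
          · exact inf_le_left.trans (inf_le_left.trans inf_le_left)
          · exact inf_le_right.trans (inf_le_left.trans inf_le_left)
          · refine le_trans ?_ (h3 x y z hxy)
            refine le_inf (le_inf (le_inf ?_ ?_) ?_) (le_inf ?_ ?_)
            · exact inf_le_left.trans (inf_le_left.trans inf_le_left)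
            · exact inf_le_right.trans (inf_le_left.trans inf_le_left)
            · exact inf_le_right.trans (inf_le_left.trans inf_le_right)
            · exact inf_le_left.trans inf_le_right
            · exact inf_le_right.trans inf_le_right
        · exact EvTP_inf_ind fun h h' => ⟨h.1, h'.1, hxy⟩
      t_uniq := by
        intro x y z hxy hne
        rw [eq_bot_iff]
        have : (V x ⊓ V z ⊓ r x z ⊔ (b0ᶜ ⊓ EvTP_ind B (x.2 = ξ0 ∧ z.2 = ξ0 ∧ x.1 < z.1))) ⊓
            (V y ⊓ V z ⊓ r y z ⊔ (b0ᶜ ⊓ EvTP_ind B (y.2 = ξ0 ∧ z.2 = ξ0 ∧ y.1 < z.1))) ≤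
              ⊥ ⊔ b0ᶜ ⊓ EvTP_ind B False := by
          refine EvTP_mix (hPt x z) (hPt y z) (hQt _) (hQt _) ?_ ?_
          · rw [← h4 x y z hxy hne]
            refine le_inf (le_inf (le_inf ?_ ?_) ?_) (le_inf ?_ ?_)
            · exact inf_le_left.trans (inf_le_left.trans inf_le_left)
            · exact inf_le_right.trans (inf_le_left.trans inf_le_left)
            · exact inf_le_right.trans (inf_le_left.trans inf_le_right)
            · exact inf_le_left.trans inf_le_right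
            · exact inf_le_right.trans inf_le_right
          · exact EvTP_inf_ind fun h h' => hne (Prod.ext hxy (h.1.trans h'.1.symm))
        rw [EvTP_ind_neg not_false, inf_bot_eq, bot_sup_eq] at this
        exact this
      t_pred := by
        intro z α hα
        refine sup_le ?_ ?_
        · refine EvTP_ex (h5 z α hα) fun ξ => ?_
          refine le_trans ?_ (le_iSup _ ξ)
          refine le_trans ?_ le_sup_left
          refine le_inf (le_inf ?_ ?_) ?_
          · exact inf_le_right.trans inf_le_left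
          · exact inf_le_left
          · exact inf_le_right.trans inf_le_right
        · refine le_trans ?_ (le_iSup _ ξ0)
          refine le_trans ?_ le_sup_right
          exact inf_le_inf_left _ (EvTP_ind_le fun h => EvTP_ind_pos ⟨rfl, h, hα⟩)
      lvl := by
        intro α
        rw [eq_top_iff, ← sup_compl_eq_top (x := b0)]
        refine sup_le ?_ ?_
        · exact (h6 α).trans (iSup_mono fun w => le_sup_left)
        · refine le_trans ?_ (le_iSup _ ξ0)
          refine le_trans ?_ le_sup_right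
          rw [EvTP_ind_pos rfl, inf_top_eq] }
  obtain ⟨f, hf⟩ := hTP T
  refine ⟨f, ?_, ?_, hf.uniq, hf.full⟩
  · intro p
    exact (inf_le_inf_left _ (hf.le p)).trans (hbD p)
  · intro p q hpq
    exact ((inf_le_inf_left _ (hf.chain p q hpq)).trans (hbt p q)).trans inf_le_right

/-- least element principle -/
theorem EvTP_least (u : O1 → B) : ⨆ ξ, u ξ ≤ ⨆ ξ, u ξ ⊓ ⨅ ξ', ⨅ (_ : ξ' < ξ), (u ξ')ᶜ := by
  refine iSup_le fun ξ => ?_
  induction ξ using WellFoundedLT.induction with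
  | ind ξ ih =>
    have h : u ξ ≤ (u ξ ⊓ ⨅ ξ', ⨅ (_ : ξ' < ξ), (u ξ')ᶜ) ⊔ (⨅ ξ', ⨅ (_ : ξ' < ξ), (u ξ')ᶜ)ᶜ := by
      rw [sup_inf_right, sup_compl_eq_top, inf_top_eq]
      exact le_sup_left
    refine h.trans (sup_le (le_iSup (fun ξ => u ξ ⊓ ⨅ ξ', ⨅ (_ : ξ' < ξ), (u ξ')ᶜ) ξ) ?_)
    rw [compl_iInf]
    refine iSup_le fun ξ' => ?_
    rw [compl_iInf]
    refine iSup_le fun hξ' => ?_
    rw [compl_compl]
    exact ih ξ' hξ'

end EvTPabs

section EvTPmain

variable {B : Type} [CompleteBooleanAlgebra B]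

theorem EvTP_extl (hC : ClaimCongr) (φ : Fml) (v : ℕ → BSet B) :
    Extl (fun x => Val φ (cons x v)) := by
  intro x y
  refine le_trans (inf_le_inf_right _ ?_) (hC B φ (cons x v) (cons y v))
  refine le_iInf fun n => ?_
  cases n with
  | zero => exact le_rfl
  | succ n =>
    rw [cons_succ, cons_succ, eqv_refl]
    exact le_top

theorem EvTP_extR2 (hC : ClaimCongr) (r b : BSet B) : Extl (fun x => BV.R r x b) := by
  have := EvTP_extl hC (F.r 1 0 2) (cons r (cons b (fun _ => r)))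
  simpa using this

theorem EvTP_extR3 (hC : ClaimCongr) (r a : BSet B) : Extl (fun x => BV.R r a x) := by
  have := EvTP_extl hC (F.r 1 2 0) (cons r (cons a (fun _ => r)))
  simpa using this

theorem EvTP_extG (hC : ClaimCongr) (w1 T l a : BSet B) :
    Extl (fun g => BV.fn g w1 T ⊓ ⨅ x, (BV.R l x a)ᶜ ⊔ ⨆ ξ, mem ξ w1 ⊓ BV.R g ξ x) := by
  have := EvTP_extl hC (.and (F.fn 0 1 2) (.all (.imp (F.r 4 0 5)
    (.ex (.and (.mem 0 3) (F.r 2 0 1)))))) (cons w1 (cons T (cons l (cons a (fun _ => a)))))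
  simpa using this

theorem EvTP_extH (hC : ClaimCongr) (w1 T l : BSet B) :
    Extl (fun a => ⨆ g, BV.fn g w1 T ⊓ ⨅ x, (BV.R l x a)ᶜ ⊔ ⨆ ξ, mem ξ w1 ⊓ BV.R g ξ x) := by
  have := EvTP_extl hC (.ex (.and (F.fn 0 2 3) (.all (.imp (F.r 5 0 2)
    (.ex (.and (.mem 0 4) (F.r 2 0 1))))))) (cons w1 (cons T (cons l (fun _ => w1))))
  simpa using this

theorem EvTP_sub {Γ : B} (hC : ClaimCongr) {φ : BSet B → B} (hφ : Extl φ) {x y : BSet B}
    (h : Γ ≤ eqv x y) (h' : Γ ≤ φ x) : Γ ≤ φ y :=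
  (le_inf h h').trans (hφ x y)

theorem EvTP_core (h1 : ClaimNice1) (hC : ClaimCongr) (hF : ClaimFull)
    (L : Type) [LinearOrder L] [WellFoundedLT L] (hTP : TP L B) (T t l : BSet B) (b0 : B)
    (hTr : b0 ≤ ⨅ x, ⨅ y, ⨅ z, (BV.R t x y)ᶜ ⊔ ((BV.R t y z)ᶜ ⊔ BV.R t x z))
    (hLv : b0 ≤ ⨅ x, ⨅ y, (BV.R t x y)ᶜ ⊔ ⨅ a, ⨅ b, (BV.R l x a)ᶜ ⊔ ((BV.R l y b)ᶜ ⊔ mem a b))
    (hPr : b0 ≤ ⨅ y, ⨅ b, (BV.R l y b)ᶜ ⊔ ⨅ a, (mem a b)ᶜ ⊔ ⨆ x, BV.R t x y ⊓ (BV.R l x a ⊓
      ⨅ x', (BV.R t x' y)ᶜ ⊔ ((BV.R l x' a)ᶜ ⊔ eqv x' x)))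
    (hNe : ∀ α : L, b0 ≤ ⨆ x, BV.R l x (onm α))
    (hG : ∀ α : L, b0 ≤ ⨆ g, BV.fn g (w1 B) T ⊓
      ⨅ x, (BV.R l x (onm α))ᶜ ⊔ ⨆ ξ, mem ξ (w1 B) ⊓ BV.R g ξ x) :
    ∃ (Y : L × O1 → BSet B) (f : L × O1 → B), (∀ p, b0 ≤ mem (Y p) T) ∧
      (∀ p, b0 ⊓ f p ≤ BV.R l (Y p) (onm p.1)) ∧
      (∀ p q, p.1 < q.1 → b0 ⊓ (f p ⊓ f q) ≤ BV.R t (Y p) (Y q)) ∧
      (∀ p q, p.1 = q.1 → p ≠ q → f p ⊓ f q = ⊥) ∧ (∀ α, ⨆ w, f (α, w) = ⊤) := by
  have hN := h1 B
  have hg : ∀ α : L, ∃ g, b0 ≤ BV.fn g (w1 B) T ⊓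
      ⨅ x, (BV.R l x (onm α))ᶜ ⊔ ⨆ ξ, mem ξ (w1 B) ⊓ BV.R g ξ x := by
    intro α
    obtain ⟨g, hg⟩ := hF B _ (EvTP_extG hC (w1 B) T l (onm α))
    exact ⟨g, (hG α).trans hg⟩
  choose g hg using hg
  have hmemw : ∀ ξ : O1, mem (onm ξ) (w1 B) = ⊤ := by
    intro ξ
    unfold w1
    rw [hN.mem_hat, eq_top_iff]
    refine le_trans ?_ (le_iSup _ ξ)
    rw [eqv_refl]
  have hy : ∀ (α : L) (ξ : O1), ∃ y, b0 ≤ mem y T ⊓ BV.R (g α) (onm ξ) y := by
    intro α ξ
    have hext : Extl (fun y => mem y T ⊓ BV.R (g α) (onm ξ) y) := by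
      intro x y
      refine le_inf ?_ ?_
      · refine le_trans ?_ (mem_congr_left x y T)
        exact le_inf inf_le_left (inf_le_right.trans inf_le_left)
      · refine le_trans ?_ (EvTP_extR3 hC (g α) (onm ξ) x y)
        exact le_inf inf_le_left (inf_le_right.trans inf_le_right)
    obtain ⟨y, hy⟩ := hF B _ hext
    refine ⟨y, le_trans ?_ hy⟩
    have h3 : b0 ≤ (mem (onm ξ) (w1 B))ᶜ ⊔ ⨆ y, mem y T ⊓ BV.R (g α) (onm ξ) y :=
      (((hg α).trans inf_le_left).trans (inf_le_right.trans inf_le_left)).trans (iInf_le _ _)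
    rw [hmemw, compl_top, bot_sup_eq] at h3
    exact h3
  choose y hy using hy
  have hfun : ∀ (α : L) (a x x' : BSet B) (Γ : B), Γ ≤ b0 → Γ ≤ BV.R (g α) a x →
      Γ ≤ BV.R (g α) a x' → Γ ≤ eqv x x' := by
    intro α a x x' Γ hΓ h2 h3
    have h4 : Γ ≤ (BV.R (g α) a x)ᶜ ⊔ ((BV.R (g α) a x')ᶜ ⊔ eqv x x') :=
      ((hΓ.trans ((hg α).trans inf_le_left)).trans (inf_le_right.trans inf_le_right)).trans
        ((iInf_le _ a).trans ((iInf_le _ x).trans (iInf_le _ x')))
    exact EvTP_mp h3 (EvTP_mp h2 h4)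
  have hE : ∀ (α : L) (x : BSet B), b0 ⊓ BV.R l x (onm α) ≤ ⨆ ξ, eqv x (y α ξ) := by
    intro α x
    have h3 : b0 ⊓ BV.R l x (onm α) ≤ ⨆ ξ, mem ξ (w1 B) ⊓ BV.R (g α) ξ x :=
      EvTP_mp inf_le_right (inf_le_left.trans (((hg α).trans inf_le_right).trans (iInf_le _ x)))
    have h4 : ⨆ ξ, mem ξ (w1 B) ⊓ BV.R (g α) ξ x = ⨆ ξ : O1, BV.R (g α) (onm ξ) x :=
      hN.ex_mem O1 onm _ (EvTP_extR2 hC (g α) x)
    rw [h4] at h3
    refine EvTP_ex h3 fun ξ => le_trans ?_ (le_iSup _ ξ)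
    exact hfun α (onm ξ) x (y α ξ) _ (inf_le_left.trans inf_le_left) inf_le_right
      ((inf_le_left.trans inf_le_left).trans ((hy α ξ).trans inf_le_right))
  -- abstract data
  obtain ⟨Y, hY⟩ : ∃ Y : L × O1 → BSet B, ∀ p, Y p = y p.1 p.2 := ⟨fun p => y p.1 p.2, fun _ => rfl⟩
  obtain ⟨ℓ, hℓ⟩ : ∃ ℓ : L × O1 → B, ∀ p, ℓ p = b0 ⊓ BV.R l (Y p) (onm p.1) :=
    ⟨fun p => b0 ⊓ BV.R l (Y p) (onm p.1), fun _ => rfl⟩
  obtain ⟨V, hVd⟩ : ∃ V : L × O1 → B, ∀ p, V p = ℓ p ⊓ ⨅ ξ', ⨅ (_ : ξ' < p.2),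
      (ℓ (p.1, ξ') ⊓ eqv (Y (p.1, ξ')) (Y p))ᶜ :=
    ⟨fun p => ℓ p ⊓ ⨅ ξ', ⨅ (_ : ξ' < p.2), (ℓ (p.1, ξ') ⊓ eqv (Y (p.1, ξ')) (Y p))ᶜ,
      fun _ => rfl⟩
  have hVℓ : ∀ p, V p ≤ ℓ p := fun p => by rw [hVd]; exact inf_le_left
  have hVb : ∀ p, V p ≤ b0 := fun p => (hVℓ p).trans (by rw [hℓ]; exact inf_le_left)
  have hVl : ∀ p, V p ≤ BV.R l (Y p) (onm p.1) := fun p =>
    (hVℓ p).trans (by rw [hℓ]; exact inf_le_right)
  have hsymm : ∀ {Γ : B} {x x' : BSet B}, Γ ≤ eqv x x' → Γ ≤ eqv x' x := by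
    intro Γ x x' h
    rw [eqv_symm]
    exact h
  have htrans : ∀ {Γ : B} {x x' x'' : BSet B}, Γ ≤ eqv x x' → Γ ≤ eqv x' x'' →
      Γ ≤ eqv x x'' := fun h h' => (le_inf h h').trans (eqv_trans _ _ _)
  have hM : ∀ (α : L) (x : BSet B), b0 ⊓ BV.R l x (onm α) ≤
      ⨆ ξ, eqv x (Y (α, ξ)) ⊓ V (α, ξ) := by
    intro α x
    let u : O1 → B := fun ξ => b0 ⊓ BV.R l x (onm α) ⊓ eqv x (Y (α, ξ))
    have hu : b0 ⊓ BV.R l x (onm α) ≤ ⨆ ξ, u ξ := by
      refine EvTP_ex (hE α x) fun ξ => le_trans ?_ (le_iSup _ ξ)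
      show _ ≤ b0 ⊓ BV.R l x (onm α) ⊓ eqv x (Y (α, ξ))
      rw [hY]
    refine (hu.trans (EvTP_least u)).trans (iSup_mono fun ξ => ?_)
    have hu1 : u ξ ≤ b0 := inf_le_left.trans inf_le_left
    have hu2 : u ξ ≤ BV.R l x (onm α) := inf_le_left.trans inf_le_right
    have hu3 : u ξ ≤ eqv x (Y (α, ξ)) := inf_le_right
    refine le_inf (inf_le_left.trans hu3) ?_
    rw [hVd]
    refine le_inf ?_ ?_
    · rw [hℓ]
      refine le_inf (inf_le_left.trans hu1) (inf_le_left.trans ?_)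
      exact EvTP_sub hC (EvTP_extR2 hC l (onm α)) hu3 hu2
    · refine le_iInf fun ξ' => le_iInf fun hξ' => ?_
      rw [le_compl_iff_disjoint_right, disjoint_iff_inf_le]
      have h5 : u ξ ⊓ (⨅ ξ', ⨅ (_ : ξ' < ξ), (u ξ')ᶜ) ⊓
          (ℓ (α, ξ') ⊓ eqv (Y (α, ξ')) (Y (α, ξ))) ≤ u ξ' := by
        refine le_inf (le_inf ?_ ?_) ?_
        · exact (inf_le_left.trans inf_le_left).trans hu1
        · exact (inf_le_left.trans inf_le_left).trans hu2
        · refine htrans ((inf_le_left.trans inf_le_left).trans hu3) (hsymm ?_)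
          exact inf_le_right.trans inf_le_right
      have h6 : u ξ ⊓ (⨅ ξ', ⨅ (_ : ξ' < ξ), (u ξ')ᶜ) ⊓
          (ℓ (α, ξ') ⊓ eqv (Y (α, ξ')) (Y (α, ξ))) ≤ (u ξ')ᶜ :=
        (inf_le_left.trans inf_le_right).trans ((iInf_le _ ξ').trans (iInf_le _ hξ'))
      exact (le_inf h5 h6).trans (by rw [inf_compl_eq_bot])
  -- rules
  have rTr : ∀ (Γ : B) (x x' x'' : BSet B), Γ ≤ b0 → Γ ≤ BV.R t x x' → Γ ≤ BV.R t x' x'' →
      Γ ≤ BV.R t x x'' := by
    intro Γ x x' x'' h2 h3 h4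
    have h5 := (h2.trans hTr).trans ((iInf_le _ x).trans ((iInf_le _ x').trans (iInf_le _ x'')))
    exact EvTP_mp h4 (EvTP_mp h3 h5)
  have rLv : ∀ (Γ : B) (x x' a b : BSet B), Γ ≤ b0 → Γ ≤ BV.R t x x' → Γ ≤ BV.R l x a →
      Γ ≤ BV.R l x' b → Γ ≤ mem a b := by
    intro Γ x x' a b h2 h3 h4 h5
    have h6 := (h2.trans hLv).trans ((iInf_le _ x).trans (iInf_le _ x'))
    have h7 := (EvTP_mp h3 h6).trans ((iInf_le _ a).trans (iInf_le _ b))
    exact EvTP_mp h5 (EvTP_mp h4 h7)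
  have rPr : ∀ (Γ : B) (x a b : BSet B), Γ ≤ b0 → Γ ≤ BV.R l x b → Γ ≤ mem a b →
      Γ ≤ ⨆ z, BV.R t z x ⊓ (BV.R l z a ⊓
        ⨅ x', (BV.R t x' x)ᶜ ⊔ ((BV.R l x' a)ᶜ ⊔ eqv x' z)) := by
    intro Γ x a b h2 h3 h4
    have h5 := (h2.trans hPr).trans ((iInf_le _ x).trans (iInf_le _ b))
    have h6 := (EvTP_mp h3 h5).trans (iInf_le _ a)
    exact EvTP_mp h4 h6
  have rUn : ∀ (Γ : B) (z a b x x' : BSet B), Γ ≤ b0 → Γ ≤ BV.R l z b → Γ ≤ mem a b →
      Γ ≤ BV.R t x z → Γ ≤ BV.R t x' z → Γ ≤ BV.R l x a → Γ ≤ BV.R l x' a → Γ ≤ eqv x x' := by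
    intro Γ z a b x x' h2 h3 h4 h5 h6 h7 h8
    refine EvTP_ex (rPr Γ z a b h2 h3 h4) fun w => ?_
    have hu : ∀ v : BSet B, Γ ≤ BV.R t v z → Γ ≤ BV.R l v a →
        Γ ⊓ (BV.R t w z ⊓ (BV.R l w a ⊓
        ⨅ x', (BV.R t x' z)ᶜ ⊔ ((BV.R l x' a)ᶜ ⊔ eqv x' w))) ≤ eqv v w := by
      intro v h9 h10
      have h11 : Γ ⊓ (BV.R t w z ⊓ (BV.R l w a ⊓
        ⨅ x', (BV.R t x' z)ᶜ ⊔ ((BV.R l x' a)ᶜ ⊔ eqv x' w))) ≤
          (BV.R t v z)ᶜ ⊔ ((BV.R l v a)ᶜ ⊔ eqv v w) :=
        inf_le_right.trans (inf_le_right.trans (inf_le_right.trans (iInf_le _ v)))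
      exact EvTP_mp (inf_le_left.trans h10) (EvTP_mp (inf_le_left.trans h9) h11)
    exact htrans (hu x h5 h7) (hsymm (hu x' h6 h8))
  have hV2 : ∀ p q : L × O1, p.1 = q.1 → p.2 < q.2 → V p ⊓ V q ⊓ eqv (Y p) (Y q) ≤ ⊥ := by
    intro p q h2 h3
    obtain ⟨α, ξ⟩ := p
    obtain ⟨β, η⟩ := q
    simp only at h2 h3
    subst h2
    have h4 : V (α, ξ) ⊓ V (α, η) ⊓ eqv (Y (α, ξ)) (Y (α, η)) ≤
        (ℓ (α, ξ) ⊓ eqv (Y (α, ξ)) (Y (α, η)))ᶜ := by
      refine (inf_le_left.trans inf_le_right).trans ?_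
      rw [hVd (α, η)]
      exact inf_le_right.trans ((iInf_le _ ξ).trans (iInf_le _ h3))
    have h5 : V (α, ξ) ⊓ V (α, η) ⊓ eqv (Y (α, ξ)) (Y (α, η)) ≤
        (ℓ (α, ξ) ⊓ eqv (Y (α, ξ)) (Y (α, η))) :=
      le_inf ((inf_le_left.trans inf_le_left).trans (hVℓ _)) inf_le_right
    exact (le_inf h5 h4).trans (by rw [inf_compl_eq_bot])
  have habs := EvTP_abs L hTP b0 V (fun p q => BV.R t (Y p) (Y q)) hVb
    (by
      intro p q s
      exact rTr _ (Y p) (Y q) (Y s) ((inf_le_left.trans inf_le_right).trans (hVb s))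
        (inf_le_right.trans inf_le_left) (inf_le_right.trans inf_le_right))
    (by
      intro p q hpq
      rw [eq_bot_iff]
      refine le_trans (rLv _ (Y p) (Y q) (onm p.1) (onm q.1) ?_ inf_le_right ?_ ?_) ?_
      · exact (inf_le_left.trans inf_le_right).trans (hVb q)
      · exact (inf_le_left.trans inf_le_left).trans (hVl p)
      · exact (inf_le_left.trans inf_le_right).trans (hVl q)
      · rw [hN.onm_nlt L _ _ hpq])
    (by
      intro x x' z hxx
      have hb : V x ⊓ V x' ⊓ V z ⊓ (BV.R t (Y x) (Y z) ⊓ BV.R t (Y x') (Y z)) ≤ b0 :=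
        (inf_le_left.trans inf_le_right).trans (hVb z)
      have hlx : V x ⊓ V x' ⊓ V z ⊓ (BV.R t (Y x) (Y z) ⊓ BV.R t (Y x') (Y z)) ≤
          BV.R l (Y x) (onm x.1) :=
        (inf_le_left.trans (inf_le_left.trans inf_le_left)).trans (hVl x)
      have hlx' : V x ⊓ V x' ⊓ V z ⊓ (BV.R t (Y x) (Y z) ⊓ BV.R t (Y x') (Y z)) ≤
          BV.R l (Y x') (onm x'.1) :=
        (inf_le_left.trans (inf_le_left.trans inf_le_right)).trans (hVl x')
      have hlz : V x ⊓ V x' ⊓ V z ⊓ (BV.R t (Y x) (Y z) ⊓ BV.R t (Y x') (Y z)) ≤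
          BV.R l (Y z) (onm z.1) :=
        (inf_le_left.trans inf_le_right).trans (hVl z)
      have htx : V x ⊓ V x' ⊓ V z ⊓ (BV.R t (Y x) (Y z) ⊓ BV.R t (Y x') (Y z)) ≤
          BV.R t (Y x) (Y z) := inf_le_right.trans inf_le_left
      have htx' : V x ⊓ V x' ⊓ V z ⊓ (BV.R t (Y x) (Y z) ⊓ BV.R t (Y x') (Y z)) ≤
          BV.R t (Y x') (Y z) := inf_le_right.trans inf_le_right
      have hmm : V x ⊓ V x' ⊓ V z ⊓ (BV.R t (Y x) (Y z) ⊓ BV.R t (Y x') (Y z)) ≤
          mem (onm x.1) (onm x'.1) := by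
        rw [hN.onm_lt L _ _ hxx]
        exact le_top
      refine EvTP_ex (rPr _ (Y x') (onm x.1) (onm x'.1) hb hlx' hmm) fun w => ?_
      generalize V x ⊓ V x' ⊓ V z ⊓ (BV.R t (Y x) (Y z) ⊓ BV.R t (Y x') (Y z)) = Γ at *
      set Δ : B := Γ ⊓ (BV.R t w (Y x') ⊓ (BV.R l w (onm x.1) ⊓
        ⨅ x'_1, (BV.R t x'_1 (Y x'))ᶜ ⊔ ((BV.R l x'_1 (onm x.1))ᶜ ⊔ eqv x'_1 w))) with hΔ
      have hΔΓ : Δ ≤ Γ := inf_le_left
      have h7 : Δ ≤ BV.R t w (Y x') := inf_le_right.trans inf_le_left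
      have h8 : Δ ≤ BV.R l w (onm x.1) := inf_le_right.trans (inf_le_right.trans inf_le_left)
      have h9 : Δ ≤ BV.R t w (Y z) := rTr _ _ _ _ (hΔΓ.trans hb) h7 (hΔΓ.trans htx')
      have h10 : Δ ≤ eqv w (Y x) := by
        refine rUn Δ (Y z) (onm x.1) (onm z.1) w (Y x) (hΔΓ.trans hb) (hΔΓ.trans hlz) ?_ h9
          (hΔΓ.trans htx) h8 (hΔΓ.trans hlx)
        exact rLv Δ (Y x) (Y z) _ _ (hΔΓ.trans hb) (hΔΓ.trans htx) (hΔΓ.trans hlx)
          (hΔΓ.trans hlz)
      exact EvTP_sub hC (EvTP_extR2 hC t (Y x')) h10 h7)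
    (by
      intro x x' z hxx hne
      rw [eq_bot_iff]
      have heq : V x ⊓ V x' ⊓ V z ⊓ (BV.R t (Y x) (Y z) ⊓ BV.R t (Y x') (Y z)) ≤
          eqv (Y x) (Y x') := by
        refine rUn _ (Y z) (onm x.1) (onm z.1) (Y x) (Y x') ?_ ?_ ?_ ?_ ?_ ?_ ?_
        · exact (inf_le_left.trans inf_le_right).trans (hVb z)
        · exact (inf_le_left.trans inf_le_right).trans (hVl z)
        · refine rLv _ (Y x) (Y z) _ _ ?_ (inf_le_right.trans inf_le_left) ?_ ?_
          · exact (inf_le_left.trans inf_le_right).trans (hVb z)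
          · exact (inf_le_left.trans (inf_le_left.trans inf_le_left)).trans (hVl x)
          · exact (inf_le_left.trans inf_le_right).trans (hVl z)
        · exact inf_le_right.trans inf_le_left
        · exact inf_le_right.trans inf_le_right
        · exact (inf_le_left.trans (inf_le_left.trans inf_le_left)).trans (hVl x)
        · rw [hxx]
          exact (inf_le_left.trans (inf_le_left.trans inf_le_right)).trans (hVl x')
      rcases lt_trichotomy x.2 x'.2 with h | h | h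
      · refine le_trans ?_ (hV2 x x' hxx h)
        exact le_inf (inf_le_left.trans inf_le_left) heq
      · exact absurd (Prod.ext hxx h) hne
      · refine le_trans ?_ (hV2 x' x hxx.symm h)
        refine le_inf (le_inf ?_ ?_) (hsymm heq)
        · exact inf_le_left.trans (inf_le_left.trans inf_le_right)
        · exact inf_le_left.trans (inf_le_left.trans inf_le_left))
    (by
      intro z α hα
      have hmm : V z ≤ mem (onm α) (onm z.1) := by
        rw [hN.onm_lt L _ _ hα]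
        exact le_top
      refine EvTP_ex (rPr _ (Y z) (onm α) (onm z.1) (hVb z) (hVl z) hmm) fun w => ?_
      set Δ : B := V z ⊓ (BV.R t w (Y z) ⊓ (BV.R l w (onm α) ⊓
        ⨅ x', (BV.R t x' (Y z))ᶜ ⊔ ((BV.R l x' (onm α))ᶜ ⊔ eqv x' w))) with hΔ
      have h7 : Δ ≤ BV.R t w (Y z) := inf_le_right.trans inf_le_left
      have h8 : Δ ≤ BV.R l w (onm α) := inf_le_right.trans (inf_le_right.trans inf_le_left)
      have h9 : Δ ≤ b0 := inf_le_left.trans (hVb z)
      refine EvTP_ex ((le_inf h9 h8).trans (hM α w)) fun ξ => le_trans ?_ (le_iSup _ ξ)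
      refine le_inf (inf_le_right.trans inf_le_right) ?_
      exact EvTP_sub hC (EvTP_extR2 hC t (Y z)) (inf_le_right.trans inf_le_left)
        (inf_le_left.trans h7))
    (by
      intro α
      refine EvTP_ex (hNe α) fun x => ?_
      refine EvTP_ex (hM α x) fun ξ => le_trans ?_ (le_iSup _ ξ)
      exact inf_le_right.trans inf_le_right)
  obtain ⟨f, hf1, hf2, hf3, hf4⟩ := habs
  refine ⟨Y, f, ?_, ?_, hf2, hf3, hf4⟩
  · intro p
    rw [hY]
    exact (hy p.1 p.2).trans inf_le_left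
  · intro p
    exact (hf1 p).trans (hVl p)

end EvTPmain

theorem claimEvTP (h1 : ClaimNice1) (h2 : ClaimNice2) (hC : ClaimCongr) (hF : ClaimFull) :
    ClaimEvTP := by
  intro B _ L _ _ hTP
  have hN := h1 B
  rw [eq_top_iff]
  refine le_iInf fun T => le_iInf fun t => le_iInf fun l => ?_
  refine EvTP_intro (EvTP_intro ?_)
  set Γ : B := ⊤ ⊓ BV.tree T t l (w2 L B) ⊓ (⨅ a, (mem a (w2 L B))ᶜ ⊔ ⨆ g, BV.fn g (w1 B) T ⊓
    ⨅ x, (BV.R l x a)ᶜ ⊔ ⨆ ξ, mem ξ (w1 B) ⊓ BV.R g ξ x) with hΓ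
  have hT : Γ ≤ BV.tree T t l (w2 L B) := inf_le_left.trans inf_le_right
  have hT2 := (hT.trans inf_le_right).trans inf_le_right
  have hTr := hT2.trans inf_le_left
  have hT3 := hT2.trans inf_le_right
  have hLv := hT3.trans inf_le_left
  have hT4 := hT3.trans inf_le_right
  have hPr := hT4.trans inf_le_left
  have hT5 := hT4.trans inf_le_right
  have hmemw : ∀ α : L, mem (onm α) (w2 L B) = ⊤ := by
    intro α
    unfold w2
    rw [hN.mem_hat, eq_top_iff]
    refine le_trans ?_ (le_iSup _ α)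
    rw [eqv_refl]
  have hNe : ∀ α : L, Γ ≤ ⨆ x, BV.R l x (onm α) := by
    intro α
    have h3 := hT5.trans (iInf_le _ (onm α))
    rw [hmemw, compl_top, bot_sup_eq] at h3
    exact h3
  have hG : ∀ α : L, Γ ≤ ⨆ g, BV.fn g (w1 B) T ⊓
      ⨅ x, (BV.R l x (onm α))ᶜ ⊔ ⨆ ξ, mem ξ (w1 B) ⊓ BV.R g ξ x := by
    intro α
    have h3 : Γ ≤ (mem (onm α) (w2 L B))ᶜ ⊔ ⨆ g, BV.fn g (w1 B) T ⊓
      ⨅ x, (BV.R l x (onm α))ᶜ ⊔ ⨆ ξ, mem ξ (w1 B) ⊓ BV.R g ξ x :=
      inf_le_right.trans (iInf_le _ (onm α))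
    rw [hmemw, compl_top, bot_sup_eq] at h3
    exact h3
  obtain ⟨Y, f, hf0, hf1, hf2, hf3, hf4⟩ :=
    EvTP_core h1 hC hF L hTP T t l Γ hTr hLv hPr hNe hG
  refine le_trans ?_ (le_iSup _ (sb Y f))
  have hmf : ∀ p, f p ≤ mem (Y p) (sb Y f) := fun p => mem_fam Y f p
  refine le_inf ?_ (le_inf ?_ ?_)
  · unfold sb
    rw [sub_mk]
    refine le_iInf fun p => ?_
    exact (hf0 p).trans le_sup_right
  · have hext1 : ∀ x : BSet B, Extl (fun y => eqv x y ⊔ (BV.R t x y ⊔ BV.R t y x)) := by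
      intro x
      have := EvTP_extl hC (.or (.eq 1 0) (.or (F.r 2 1 0) (F.r 2 0 1)))
        (cons x (cons t (fun _ => t)))
      simpa using this
    have hext2 : Extl (fun x => ⨅ y, (mem y (sb Y f))ᶜ ⊔
        (eqv x y ⊔ (BV.R t x y ⊔ BV.R t y x))) := by
      have := EvTP_extl hC (.all (.imp (.mem 0 2) (.or (.eq 1 0) (.or (F.r 3 1 0) (F.r 3 0 1)))))
        (cons (sb Y f) (cons t (fun _ => t)))
      simpa using this
    have h3 : (⨅ x, ⨅ y, (mem x (sb Y f))ᶜ ⊔ ((mem y (sb Y f))ᶜ ⊔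
        (eqv x y ⊔ (BV.R t x y ⊔ BV.R t y x)))) =
        ⨅ x, (mem x (sb Y f))ᶜ ⊔ ⨅ y, (mem y (sb Y f))ᶜ ⊔
        (eqv x y ⊔ (BV.R t x y ⊔ BV.R t y x)) := by
      refine iInf_congr fun x => ?_
      rw [sup_iInf_eq]
    rw [h3]
    have h4 := iInf_mem Y f _ hext2
    unfold sb at h4 ⊢
    rw [h4]
    refine le_iInf fun p => EvTP_intro ?_
    have h5 := iInf_mem Y f _ (hext1 (Y p))
    rw [h5]
    refine le_iInf fun q => EvTP_intro ?_
    rcases lt_trichotomy p.1 q.1 with h | h | h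
    · refine le_trans ?_ (le_sup_left.trans le_sup_right)
      rw [inf_assoc]
      exact hf2 p q h
    · by_cases hpq : p = q
      · subst hpq
        rw [eqv_refl]
        exact le_top.trans le_sup_left
      · rw [inf_assoc, hf3 p q h hpq, inf_bot_eq]
        exact bot_le
    · refine le_trans ?_ (le_sup_right.trans le_sup_right)
      rw [inf_assoc, inf_comm (f p)]
      exact hf2 q p h
  · have hext3 : Extl (fun a => ⨆ x, mem x (sb Y f) ⊓ BV.R l x a) := by
      have := EvTP_extl hC (.ex (.and (.mem 0 2) (F.r 3 0 1)))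
        (cons (sb Y f) (cons l (fun _ => l)))
      simpa using this
    have h4 := hN.all_mem L onm _ hext3
    unfold w2
    rw [h4]
    refine le_iInf fun α => ?_
    have h5 : Γ ≤ ⨆ w, f (α, w) := by
      rw [hf4 α]
      exact le_top
    refine EvTP_ex h5 fun w => le_trans ?_ (le_iSup _ (Y (α, w)))
    exact le_inf (inf_le_right.trans (hmf _)) (hf1 (α, w))

end Pool.Agent.Work.MP_dbe197_lc

end

section

/-!
# Assembly of the model of ZFC
-/

namespace Pool.Agent.Work.MP_dbe197_lc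

open Set Cardinal BSet

theorem zfc_of (h1 : ClaimZ1) (h2 : ClaimZ2) (h3 : ClaimZ3) (h4 : ClaimZ4) {B : Type}
    [CompleteBooleanAlgebra B] (U : Uf B) : MZ.ZFC (EU U) where
  ext := (h1 B U).1
  pair := (h1 B U).2.1
  union := (h1 B U).2.2.1
  power := (h1 B U).2.2.2
  inf := (h2 B U).1
  found := (h2 B U).2
  sep := (h3 B U).1
  repl := (h3 B U).2
  choice := h4 B U

theorem good_of (hLos : ClaimLos) (e0 : ClaimEv0) (e1 : ClaimEvSR) (e2 : ClaimEvTP)
    (e3 : ClaimEvKH) (e4 : ClaimEvDSS) (e5 : ClaimEvT) (e6 : ClaimEvU) (e7 : ClaimEvC)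
    {B : Type} [CompleteBooleanAlgebra B] [Nontrivial B] (U : Uf B) {L : Type} [LinearOrder L]
    [WellFoundedLT L] [Nonempty L] (hL : ∃ e : L → L × ℕ, Function.Surjective e) (h : AllHold L B) :
    MZ.Good (EU U) (cls U (w0 B)) (cls U (w1 B)) (cls U (w2 L B)) := by
  let v : ℕ → BSet B := cons (w0 B) (cons (w1 B) (cons (w2 L B) (fun _ => w0 B)))
  have key : ∀ φ : Fml, Val φ v = ⊤ → MZ.Sat (EU U) φ (fun n => cls U (v n)) := by
    intro φ hφ
    rw [hLos B U φ v, hφ]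
    exact U.top_mem
  have q := e0 B L h.om2
  constructor
  · simpa [v] using key (F.isOmega 0) (by simpa [v] using q.1)
  · simpa [v] using key (F.isNext 0 1) (by simpa [v] using q.2.1)
  · simpa [v] using key (F.isNext 1 2) (by simpa [v] using q.2.2)
  · simpa [v] using key (F.sr 0 1 2) (by simpa [v] using e1 B L h.sr)
  · simpa [v] using key (F.tp 1 2) (by simpa [v] using e2 B L h.tp)
  · simpa [v] using key (F.nwkh 1 2) (by simpa [v] using e3 B L h.nwkh)
  · simpa [v] using key (F.dss 0 1 2) (by simpa [v] using e4 B L h.dss)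
  · simpa [v] using key (F.teq 0 2) (by simpa [v] using e5 B L h.tge h.tule)
  · simpa [v] using key (F.ueq 0 2) (by simpa [v] using e6 B L hL h.uge h.tule)
  · simpa [v] using key (F.cgt 0 2) (by simpa [v] using e7 B L h.cgt)

end Pool.Agent.Work.MP_dbe197_lc

end

section

/-!
# Item Z1: mixing, the maximum principle, congruence, the theorem of Los
-/

namespace Pool.Agent.Work.MP_dbe197_lc

open Set Cardinal BSet

theorem Full_imp {B : Type} [CompleteBooleanAlgebra B] {b c d : B} :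
    b ≤ cᶜ ⊔ d ↔ b ⊓ c ≤ d := by
  rw [sup_comm, ← himp_eq, le_himp_iff]

theorem Full_not_le {B : Type} [CompleteBooleanAlgebra B] {b c : B} (h : ¬ b ≤ c) :
    b ⊓ cᶜ ≠ ⊥ := by
  rw [Ne, ← _root_.sdiff_eq, sdiff_eq_bot_iff]
  exact h

theorem Full_mem_inf {A : Type} [BooleanAlgebra A] (u : Uf A) (a b : A) :
    a ⊓ b ∈ u.s ↔ a ∈ u.s ∧ b ∈ u.s :=
  ⟨fun h => ⟨u.up _ _ inf_le_left h, u.up _ _ inf_le_right h⟩, fun h => u.inf_mem _ _ h.1 h.2⟩

theorem Full_mem_compl {A : Type} [BooleanAlgebra A] (u : Uf A) (a : A) :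
    aᶜ ∈ u.s ↔ a ∉ u.s := by
  constructor
  · intro h1 h2
    have := u.inf_mem _ _ h2 h1
    rw [inf_compl_self] at this
    exact u.bot_mem this
  · intro h
    exact (u.ultra a).resolve_left h

theorem Full_mem_sup {A : Type} [BooleanAlgebra A] (u : Uf A) (a b : A) :
    a ⊔ b ∈ u.s ↔ a ∈ u.s ∨ b ∈ u.s := by
  rw [← not_iff_not, ← Full_mem_compl, compl_sup, Full_mem_inf, Full_mem_compl, Full_mem_compl,
    not_or]

theorem claimMixS : ClaimMixS := by
  intro B _ ι c x hc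
  have h : ∀ i, ∃ (I : Type) (A : I → BSet B) (b : I → B), x i = .mk I A b := by
    intro i
    cases hx : x i with
    | mk I A b => exact ⟨I, A, b, rfl⟩
  choose I A b hx using h
  refine ⟨.mk (Σ i, I i) (fun p => A p.1 p.2) (fun p => c p.1 ⊓ b p.1 p.2), ?_⟩
  intro i
  rw [hx i, eqv_mk]
  refine le_inf (le_iInf ?_) (le_iInf ?_)
  · rintro ⟨j, k⟩
    rw [Full_imp]
    by_cases hij : j = i
    · subst hij
      refine le_trans ?_ (le_iSup _ k)
      rw [eqv_refl, inf_top_eq]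
      exact inf_le_right.trans inf_le_right
    · have : c i ⊓ (c j ⊓ b j k) ≤ ⊥ := by
        rw [← hc i j (fun h => hij h.symm)]
        exact le_inf inf_le_left (inf_le_right.trans inf_le_left)
      exact this.trans bot_le
  · intro k
    rw [Full_imp]
    refine le_trans ?_ (le_iSup _ (⟨i, k⟩ : Σ i, I i))
    rw [eqv_refl, inf_top_eq]

theorem claimFull (hM : ClaimMixS) : ClaimFull := by
  intro B _ φ hφ
  obtain ⟨M, hMx⟩ := zorn_subset {M : Set B | (∀ d ∈ M, d ≠ ⊥ ∧ ∃ y, d ≤ φ y) ∧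
      ∀ d ∈ M, ∀ d' ∈ M, d ≠ d' → d ⊓ d' = ⊥} (by
    intro C hC hchain
    refine ⟨⋃₀ C, ⟨?_, ?_⟩, fun s hs => subset_sUnion_of_mem hs⟩
    · rintro d ⟨N, hN, hd⟩
      exact (hC hN).1 d hd
    · rintro d ⟨N, hN, hd⟩ d' ⟨N', hN', hd'⟩ hne
      rcases hchain.total hN hN' with h | h
      · exact (hC hN').2 d (h hd) d' hd' hne
      · exact (hC hN).2 d hd d' (h hd') hne)
  have hy : ∀ d : M, ∃ y, d.1 ≤ φ y := fun d => (hMx.prop.1 d.1 d.2).2
  choose y hy using hy
  obtain ⟨x, hx⟩ := hM B M (fun d => d.1) y (by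
    intro i j hij
    exact hMx.prop.2 i.1 i.2 j.1 j.2 (fun h => hij (Subtype.ext h)))
  have hle : ∀ d ∈ M, d ≤ φ x := by
    intro d hd
    refine le_trans ?_ (hφ (y ⟨d, hd⟩) x)
    refine le_inf ?_ (hy ⟨d, hd⟩)
    rw [eqv_symm]
    exact hx ⟨d, hd⟩
  refine ⟨x, iSup_le fun z => ?_⟩
  by_contra hn
  have he := Full_not_le hn
  have hdis : ∀ d ∈ M, (φ z ⊓ (φ x)ᶜ) ⊓ d = ⊥ := by
    intro d hd
    rw [← le_bot_iff]
    calc (φ z ⊓ (φ x)ᶜ) ⊓ d ≤ (φ x)ᶜ ⊓ φ x :=
          le_inf (inf_le_left.trans inf_le_right) (inf_le_right.trans (hle d hd))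
      _ = ⊥ := compl_inf_self _
  have hins : insert (φ z ⊓ (φ x)ᶜ) M ⊆ M := by
    apply hMx.le_of_ge (y := insert (φ z ⊓ (φ x)ᶜ) M) ?_ (subset_insert _ _)
    refine ⟨?_, ?_⟩
    · intro d hd
      rcases hd with rfl | hd
      · exact ⟨he, z, inf_le_left⟩
      · exact hMx.prop.1 d hd
    · intro d hd d' hd' hne
      rcases hd with rfl | hd <;> rcases hd' with rfl | hd'
      · exact absurd rfl hne
      · exact hdis d' hd'
      · rw [inf_comm]; exact hdis d hd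
      · exact hMx.prop.2 d hd d' hd' hne
  have h1 := hle _ (hins (mem_insert _ _))
  apply he
  rw [← le_bot_iff]
  calc φ z ⊓ (φ x)ᶜ ≤ φ x ⊓ (φ x)ᶜ := le_inf h1 inf_le_right
    _ = ⊥ := inf_compl_self _

theorem claimCongr : ClaimCongr := by
  intro B _ φ
  induction φ with
  | mem i j =>
    intro v w
    rw [Val_mem, Val_mem]
    have h1 := mem_congr_left (v i) (w i) (v j)
    have h2 := mem_congr_right (v j) (w j) (w i)
    refine le_trans (le_inf ?_ (le_trans (le_inf ?_ inf_le_right) h1)) h2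
    · exact inf_le_left.trans (iInf_le _ j)
    · exact inf_le_left.trans (iInf_le _ i)
  | eq i j =>
    intro v w
    rw [Val_eq, Val_eq]
    have h1 := eqv_trans (w i) (v i) (v j)
    have h2 := eqv_trans (w i) (v j) (w j)
    refine le_trans (le_inf (le_trans (le_inf ?_ inf_le_right) h1) ?_) h2
    · rw [eqv_symm (w i)]; exact inf_le_left.trans (iInf_le _ i)
    · exact inf_le_left.trans (iInf_le _ j)
  | bot =>
    intro v w
    exact inf_le_right
  | imp φ ψ ih1 ih2 =>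
    intro v w
    rw [Val_imp, Val_imp, Full_imp]
    have h1 := ih1 w v
    have h2 := ih2 v w
    have hs : (⨅ n, eqv (w n) (v n)) = ⨅ n, eqv (v n) (w n) :=
      iInf_congr fun n => eqv_symm _ _
    rw [hs] at h1
    refine le_trans (le_inf (inf_le_left.trans inf_le_left) ?_) h2
    have h3 : (⨅ n, eqv (v n) (w n)) ⊓ ((Val φ v)ᶜ ⊔ Val ψ v) ⊓ Val φ w ≤
        ((Val φ v)ᶜ ⊔ Val ψ v) ⊓ Val φ v := by
      refine le_inf (inf_le_left.trans inf_le_right) ?_
      exact le_trans (le_inf (inf_le_left.trans inf_le_left) inf_le_right) h1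
    refine h3.trans ?_
    rw [inf_sup_right, compl_inf_self, bot_sup_eq]
    exact inf_le_left
  | all φ ih =>
    intro v w
    rw [Val_all, Val_all]
    refine le_iInf fun x => le_trans ?_ (ih (cons x v) (cons x w))
    refine le_inf (le_iInf fun n => ?_) (inf_le_right.trans (iInf_le _ x))
    cases n with
    | zero =>
      rw [cons_zero, cons_zero, eqv_refl]
      exact le_top
    | succ n =>
      rw [cons_succ, cons_succ]
      exact inf_le_left.trans (iInf_le _ n)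

/-- Extensionality of a formula in the first variable. -/
theorem Full_extl (hC : ClaimCongr) {B : Type} [CompleteBooleanAlgebra B] (φ : Fml)
    (v : ℕ → BSet B) : Extl (fun x => Val φ (cons x v)) := by
  intro x y
  refine le_trans (inf_le_inf_right _ ?_) (hC B φ (cons x v) (cons y v))
  refine le_iInf fun n => ?_
  cases n with
  | zero => rw [cons_zero, cons_zero]
  | succ n =>
    rw [cons_succ, cons_succ, eqv_refl]
    exact le_top

theorem Full_extl_compl {B : Type} [CompleteBooleanAlgebra B] {φ : BSet B → B} (h : Extl φ) :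
    Extl (fun x => (φ x)ᶜ) := by
  intro x y
  rw [le_compl_iff_disjoint_right, disjoint_iff, ← le_bot_iff]
  calc eqv x y ⊓ (φ x)ᶜ ⊓ φ y ≤ φ x ⊓ (φ x)ᶜ := by
        refine le_inf ?_ (inf_le_left.trans inf_le_right)
        refine le_trans ?_ (h y x)
        rw [eqv_symm y x]
        exact le_inf (inf_le_left.trans inf_le_left) inf_le_right
    _ = ⊥ := inf_compl_self _

theorem Full_extl_inf {B : Type} [CompleteBooleanAlgebra B] {φ ψ : BSet B → B} (h : Extl φ)
    (h' : Extl ψ) : Extl (fun x => φ x ⊓ ψ x) := fun x y =>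
  le_inf (le_trans (le_inf inf_le_left (inf_le_right.trans inf_le_left)) (h x y))
    (le_trans (le_inf inf_le_left (inf_le_right.trans inf_le_right)) (h' x y))

theorem claimLos (hF : ClaimFull) (hC : ClaimCongr) : ClaimLos := by
  intro B _ U φ
  induction φ with
  | mem i j => intro v; exact EU_cls U (v i) (v j)
  | eq i j => intro v; exact cls_eq U (v i) (v j)
  | bot =>
    intro v
    exact ⟨fun h => h.elim, fun h => absurd h U.bot_mem⟩
  | imp φ ψ ih1 ih2 =>
    intro v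
    rw [Sat_imp, ih1, ih2, Val_imp, Full_mem_sup, Full_mem_compl]
    tauto
  | all φ ih =>
    intro v
    have hcons : ∀ a : BSet B, cons (cls U a) (fun n => cls U (v n)) =
        fun n => cls U (cons a v n) := by
      intro a
      funext n
      cases n <;> rfl
    rw [Sat_all, Val_all]
    constructor
    · intro h
      by_contra hn
      rw [← Full_mem_compl, compl_iInf] at hn
      obtain ⟨x0, hx0⟩ := hF B _ (Full_extl_compl (Full_extl hC φ v))
      have h1 := U.up _ _ hx0 hn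
      rw [Full_mem_compl] at h1
      apply h1
      have h2 := h (cls U x0)
      rw [hcons, ih] at h2
      exact h2
    · intro h x
      obtain ⟨a, rfl⟩ := cls_surj U x
      rw [hcons, ih]
      exact U.up _ _ (iInf_le _ a) h

end Pool.Agent.Work.MP_dbe197_lc

end
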