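import Pool.Agent.Work.MP_dbe197_lc.Stmts2

/-! Bundle of small proof modules (one section per former module). -/

section

/-!
# Item Z2: facts on names, part 1
-/

namespace Pool.Agent.Work.MP_dbe197_lc

open Set Cardinal BSet

theorem Nice1_imp {B : Type} [CompleteBooleanAlgebra B] {b c d : B} :
    b ≤ cᶜ ⊔ d ↔ b ⊓ c ≤ d := by
  rw [sup_comm, ← himp_eq, le_himp_iff]

section

variable {B : Type} [CompleteBooleanAlgebra B]

theorem Nice1_mem_onm {X : Type} [LinearOrder X] [WellFoundedLT X] (z : BSet B) (x : X) :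
    mem z (onm x) = ⨆ y : Iio x, eqv z (onm y.1) := by
  rw [onm_eq, hatF, mem_mk]
  exact iSup_congr fun y => by rw [top_inf_eq]

theorem Nice1_onm_lt {X : Type} [LinearOrder X] [WellFoundedLT X] {x y : X} (h : x < y) :
    mem (onm x : BSet B) (onm y) = ⊤ := by
  rw [Nice1_mem_onm, eq_top_iff]
  refine le_trans ?_ (le_iSup _ (⟨x, h⟩ : Iio y))
  rw [eqv_refl]

theorem Nice1_aux {X : Type} [LinearOrder X] [WellFoundedLT X] (y : X) :
    ∀ x, y < x → eqv (onm y : BSet B) (onm x) = ⊥ := by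
  induction y using WellFoundedLT.induction with
  | ind y ih =>
    intro x hx
    have h1 := mem_congr_right (onm x : BSet B) (onm y) (onm y)
    rw [Nice1_onm_lt hx, inf_top_eq] at h1
    have h2 : mem (onm y : BSet B) (onm y) = ⊥ := by
      rw [Nice1_mem_onm, eq_bot_iff]
      refine iSup_le fun z => ?_
      rw [eqv_symm, ih z.1 z.2 y z.2]
    rw [h2, le_bot_iff, eqv_symm] at h1
    exact h1

theorem Nice1_disc (X : Type) [LinearOrder X] [WellFoundedLT X] : Disc (onm : X → BSet B) := by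
  intro x y hxy
  rcases lt_or_gt_of_ne hxy with h | h
  · exact Nice1_aux x y h
  · rw [eqv_symm]; exact Nice1_aux y x h

theorem Nice1_sup {X : Type} {nm : X → BSet B} (h : Disc nm) (s : X → B) (x : X) :
    ⨆ y, s y ⊓ eqv (nm x) (nm y) = s x := by
  apply le_antisymm
  · refine iSup_le fun y => ?_
    by_cases hxy : x = y
    · subst hxy
      exact inf_le_left
    · rw [h x y hxy, inf_bot_eq]
      exact bot_le
  · refine le_trans ?_ (le_iSup _ x)
    rw [eqv_refl, inf_top_eq]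

theorem Nice1_sup' {X : Type} {nm : X → BSet B} (h : Disc nm) (s : X → B) (x : X) :
    ⨆ y, s y ⊓ eqv (nm y) (nm x) = s x := by
  rw [← Nice1_sup h s x]
  exact iSup_congr fun y => by rw [eqv_symm]

theorem Nice1_sub_sb {X : Type} (nm : X → BSet B) (s : X → B) :
    sub (sb nm s) (hatF nm) = ⊤ := by
  rw [sb, sub_mk, eq_top_iff]
  refine le_iInf fun i => le_trans ?_ le_sup_right
  exact mem_fam nm (fun _ => ⊤) i

theorem Nice1_mem_hat {X : Type} (nm : X → BSet B) (z : BSet B) :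
    mem z (hatF nm) = ⨆ x, eqv z (nm x) := by
  rw [hatF, mem_mk]
  exact iSup_congr fun y => by rw [top_inf_eq]

theorem Nice1_sub_le {X : Type} (nm : X → BSet B) (z : BSet B) :
    sub z (hatF nm) ≤ eqv z (sb nm (fun x => mem (nm x) z)) := by
  rw [eqv_eq]
  refine le_inf ?_ ?_
  · refine le_iInf fun w => ?_
    rw [Nice1_imp]
    have h1 : sub z (hatF nm) ⊓ mem w z ≤ mem w (hatF nm) := by
      rw [← Nice1_imp]; exact iInf_le _ w
    refine le_trans (le_inf h1 inf_le_right) ?_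
    rw [Nice1_mem_hat, iSup_inf_eq, sb, mem_mk]
    refine iSup_mono fun x => le_inf ?_ inf_le_left
    exact mem_congr_left w (nm x) z
  · rw [sb, sub_mk]
    refine le_iInf fun i => ?_
    rw [compl_sup_eq_top]
    exact le_top

theorem Nice1_bool (a b : B) : (aᶜ ⊔ b) ⊓ (bᶜ ⊔ a) = (a ⊓ b) ⊔ (aᶜ ⊓ bᶜ) := by
  rw [inf_sup_left, inf_sup_right, inf_sup_right, inf_compl_self, compl_inf_self, bot_sup_eq,
    sup_bot_eq, sup_comm, inf_comm b a]

end

theorem claimNice1 : ClaimNice1 := by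
  intro B _
  refine ⟨?_, ?_, ?_, ?_, ?_, ?_, ?_, ?_, ?_, ?_, ?_, ?_, ?_⟩
  · intro X _ _
    exact Nice1_disc X
  · intro X _ _ x y h
    exact Nice1_onm_lt h
  · intro X _ _ x y h
    rw [Nice1_mem_onm, eq_bot_iff]
    refine iSup_le fun z => ?_
    rw [Nice1_disc X x z.1 (fun hxz => h (hxz ▸ z.2))]
  · intro X nm s h x
    rw [sb, mem_mk]
    exact Nice1_sup h s x
  · intro X nm s z
    rw [sb, mem_mk]
  · intro X nm z
    exact Nice1_mem_hat nm z
  · intro X nm s
    exact Nice1_sub_sb nm s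
  · intro X nm z
    exact Nice1_sub_le nm z
  · intro X nm s s' h
    rw [sb, sb, eqv_mk, beq]
    rw [iInf_congr fun i => by rw [Nice1_sup h s' i],
      iInf_congr (f := fun j => (s' j)ᶜ ⊔ ⨆ i, s i ⊓ eqv (nm i) (nm j)) fun j => by
        rw [Nice1_sup' h s j], ← iInf_inf_eq]
    exact iInf_congr fun a => Nice1_bool _ _
  · intro X nm φ hφ
    apply le_antisymm
    · refine iSup_le fun z => le_trans ?_ (le_iSup _ (fun x => mem (nm x) z))
      exact le_trans (inf_le_inf_right _ (Nice1_sub_le nm z)) (hφ _ _)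
    · refine iSup_le fun s => le_trans ?_ (le_iSup _ (sb nm s))
      rw [Nice1_sub_sb, top_inf_eq]
  · intro X nm φ hφ
    apply le_antisymm
    · refine le_iInf fun s => le_trans (iInf_le _ (sb nm s)) ?_
      rw [Nice1_sub_sb, compl_top, bot_sup_eq]
    · refine le_iInf fun z => ?_
      rw [Nice1_imp]
      refine le_trans ?_ (hφ (sb nm (fun x => mem (nm x) z)) z)
      refine le_inf ?_ (inf_le_left.trans (iInf_le _ _))
      rw [eqv_symm]
      exact inf_le_right.trans (Nice1_sub_le nm z)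
  · intro X nm φ hφ
    rw [hatF, iSup_mem nm _ φ hφ]
    exact iSup_congr fun x => by rw [top_inf_eq]
  · intro X nm φ hφ
    rw [hatF, iInf_mem nm _ φ hφ]
    exact iInf_congr fun x => by rw [compl_top, bot_sup_eq]

end Pool.Agent.Work.MP_dbe197_lc

end

section

/-!
# Facts on names, part 2
-/

namespace Pool.Agent.Work.MP_dbe197_lc

open Set BSet

section N2

variable {B : Type} [CompleteBooleanAlgebra B]

theorem nice2_mem_upn (z x y : BSet B) : mem z (upn x y) = eqv z x ⊔ eqv z y := by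
  rw [upn, mem_mk, iSup_bool_eq]
  simp

theorem nice2_sub_upn (x y z : BSet B) : sub (upn x y) z = mem x z ⊓ mem y z := by
  rw [upn, sub_mk, iInf_bool_eq]
  simp

theorem nice2_pr_eq (a b p : BSet B) : BV.pr a b p = eqv p (upn a b) := by
  rw [eqv_eq, BV.pr, iInf_inf_eq, BSet.sub, BSet.sub]
  simp only [nice2_mem_upn]

theorem nice2_upn_eqv (x y x' y' : BSet B) : eqv (upn x y) (upn x' y') =
    ((eqv x x' ⊔ eqv x y') ⊓ (eqv y x' ⊔ eqv y y')) ⊓
      ((eqv x x' ⊔ eqv y x') ⊓ (eqv x y' ⊔ eqv y y')) := by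
  rw [eqv_eq, nice2_sub_upn, nice2_sub_upn, nice2_mem_upn, nice2_mem_upn, nice2_mem_upn,
    nice2_mem_upn, eqv_symm x' x, eqv_symm x' y, eqv_symm y' x, eqv_symm y' y]

theorem nice2_upn_congr (x y x' y' : BSet B) :
    eqv x x' ⊓ eqv y y' ≤ eqv (upn x y) (upn x' y') := by
  rw [nice2_upn_eqv]
  exact le_inf (le_inf (inf_le_left.trans le_sup_left) (inf_le_right.trans le_sup_right))
    (le_inf (inf_le_left.trans le_sup_left) (inf_le_right.trans le_sup_right))

theorem nice2_op_eq (x y p : BSet B) : BV.op x y p = eqv p (opn x y) := by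
  rw [BV.op]
  simp only [nice2_pr_eq]
  apply le_antisymm
  · refine iSup_le fun s => iSup_le fun t => ?_
    have h1 := nice2_upn_congr s t (upn x x) (upn x y)
    have h2 := eqv_trans p (upn s t) (opn x y)
    have h3 : eqv s (upn x x) ⊓ (eqv t (upn x y) ⊓ eqv p (upn s t)) ≤
        eqv p (upn s t) ⊓ eqv (upn s t) (opn x y) := by
      refine le_inf (inf_le_right.trans inf_le_right) ?_
      refine le_trans ?_ h1
      exact le_inf inf_le_left (inf_le_right.trans inf_le_left)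
    exact h3.trans h2
  · refine le_trans ?_ (le_iSup _ (upn x x))
    refine le_trans ?_ (le_iSup _ (upn x y))
    rw [eqv_refl, eqv_refl, top_inf_eq, top_inf_eq]
    exact le_rfl

theorem nice2_opn_eqv (x y x' y' : BSet B) :
    eqv (opn x y) (opn x' y') = eqv x x' ⊓ eqv y y' := by
  apply le_antisymm
  · rw [opn, opn, nice2_upn_eqv (upn x x) (upn x y) (upn x' x') (upn x' y')]
    set P := upn x x with hP
    set Q := upn x y with hQ
    set P' := upn x' x' with hP'
    set Q' := upn x' y' with hQ'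
    have hPP : eqv P P' ≤ eqv x x' := by
      rw [hP, hP', nice2_upn_eqv]
      simp
    have hPQ : eqv P Q' ≤ eqv x x' ⊓ eqv x y' := by
      rw [hP, hQ', nice2_upn_eqv]
      simp
    have hQP : eqv Q P' ≤ eqv x x' ⊓ eqv y x' := by
      rw [hQ, hP', nice2_upn_eqv]
      simp
    have hQQ1 : eqv Q Q' ≤ eqv y x' ⊔ eqv y y' := by
      rw [hQ, hQ', nice2_upn_eqv]
      exact inf_le_left.trans inf_le_right
    have hQQ2 : eqv Q Q' ≤ eqv x y' ⊔ eqv y y' := by
      rw [hQ, hQ', nice2_upn_eqv]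
      exact inf_le_right.trans inf_le_right
    have hab : eqv x x' ⊓ (eqv y x' ⊓ eqv x y') ≤ eqv y y' := by
      have h1 : eqv y x' ⊓ eqv x' x ≤ eqv y x := eqv_trans _ _ _
      have h2 : eqv y x ⊓ eqv x y' ≤ eqv y y' := eqv_trans _ _ _
      rw [eqv_symm x' x] at h1
      refine le_trans ?_ h2
      refine le_inf ?_ (inf_le_right.trans inf_le_right)
      refine le_trans ?_ h1
      exact le_inf (inf_le_right.trans inf_le_left) inf_le_left
    set A := (eqv P P' ⊔ eqv P Q') ⊓ (eqv Q P' ⊔ eqv Q Q') ⊓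
      ((eqv P P' ⊔ eqv Q P') ⊓ (eqv P Q' ⊔ eqv Q Q')) with hA
    have h1 : A ≤ eqv x x' := by
      refine (inf_le_left.trans inf_le_left).trans ?_
      exact sup_le hPP (hPQ.trans inf_le_left)
    have h2 : A ≤ eqv y x' ⊔ eqv y y' := by
      refine (inf_le_left.trans inf_le_right).trans ?_
      exact sup_le ((hQP.trans inf_le_right).trans le_sup_left) hQQ1
    have h3 : A ≤ eqv x y' ⊔ eqv y y' := by
      refine (inf_le_right.trans inf_le_right).trans ?_
      exact sup_le ((hPQ.trans inf_le_right).trans le_sup_left) hQQ2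
    refine le_inf h1 ?_
    have h4 : A ≤ eqv x x' ⊓ ((eqv y x' ⊓ eqv x y') ⊔ eqv y y') := by
      refine le_inf h1 ?_
      rw [sup_inf_right]
      exact le_inf h2 h3
    refine h4.trans ?_
    rw [inf_sup_left]
    exact sup_le hab inf_le_right
  · rw [opn, opn]
    refine le_trans ?_ (nice2_upn_congr _ _ _ _)
    refine le_inf ?_ (nice2_upn_congr _ _ _ _)
    refine le_trans ?_ (nice2_upn_congr _ _ _ _)
    exact le_inf inf_le_left inf_le_left

theorem nice2_R_eq (r a b : BSet B) : BV.R r a b = mem (opn a b) r := by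
  rw [BV.R]
  simp only [nice2_op_eq]
  apply le_antisymm
  · exact iSup_le fun p => mem_congr_left _ _ _
  · refine le_trans ?_ (le_iSup _ (opn a b))
    rw [eqv_refl, top_inf_eq]

theorem nice2_mem_rl {X Y : Type} (nmX : X → BSet B) (nmY : Y → BSet B) (r : X → Y → B)
    (z : BSet B) : mem z (rl nmX nmY r) = ⨆ x, ⨆ y, r x y ⊓ eqv z (opn (nmX x) (nmY y)) := by
  rw [rl, mem_mk, iSup_prod]

theorem nice2_R_rl' {X Y : Type} (nmX : X → BSet B) (nmY : Y → BSet B) (r : X → Y → B)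
    (a b : BSet B) :
    BV.R (rl nmX nmY r) a b = ⨆ x, ⨆ y, r x y ⊓ (eqv a (nmX x) ⊓ eqv b (nmY y)) := by
  rw [nice2_R_eq, nice2_mem_rl]
  simp only [nice2_opn_eqv]

theorem nice2_R_rl {X Y : Type} (nmX : X → BSet B) (nmY : Y → BSet B) (r : X → Y → B)
    (hX : Disc nmX) (hY : Disc nmY) (x : X) (y : Y) :
    BV.R (rl nmX nmY r) (nmX x) (nmY y) = r x y := by
  rw [nice2_R_rl']
  apply le_antisymm
  · refine iSup_le fun x' => iSup_le fun y' => ?_
    by_cases hx : x = x'
    · by_cases hy : y = y'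
      · subst hx hy
        exact inf_le_left
      · rw [hY y y' hy]
        simp
    · rw [hX x x' hx]
      simp
  · refine le_trans ?_ (le_iSup _ x)
    refine le_trans ?_ (le_iSup _ y)
    rw [eqv_refl, eqv_refl, inf_top_eq, inf_top_eq]

theorem nice2_R_congr (r a b a' b' : BSet B) :
    (eqv a a' ⊓ eqv b b') ⊓ BV.R r a b ≤ BV.R r a' b' := by
  rw [nice2_R_eq, nice2_R_eq, ← nice2_opn_eqv]
  exact mem_congr_left _ _ _

theorem nice2_R_congr1 (r r' a b : BSet B) : eqv r r' ⊓ BV.R r a b ≤ BV.R r' a b := by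
  rw [nice2_R_eq, nice2_R_eq]
  exact mem_congr_right _ _ _

theorem nice2_R_extl1 (r b : BSet B) : Extl (fun a => BV.R r a b) := by
  intro x y
  have := nice2_R_congr r x b y b
  rwa [eqv_refl, inf_top_eq] at this

theorem nice2_R_extl2 (r a : BSet B) : Extl (fun b => BV.R r a b) := by
  intro x y
  have := nice2_R_congr r a x a y
  rwa [eqv_refl, top_inf_eq] at this

theorem nice2_extl_iSup {ι : Sort*} (φ : ι → BSet B → B) (h : ∀ i, Extl (φ i)) :
    Extl (fun x => ⨆ i, φ i x) := by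
  intro x y
  change eqv x y ⊓ (⨆ i, φ i x) ≤ ⨆ i, φ i y
  rw [inf_iSup_eq]
  exact iSup_mono fun i => h i x y

theorem nice2_extl_inf (b : B) (φ : BSet B → B) (h : Extl φ) : Extl (fun x => b ⊓ φ x) := by
  intro x y
  change eqv x y ⊓ (b ⊓ φ x) ≤ b ⊓ φ y
  refine le_inf (inf_le_right.trans inf_le_left) ?_
  refine le_trans ?_ (h x y)
  exact le_inf inf_le_left (inf_le_right.trans inf_le_right)

theorem nice2_extl_op (a b : BSet B) : Extl (fun p => BV.op a b p) := by
  intro x y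
  change eqv x y ⊓ BV.op a b x ≤ BV.op a b y
  rw [nice2_op_eq, nice2_op_eq, eqv_symm x y]
  exact eqv_trans _ _ _

theorem nice2_rel_rl {X Y : Type} (nmX : X → BSet B) (nmY : Y → BSet B) (r : X → Y → B) :
    BV.relOn (rl nmX nmY r) (hatF nmX) (hatF nmY) = ⊤ := by
  rw [BV.relOn, rl, iInf_mem _ _
    (fun p => ⨆ x, mem x (hatF nmX) ⊓ ⨆ y, mem y (hatF nmY) ⊓ BV.op x y p)]
  · rw [iInf_eq_top]
    rintro ⟨x, y⟩
    rw [eq_top_iff]
    refine le_trans ?_ le_sup_right
    refine le_trans ?_ (le_iSup _ (nmX x))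
    refine le_inf (mem_fam nmX (fun _ => ⊤) x) ?_
    refine le_trans ?_ (le_iSup _ (nmY y))
    refine le_inf (mem_fam nmY (fun _ => ⊤) y) ?_
    rw [nice2_op_eq, eqv_refl]
  · exact nice2_extl_iSup _ fun x => nice2_extl_inf _ _
      (nice2_extl_iSup _ fun y => nice2_extl_inf _ _ (nice2_extl_op x y))

theorem nice2_mem_hat {X : Type} (nm : X → BSet B) (z : BSet B) :
    mem z (hatF nm) = ⨆ x, eqv z (nm x) := by
  rw [hatF, mem_mk]
  simp

theorem nice2_rel_le {X Y : Type} (nmX : X → BSet B) (nmY : Y → BSet B) (f : BSet B) :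
    BV.relOn f (hatF nmX) (hatF nmY) ≤
      eqv f (rl nmX nmY (fun x y => BV.R f (nmX x) (nmY y))) := by
  rw [eqv_eq]
  refine le_inf ?_ ?_
  · rw [BSet.sub]
    refine le_iInf fun z => ?_
    rw [sup_comm, ← himp_eq, le_himp_iff]
    have h1 : BV.relOn f (hatF nmX) (hatF nmY) ⊓ mem z f ≤
        (⨆ x, ⨆ y, eqv z (opn (nmX x) (nmY y))) ⊓ mem z f := by
      refine le_inf ?_ inf_le_right
      have h2 : BV.relOn f (hatF nmX) (hatF nmY) ⊓ mem z f ≤
          ⨆ x, mem x (hatF nmX) ⊓ ⨆ y, mem y (hatF nmY) ⊓ BV.op x y z := by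
        rw [BV.relOn]
        refine le_trans (inf_le_inf_right _ (iInf_le _ z)) ?_
        rw [inf_sup_right, compl_inf_eq_bot, bot_sup_eq]
        exact inf_le_left
      refine h2.trans ?_
      refine iSup_le fun a => ?_
      rw [nice2_mem_hat, iSup_inf_eq]
      refine iSup_mono fun x => ?_
      rw [inf_iSup_eq]
      refine iSup_le fun b => ?_
      rw [nice2_mem_hat, iSup_inf_eq, inf_iSup_eq]
      refine iSup_mono fun y => ?_
      rw [nice2_op_eq]
      have h3 := nice2_opn_eqv a b (nmX x) (nmY y)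
      have h4 := eqv_trans z (opn a b) (opn (nmX x) (nmY y))
      rw [h3] at h4
      refine le_trans ?_ h4
      refine le_inf (inf_le_right.trans inf_le_right) (le_inf inf_le_left ?_)
      exact inf_le_right.trans inf_le_left
    refine h1.trans ?_
    rw [iSup_inf_eq, nice2_mem_rl]
    refine iSup_mono fun x => ?_
    rw [iSup_inf_eq]
    refine iSup_mono fun y => ?_
    rw [nice2_R_eq]
    exact le_inf (mem_congr_left _ _ _) inf_le_left
  · rw [rl, sub_mk]
    refine le_iInf fun p => ?_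
    rw [nice2_R_eq]
    simp

theorem nice2_all_mem {X : Type} (nm : X → BSet B) (φ : BSet B → B) (h : Extl φ) :
    ⨅ z, (mem z (hatF nm))ᶜ ⊔ φ z = ⨅ x, φ (nm x) := by
  rw [hatF, iInf_mem _ _ φ h]
  simp

theorem nice2_ex_mem {X : Type} (nm : X → BSet B) (φ : BSet B → B) (h : Extl φ) :
    ⨆ z, mem z (hatF nm) ⊓ φ z = ⨆ x, φ (nm x) := by
  rw [hatF, iSup_mem _ _ φ h]
  simp

theorem nice2_fn_rl {X Y : Type} (nmX : X → BSet B) (nmY : Y → BSet B) (r : X → Y → B)
    (hX : Disc nmX) (hY : Disc nmY) : BV.fn (rl nmX nmY r) (hatF nmX) (hatF nmY) =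
      (⨅ x, ⨆ y, r x y) ⊓ ⨅ x, ⨅ y, ⨅ z, ⨅ (_ : y ≠ z), (r x y ⊓ r x z)ᶜ := by
  rw [BV.fn, nice2_rel_rl, top_inf_eq]
  congr 1
  · rw [nice2_all_mem nmX (fun x => ⨆ y, mem y (hatF nmY) ⊓ BV.R (rl nmX nmY r) x y)
      (nice2_extl_iSup _ fun y => nice2_extl_inf _ _ (nice2_R_extl1 _ _))]
    refine iInf_congr fun x => ?_
    rw [nice2_ex_mem nmY (fun y => BV.R (rl nmX nmY r) (nmX x) y) (nice2_R_extl2 _ _)]
    exact iSup_congr fun y => nice2_R_rl nmX nmY r hX hY x y
  · apply le_antisymm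
    · refine le_iInf fun x => le_iInf fun y => le_iInf fun z => le_iInf fun hyz => ?_
      refine (iInf_le _ (nmX x)).trans ((iInf_le _ (nmY y)).trans ((iInf_le _ (nmY z)).trans ?_))
      rw [nice2_R_rl nmX nmY r hX hY, nice2_R_rl nmX nmY r hX hY, hY y z hyz, sup_bot_eq,
        compl_inf]
    · refine le_iInf fun a => le_iInf fun b => le_iInf fun c => ?_
      rw [← sup_assoc, ← compl_inf, sup_comm, ← himp_eq, le_himp_iff]
      rw [nice2_R_rl', nice2_R_rl', iSup_inf_eq, inf_iSup_eq]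
      refine iSup_le fun x => ?_
      rw [iSup_inf_eq, inf_iSup_eq]
      refine iSup_le fun y => ?_
      rw [inf_iSup_eq, inf_iSup_eq]
      refine iSup_le fun x' => ?_
      rw [inf_iSup_eq, inf_iSup_eq]
      refine iSup_le fun y' => ?_
      by_cases hx : x = x'
      · subst hx
        by_cases hy : y = y'
        · subst hy
          have h1 := eqv_trans b (nmY y) c
          rw [eqv_symm (nmY y) c] at h1
          refine le_trans ?_ h1
          refine inf_le_right.trans ?_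
          exact inf_le_inf (inf_le_right.trans inf_le_right) (inf_le_right.trans inf_le_right)
        · have h1 : (⨅ x, ⨅ y, ⨅ z, ⨅ (_ : y ≠ z), (r x y ⊓ r x z)ᶜ) ≤ (r x y ⊓ r x y')ᶜ :=
            (iInf_le _ x).trans ((iInf_le _ y).trans ((iInf_le _ y').trans (iInf_le _ hy)))
          refine le_trans (b := (r x y ⊓ r x y')ᶜ ⊓ (r x y ⊓ r x y')) ?_ ?_
          · exact inf_le_inf h1 (inf_le_inf inf_le_left inf_le_left)
          · rw [compl_inf_eq_bot]
            exact bot_le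
      · have h1 := eqv_trans (nmX x) a (nmX x')
        rw [hX x x' hx, eqv_symm (nmX x) a] at h1
        refine le_trans ?_ (h1.trans bot_le)
        refine inf_le_right.trans ?_
        exact inf_le_inf (inf_le_right.trans inf_le_left) (inf_le_right.trans inf_le_left)

theorem nice2_extl_fn (hC : ClaimCongr) (a b : BSet B) : Extl (fun f => BV.fn f a b) := by
  intro x y
  have h := hC B (F.fn 0 1 2) (cons x (cons a (fun _ => b))) (cons y (cons a (fun _ => b)))
  rw [Val_fn, Val_fn] at h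
  refine le_trans (inf_le_inf_right _ ?_) h
  refine le_iInf fun n => ?_
  match n with
  | 0 => exact le_rfl
  | 1 => exact le_top.trans (eqv_refl _).ge
  | (n + 2) => exact le_top.trans (eqv_refl _).ge

theorem nice2_ex_fn (hC : ClaimCongr) {X Y : Type} [Nonempty Y] (nmX : X → BSet B)
    (nmY : Y → BSet B) (hX : Disc nmX) (hY : Disc nmY) (φ : BSet B → B) (hφ : Extl φ) :
    ⨆ f, BV.fn f (hatF nmX) (hatF nmY) ⊓ φ f =
      ⨆ (r : X → Y → B) (_ : IsFun r), φ (rl nmX nmY r) := by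
  classical
  apply le_antisymm
  · refine iSup_le fun f => ?_
    set r0 : X → Y → B := fun x y => BV.R f (nmX x) (nmY y) with hr0
    set b : B := BV.fn f (hatF nmX) (hatF nmY) ⊓ φ f with hb
    have h1 : b ≤ eqv f (rl nmX nmY r0) := by
      refine inf_le_left.trans ?_
      rw [BV.fn]
      exact inf_le_left.trans (nice2_rel_le nmX nmY f)
    have h2 : b ≤ BV.fn (rl nmX nmY r0) (hatF nmX) (hatF nmY) := by
      refine le_trans ?_ (nice2_extl_fn hC (hatF nmX) (hatF nmY) f (rl nmX nmY r0))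
      exact le_inf h1 inf_le_left
    rw [nice2_fn_rl nmX nmY r0 hX hY] at h2
    have h3 : ∀ x, b ≤ ⨆ y, r0 x y := fun x => h2.trans (inf_le_left.trans (iInf_le _ x))
    have h4 : ∀ x y z, y ≠ z → b ≤ (r0 x y ⊓ r0 x z)ᶜ := fun x y z hyz =>
      h2.trans (inf_le_right.trans ((iInf_le _ x).trans ((iInf_le _ y).trans
        ((iInf_le _ z).trans (iInf_le _ hyz)))))
    obtain ⟨y0⟩ := ‹Nonempty Y›
    set r : X → Y → B := fun x y => if y = y0 then (b ⊓ r0 x y) ⊔ bᶜ else b ⊓ r0 x y with hr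
    have hrle : ∀ x y, b ⊓ r x y ≤ r0 x y := by
      intro x y
      rw [hr]
      dsimp only
      split_ifs
      · rw [inf_sup_left, inf_compl_eq_bot, sup_bot_eq]
        exact inf_le_right.trans inf_le_right
      · exact inf_le_right.trans inf_le_right
    have hrge : ∀ x y, b ⊓ r0 x y ≤ r x y := by
      intro x y
      rw [hr]
      dsimp only
      split_ifs
      · exact le_sup_left
      · exact le_rfl
    have hbb : ∀ x y z, y ≠ z → b ⊓ r0 x y ⊓ (b ⊓ r0 x z) = ⊥ := by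
      intro x y z hyz
      rw [eq_bot_iff, ← inf_compl_eq_bot (a := r0 x y ⊓ r0 x z)]
      refine le_inf (inf_le_inf inf_le_right inf_le_right) ?_
      exact (inf_le_left.trans inf_le_left).trans (h4 x y z hyz)
    have hbc : ∀ t : B, b ⊓ t ⊓ bᶜ = ⊥ := by
      intro t
      rw [eq_bot_iff, ← inf_compl_eq_bot (a := b)]
      exact inf_le_inf inf_le_left le_rfl
    have hfun : IsFun r := by
      constructor
      · intro x
        rw [eq_top_iff, ← sup_compl_eq_top (x := b)]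
        refine sup_le ?_ ?_
        · refine (le_inf le_rfl (h3 x)).trans ?_
          rw [inf_iSup_eq]
          exact iSup_mono fun y => hrge x y
        · refine le_trans ?_ (le_iSup _ y0)
          rw [hr]
          dsimp only
          rw [if_pos rfl]
          exact le_sup_right
      · intro x y z hyz
        rw [hr]
        dsimp only
        split_ifs with hy hz hz
        · exact absurd (hy.trans hz.symm) hyz
        · rw [inf_sup_right, hbb x y z hyz, bot_sup_eq, inf_comm]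
          exact hbc _
        · rw [inf_sup_left, hbb x y z hyz, bot_sup_eq]
          exact hbc _
        · exact hbb x y z hyz
    have h5 : b ≤ eqv (rl nmX nmY r0) (rl nmX nmY r) := by
      rw [eqv_eq]
      refine le_inf ?_ ?_
      · rw [rl, sub_mk]
        refine le_iInf fun p => ?_
        rw [sup_comm, ← himp_eq, le_himp_iff]
        exact (hrge p.1 p.2).trans
          (mem_fam (fun p : X × Y => opn (nmX p.1) (nmY p.2)) (fun p => r p.1 p.2) p)
      · rw [rl, sub_mk]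
        refine le_iInf fun p => ?_
        rw [sup_comm, ← himp_eq, le_himp_iff]
        exact (hrle p.1 p.2).trans
          (mem_fam (fun p : X × Y => opn (nmX p.1) (nmY p.2)) (fun p => r0 p.1 p.2) p)
    have h6 : b ≤ eqv f (rl nmX nmY r) := (le_inf h1 h5).trans (eqv_trans _ _ _)
    refine le_trans ?_ (le_iSup₂ (f := fun (r : X → Y → B) (_ : IsFun r) => φ (rl nmX nmY r))
      r hfun)
    exact (le_inf h6 inf_le_right).trans (hφ _ _)
  · refine iSup_le fun r => iSup_le fun hr => ?_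
    refine le_trans ?_ (le_iSup _ (rl nmX nmY r))
    have h1 : BV.fn (rl nmX nmY r) (hatF nmX) (hatF nmY) = ⊤ := by
      rw [nice2_fn_rl nmX nmY r hX hY]
      have h2 : (⨅ x, ⨆ y, r x y) = ⊤ := by
        rw [iInf_eq_top]
        exact hr.tot
      rw [h2, top_inf_eq]
      rw [iInf_eq_top]
      intro x
      rw [iInf_eq_top]
      intro y
      rw [iInf_eq_top]
      intro z
      rw [iInf_eq_top]
      intro hyz
      rw [hr.uniq x y z hyz, compl_bot]
    rw [h1, top_inf_eq]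

end N2

theorem claimNice2 (_h1 : ClaimNice1) (hC : ClaimCongr) : ClaimNice2 := by
  intro B _
  exact
    { op_eq := nice2_op_eq
      opn_eqv := nice2_opn_eqv
      R_eq := nice2_R_eq
      R_rl' := fun _ _ nmX nmY r a b => nice2_R_rl' nmX nmY r a b
      R_rl := fun _ _ nmX nmY r hX hY x y => nice2_R_rl nmX nmY r hX hY x y
      rel_rl := fun _ _ nmX nmY r => nice2_rel_rl nmX nmY r
      rel_le := fun _ _ nmX nmY f => nice2_rel_le nmX nmY f
      fn_rl := fun _ _ nmX nmY r hX hY => nice2_fn_rl nmX nmY r hX hY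
      ex_fn := fun _ _ _ nmX nmY hX hY φ hφ => nice2_ex_fn hC nmX nmY hX hY φ hφ }

end Pool.Agent.Work.MP_dbe197_lc

end

section

/-!
# ZFC in the quotient: extensionality, pairing, union, power set
-/

namespace Pool.Agent.Work.MP_dbe197_lc

open Set BSet

section ZFC1

variable {B : Type} [CompleteBooleanAlgebra B] (U : Uf B)

theorem ZFC1_inf {a b : B} : a ⊓ b ∈ U.s ↔ a ∈ U.s ∧ b ∈ U.s :=
  ⟨fun h => ⟨U.up _ _ inf_le_left h, U.up _ _ inf_le_right h⟩, fun h => U.inf_mem _ _ h.1 h.2⟩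

theorem ZFC1_compl {a : B} : aᶜ ∈ U.s ↔ a ∉ U.s := by
  constructor
  · intro h h'
    have := U.inf_mem _ _ h' h
    rw [inf_compl_self] at this
    exact U.bot_mem this
  · intro h
    rcases U.ultra a with h' | h'
    · exact absurd h' h
    · exact h'

theorem ZFC1_sup {a b : B} : a ⊔ b ∈ U.s ↔ a ∈ U.s ∨ b ∈ U.s := by
  constructor
  · intro h
    by_contra hc
    rw [not_or] at hc
    have h1 := U.inf_mem _ _ ((ZFC1_compl U).2 hc.1) ((ZFC1_compl U).2 hc.2)
    rw [← compl_sup] at h1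
    exact (ZFC1_compl U).1 h1 h
  · rintro (h | h)
    · exact U.up _ _ le_sup_left h
    · exact U.up _ _ le_sup_right h

theorem ZFC1_ex (hF : ClaimFull) (φ : BSet B → B) (hφ : Extl φ) :
    (⨆ y, φ y) ∈ U.s ↔ ∃ y, φ y ∈ U.s := by
  constructor
  · intro h
    obtain ⟨x, hx⟩ := hF B φ hφ
    exact ⟨x, U.up _ _ hx h⟩
  · rintro ⟨y, hy⟩
    exact U.up _ _ (le_iSup φ y) hy


theorem ZFC1_sub_mem (x y z : BSet B) : sub x y ⊓ mem z x ≤ mem z y := by
  refine le_trans (inf_le_inf_right _ (iInf_le _ z)) ?_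
  rw [inf_sup_right, compl_inf_eq_bot, bot_sup_eq]
  exact inf_le_left

theorem ZFC1_le_sub {a : B} {x y : BSet B} (h : ∀ z, a ⊓ mem z x ≤ mem z y) : a ≤ sub x y := by
  refine le_iInf fun z => ?_
  rw [sup_comm, ← himp_eq, le_himp_iff]
  exact h z

theorem ZFC1_compl_extl {φ : BSet B → B} (hφ : Extl φ) : Extl fun z => (φ z)ᶜ := by
  intro x y
  rw [le_compl_iff_disjoint_right, disjoint_iff, eq_bot_iff]
  have h1 := hφ y x
  calc eqv x y ⊓ (φ x)ᶜ ⊓ φ y ≤ (eqv y x ⊓ φ y) ⊓ (φ x)ᶜ := by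
        rw [eqv_symm x y]
        refine le_inf (le_inf (inf_le_left.trans inf_le_left) inf_le_right) ?_
        exact inf_le_left.trans inf_le_right
    _ ≤ φ x ⊓ (φ x)ᶜ := inf_le_inf_right _ h1
    _ = ⊥ := inf_compl_self _

theorem ZFC1_inf_extl {φ ψ : BSet B → B} (hφ : Extl φ) (hψ : Extl ψ) :
    Extl fun z => φ z ⊓ ψ z := by
  intro x y
  refine le_inf (le_trans ?_ (hφ x y)) (le_trans ?_ (hψ x y))
  · exact inf_le_inf_left _ inf_le_left
  · exact inf_le_inf_left _ inf_le_right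

theorem ZFC1_sub_iff (hF : ClaimFull) (x y : BSet B) :
    sub x y ∈ U.s ↔ ∀ z, mem z x ∈ U.s → mem z y ∈ U.s := by
  constructor
  · intro h z hz
    exact U.up _ _ (ZFC1_sub_mem x y z) (U.inf_mem _ _ h hz)
  · intro h
    by_contra hc
    rw [← ZFC1_compl] at hc
    have h1 : (sub x y)ᶜ = ⨆ z, mem z x ⊓ (mem z y)ᶜ := by
      unfold sub
      rw [compl_iInf]
      refine iSup_congr fun z => ?_
      rw [compl_sup, compl_compl]
    rw [h1, ZFC1_ex U hF _ (ZFC1_inf_extl (fun a b => mem_congr_left a b x)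
      (ZFC1_compl_extl fun a b => mem_congr_left a b y))] at hc
    obtain ⟨z, hz⟩ := hc
    rw [ZFC1_inf, ZFC1_compl] at hz
    exact hz.2 (h z hz.1)

theorem ZFC1_mem_upn (x y z : BSet B) : mem z (upn x y) = eqv z x ⊔ eqv z y := by
  unfold upn
  rw [mem_mk, iSup_bool_eq]
  simp

/-- index type -/
def ZFC1_idx : BSet B → Type
  | .mk ι _ _ => ι

/-- elements -/
def ZFC1_el : (x : BSet B) → ZFC1_idx x → BSet B
  | .mk _ A _ => A

/-- values -/
def ZFC1_vl : (x : BSet B) → ZFC1_idx x → B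
  | .mk _ _ b => b

theorem ZFC1_mem_eq (z x : BSet B) : mem z x = ⨆ j, ZFC1_vl x j ⊓ eqv z (ZFC1_el x j) := by
  cases x with
  | mk ι A b => rw [mem_mk]; rfl

/-- the name of the union -/
def ZFC1_un (ι : Type) (A : ι → BSet B) (b : ι → B) : BSet B :=
  .mk (Σ i, ZFC1_idx (A i)) (fun p => ZFC1_el (A p.1) p.2) (fun p => b p.1 ⊓ ZFC1_vl (A p.1) p.2)

theorem ZFC1_mem_un (ι : Type) (A : ι → BSet B) (b : ι → B) (z : BSet B) :
    mem z (ZFC1_un ι A b) = ⨆ y, mem y (mk ι A b) ⊓ mem z y := by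
  rw [iSup_mem A b (fun y => mem z y) fun x y => mem_congr_right x y z]
  unfold ZFC1_un
  rw [mem_mk, iSup_sigma]
  refine iSup_congr fun i => ?_
  rw [ZFC1_mem_eq z (A i), inf_iSup_eq]
  refine iSup_congr fun j => ?_
  rw [inf_assoc]

/-- the name of the power set -/
def ZFC1_pw (ι : Type) (A : ι → BSet B) (b : ι → B) : BSet B :=
  .mk (ι → B) (fun f => .mk ι A f) (fun f => sub (.mk ι A f) (.mk ι A b))

theorem ZFC1_mem_pw (ι : Type) (A : ι → BSet B) (b : ι → B) (z : BSet B) :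
    mem z (ZFC1_pw ι A b) = sub z (mk ι A b) := by
  unfold ZFC1_pw
  rw [mem_mk]
  apply le_antisymm
  · refine iSup_le fun f => ZFC1_le_sub fun w => ?_
    refine le_trans ?_ (ZFC1_sub_mem (mk ι A f) (mk ι A b) w)
    refine le_inf (inf_le_left.trans inf_le_left) ?_
    refine le_trans ?_ (mem_congr_right z (mk ι A f) w)
    exact inf_le_inf_right _ inf_le_right
  · refine le_trans ?_ (le_iSup _ fun i => mem (A i) z)
    refine le_inf ?_ ?_
    · rw [sub_mk]
      refine le_iInf fun i => ?_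
      rw [sup_comm, ← himp_eq, le_himp_iff]
      exact ZFC1_sub_mem _ _ _
    · rw [eqv_eq]
      refine le_inf ?_ ?_
      · refine ZFC1_le_sub fun w => ?_
        have h1 : sub z (mk ι A b) ⊓ mem w z ≤ mem w (mk ι A b) ⊓ mem w z :=
          le_inf (ZFC1_sub_mem _ _ _) inf_le_right
        refine h1.trans ?_
        rw [mem_mk, mem_mk, iSup_inf_eq]
        refine iSup_mono fun i => ?_
        refine le_inf ?_ (inf_le_left.trans inf_le_right)
        refine le_trans ?_ (mem_congr_left w (A i) z)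
        exact inf_le_inf_right _ inf_le_right
      · rw [sub_mk]
        refine le_iInf fun i => ?_
        rw [compl_sup_eq_top]
        exact le_top

end ZFC1

theorem claimZ1 (hF : ClaimFull) : ClaimZ1 := by
  intro B _ U
  refine ⟨?_, ?_, ?_, ?_⟩
  · intro x y h
    obtain ⟨a, rfl⟩ := cls_surj U x
    obtain ⟨b, rfl⟩ := cls_surj U y
    rw [cls_eq, eqv_eq]
    refine U.inf_mem _ _ ?_ ?_
    · rw [ZFC1_sub_iff U hF]
      intro z hz
      exact (EU_cls U z b).1 ((h (cls U z)).1 ((EU_cls U z a).2 hz))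
    · rw [ZFC1_sub_iff U hF]
      intro z hz
      exact (EU_cls U z a).1 ((h (cls U z)).2 ((EU_cls U z b).2 hz))
  · intro x y
    obtain ⟨a, rfl⟩ := cls_surj U x
    obtain ⟨b, rfl⟩ := cls_surj U y
    refine ⟨cls U (upn a b), fun z => ?_⟩
    obtain ⟨c, rfl⟩ := cls_surj U z
    rw [EU_cls, ZFC1_mem_upn, ZFC1_sup, cls_eq, cls_eq]
  · intro x
    obtain ⟨a, rfl⟩ := cls_surj U x
    cases a with
    | mk ι A b =>
      refine ⟨cls U (ZFC1_un ι A b), fun z => ?_⟩
      obtain ⟨c, rfl⟩ := cls_surj U z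
      rw [EU_cls, ZFC1_mem_un, ZFC1_ex U hF _ (ZFC1_inf_extl
        (fun p q => mem_congr_left p q (mk ι A b)) fun p q => mem_congr_right p q c)]
      constructor
      · rintro ⟨y, hy⟩
        rw [ZFC1_inf] at hy
        exact ⟨cls U y, (EU_cls U _ _).2 hy.1, (EU_cls U _ _).2 hy.2⟩
      · rintro ⟨y, h1, h2⟩
        obtain ⟨d, rfl⟩ := cls_surj U y
        exact ⟨d, (ZFC1_inf U).2 ⟨(EU_cls U _ _).1 h1, (EU_cls U _ _).1 h2⟩⟩
  · intro x
    obtain ⟨a, rfl⟩ := cls_surj U x
    cases a with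
    | mk ι A b =>
      refine ⟨cls U (ZFC1_pw ι A b), fun z => ?_⟩
      obtain ⟨c, rfl⟩ := cls_surj U z
      rw [EU_cls, ZFC1_mem_pw, ZFC1_sub_iff U hF]
      constructor
      · intro h w hw
        obtain ⟨d, rfl⟩ := cls_surj U w
        exact (EU_cls U _ _).2 (h d ((EU_cls U _ _).1 hw))
      · intro h w hw
        exact (EU_cls U _ _).1 (h (cls U w) ((EU_cls U _ _).2 hw))

end Pool.Agent.Work.MP_dbe197_lc

end

section

/-!
# Item Z5: infinity and foundation in the quotient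
-/

namespace Pool.Agent.Work.MP_dbe197_lc

open Set Cardinal BSet

theorem ZFC2_imp {B : Type} [CompleteBooleanAlgebra B] {b c d : B} :
    b ≤ cᶜ ⊔ d ↔ b ⊓ c ≤ d := by
  rw [sup_comm, ← himp_eq, le_himp_iff]

theorem ZFC2_mem_inf {A : Type} [BooleanAlgebra A] (u : Uf A) (a b : A) :
    a ⊓ b ∈ u.s ↔ a ∈ u.s ∧ b ∈ u.s :=
  ⟨fun h => ⟨u.up _ _ inf_le_left h, u.up _ _ inf_le_right h⟩, fun h => u.inf_mem _ _ h.1 h.2⟩

theorem ZFC2_mem_compl {A : Type} [BooleanAlgebra A] (u : Uf A) (a : A) :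
    aᶜ ∈ u.s ↔ a ∉ u.s := by
  constructor
  · intro h1 h2
    have := u.inf_mem _ _ h2 h1
    rw [inf_compl_self] at this
    exact u.bot_mem this
  · intro h
    exact (u.ultra a).resolve_left h

theorem ZFC2_mem_sup {A : Type} [BooleanAlgebra A] (u : Uf A) (a b : A) :
    a ⊔ b ∈ u.s ↔ a ∈ u.s ∨ b ∈ u.s := by
  rw [← not_iff_not, ← ZFC2_mem_compl, compl_sup, ZFC2_mem_inf, ZFC2_mem_compl, ZFC2_mem_compl,
    not_or]

section

variable {B : Type} [CompleteBooleanAlgebra B]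

/-- The name of the successor. -/
def ZFC2_succ : BSet B → BSet B
  | .mk I A b => .mk (Option I) (fun o => o.elim (.mk I A b) A) (fun o => o.elim ⊤ b)

theorem ZFC2_mem_succ (z a : BSet B) : mem z (ZFC2_succ a) = mem z a ⊔ eqv z a := by
  cases a with
  | mk I A b =>
    rw [ZFC2_succ, mem_mk, iSup_option, mem_mk, sup_comm]
    congr 1
    change ⊤ ⊓ eqv z (.mk I A b) = _
    rw [top_inf_eq]

theorem ZFC2_mem_onm (z : BSet B) (n : ℕ) :
    mem z (onm n) = ⨆ y : Iio n, eqv z (onm y.1) := by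
  rw [onm_eq, hatF, mem_mk]
  exact iSup_congr fun y => by rw [top_inf_eq]

theorem ZFC2_onm_succ (z : BSet B) (n : ℕ) :
    mem z (onm (n + 1)) = mem z (onm n) ⊔ eqv z (onm n) := by
  rw [ZFC2_mem_onm, ZFC2_mem_onm]
  apply le_antisymm
  · refine iSup_le fun y => ?_
    have hy : y.1 < n + 1 := y.2
    rcases Nat.lt_succ_iff_lt_or_eq.1 hy with h | h
    · exact le_sup_of_le_left (le_iSup (fun y : Iio n => eqv z (onm y.1)) ⟨y.1, h⟩)
    · rw [h]; exact le_sup_right
  · refine sup_le (iSup_le fun y => ?_) ?_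
    · exact le_iSup (fun y : Iio (n + 1) => eqv z (onm y.1)) ⟨y.1, Nat.lt_succ_of_lt y.2⟩
    · exact le_iSup (fun y : Iio (n + 1) => eqv z (onm y.1)) ⟨n, Nat.lt_succ_self n⟩

theorem ZFC2_eqv_succ (a : BSet B) (n : ℕ) :
    eqv a (onm n) ≤ eqv (ZFC2_succ a) (onm (n + 1)) := by
  rw [eqv_eq (ZFC2_succ a)]
  refine le_inf (le_iInf fun z => ?_) (le_iInf fun z => ?_)
  · rw [ZFC2_imp, ZFC2_mem_succ, ZFC2_onm_succ, inf_sup_left]
    refine sup_le_sup (mem_congr_right a (onm n) z) ?_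
    rw [inf_comm]
    exact eqv_trans z a (onm n)
  · rw [ZFC2_imp, ZFC2_mem_succ, ZFC2_onm_succ, inf_sup_left]
    refine sup_le_sup ?_ ?_
    · rw [eqv_symm a]
      exact mem_congr_right (onm n) a z
    · rw [inf_comm, eqv_symm a]
      exact eqv_trans z (onm n) a

theorem ZFC2_mem_w0 (a : BSet B) : mem a (w0 B) = ⨆ n : ℕ, eqv a (onm n) := by
  rw [w0, hatF, mem_mk]
  exact iSup_congr fun y => by rw [top_inf_eq]

theorem ZFC2_found (x y : BSet B) : mem y x ≤
    ⨆ y, mem y x ⊓ ⨅ z, ((mem z y)ᶜ ⊔ (mem z x)ᶜ) := by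
  set ψ : B := ⨆ y, mem y x ⊓ ⨅ z, ((mem z y)ᶜ ⊔ (mem z x)ᶜ) with hψ
  induction y with
  | mk I A b ih =>
    have h1 : mem (.mk I A b) x ⊓ ψᶜ ≤ ⨅ z, ((mem z (.mk I A b))ᶜ ⊔ (mem z x)ᶜ) := by
      refine le_iInf fun z => ?_
      rw [ZFC2_imp, mem_mk, inf_iSup_eq]
      refine iSup_le fun i => ?_
      rw [le_compl_iff_disjoint_right, disjoint_iff, ← le_bot_iff]
      calc mem (.mk I A b) x ⊓ ψᶜ ⊓ (b i ⊓ eqv z (A i)) ⊓ mem z x
          ≤ ψ ⊓ ψᶜ := by
            refine le_inf ?_ (inf_le_left.trans (inf_le_left.trans inf_le_right))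
            refine le_trans ?_ (ih i)
            refine le_trans ?_ (mem_congr_left z (A i) x)
            exact le_inf (inf_le_left.trans (inf_le_right.trans inf_le_right)) inf_le_right
        _ = ⊥ := inf_compl_self _
    have h2 : mem (.mk I A b) x ⊓ ψᶜ ≤ ψ := by
      rw [hψ]
      refine le_trans (le_inf inf_le_left h1) ?_
      exact le_iSup (fun y => mem y x ⊓ ⨅ z, ((mem z y)ᶜ ⊔ (mem z x)ᶜ)) (.mk I A b)
    rw [← ZFC2_imp, compl_compl, sup_idem] at h2
    exact h2

theorem ZFC2_extl (x : BSet B) :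
    Extl (fun y => mem y x ⊓ ⨅ z, ((mem z y)ᶜ ⊔ (mem z x)ᶜ)) := by
  intro y y'
  refine le_inf ?_ (le_iInf fun z => ?_)
  · exact le_trans (inf_le_inf_left _ inf_le_left) (mem_congr_left y y' x)
  · rw [ZFC2_imp]
    have h1 : eqv y y' ⊓ (mem y x ⊓ ⨅ z, ((mem z y)ᶜ ⊔ (mem z x)ᶜ)) ⊓ mem z y' ≤
        ((mem z y)ᶜ ⊔ (mem z x)ᶜ) ⊓ mem z y := by
      refine le_inf (inf_le_left.trans (inf_le_right.trans (inf_le_right.trans (iInf_le _ z)))) ?_
      refine le_trans ?_ (mem_congr_right y' y z)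
      rw [eqv_symm y' y]
      exact le_inf (inf_le_left.trans inf_le_left) inf_le_right
    refine h1.trans ?_
    rw [inf_sup_right, compl_inf_self, bot_sup_eq]
    exact inf_le_left

end

theorem claimZ2 (hF : ClaimFull) (_hN : ClaimNice1) : ClaimZ2 := by
  intro B _ U
  refine ⟨⟨cls U (w0 B), ⟨cls U (onm (0 : ℕ)), ?_, ?_⟩, ?_⟩, ?_⟩
  · intro z hz
    obtain ⟨a, rfl⟩ := cls_surj U z
    rw [EU_cls, ZFC2_mem_onm] at hz
    have h0 : (⨆ y : Iio 0, eqv a (onm y.1)) = ⊥ := by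
      rw [eq_bot_iff]
      refine iSup_le fun y => ?_
      exact absurd y.2 (Nat.not_lt_zero _)
    rw [h0] at hz
    exact U.bot_mem hz
  · rw [EU_cls, ZFC2_mem_w0]
    refine U.up ⊤ _ ?_ U.top_mem
    refine le_trans ?_ (le_iSup _ 0)
    rw [eqv_refl]
  · intro y hy
    obtain ⟨a, rfl⟩ := cls_surj U y
    rw [EU_cls, ZFC2_mem_w0] at hy
    refine ⟨cls U (ZFC2_succ a), ?_, ?_⟩
    · rw [EU_cls, ZFC2_mem_w0]
      refine U.up _ _ ?_ hy
      exact iSup_le fun n => (ZFC2_eqv_succ a n).trans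
        (le_iSup (fun n : ℕ => eqv (ZFC2_succ a) (onm n)) (n + 1))
    · intro z
      obtain ⟨c, rfl⟩ := cls_surj U z
      rw [EU_cls, EU_cls, cls_eq, ZFC2_mem_succ, ZFC2_mem_sup]
  · rintro x ⟨y0, hy0⟩
    obtain ⟨x, rfl⟩ := cls_surj U x
    obtain ⟨y0, rfl⟩ := cls_surj U y0
    rw [EU_cls] at hy0
    have h1 := U.up _ _ (ZFC2_found x y0) hy0
    obtain ⟨y, hy⟩ := hF B _ (ZFC2_extl x)
    have h2 := U.up _ _ hy h1
    rw [ZFC2_mem_inf] at h2
    refine ⟨cls U y, h2.1, ?_⟩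
    intro z hz hzx
    obtain ⟨c, rfl⟩ := cls_surj U z
    rw [EU_cls] at hz hzx
    have h3 := U.up _ _ (iInf_le _ c) h2.2
    rw [ZFC2_mem_sup, ZFC2_mem_compl, ZFC2_mem_compl] at h3
    rcases h3 with h3 | h3
    · exact h3 hz
    · exact h3 hzx

end Pool.Agent.Work.MP_dbe197_lc

end

section

/-!
# ZFC in the quotient, 3: separation and replacement
-/

namespace Pool.Agent.Work.MP_dbe197_lc

open Set Cardinal BSet

section ZFC3

variable {B : Type} [CompleteBooleanAlgebra B]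

theorem zfc3_inf_iff (U : Uf B) (a b : B) : a ⊓ b ∈ U.s ↔ a ∈ U.s ∧ b ∈ U.s :=
  ⟨fun h => ⟨U.up _ _ inf_le_left h, U.up _ _ inf_le_right h⟩, fun h => U.inf_mem _ _ h.1 h.2⟩

theorem zfc3_not_both (U : Uf B) (a : B) (h1 : a ∈ U.s) (h2 : aᶜ ∈ U.s) : False := by
  have := U.inf_mem _ _ h1 h2
  rw [inf_compl_eq_bot] at this
  exact U.bot_mem this

theorem zfc3_mp {c a b : B} (h1 : c ≤ aᶜ ⊔ b) (h2 : c ≤ a) : c ≤ b := by
  calc c ≤ (aᶜ ⊔ b) ⊓ a := le_inf h1 h2
    _ ≤ b := by
      rw [inf_sup_right, compl_inf_eq_bot, bot_sup_eq]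
      exact inf_le_left

theorem zfc3_cons_cls (U : Uf B) (z : BSet B) (v : ℕ → BSet B) :
    cons (cls U z) (fun n => cls U (v n)) = fun n => cls U (cons z v n) := by
  funext n
  cases n <;> rfl

theorem zfc3_congr (hC : ClaimCongr) (φ : Fml) (v w : ℕ → BSet B) (c : B)
    (h1 : ∀ n, c ≤ eqv (v n) (w n)) (h2 : c ≤ Val φ v) : c ≤ Val φ w :=
  le_trans (le_inf (le_iInf h1) h2) (hC B φ v w)

theorem zfc3_extl1 (hC : ClaimCongr) (φ : Fml) (v : ℕ → BSet B) :
    Extl (fun z => Val φ (cons z v)) := by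
  intro x y
  refine zfc3_congr hC φ _ _ _ (fun n => ?_) inf_le_right
  cases n with
  | zero => exact inf_le_left
  | succ n =>
    show _ ≤ eqv (v n) (v n)
    rw [eqv_refl]
    exact le_top

theorem zfc3_extl2 (hC : ClaimCongr) (φ : Fml) (v : ℕ → BSet B) (w : BSet B) :
    Extl (fun z => Val φ (cons w (cons z v))) := by
  intro x y
  refine zfc3_congr hC φ _ _ _ (fun n => ?_) inf_le_right
  cases n with
  | zero =>
    show _ ≤ eqv w w
    rw [eqv_refl]
    exact le_top
  | succ n =>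
    cases n with
    | zero => exact inf_le_left
    | succ n =>
      show _ ≤ eqv (v n) (v n)
      rw [eqv_refl]
      exact le_top

theorem zfc3_names (U : Uf B) (v : ℕ → MU U) : ∃ v' : ℕ → BSet B, v = fun n => cls U (v' n) := by
  choose v' hv' using fun n => cls_surj U (v n)
  exact ⟨v', funext fun n => (hv' n).symm⟩

theorem zfc3_sep_eq (I : Type) (A : I → BSet B) (b : I → B) (Φ : BSet B → B) (hΦ : Extl Φ)
    (z : BSet B) : mem z (.mk I A (fun i => b i ⊓ Φ (A i))) = mem z (.mk I A b) ⊓ Φ z := by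
  rw [mem_mk, mem_mk, iSup_inf_eq]
  refine iSup_congr fun i => le_antisymm ?_ ?_
  · refine le_inf (le_inf (inf_le_left.trans inf_le_left) inf_le_right) ?_
    refine le_trans ?_ (hΦ (A i) z)
    rw [eqv_symm (A i) z]
    exact le_inf inf_le_right (inf_le_left.trans inf_le_right)
  · refine le_inf (le_inf (inf_le_left.trans inf_le_left) ?_) (inf_le_left.trans inf_le_right)
    refine le_trans ?_ (hΦ z (A i))
    exact le_inf (inf_le_left.trans inf_le_right) inf_le_right

end ZFC3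

theorem claimZ3 (hF : ClaimFull) (hC : ClaimCongr) (hL : ClaimLos) : ClaimZ3 := by
  intro B _ U
  constructor
  · intro φ v x
    obtain ⟨v', rfl⟩ := zfc3_names U v
    obtain ⟨x', rfl⟩ := cls_surj U x
    cases x' with
    | mk I A b =>
      refine ⟨cls U (.mk I A (fun i => b i ⊓ Val φ (cons (A i) v'))), fun z => ?_⟩
      obtain ⟨z', rfl⟩ := cls_surj U z
      rw [zfc3_cons_cls, hL B U φ, EU_cls, EU_cls,
        zfc3_sep_eq I A b (fun z => Val φ (cons z v')) (zfc3_extl1 hC φ v') z', zfc3_inf_iff]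
  · intro φ v x hx
    obtain ⟨v', rfl⟩ := zfc3_names U v
    obtain ⟨x', rfl⟩ := cls_surj U x
    have hsat : ∀ w z : BSet B, MZ.Sat (EU U) φ
        (cons (cls U w) (cons (cls U z) (fun n => cls U (v' n)))) ↔
          Val φ (cons w (cons z v')) ∈ U.s := by
      intro w z
      rw [zfc3_cons_cls, zfc3_cons_cls, hL B U φ]
    cases x' with
    | mk I A b =>
      choose w hw using fun i => hF B (fun w => Val φ (cons w (cons (A i) v')))
        (zfc3_extl1 hC φ (cons (A i) v'))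
      refine ⟨cls U (.mk I w (fun i => ⨆ z, mem z (.mk I A b) ⊓ Val φ (cons (w i) (cons z v')))),
        fun W => ?_⟩
      obtain ⟨ω, rfl⟩ := cls_surj U W
      constructor
      · intro h
        rw [EU_cls, mem_mk] at h
        have hle : (⨆ i, (⨆ z, mem z (.mk I A b) ⊓ Val φ (cons (w i) (cons z v'))) ⊓
            eqv ω (w i)) ≤ ⨆ z, mem z (.mk I A b) ⊓ Val φ (cons ω (cons z v')) := by
          refine iSup_le fun i => ?_
          rw [iSup_inf_eq]
          refine iSup_mono fun z => ?_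
          refine le_inf (inf_le_left.trans inf_le_left) ?_
          refine le_trans ?_ (zfc3_extl1 hC φ (cons z v') (w i) ω)
          rw [eqv_symm (w i) ω]
          exact le_inf inf_le_right (inf_le_left.trans inf_le_right)
        have h2 := U.up _ _ hle h
        obtain ⟨z0, hz0⟩ := hF B (fun z => mem z (.mk I A b) ⊓ Val φ (cons ω (cons z v'))) (by
          intro s t
          refine le_inf ?_ ?_
          · refine le_trans ?_ (mem_congr_left s t _)
            exact le_inf inf_le_left (inf_le_right.trans inf_le_left)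
          · refine le_trans ?_ (zfc3_extl2 hC φ v' ω s t)
            exact le_inf inf_le_left (inf_le_right.trans inf_le_right))
        have h3 := (zfc3_inf_iff U _ _).1 (U.up _ _ hz0 h2)
        exact ⟨cls U z0, h3.1, (hsat ω z0).2 h3.2⟩
      · rintro ⟨Z, hZ1, hZ2⟩
        obtain ⟨ζ, rfl⟩ := cls_surj U Z
        rw [hsat] at hZ2
        have hmem : mem ζ (.mk I A b) ∈ U.s := hZ1
        -- uniqueness
        have hc3 : (⨅ w', (Val φ (cons w' (cons ζ v')))ᶜ ⊔ eqv ω w') ∈ U.s := by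
          rcases U.ultra (⨅ w', (Val φ (cons w' (cons ζ v')))ᶜ ⊔ eqv ω w') with h | h
          · exact h
          · exfalso
            rw [compl_iInf] at h
            simp only [compl_sup, compl_compl] at h
            obtain ⟨w2, hw2⟩ := hF B (fun w' => Val φ (cons w' (cons ζ v')) ⊓ (eqv ω w')ᶜ) (by
              intro s t
              refine le_inf ?_ ?_
              · refine le_trans ?_ (zfc3_extl1 hC φ (cons ζ v') s t)
                exact le_inf inf_le_left (inf_le_right.trans inf_le_left)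
              · rw [le_compl_iff_disjoint_right, disjoint_iff_inf_le]
                have h1 : eqv s t ⊓ (Val φ (cons s (cons ζ v')) ⊓ (eqv ω s)ᶜ) ⊓ eqv ω t ≤
                    eqv ω s := by
                  refine le_trans ?_ (eqv_trans ω t s)
                  refine le_inf inf_le_right ?_
                  rw [eqv_symm t s]
                  exact inf_le_left.trans inf_le_left
                have h2 : eqv s t ⊓ (Val φ (cons s (cons ζ v')) ⊓ (eqv ω s)ᶜ) ⊓ eqv ω t ≤
                    (eqv ω s)ᶜ := inf_le_left.trans (inf_le_right.trans inf_le_right)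
                exact le_trans (le_inf h1 h2) (by rw [inf_compl_eq_bot]))
            have h3 := (zfc3_inf_iff U _ _).1 (U.up _ _ hw2 h)
            obtain ⟨W0, -, huniq⟩ := hx (cls U ζ) hZ1
            have e1 := huniq (cls U ω) ((hsat ω ζ).2 hZ2)
            have e2 := huniq (cls U w2) ((hsat w2 ζ).2 h3.1)
            have e3 : cls U ω = cls U w2 := e1.trans e2.symm
            rw [cls_eq] at e3
            exact zfc3_not_both U _ e3 h3.2
        rw [EU_cls]
        refine U.up _ _ ?_ (U.inf_mem _ _ (U.inf_mem _ _ hmem hZ2) hc3)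
        rw [mem_mk, mem_mk, iSup_inf_eq, iSup_inf_eq]
        refine iSup_mono fun i => ?_
        set d : B := b i ⊓ eqv ζ (A i) ⊓ Val φ (cons ω (cons ζ v')) ⊓
          (⨅ w', (Val φ (cons w' (cons ζ v')))ᶜ ⊔ eqv ω w') with hd
        have hd1 : d ≤ b i := inf_le_left.trans (inf_le_left.trans inf_le_left)
        have hd2 : d ≤ eqv ζ (A i) := inf_le_left.trans (inf_le_left.trans inf_le_right)
        have hd3 : d ≤ Val φ (cons ω (cons ζ v')) := inf_le_left.trans inf_le_right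
        have hd4 : d ≤ (Val φ (cons (w i) (cons ζ v')))ᶜ ⊔ eqv ω (w i) :=
          inf_le_right.trans (iInf_le _ (w i))
        have h5 : d ≤ Val φ (cons ω (cons (A i) v')) :=
          le_trans (le_inf hd2 hd3) (zfc3_extl2 hC φ v' ω ζ (A i))
        have h6 : d ≤ Val φ (cons (w i) (cons (A i) v')) :=
          h5.trans ((le_iSup (fun w => Val φ (cons w (cons (A i) v'))) ω).trans (hw i))
        have h7 : d ≤ Val φ (cons (w i) (cons ζ v')) := by
          refine le_trans (le_inf ?_ h6) (zfc3_extl2 hC φ v' (w i) (A i) ζ)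
          rw [eqv_symm]
          exact hd2
        have h8 : d ≤ eqv ω (w i) := zfc3_mp hd4 h7
        refine le_inf (le_trans ?_ (le_iSup _ ζ)) h8
        refine le_inf ?_ h7
        rw [mem_mk]
        exact le_trans (le_inf hd1 hd2) (le_iSup (fun j => b j ⊓ eqv ζ (A j)) i)

end Pool.Agent.Work.MP_dbe197_lc

end

section

/-!
# The axiom of choice in the quotient
-/

namespace Pool.Agent.Work.MP_dbe197_lc

open Set Cardinal BSet

section ZFC4

variable {B : Type}

/-- Index type of a name. -/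
def ZFC4idx : BSet B → Type
  | .mk ι _ _ => ι

/-- Members of a name. -/
def ZFC4fam : (x : BSet B) → ZFC4idx x → BSet B
  | .mk _ A _ => A

/-- Values of a name. -/
def ZFC4val : (x : BSet B) → ZFC4idx x → B
  | .mk _ _ b => b

variable [CompleteBooleanAlgebra B]

theorem ZFC4_mem (w x : BSet B) :
    mem w x = ⨆ j, ZFC4val x j ⊓ eqv w (ZFC4fam x j) := by
  cases x with
  | mk ι A b => rfl

theorem ZFC4_fam (x : BSet B) (j : ZFC4idx x) : ZFC4val x j ≤ mem (ZFC4fam x j) x := by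
  cases x with
  | mk ι A b => exact mem_fam A b j

/-- Elements only matter if they are among the given ones. -/
theorem ZFC4_mem_le (w x : BSet B) : mem w x ≤ ⨆ j, mem (ZFC4fam x j) x := by
  rw [ZFC4_mem w x]
  exact iSup_mono fun j => inf_le_left.trans (ZFC4_fam x j)

/-- The least index. -/
def ZFC4L {K : Type} (r : K → K → Prop) (g : K → B) (k : K) : B :=
  g k ⊓ (⨆ k', ⨆ (_ : r k' k), g k')ᶜ

theorem ZFC4L_le {K : Type} (r : K → K → Prop) (g : K → B) (k : K) : ZFC4L r g k ≤ g k :=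
  inf_le_left

theorem ZFC4_least {K : Type} (r : K → K → Prop) (hr : WellFounded r) (g : K → B) (k : K) :
    g k ≤ ⨆ k, ZFC4L r g k := by
  induction k using hr.induction with
  | _ k ih =>
    have h1 : g k ≤ (⨆ k', ⨆ (_ : r k' k), g k') ⊔ ZFC4L r g k := by
      unfold ZFC4L
      rw [sup_inf_left, sup_compl_eq_top, inf_top_eq]
      exact le_sup_right
    refine h1.trans (sup_le ?_ (le_iSup (ZFC4L r g) k))
    exact iSup_le fun k' => iSup_le fun hk => ih k' hk

theorem ZFC4_disj {K : Type} (r : K → K → Prop) (ht : ∀ k k', k ≠ k' → r k k' ∨ r k' k)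
    (g : K → B) {k k' : K} (h : k ≠ k') : ZFC4L r g k ⊓ ZFC4L r g k' = ⊥ := by
  rw [eq_bot_iff]
  rcases ht k k' h with h1 | h1
  · have h2 : g k ≤ ⨆ k₁, ⨆ (_ : r k₁ k'), g k₁ :=
      le_iSup_of_le k (le_iSup_of_le h1 le_rfl)
    calc ZFC4L r g k ⊓ ZFC4L r g k' ≤ g k ⊓ (⨆ k₁, ⨆ (_ : r k₁ k'), g k₁)ᶜ :=
          inf_le_inf inf_le_left inf_le_right
      _ ≤ g k ⊓ (g k)ᶜ := inf_le_inf_left _ (compl_le_compl h2)
      _ = ⊥ := inf_compl_eq_bot
  · have h2 : g k' ≤ ⨆ k₁, ⨆ (_ : r k₁ k), g k₁ :=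
      le_iSup_of_le k' (le_iSup_of_le h1 le_rfl)
    calc ZFC4L r g k ⊓ ZFC4L r g k' ≤ (⨆ k₁, ⨆ (_ : r k₁ k), g k₁)ᶜ ⊓ g k' :=
          inf_le_inf inf_le_right inf_le_left
      _ ≤ (g k')ᶜ ⊓ g k' := inf_le_inf_right _ (compl_le_compl h2)
      _ = ⊥ := compl_inf_eq_bot

/-- Change of the set. -/
theorem ZFC4_tr {K : Type} (r : K → K → Prop) (y : K → BSet B) (s z : BSet B) (k : K) :
    eqv z s ⊓ ZFC4L r (fun k => mem (y k) s) k ≤ ZFC4L r (fun k => mem (y k) z) k := by
  refine le_inf ?_ ?_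
  · refine le_trans ?_ (mem_congr_right s z (y k))
    rw [eqv_symm s z]
    exact inf_le_inf_left _ inf_le_left
  · rw [le_compl_iff_disjoint_right, disjoint_iff, eq_bot_iff]
    calc eqv z s ⊓ ZFC4L r (fun k => mem (y k) s) k ⊓ (⨆ k', ⨆ (_ : r k' k), mem (y k') z)
        ≤ (⨆ k', ⨆ (_ : r k' k), mem (y k') s) ⊓ (⨆ k', ⨆ (_ : r k' k), mem (y k') s)ᶜ := by
          refine le_inf ?_ ((inf_le_left.trans inf_le_right).trans inf_le_right)
          refine le_trans (inf_le_inf_right _ inf_le_left) ?_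
          rw [inf_iSup_eq]
          refine iSup_mono fun k' => ?_
          rw [inf_iSup_eq]
          exact iSup_mono fun _ => mem_congr_right z s (y k')
      _ ≤ ⊥ := by rw [inf_compl_eq_bot]

/-- The value of: `z` is equal to all elements of `x` it meets. -/
def ZFC4d (x z : BSet B) : B :=
  ⨅ s, (mem s x ⊓ ⨆ v, mem v z ⊓ mem v s)ᶜ ⊔ eqv z s

theorem ZFC4_ext_inter (z : BSet B) : Extl (fun v : BSet B => mem v z ⊓ mem v z) := by
  intro v w
  exact le_inf ((inf_le_inf_left _ inf_le_left).trans (mem_congr_left v w z))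
    ((inf_le_inf_left _ inf_le_left).trans (mem_congr_left v w z))

theorem ZFC4_ext2 (z s : BSet B) : Extl (fun v : BSet B => mem v z ⊓ mem v s) := by
  intro v w
  exact le_inf ((inf_le_inf_left _ inf_le_left).trans (mem_congr_left v w z))
    ((inf_le_inf_left _ inf_le_right).trans (mem_congr_left v w s))

theorem ZFC4_ext3 (x z : BSet B) : Extl (fun s : BSet B =>
    (mem s x ⊓ ⨆ v, mem v z ⊓ mem v s) ⊓ (eqv z s)ᶜ) := by
  intro s t
  refine le_inf (le_inf ?_ ?_) ?_
  · exact (inf_le_inf_left _ (inf_le_left.trans inf_le_left)).trans (mem_congr_left s t x)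
  · refine (inf_le_inf_left _ (inf_le_left.trans inf_le_right)).trans ?_
    rw [inf_iSup_eq]
    refine iSup_mono fun v => le_inf (inf_le_right.trans inf_le_left) ?_
    exact (inf_le_inf_left _ inf_le_right).trans (mem_congr_right s t v)
  · rw [le_compl_iff_disjoint_right, disjoint_iff, eq_bot_iff]
    calc eqv s t ⊓ ((mem s x ⊓ ⨆ v, mem v z ⊓ mem v s) ⊓ (eqv z s)ᶜ) ⊓ eqv z t
        ≤ (eqv z t ⊓ eqv t s) ⊓ (eqv z s)ᶜ := by
          refine le_inf (le_inf inf_le_right ?_) ?_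
          · rw [eqv_symm t s]; exact inf_le_left.trans inf_le_left
          · exact (inf_le_left.trans inf_le_right).trans inf_le_right
      _ ≤ eqv z s ⊓ (eqv z s)ᶜ := inf_le_inf_right _ (eqv_trans z t s)
      _ ≤ ⊥ := by rw [inf_compl_eq_bot]

theorem ZFC4_full {U : Uf B} (hF : ClaimFull) (φ : BSet B → B) (hφ : Extl φ)
    (h : ⨆ y, φ y ∈ U.s) : ∃ y, φ y ∈ U.s := by
  obtain ⟨y, hy⟩ := hF B φ hφ
  exact ⟨y, U.up _ _ hy h⟩

theorem ZFC4_d_mem {U : Uf B} (hF : ClaimFull) (x z : BSet B) (hz : mem z x ∈ U.s)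
    (h : ∀ y z, EU U y (cls U x) → EU U z (cls U x) → y ≠ z → ¬ ∃ w, EU U w y ∧ EU U w z) :
    ZFC4d x z ∈ U.s := by
  rcases U.ultra (ZFC4d x z) with h1 | h1
  · exact h1
  · exfalso
    have h2 : (ZFC4d x z)ᶜ ≤ ⨆ s, (mem s x ⊓ ⨆ v, mem v z ⊓ mem v s) ⊓ (eqv z s)ᶜ := by
      unfold ZFC4d
      rw [compl_iInf]
      refine iSup_mono fun s => ?_
      rw [compl_sup, compl_compl]
    obtain ⟨s, hs⟩ := ZFC4_full hF _ (ZFC4_ext3 x z) (U.up _ _ h2 h1)
    have h3 : mem s x ∈ U.s := U.up _ _ (inf_le_left.trans inf_le_left) hs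
    have h4 : (eqv z s)ᶜ ∈ U.s := U.up _ _ inf_le_right hs
    have h5 : (⨆ v, mem v z ⊓ mem v s) ∈ U.s := U.up _ _ (inf_le_left.trans inf_le_right) hs
    obtain ⟨v, hv⟩ := ZFC4_full hF _ (ZFC4_ext2 z s) h5
    have hv1 : mem v z ∈ U.s := U.up _ _ inf_le_left hv
    have hv2 : mem v s ∈ U.s := U.up _ _ inf_le_right hv
    refine h (cls U z) (cls U s) hz h3 ?_ ⟨cls U v, hv1, hv2⟩
    intro h6
    rw [cls_eq] at h6
    have h7 := U.inf_mem _ _ h6 h4
    rw [inf_compl_eq_bot] at h7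
    exact U.bot_mem h7

/-- The choice set. -/
def ZFC4c {I : Type} (A : I → BSet B) (b : I → B)
    (r : (Σ i, ZFC4idx (A i)) → (Σ i, ZFC4idx (A i)) → Prop) : BSet B :=
  .mk (Σ i, ZFC4idx (A i)) (fun k => ZFC4fam (A k.1) k.2)
    (fun k => ⨆ u, b u ⊓ ZFC4L r (fun k => mem (ZFC4fam (A k.1) k.2) (A u)) k)

theorem ZFC4_ex {I : Type} (A : I → BSet B) (b : I → B)
    (r : (Σ i, ZFC4idx (A i)) → (Σ i, ZFC4idx (A i)) → Prop) (hr : WellFounded r)
    (z w : BSet B) : mem z (.mk I A b) ⊓ mem w z ≤ ⨆ v, mem v z ⊓ mem v (ZFC4c A b r) := by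
  rw [mem_mk, iSup_inf_eq]
  refine iSup_le fun u => ?_
  have h1 : mem w (A u) ≤ ⨆ k, ZFC4L r (fun k => mem (ZFC4fam (A k.1) k.2) (A u)) k := by
    refine (ZFC4_mem_le w (A u)).trans (iSup_le fun j => ?_)
    exact ZFC4_least r hr (fun k => mem (ZFC4fam (A k.1) k.2) (A u)) ⟨u, j⟩
  calc b u ⊓ eqv z (A u) ⊓ mem w z
      ≤ b u ⊓ eqv z (A u) ⊓ ⨆ k, ZFC4L r (fun k => mem (ZFC4fam (A k.1) k.2) (A u)) k := by
        refine le_inf inf_le_left ?_
        refine le_trans ?_ h1
        refine le_trans ?_ (mem_congr_right z (A u) w)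
        exact inf_le_inf_right _ inf_le_right
    _ ≤ _ := by
        rw [inf_iSup_eq]
        refine iSup_le fun k => le_iSup_of_le (ZFC4fam (A k.1) k.2) (le_inf ?_ ?_)
        · refine le_trans ?_ (mem_congr_right (A u) z _)
          rw [eqv_symm (A u) z]
          exact inf_le_inf inf_le_right (ZFC4L_le _ _ _)
        · refine le_trans ?_ (mem_fam (fun k : Σ i, ZFC4idx (A i) => ZFC4fam (A k.1) k.2) _ k)
          refine le_trans ?_ (le_iSup _ u)
          exact inf_le_inf_right _ inf_le_left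

theorem ZFC4_un1 {I : Type} (A : I → BSet B) (b : I → B)
    (r : (Σ i, ZFC4idx (A i)) → (Σ i, ZFC4idx (A i)) → Prop) (z w : BSet B) :
    mem w z ⊓ mem w (ZFC4c A b r) ⊓ ZFC4d (.mk I A b) z ≤
      ⨆ k : Σ i, ZFC4idx (A i), eqv w (ZFC4fam (A k.1) k.2) ⊓
        ZFC4L r (fun k => mem (ZFC4fam (A k.1) k.2) z) k := by
  unfold ZFC4c
  rw [mem_mk, inf_iSup_eq, iSup_inf_eq]
  refine iSup_mono fun k => ?_
  rw [iSup_inf_eq, inf_iSup_eq, iSup_inf_eq]
  refine iSup_le fun u => ?_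
  set y : BSet B := ZFC4fam (A k.1) k.2
  set T := mem w z ⊓ (b u ⊓ ZFC4L r (fun k => mem (ZFC4fam (A k.1) k.2) (A u)) k ⊓ eqv w y) ⊓
    ZFC4d (.mk I A b) z with hT
  have e1 : T ≤ mem w z := inf_le_left.trans inf_le_left
  have e2 : T ≤ b u := inf_le_left.trans (inf_le_right.trans (inf_le_left.trans inf_le_left))
  have e3 : T ≤ ZFC4L r (fun k => mem (ZFC4fam (A k.1) k.2) (A u)) k :=
    inf_le_left.trans (inf_le_right.trans (inf_le_left.trans inf_le_right))
  have e4 : T ≤ eqv w y := inf_le_left.trans (inf_le_right.trans inf_le_right)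
  have e5 : T ≤ ZFC4d (.mk I A b) z := inf_le_right
  have e6 : T ≤ mem y z := (le_inf e4 e1).trans (mem_congr_left w y z)
  have e7 : T ≤ mem y (A u) := e3.trans (ZFC4L_le _ _ _)
  have e8 : T ≤ mem (A u) (.mk I A b) := e2.trans (mem_fam A b u)
  have e9 : T ≤ mem (A u) (.mk I A b) ⊓ ⨆ v, mem v z ⊓ mem v (A u) :=
    le_inf e8 (le_iSup_of_le y (le_inf e6 e7))
  have e10 : T ≤ eqv z (A u) := by
    have : T ≤ (mem (A u) (.mk I A b) ⊓ ⨆ v, mem v z ⊓ mem v (A u)) ⊓
        ((mem (A u) (.mk I A b) ⊓ ⨆ v, mem v z ⊓ mem v (A u))ᶜ ⊔ eqv z (A u)) :=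
      le_inf e9 (e5.trans (iInf_le _ (A u)))
    refine this.trans ?_
    rw [inf_sup_left, inf_compl_eq_bot, bot_sup_eq]
    exact inf_le_right
  exact le_inf e4 ((le_inf e10 e3).trans
    (ZFC4_tr r (fun k : Σ i, ZFC4idx (A i) => ZFC4fam (A k.1) k.2) (A u) z k))

theorem ZFC4_un2 {K : Type} (r : K → K → Prop) (ht : ∀ k k', k ≠ k' → r k k' ∨ r k' k)
    (y : K → BSet B) (g : K → B) (w w' : BSet B) :
    (⨆ k, eqv w (y k) ⊓ ZFC4L r g k) ⊓ (⨆ k, eqv w' (y k) ⊓ ZFC4L r g k) ≤ eqv w w' := by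
  rw [iSup_inf_eq]
  refine iSup_le fun k => ?_
  rw [inf_iSup_eq]
  refine iSup_le fun k' => ?_
  by_cases h : k = k'
  · subst h
    refine le_trans ?_ (eqv_trans w (y k) w')
    rw [eqv_symm (y k) w']
    exact inf_le_inf inf_le_left inf_le_left
  · refine le_trans ?_ bot_le
    rw [← ZFC4_disj r ht g h]
    exact inf_le_inf inf_le_right inf_le_right

theorem claimZ4 (hF : ClaimFull) : ClaimZ4 := by
  intro B _ U x h1 h2
  obtain ⟨xn, rfl⟩ := cls_surj U x
  cases xn with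
  | mk I A b =>
    set r : (Σ i, ZFC4idx (A i)) → (Σ i, ZFC4idx (A i)) → Prop := WellOrderingRel with hr
    have hwf : WellFounded r := (WellOrderingRel.isWellOrder (α := Σ i, ZFC4idx (A i))).wf
    have ht : ∀ k k' : Σ i, ZFC4idx (A i), k ≠ k' → r k k' ∨ r k' k := by
      intro k k' h
      rcases trichotomous_of (WellOrderingRel (α := Σ i, ZFC4idx (A i))) k k' with h1 | h1 | h1
      · exact Or.inl h1
      · exact absurd h1 h
      · exact Or.inr h1
    refine ⟨cls U (ZFC4c A b r), fun y hy => ?_⟩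
    obtain ⟨z, rfl⟩ := cls_surj U y
    have hz : mem z (.mk I A b) ∈ U.s := hy
    obtain ⟨w, hw⟩ := h1 _ hy
    obtain ⟨w, rfl⟩ := cls_surj U w
    have hw : mem w z ∈ U.s := hw
    have hex := U.up _ _ (ZFC4_ex A b r hwf z w) (U.inf_mem _ _ hz hw)
    obtain ⟨v, hv⟩ := ZFC4_full hF _ (ZFC4_ext2 z (ZFC4c A b r)) hex
    have hd := ZFC4_d_mem hF (.mk I A b) z hz h2
    have key : ∀ v' : BSet B, mem v' z ∈ U.s → mem v' (ZFC4c A b r) ∈ U.s →
        (⨆ k : Σ i, ZFC4idx (A i), eqv v' (ZFC4fam (A k.1) k.2) ⊓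
          ZFC4L r (fun k => mem (ZFC4fam (A k.1) k.2) z) k) ∈ U.s := by
      intro v' h3 h4
      exact U.up _ _ (ZFC4_un1 A b r z v') (U.inf_mem _ _ (U.inf_mem _ _ h3 h4) hd)
    have hv1 : mem v z ∈ U.s := U.up _ _ inf_le_left hv
    have hv2 : mem v (ZFC4c A b r) ∈ U.s := U.up _ _ inf_le_right hv
    refine ⟨cls U v, ⟨hv1, hv2⟩, ?_⟩
    rintro v' ⟨h3, h4⟩
    obtain ⟨v', rfl⟩ := cls_surj U v'
    rw [cls_eq]
    exact U.up _ _ (ZFC4_un2 r ht _ _ v' v) (U.inf_mem _ _ (key v' h3 h4) (key v hv1 hv2))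

end ZFC4

end Pool.Agent.Work.MP_dbe197_lc

end
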